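import Pool.Agent.K9h29.ZD.QCoef

set_option autoImplicit false

/-!
# The ray integral, primal range, averaged over the fractions `j / q` (K9h29, from `Y412.GL.RYP`)
-/

namespace Pool.Agent.K9h29.ZD

open Complex Finset MeasureTheory
open scoped ComplexConjugate
open Pool.Agent.Y671.GL Pool.Agent.Y412.GLB Pool.Agent.Y412.GLP
open Pool.Agent.H24R2.DZ (ray)

variable {k N : ℕ} {ps lam : ℕ → ℂ}

/-- unfolding of an average over the fractions `j / q` -/
theorem avg_unfold {E : Type*} [NormedAddCommGroup E] [NormedSpace ℝ E] [CompleteSpace E] (h : ℝ → E)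
    (hh : Continuous h) (q : ℕ) (hq : 1 ≤ q) :
    ∫ u in (0 : ℝ)..(2 * Real.pi), (1 / (q : ℝ)) • ∑ j ∈ Finset.range q, h (2 * Real.pi * j / q + u / q) =
      ∫ w in (0 : ℝ)..(2 * Real.pi), h w := by
  have hq0 : (q : ℝ) ≠ 0 := by exact_mod_cast (by omega : q ≠ 0)
  rw [intervalIntegral.integral_smul, intervalIntegral.integral_finsetSum (fun j _ => by
    apply Continuous.intervalIntegrable
    exact hh.comp (by fun_prop))]
  have h1 : ∀ j ∈ Finset.range q, ∫ u in (0 : ℝ)..(2 * Real.pi), h (2 * Real.pi * j / q + u / q) =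
      (q : ℝ) • ∫ w in (2 * Real.pi * ((j : ℕ) : ℝ) / q)..(2 * Real.pi * ((j + 1 : ℕ) : ℝ) / q), h w := by
    intro j _
    rw [intervalIntegral.integral_comp_add_div h hq0]
    congr 2
    · ring
    · push_cast; ring
  rw [Finset.sum_congr rfl h1, ← Finset.smul_sum, smul_smul, one_div, inv_mul_cancel₀ hq0, one_smul]
  have h2 := intervalIntegral.sum_integral_adjacent_intervals (μ := volume) (f := h)
    (a := fun j : ℕ => 2 * Real.pi * (j : ℝ) / q) (n := q) (fun j _ => hh.intervalIntegrable _ _)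
  rw [h2]
  congr 1
  · simp
  · field_simp

/-- averages over the fractions `j / q` of a periodic function, on an interval -/
theorem shift_avg (h3 : S_FJ1) : ∃ C : ℝ, 0 < C ∧ ∀ (G : ℝ → ℝ), Continuous G → (∀ u, 0 ≤ G u) →
    Function.Periodic G (2 * Real.pi) → ∀ q : ℕ, 1 ≤ q →
    (∀ X : ℝ, 1 ≤ q * X → ∫ u in (X / 4)..(4 * X), (1 / (q : ℝ)) * ∑ j ∈ Finset.range q,
        G (u + 2 * Real.pi * j / q) ≤ C * X * ∫ u in (0 : ℝ)..(2 * Real.pi), G u) ∧
    (∀ (X m : ℝ) (R : ℕ), 0 < X → 0 ≤ m → 1 ≤ R → 1 ≤ q * X * R →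
      (∀ r : ℤ, r ≠ 0 → |r| < R →
        ‖∫ u in (0 : ℝ)..(2 * Real.pi), (G u : ℂ) * cexp (I * ((q * r : ℤ) : ℂ) * u)‖ ≤ m) →
      ∫ u in (X / 4)..(4 * X), (1 / (q : ℝ)) * ∑ j ∈ Finset.range q,
        G (u + 2 * Real.pi * j / q) ≤ C * X * ((∫ u in (0 : ℝ)..(2 * Real.pi), G u) + R * m)) := by
  obtain ⟨C, hC, hJ⟩ := h3
  refine ⟨C, hC, fun G hG hnn hper q hq => ?_⟩
  have hq0 : (0 : ℝ) < q := by exact_mod_cast hq
  have hqc : (q : ℂ) ≠ 0 := by exact_mod_cast hq0.ne'
  obtain ⟨f, hf⟩ : ∃ f : ℝ → ℝ, f = fun u => (1 / (q : ℝ)) * ∑ j ∈ Finset.range q,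
    G (2 * Real.pi * j / q + u / q) := ⟨_, rfl⟩
  have hfc : Continuous f := by
    rw [hf]
    refine continuous_const.mul (continuous_finsetSum _ fun j _ => hG.comp (by fun_prop))
  have hfn : ∀ u, 0 ≤ f u := by
    intro u
    rw [hf]
    exact mul_nonneg (by positivity) (Finset.sum_nonneg fun j _ => hnn _)
  have hfp : Function.Periodic f (2 * Real.pi) := by
    intro u
    rw [hf]
    simp only
    congr 1
    have e1 : ∀ j ∈ Finset.range q, G (2 * Real.pi * j / q + (u + 2 * Real.pi) / q) =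
        (fun i : ℕ => G (2 * Real.pi * i / q + u / q)) (j + 1) := by
      intro j _
      simp only
      congr 1
      push_cast
      ring
    rw [Finset.sum_congr rfl e1]
    have e2 := Finset.sum_range_succ' (fun i : ℕ => G (2 * Real.pi * i / q + u / q)) q
    have e3 := Finset.sum_range_succ (fun i : ℕ => G (2 * Real.pi * i / q + u / q)) q
    have e4 : G (2 * Real.pi * (q : ℕ) / q + u / q) = G (2 * Real.pi * (0 : ℕ) / q + u / q) := by
      have : (2 * Real.pi * (q : ℕ) / q + u / q : ℝ) = (2 * Real.pi * (0 : ℕ) / q + u / q) + 2 * Real.pi := by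
        push_cast
        field_simp
        ring
      rw [this, hper]
    rw [e4] at e3
    linarith
  have hI : ∫ u in (0 : ℝ)..(2 * Real.pi), f u = ∫ u in (0 : ℝ)..(2 * Real.pi), G u := by
    have := avg_unfold G hG q hq
    rw [hf]
    simpa only [smul_eq_mul] using this
  have hFo : ∀ r : ℤ, ∫ u in (0 : ℝ)..(2 * Real.pi), (f u : ℂ) * cexp (I * r * u) =
      ∫ u in (0 : ℝ)..(2 * Real.pi), (G u : ℂ) * cexp (I * ((q * r : ℤ) : ℂ) * u) := by
    intro r
    have h1 := avg_unfold (fun w : ℝ => (G w : ℂ) * cexp (I * ((q * r : ℤ) : ℂ) * w))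
      ((Complex.continuous_ofReal.comp hG).mul (by fun_prop)) q hq
    rw [← h1]
    refine intervalIntegral.integral_congr fun u _ => ?_
    rw [hf]
    simp only
    rw [Complex.real_smul, Complex.ofReal_mul, Complex.ofReal_sum, mul_assoc, Finset.sum_mul]
    congr 1
    refine Finset.sum_congr rfl fun j _ => ?_
    congr 1
    have e : I * ((q * r : ℤ) : ℂ) * ((2 * Real.pi * j / q + u / q : ℝ) : ℂ) =
        I * r * u + ((r * j : ℤ) : ℂ) * (2 * Real.pi * I) := by
      push_cast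
      field_simp
      ring
    rw [e, Complex.exp_add, Complex.exp_int_mul_two_pi_mul_I, mul_one]
  have hscale : ∀ X : ℝ, ∫ u in (X / 4)..(4 * X), (1 / (q : ℝ)) * ∑ j ∈ Finset.range q,
        G (u + 2 * Real.pi * j / q) = (1 / (q : ℝ)) * ∫ u in (q * X / 4)..(4 * (q * X)), f u := by
    intro X
    have h1 := intervalIntegral.integral_comp_mul_left (a := X / 4) (b := 4 * X) f hq0.ne'
    have e1 : (q : ℝ) * (X / 4) = q * X / 4 := by ring
    have e2 : (q : ℝ) * (4 * X) = 4 * (q * X) := by ring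
    rw [e1, e2, smul_eq_mul] at h1
    rw [one_div, ← h1]
    refine intervalIntegral.integral_congr fun u _ => ?_
    rw [hf]
    simp only
    rw [one_div]
    congr 1
    refine Finset.sum_congr rfl fun j _ => ?_
    congr 1
    field_simp
    ring
  obtain ⟨hJ1, hJ2⟩ := hJ f hfc hfn hfp
  constructor
  · intro X hX
    rw [hscale, ← hI]
    have h1 := hJ1 (q * X) hX
    calc (1 / (q : ℝ)) * ∫ u in (q * X / 4)..(4 * (q * X)), f u ≤
        (1 / (q : ℝ)) * (C * (q * X) * ∫ u in (0 : ℝ)..(2 * Real.pi), f u) :=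
          mul_le_mul_of_nonneg_left h1 (by positivity)
      _ = _ := by field_simp
  · intro X m R hX hm hR hXR hr
    rw [hscale, ← hI]
    have h1 := hJ2 (q * X) m R (by positivity) hm hR hXR (fun r hr0 hrR => by
      rw [hFo]
      exact hr r hr0 hrR)
    calc (1 / (q : ℝ)) * ∫ u in (q * X / 4)..(4 * (q * X)), f u ≤
        (1 / (q : ℝ)) * (C * (q * X) * ((∫ u in (0 : ℝ)..(2 * Real.pi), f u) + R * m)) :=
          mul_le_mul_of_nonneg_left h1 (by positivity)
      _ = _ := by field_simp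

/-- continuity of the inner integral -/
theorem par_cont (g : ℂ → ℂ) (hg : ∀ z : ℂ, 0 < z.re → ContinuousAt g z) {v0 : ℝ} (hv0 : 0 < v0) (a b : ℝ) :
    ∃ Φ : ℝ → ℝ, Continuous Φ ∧ ∀ v : ℝ, v0 ≤ v → Φ v = ∫ u in a..b, ‖g (v + u * I)‖ ^ 2 := by
  refine ⟨fun v => ∫ u in a..b, ‖g ((max v v0 : ℝ) + u * I)‖ ^ 2, ?_, fun v hv => ?_⟩
  · apply intervalIntegral.continuous_parametric_intervalIntegral_of_continuous (s := fun _ => b)
    · refine (Continuous.norm ?_).pow 2
      rw [continuous_iff_continuousAt]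
      rintro ⟨v, u⟩
      have h1 : 0 < (((max v v0 : ℝ) : ℂ) + (u : ℂ) * I).re := by
        simp only [Complex.add_re, Complex.ofReal_re, Complex.mul_re, Complex.I_re, mul_zero,
          Complex.ofReal_im, Complex.I_im, mul_one, sub_self, add_zero]
        exact lt_of_lt_of_le hv0 (le_max_right _ _)
      refine ContinuousAt.comp (f := fun p : ℝ × ℝ => (((max p.1 v0 : ℝ) : ℂ) + (p.2 : ℂ) * I)) (hg _ h1) ?_
      apply Continuous.continuousAt
      exact (Complex.continuous_ofReal.comp (continuous_fst.max continuous_const)).add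
        ((Complex.continuous_ofReal.comp continuous_snd).mul continuous_const)
    · exact continuous_const
  · simp only
    rw [max_eq_left hv]

/-- the shifted points -/
theorem shift_re (v u : ℝ) (q j : ℕ) : (v + u * I + 2 * Real.pi * I * j / q : ℂ) =
    v + ((u + 2 * Real.pi * j / q : ℝ) : ℂ) * I := by
  push_cast; ring

theorem re_shift (z : ℂ) (q j : ℕ) : (z + 2 * Real.pi * I * j / q : ℂ).re = z.re := by
  have : (2 * Real.pi * I * j / q : ℂ) = ((2 * Real.pi * j / q : ℝ) : ℂ) * I := by push_cast; ring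
  rw [this, Complex.add_re, Complex.re_ofReal_mul, Complex.I_re, mul_zero, add_zero]

/-- one dyadic block -/
theorem blockq (h0 : S_SCU) (h2 : S_RTA) (h3 : S_FJ1) (hF : Frm k N ps lam) :
    ∃ c C A : ℝ, 0 < c ∧ c ≤ 1 / 2 ∧ 0 < C ∧ 1 ≤ A ∧ ∀ (q : ℕ) (T X : ℝ) (y : ℕ) (b : ℕ → ℂ), 1 ≤ q → 10 ≤ T →
    0 < X → 1 ≤ y → (∀ h, y < h → b h = 0) →
    ∑ j ∈ Finset.range q, ∫ x in X..(2 * X), ‖GF k y lam b (ray (1 / T) x + 2 * Real.pi * I * j / q)‖ ^ 2 ≤
      C * q * X * ((∑' n : ℕ, ‖pc k lam b n‖ ^ 2 * Real.exp (-(n * X / (2 * T)))) +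
        if q * X < 1 then 1 / (q * X) * (y : ℝ) ^ A * (T / X) ^ ((k : ℝ) - c) *
          ∑ h ∈ Finset.Icc 1 y, ‖b h‖ ^ 2 else 0) := by
  obtain ⟨C2, hC2, hR⟩ := h2
  obtain ⟨C3, hC3, hJ⟩ := shift_avg h3
  obtain ⟨c, C4, A, hc, hc2, hC4, hA, hG⟩ := GF_coefU h0 hF
  have hk : (1 : ℝ) ≤ k := by exact_mod_cast hF.k_pos
  refine ⟨c, 4 * C2 * C3 * (2 * Real.pi + C4 * (2 * 4 ^ (k : ℝ))), A, hc, hc2,
    by positivity, hA, ?_⟩
  intro q T X y b hq hT hX hy hb
  have hq0 : (0 : ℝ) < q := by exact_mod_cast hq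
  have hy' : (1 : ℝ) ≤ y := by exact_mod_cast hy
  have hT0 : 0 < T := by linarith
  set δ : ℝ := 1 / T with hδ
  have hδ0 : 0 < δ := by positivity
  have hδ1 : δ ≤ 1 / 10 := by
    rw [hδ]
    exact one_div_le_one_div_of_le (by norm_num) hT
  set S2 : ℝ := ∑ h ∈ Finset.Icc 1 y, ‖b h‖ ^ 2 with hS2
  have hS20 : 0 ≤ S2 := Finset.sum_nonneg fun h _ => by positivity
  set M : ℝ := ∑' n : ℕ, ‖pc k lam b n‖ ^ 2 * Real.exp (-(n * X / (2 * T))) with hM
  have hM0 : 0 ≤ M := tsum_nonneg fun n => by positivity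
  set Er : ℝ := if q * X < 1 then 1 / (q * X) * (y : ℝ) ^ A * (T / X) ^ ((k : ℝ) - c) * S2 else 0 with hEr
  have hEr0 : 0 ≤ Er := by rw [hEr]; split_ifs <;> positivity
  -- the functions
  set g : ℕ → ℂ → ℂ := fun j z => GF k y lam b (z + 2 * Real.pi * I * j / q) with hg
  have hgd : ∀ (j : ℕ) (z : ℂ), 0 < z.re → DifferentiableAt ℂ (g j) z := by
    intro j z hz
    have h1 : 0 < (z + 2 * Real.pi * I * j / q : ℂ).re := by rw [re_shift]; exact hz
    have h2 : DifferentiableAt ℂ (fun z : ℂ => z + 2 * Real.pi * I * j / q) z := by fun_prop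
    exact DifferentiableAt.comp (f := fun z : ℂ => z + 2 * Real.pi * I * j / q) z (GF_diff hF y b h1) h2
  have hray : ∀ j ∈ Finset.range q, ∫ x in X..(2 * X), ‖g j (ray δ x)‖ ^ 2 ≤
      C2 / (δ * X) * ∫ v in (δ * X / 4)..(4 * δ * X), ∫ u in (X / 4)..(4 * X), ‖g j (v + u * I)‖ ^ 2 :=
    fun j _ => hR (g j) δ X hδ0 hδ1 hX (hgd j)
  refine (Finset.sum_le_sum hray).trans ?_
  -- the mean square over a period
  have hper : ∀ v : ℝ, δ * X / 4 ≤ v → ∫ u in (0 : ℝ)..(2 * Real.pi), ‖GF k y lam b (v + u * I)‖ ^ 2 ≤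
      2 * Real.pi * M := by
    intro v hv
    have hv0 : 0 < v := lt_of_lt_of_le (by positivity) hv
    obtain ⟨hs, he⟩ := GF_parseval hF y b hb hv0
    rw [he]
    apply mul_le_mul_of_nonneg_left _ (by positivity)
    have hs2 := (GF_parseval hF y b hb (v := δ * X / 4) (by positivity)).1
    have e1 : ∀ n : ℕ, ‖pc k lam b n‖ ^ 2 * Real.exp (-(2 * n * (δ * X / 4))) =
        ‖pc k lam b n‖ ^ 2 * Real.exp (-(n * X / (2 * T))) := by
      intro n
      congr 3
      rw [hδ]
      field_simp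
      ring
    simp_rw [e1] at hs2
    refine hs.tsum_le_tsum (fun n => ?_) hs2
    rw [← e1]
    apply mul_le_mul_of_nonneg_left _ (by positivity)
    apply Real.exp_le_exp.2
    have : (0 : ℝ) ≤ n := Nat.cast_nonneg n
    nlinarith
  -- the inner integral
  have hinner : ∀ v : ℝ, δ * X / 4 ≤ v → v ≤ 4 * δ * X →
      ∫ u in (X / 4)..(4 * X), (1 / (q : ℝ)) * ∑ j ∈ Finset.range q, ‖g j (v + u * I)‖ ^ 2 ≤
      C3 * (2 * Real.pi + C4 * (2 * 4 ^ (k : ℝ))) * X * (M + Er) := by
    intro v hv hv2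
    have hv0 : 0 < v := lt_of_lt_of_le (by positivity) hv
    have hperi : Function.Periodic (fun u : ℝ => ‖GF k y lam b (v + u * I)‖ ^ 2) (2 * Real.pi) := by
      intro u
      have hre1 : (v + ((u + 2 * Real.pi : ℝ) : ℂ) * I).re = v := by simp
      have hre2 : (v + (u : ℂ) * I).re = v := by simp
      show ‖GF k y lam b (v + ((u + 2 * Real.pi : ℝ) : ℂ) * I)‖ ^ 2 =
        ‖GF k y lam b (v + (u : ℂ) * I)‖ ^ 2
      rw [GF_series hF y b hb (by rw [hre1]; exact hv0), GF_series hF y b hb (by rw [hre2]; exact hv0)]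
      congr 2
      refine tsum_congr fun n => ?_
      congr 1
      rw [show (-(n * (v + ((u + 2 * Real.pi : ℝ) : ℂ) * I)) : ℂ) =
        -(n * (v + (u : ℂ) * I)) + ((-(n : ℤ) : ℤ) : ℂ) * (2 * Real.pi * I) by push_cast; ring,
        Complex.exp_add, Complex.exp_int_mul_two_pi_mul_I, mul_one]
    have hcont : Continuous (fun u : ℝ => ‖GF k y lam b (v + u * I)‖ ^ 2) :=
      (cont_GF hF y b hv0).norm.pow 2
    obtain ⟨hJ1, hJ2⟩ := hJ (fun u : ℝ => ‖GF k y lam b (v + u * I)‖ ^ 2) hcont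
      (fun u => by positivity) hperi q hq
    have hp := hper v hv
    have hgj : ∀ u : ℝ, ∑ j ∈ Finset.range q, ‖g j (v + u * I)‖ ^ 2 = ∑ j ∈ Finset.range q,
        ‖GF k y lam b (v + ((u + 2 * Real.pi * j / q : ℝ) : ℂ) * I)‖ ^ 2 := by
      intro u
      refine Finset.sum_congr rfl fun j _ => ?_
      rw [hg]
      simp only
      rw [shift_re]
    simp_rw [hgj]
    by_cases hX1 : q * X < 1
    · have hEr' : Er = 1 / (q * X) * (y : ℝ) ^ A * (T / X) ^ ((k : ℝ) - c) * S2 := by rw [hEr, if_pos hX1]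
      set R : ℕ := ⌈1 / (q * X)⌉₊ with hRdef
      have hqX : 0 < q * X := by positivity
      have hX1' : 1 ≤ 1 / (q * X) := by rw [le_div_iff₀ hqX]; linarith
      have hR1 : 1 / (q * X) ≤ R := Nat.le_ceil _
      have hR2 : (R : ℝ) ≤ 2 * (1 / (q * X)) := by
        have : (R : ℝ) < 1 / (q * X) + 1 := Nat.ceil_lt_add_one (by positivity)
        linarith
      have hRge : 1 ≤ R := by
        have : (1 : ℝ) ≤ R := hX1'.trans hR1
        exact_mod_cast this
      have hXR : 1 ≤ q * X * R := by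
        have := mul_le_mul_of_nonneg_left hR1 hqX.le
        rwa [mul_one_div_cancel hqX.ne'] at this
      set m : ℝ := C4 * (y : ℝ) ^ A * (δ * X / 4) ^ (c - k) * S2 with hm
      have hm0 : 0 ≤ m := by positivity
      have hq1 : (1 : ℝ) ≤ q := by exact_mod_cast hq
      have hXlt : X < 1 := by nlinarith
      have hv1 : v ≤ 1 := by nlinarith
      have hvX : v ≤ X / 2 := by nlinarith
      have hb2 := hJ2 X m R hX hm0 hRge hXR (by
        intro r hr hrR
        have hqr : (q * r : ℤ) ≠ 0 := mul_ne_zero (by exact_mod_cast (by omega : q ≠ 0)) hr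
        have hqrv : |((q * r : ℤ) : ℝ)| ≤ v ^ (-2 : ℝ) := by
          have e1 : |((q * r : ℤ) : ℝ)| = q * |(r : ℝ)| := by
            push_cast
            rw [abs_mul, abs_of_pos hq0]
          have e2 : |(r : ℝ)| ≤ R := by
            have : ((|r| : ℤ) : ℝ) ≤ R := by exact_mod_cast hrR.le
            rwa [Int.cast_abs] at this
          rw [e1]
          calc (q : ℝ) * |(r : ℝ)| ≤ q * (2 * (1 / (q * X))) :=
                mul_le_mul_of_nonneg_left (e2.trans hR2) hq0.le
            _ = 2 / X := by field_simp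
            _ ≤ 1 / v := by
                rw [div_le_div_iff₀ hX hv0]; linarith
            _ ≤ v ^ (-2 : ℝ) := by
                have : v ^ (-2 : ℝ) = 1 / v * (1 / v) := by
                  rw [show (-2 : ℝ) = (-1) + (-1) by norm_num, Real.rpow_add hv0, Real.rpow_neg_one, one_div]
                rw [this]
                have h1 : 1 ≤ 1 / v := by rw [le_div_iff₀ hv0]; linarith
                nlinarith
        refine (hG y b v (q * r) hy hv0 hv1 hqr hqrv).trans ?_
        rw [hm]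
        apply mul_le_mul_of_nonneg_right _ hS20
        apply mul_le_mul_of_nonneg_left _ (by positivity)
        exact Real.rpow_le_rpow_of_nonpos (by positivity) hv (by linarith))
      refine hb2.trans ?_
      -- R * m
      have hRm : (R : ℝ) * m ≤ C4 * (2 * 4 ^ (k : ℝ)) * Er := by
        rw [hm, hEr']
        have f3 : (δ * X / 4) ^ (c - k) ≤ 4 ^ (k : ℝ) * (T / X) ^ ((k : ℝ) - c) := by
          have g1 : δ * X / 4 = (4 * (T / X))⁻¹ := by
            rw [hδ]; field_simp
          rw [g1, Real.inv_rpow (by positivity), ← Real.rpow_neg (by positivity), neg_sub,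
            Real.mul_rpow (by positivity) (by positivity)]
          have g2 : (4 : ℝ) ^ ((k : ℝ) - c) ≤ 4 ^ (k : ℝ) :=
            Real.rpow_le_rpow_of_exponent_le (by norm_num) (by linarith)
          gcongr
        calc (R : ℝ) * (C4 * (y : ℝ) ^ A * (δ * X / 4) ^ (c - k) * S2)
            ≤ (2 * (1 / (q * X))) * (C4 * (y : ℝ) ^ A *
              (4 ^ (k : ℝ) * (T / X) ^ ((k : ℝ) - c)) * S2) := by gcongr
          _ = _ := by ring
      calc C3 * X * ((∫ u in (0 : ℝ)..(2 * Real.pi), ‖GF k y lam b (v + u * I)‖ ^ 2) + R * m)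
          ≤ C3 * X * (2 * Real.pi * M + C4 * (2 * 4 ^ (k : ℝ)) * Er) := by
            apply mul_le_mul_of_nonneg_left _ (by positivity)
            exact add_le_add hp hRm
        _ ≤ C3 * X * ((2 * Real.pi + C4 * (2 * 4 ^ (k : ℝ))) * (M + Er)) := by
            apply mul_le_mul_of_nonneg_left _ (by positivity)
            have p1 : 0 ≤ 2 * Real.pi * Er := by positivity
            have p2 : 0 ≤ C4 * (2 * 4 ^ (k : ℝ)) * M := by positivity
            linarith
        _ = _ := by ring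
    · have hX1' : 1 ≤ q * X := not_lt.1 hX1
      refine (hJ1 X hX1').trans ?_
      calc C3 * X * ∫ u in (0 : ℝ)..(2 * Real.pi), ‖GF k y lam b (v + u * I)‖ ^ 2
          ≤ C3 * X * (2 * Real.pi * M) := mul_le_mul_of_nonneg_left hp (by positivity)
        _ ≤ C3 * X * ((2 * Real.pi + C4 * (2 * 4 ^ (k : ℝ))) * (M + Er)) := by
            apply mul_le_mul_of_nonneg_left _ (by positivity)
            have p1 : 0 ≤ 2 * Real.pi * Er := by positivity
            have p2 : 0 ≤ C4 * (2 * 4 ^ (k : ℝ)) * M := by positivity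
            have p3 : 0 ≤ C4 * (2 * 4 ^ (k : ℝ)) * Er := by positivity
            linarith
        _ = _ := by ring
  -- the outer integral
  set Bd : ℝ := C3 * (2 * Real.pi + C4 * (2 * 4 ^ (k : ℝ))) * X * (M + Er) with hBd
  have hBd0 : 0 ≤ Bd := by positivity
  have hle : δ * X / 4 ≤ 4 * δ * X := by
    have : 0 < δ * X := by positivity
    linarith
  have hv00 : 0 < δ * X / 4 := by positivity
  have hii : ∀ j ∈ Finset.range q, IntervalIntegrable
      (fun v : ℝ => ∫ u in (X / 4)..(4 * X), ‖g j (v + u * I)‖ ^ 2) volume (δ * X / 4) (4 * δ * X) := by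
    intro j _
    obtain ⟨Φ, hΦ, hΦ'⟩ := par_cont (g j) (fun z hz => (hgd j z hz).continuousAt) hv00 (X / 4) (4 * X)
    refine (hΦ.intervalIntegrable (μ := volume) (δ * X / 4) (4 * δ * X)).congr ?_
    intro v hv
    rw [Set.uIoc_of_le hle] at hv
    exact hΦ' v hv.1.le
  rw [← Finset.mul_sum, ← intervalIntegral.integral_finsetSum hii]
  have hcg : ∀ v : ℝ, 0 < v → ∀ j : ℕ, Continuous (fun u : ℝ => ‖g j (v + u * I)‖ ^ 2) := by
    intro v hv j
    have h1 := (cont_GF (b := b) hF y hv).comp (f := fun u : ℝ => u + 2 * Real.pi * j / q) (by fun_prop)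
    refine (Continuous.norm ?_).pow 2
    refine h1.congr fun u => ?_
    simp only [Function.comp]
    rw [hg]
    simp only
    rw [shift_re]
  have houter : ‖∫ v in (δ * X / 4)..(4 * δ * X), ∑ j ∈ Finset.range q, ∫ u in (X / 4)..(4 * X),
      ‖g j (v + u * I)‖ ^ 2‖ ≤ (q * Bd) * |4 * δ * X - δ * X / 4| := by
    apply intervalIntegral.norm_integral_le_of_norm_le_const
    intro v hv
    rw [Set.uIoc_of_le hle] at hv
    have hv0 : 0 < v := hv00.trans hv.1
    rw [Real.norm_of_nonneg]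
    · rw [← intervalIntegral.integral_finsetSum (fun j _ => (hcg v hv0 j).intervalIntegrable _ _)]
      have h1 := hinner v hv.1.le hv.2
      rw [intervalIntegral.integral_const_mul] at h1
      rw [div_mul_eq_mul_div, one_mul, div_le_iff₀ hq0] at h1
      rw [mul_comm (q : ℝ)]
      exact h1
    · refine Finset.sum_nonneg fun j _ => ?_
      apply intervalIntegral.integral_nonneg (by linarith)
      intro u _
      positivity
  have h5 := (Real.le_norm_self _).trans houter
  have h6 : |4 * δ * X - δ * X / 4| ≤ 4 * (δ * X) := by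
    rw [abs_of_nonneg (by linarith)]
    have : 0 < δ * X := by positivity
    linarith
  calc C2 / (δ * X) * ∫ v in (δ * X / 4)..(4 * δ * X), ∑ j ∈ Finset.range q, ∫ u in (X / 4)..(4 * X),
      ‖g j (v + u * I)‖ ^ 2 ≤ C2 / (δ * X) * (q * Bd * (4 * (δ * X))) := by
        apply mul_le_mul_of_nonneg_left _ (by positivity)
        exact h5.trans (mul_le_mul_of_nonneg_left h6 (by positivity))
    _ = 4 * C2 * Bd * q := by field_simp
    _ = _ := by rw [hBd]; ring

end Pool.Agent.K9h29.ZD
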