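import Pool.Agent.K9h29.ZD.QOff
import Pool.Agent.W388.TW.Parts
import Pool.Agent.Y809.GL.JUT

set_option autoImplicit false

/-!
# The twists of a newform
-/

namespace Pool.Agent.K9h29.ZD

open Complex Filter Topology MeasureTheory Set UpperHalfPlane MatrixGroups CongruenceSubgroup
open scoped ComplexConjugate
open Pool.Agent.Y671.GL Pool.Agent.Y771.NF Pool.Agent.Y693.GL
open W388 (FE2)
open Pool.Agent.H82R3.EK (cnt SS PP SS_eq)

variable {N : ℕ} [NeZero N] {k : ℕ} {f : CuspForm (Gamma0 N : Subgroup (GL (Fin 2) ℝ)) (k : ℤ)} {ε : ℝ}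

/-- The L-functions of the twists of a newform. -/
theorem ld_newf (hk : 1 ≤ k) (hf : W388.IsNewf N k f ε) :
    ∃ L : (q : ℕ) → DirichletCharacter ℂ q → ℂ → ℂ, LD k N (psN N) (lm f) L ∧
      ∀ (q : ℕ) (χ : DirichletCharacter ℂ q), 1 ≤ q → q.Coprime N → χ.IsPrimitive → ∀ s : ℂ, 1 < s.re →
        HasProd (fun p : Nat.Primes =>
          (1 - χ ((p : ℕ) : ZMod q) * (W388.lamf f p : ℂ) * ((p : ℕ) : ℂ) ^ (-s) +
            (if (p : ℕ) ∣ N then 0 else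
              χ ((p : ℕ) : ZMod q) ^ 2 * ((p : ℕ) : ℂ) ^ (-2 * s)))⁻¹) (L q χ s) := by
  classical
  have hex : ∀ (q : ℕ) (χ : DirichletCharacter ℂ q), ∃ F : ℂ → ℂ,
      (1 ≤ q → Nat.Coprime q N → χ.IsPrimitive → W388.FE2 k N q F ∧ IsL (lx f χ) F) := by
    intro q χ
    by_cases h : 1 ≤ q ∧ Nat.Coprime q N ∧ χ.IsPrimitive
    · obtain ⟨h1, h2, h3⟩ := h
      haveI : NeZero q := ⟨by omega⟩
      obtain ⟨F, hF⟩ := exists_L hk hf h3 h2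
      exact ⟨F, fun _ _ _ => hF⟩
    · exact ⟨fun _ => 0, fun h1 h2 h3 => absurd ⟨h1, h2, h3⟩ h⟩
  choose L hL using hex
  refine ⟨L, ⟨⟨frm_newf hk hf, fun q _ χ hχ hco => frm_tw hk hf hχ hco⟩, fun q _ χ hχ hco => ?_,
    fun q _ χ hχ hco => ?_⟩, fun q χ hq hco hχ => ?_⟩
  · exact (hL q χ (Nat.one_le_iff_ne_zero.2 (NeZero.ne q)) hco hχ).2
  · exact (hL q χ (Nat.one_le_iff_ne_zero.2 (NeZero.ne q)) hco hχ).1
  · haveI : NeZero q := ⟨by omega⟩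
    have hN : 0 < N := Nat.pos_of_ne_zero (NeZero.ne N)
    have hk' : (1 : ℤ) ≤ (k : ℤ) := by exact_mod_cast hk
    obtain ⟨A1, hA1, d1, d2, d3⟩ := W388.p_dir N hN (W388.lamf f) (W388.heckeSeq_lamf hf)
      (W388.p_rs N k hk' f ε hf)
    exact (d3 q χ (L q χ) (hL q χ hq hco hχ).2.ser).2.2.2.2.2

/-- **Zeros of the twists of a newform by all characters modulo `q`.** -/
theorem newf_off (hk : 1 ≤ k) (hf : W388.IsNewf N k f ε) :
    ∃ L : (q : ℕ) → DirichletCharacter ℂ q → ℂ → ℂ,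
      (∀ (q : ℕ) (χ : DirichletCharacter ℂ q), 1 ≤ q → q.Coprime N → χ.IsPrimitive →
        Differentiable ℂ (L q χ) ∧ (∀ z, analyticOrderAt (L q χ) z ≠ ⊤) ∧
        (∀ W : Set ℂ, Bornology.IsBounded W → {s | s ∈ W ∧ L q χ s = 0}.Finite) ∧ ∀ s : ℂ, 1 < s.re →
        HasProd (fun p : Nat.Primes =>
          (1 - χ ((p : ℕ) : ZMod q) * (W388.lamf f p : ℂ) * ((p : ℕ) : ℂ) ^ (-s) +
            (if (p : ℕ) ∣ N then 0 else
              χ ((p : ℕ) : ZMod q) ^ 2 * ((p : ℕ) : ℂ) ^ (-2 * s)))⁻¹) (L q χ s)) ∧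
      ∃ c C : ℝ, 0 < c ∧ 0 < C ∧ ∀ q : ℕ, 1 ≤ q → q.Coprime N →
        ∀ (T δ : ℝ), 2 ≤ T → 0 ≤ δ →
        SS (fun q χ => (cnt (L q χ) (off δ T) : ℝ)) q ≤ C * (q * T) ^ (1 - c * δ) * Real.log (q * T) := by
  obtain ⟨L, hD, hprod⟩ := ld_newf hk hf
  refine ⟨L, fun q χ hq hco hχ => ?_, ?_⟩
  · haveI : NeZero q := ⟨by omega⟩
    have hd := (hD.isL q χ hχ hco).diff
    refine ⟨hd, fun z => ?_, fun W hW => hD.fin hχ hco hW, hprod q χ hq hco hχ⟩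
    exact H370.Loc.order_ne_top (K := Set.univ) isPreconnected_univ (fun z _ => hd.analyticAt z)
      (Set.mem_univ _) (hD.two_ne hχ hco) (Set.mem_univ z)
  · exact offall (scU Pool.Agent.Y809.GL.jut) hD (fun n => by unfold lm; simp)

end Pool.Agent.K9h29.ZD
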