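import Pool.Agent.K9h29.ZD.QWin
import Pool.Agent.H82R3.EK.Avg
import Pool.Agent.H82R3.EK.Count

set_option autoImplicit false

/-!
# Zeros off the critical line, all primitive characters modulo `q`
-/

namespace Pool.Agent.K9h29.ZD

open Complex Filter Topology MeasureTheory Set
open scoped ComplexConjugate
open Pool.Agent.Y671.GL
open W388 (FE2)
open H370 (mult)
open Pool.Agent.H82R3.EK (cnt cnt_eq_sum)

/-! ### counting -/

/-- finitely many zeros in a bounded set -/
theorem fin_zeros {F : ℂ → ℂ} (hF : Differentiable ℂ F) {z0 : ℂ} (h0 : F z0 ≠ 0) {W : Set ℂ}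
    (hW : Bornology.IsBounded W) : {s : ℂ | s ∈ W ∧ F s = 0}.Finite := by
  have hK : IsCompact (closure W) := hW.isCompact_closure
  by_contra hinf
  have hsub : {s : ℂ | s ∈ W ∧ F s = 0} ⊆ closure W := fun s hs => subset_closure hs.1
  obtain ⟨z₀, _, hz₀⟩ := Set.Infinite.exists_accPt_of_subset_isCompact hinf hK hsub
  have han : AnalyticOnNhd ℂ F Set.univ := fun z _ => hF.analyticAt z
  have hfr : ∃ᶠ z in 𝓝[≠] z₀, F z = 0 := by
    have h1 := accPt_iff_frequently_nhdsNE.mp hz₀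
    exact h1.mono fun z hz => hz.2
  have h2 := han.eqOn_zero_of_preconnected_of_frequently_eq_zero isPreconnected_univ
    (Set.mem_univ z₀) hfr (Set.mem_univ z0)
  exact h0 h2

theorem cnt_fin {F : ℂ → ℂ} {W : Set ℂ} (hfin : {s : ℂ | s ∈ W ∧ F s = 0}.Finite) :
    cnt F W = ∑ s ∈ hfin.toFinset, analyticOrderNatAt F s := by
  unfold cnt
  rw [finsum_mem_eq_finite_toFinset_sum _ hfin]
  rfl

theorem cnt_mono {F : ℂ → ℂ} {A B : Set ℂ} (hAB : A ⊆ B) (hfin : {s : ℂ | s ∈ B ∧ F s = 0}.Finite) :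
    cnt F A ≤ cnt F B := by
  have hfA : {s : ℂ | s ∈ A ∧ F s = 0}.Finite := hfin.subset fun s hs => ⟨hAB hs.1, hs.2⟩
  rw [cnt_fin hfA, cnt_fin hfin]
  apply Finset.sum_le_sum_of_subset
  intro s hs
  rw [Set.Finite.mem_toFinset] at hs ⊢
  exact ⟨hAB hs.1, hs.2⟩

theorem cnt_union {F : ℂ → ℂ} {A B : Set ℂ} (hA : {s : ℂ | s ∈ A ∧ F s = 0}.Finite)
    (hB : {s : ℂ | s ∈ B ∧ F s = 0}.Finite) : cnt F (A ∪ B) ≤ cnt F A + cnt F B := by
  classical
  have hU : {s : ℂ | s ∈ A ∪ B ∧ F s = 0}.Finite := by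
    refine (hA.union hB).subset ?_
    rintro s ⟨h1 | h1, h2⟩
    · exact Or.inl ⟨h1, h2⟩
    · exact Or.inr ⟨h1, h2⟩
  rw [cnt_fin hA, cnt_fin hB, cnt_fin hU]
  have h1 : hU.toFinset ⊆ hA.toFinset ∪ hB.toFinset := by
    intro s hs
    rw [Set.Finite.mem_toFinset] at hs
    rw [Finset.mem_union, Set.Finite.mem_toFinset, Set.Finite.mem_toFinset]
    rcases hs.1 with h | h
    · exact Or.inl ⟨h, hs.2⟩
    · exact Or.inr ⟨h, hs.2⟩
  refine (Finset.sum_le_sum_of_subset h1).trans ?_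
  rw [← Finset.sum_union_inter]
  exact Nat.le_add_right _ _

theorem cnt_image {F G : ℂ → ℂ} {A : Set ℂ} (e : ℂ → ℂ) (he : Function.Injective e)
    (h0 : ∀ s ∈ A, (F (e s) = 0 ↔ G s = 0)) (h1 : ∀ s ∈ A, analyticOrderAt F (e s) = analyticOrderAt G s) :
    cnt F (e '' A) = cnt G A := by
  unfold cnt
  have h : {s : ℂ | s ∈ e '' A ∧ F s = 0} = e '' {s : ℂ | s ∈ A ∧ G s = 0} := by
    ext s
    constructor
    · rintro ⟨⟨t, ht, rfl⟩, h2⟩
      exact ⟨t, ⟨ht, (h0 t ht).1 h2⟩, rfl⟩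
    · rintro ⟨t, ⟨ht, h2⟩, rfl⟩
      exact ⟨⟨t, ht, rfl⟩, (h0 t ht).2 h2⟩
  rw [h, finsum_mem_image he.injOn]
  refine finsum_congr fun s => finsum_congr fun hs => ?_
  unfold mult analyticOrderNatAt
  rw [h1 s hs.1]

/-- the right half of the strip -/
def Rt (σ a b : ℝ) : Set ℂ := {s : ℂ | σ ≤ s.re ∧ s.re ≤ 1 ∧ a ≤ s.im ∧ s.im ≤ b}

/-- the part of the open critical strip at distance at least `δ` from the line and height at most `T` -/
def off (δ T : ℝ) : Set ℂ := {s : ℂ | 0 < s.re ∧ s.re < 1 ∧ δ ≤ |s.re - 1 / 2| ∧ |s.im| ≤ T}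

theorem Rt_bdd (σ a b : ℝ) : Bornology.IsBounded (Rt σ a b) := by
  have : Rt σ a b ⊆ Set.Icc σ 1 ×ℂ Set.Icc a b := fun s hs => ⟨⟨hs.1, hs.2.1⟩, ⟨hs.2.2.1, hs.2.2.2⟩⟩
  exact (isCompact_Icc.reProdIm isCompact_Icc).isBounded.subset this

theorem off_bdd (δ T : ℝ) : Bornology.IsBounded (off δ T) := by
  have : off δ T ⊆ Set.Icc 0 1 ×ℂ Set.Icc (-T) T := fun s hs =>
    ⟨⟨hs.1.le, hs.2.1.le⟩, abs_le.1 hs.2.2.2⟩
  exact (isCompact_Icc.reProdIm isCompact_Icc).isBounded.subset this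

variable {k N : ℕ} {ps lam : ℕ → ℂ} {L : (q : ℕ) → DirichletCharacter ℂ q → ℂ → ℂ}

theorem LD.two_ne (hD : LD k N ps lam L) {q : ℕ} [NeZero q] {χ : DirichletCharacter ℂ q} (hχ : χ.IsPrimitive)
    (hco : q.Coprime N) : L q χ 2 ≠ 0 := by
  obtain ⟨B, c, hB, hc, h⟩ := rgtU hD
  have h1 := (h q χ hχ hco).2 2 (by norm_num)
  intro h2
  rw [h2, norm_zero] at h1
  linarith

theorem LD.fin (hD : LD k N ps lam L) {q : ℕ} [NeZero q] {χ : DirichletCharacter ℂ q} (hχ : χ.IsPrimitive)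
    (hco : q.Coprime N) {W : Set ℂ} (hW : Bornology.IsBounded W) : {s : ℂ | s ∈ W ∧ L q χ s = 0}.Finite :=
  fin_zeros (hD.isL q χ hχ hco).diff (hD.two_ne hχ hco) hW

/-- **All heights from `-T0` to `T`, to the right of the line.** -/
theorem rtq (h0 : S_SCU) (hD : LD k N ps lam L) :
    ∃ c C T0 : ℝ, 0 < c ∧ c ≤ 1 ∧ 0 < C ∧ 10 ≤ T0 ∧ ∀ (q : ℕ) [NeZero q], q.Coprime N →
    ∀ (S : Finset (DirichletCharacter ℂ q)), (∀ χ ∈ S, χ.IsPrimitive) →
    ∀ (T σ : ℝ), T0 ≤ T → 1 / 2 ≤ σ → σ ≤ 1 →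
    ∑ χ ∈ S, (cnt (L q χ) (Rt σ (-T0) T) : ℝ) ≤
      C * (q.totient : ℝ) * T * Real.log (q * T) * Real.exp (-(c * (σ - 1 / 2) * Real.log (q * T))) := by
  obtain ⟨c, C, T0, hc, hc1, hC, hT0, hwin⟩ := winq h0 hD
  refine ⟨c, 4 * C, T0, hc, hc1, by positivity, hT0, ?_⟩
  intro q _ hco S hS
  have hq1 : (1 : ℝ) ≤ q := by exact_mod_cast Nat.pos_of_ne_zero (NeZero.ne q)
  -- a window
  have hw : ∀ (T u v σ : ℝ), ((T0 ≤ T ∧ u = T ∧ v = 2 * T) ∨ (T = T0 ∧ u = -T0 ∧ v = T0)) → 1 / 2 ≤ σ → σ ≤ 1 →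
      ∑ χ ∈ S, (cnt (L q χ) (Rt σ u v) : ℝ) ≤
        C * (q.totient : ℝ) * T * Real.log (q * T) * Real.exp (-(c * (σ - 1 / 2) * Real.log (q * T))) := by
    classical
    intro T u v σ hW hσ1 hσ2
    obtain ⟨Z, hZ⟩ : ∃ Z : DirichletCharacter ℂ q → Finset ℂ, ∀ χ ∈ S,
        (cnt (L q χ) (Rt σ u v) = ∑ ρ ∈ Z χ, analyticOrderNatAt (L q χ) ρ) ∧ ∀ ρ ∈ Z χ, ρ ∈ Rt σ u v := by
      refine ⟨fun χ => if h : {s : ℂ | s ∈ Rt σ u v ∧ L q χ s = 0}.Finite then h.toFinset else ∅, fun χ hχ => ?_⟩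
      have hfin := hD.fin (hS χ hχ) hco (Rt_bdd σ u v)
      simp only [dif_pos hfin]
      refine ⟨cnt_fin hfin, fun ρ hρ => ?_⟩
      rw [Set.Finite.mem_toFinset] at hρ
      exact hρ.1
    have h1 := hwin q hco S hS T u v σ hW hσ1 hσ2 Z (fun χ hχ ρ hρ => by
      obtain ⟨a1, a2, a3, a4⟩ := (hZ χ hχ).2 ρ hρ
      exact ⟨a1, a2, a3, a4⟩)
    refine le_trans (le_of_eq (Finset.sum_congr rfl fun χ hχ => ?_)) h1
    rw [(hZ χ hχ).1]
    push_cast
    rfl
  -- induction
  have hind : ∀ n : ℕ, ∀ T σ : ℝ, T ≤ 2 ^ n * T0 → T0 ≤ T → 1 / 2 ≤ σ → σ ≤ 1 →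
      ∑ χ ∈ S, (cnt (L q χ) (Rt σ (-T0) T) : ℝ) ≤
      4 * C * (q.totient : ℝ) * T * Real.log (q * T) * Real.exp (-(c * (σ - 1 / 2) * Real.log (q * T))) := by
    intro n
    induction n with
    | zero =>
      intro T σ h1 h2 hσ1 hσ2
      have hT : T = T0 := le_antisymm (by simpa using h1) h2
      have h3 := hw T (-T0) T0 σ (Or.inr ⟨hT, rfl, rfl⟩) hσ1 hσ2
      rw [hT] at h3 ⊢
      refine h3.trans ?_
      have hlog : 0 ≤ Real.log (q * T0) := Real.log_nonneg (by nlinarith)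
      have hE := Real.exp_pos (-(c * (σ - 1 / 2) * Real.log (q * T0)))
      have : C ≤ 4 * C := by linarith
      gcongr
    | succ n ih =>
      intro T σ h1 h2 hσ1 hσ2
      have hT10 : 10 ≤ T := hT0.trans h2
      have hTp : 0 < T := by linarith
      have hqT : 10 ≤ q * T := by nlinarith
      have hγ0 : 0 ≤ c * (σ - 1 / 2) := mul_nonneg hc.le (by linarith)
      have hγ1 : c * (σ - 1 / 2) ≤ 1 / 2 := by
        calc c * (σ - 1 / 2) ≤ 1 * (1 / 2) := mul_le_mul hc1 (by linarith) (by linarith) (by norm_num)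
          _ = 1 / 2 := by norm_num
      have hexp : Real.exp (c * (σ - 1 / 2) * Real.log 2) ≤ 3 / 2 := by
        have e1 : c * (σ - 1 / 2) * Real.log 2 ≤ 1 / 2 * Real.log 2 :=
          mul_le_mul_of_nonneg_right hγ1 (Real.log_nonneg (by norm_num))
        have e2 : Real.exp (1 / 2 * Real.log 2) = Real.sqrt 2 := by
          rw [Real.sqrt_eq_rpow, Real.rpow_def_of_pos (by norm_num)]
          congr 1
          ring
        have e3 : Real.sqrt 2 ≤ 3 / 2 := by
          rw [Real.sqrt_le_left (by norm_num)]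
          norm_num
        exact (Real.exp_le_exp.mpr e1).trans (e2.le.trans e3)
      -- the comparison of heights
      have hcomp : ∀ U : ℝ, T0 ≤ U → T ≤ 2 * U → U ≤ T →
          Real.log (q * U) * Real.exp (-(c * (σ - 1 / 2) * Real.log (q * U))) ≤
          Real.log (q * T) * (3 / 2 * Real.exp (-(c * (σ - 1 / 2) * Real.log (q * T)))) := by
        intro U hU1 hU2 hU3
        have hUp : 0 < U := by linarith
        have hqU : 10 ≤ q * U := by nlinarith
        have l1 : Real.log (q * U) ≤ Real.log (q * T) := Real.log_le_log (by linarith) (by nlinarith)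
        have l2 : Real.log (q * T) ≤ Real.log (q * U) + Real.log 2 := by
          rw [← Real.log_mul (by positivity) (by norm_num)]
          apply Real.log_le_log (by linarith)
          nlinarith
        have l0 : 0 ≤ Real.log (q * U) := Real.log_nonneg (by linarith)
        apply mul_le_mul l1 _ (Real.exp_pos _).le (l0.trans l1)
        calc Real.exp (-(c * (σ - 1 / 2) * Real.log (q * U))) ≤
            Real.exp (c * (σ - 1 / 2) * Real.log 2) * Real.exp (-(c * (σ - 1 / 2) * Real.log (q * T))) := by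
              rw [← Real.exp_add]
              apply Real.exp_le_exp.mpr
              have := mul_le_mul_of_nonneg_left l2 hγ0
              linarith
          _ ≤ _ := mul_le_mul_of_nonneg_right hexp (Real.exp_pos _).le
      have hφ : (0 : ℝ) ≤ q.totient := by positivity
      have hlogT : 0 ≤ Real.log (q * T) := Real.log_nonneg (by linarith)
      set E := Real.exp (-(c * (σ - 1 / 2) * Real.log (q * T))) with hE
      have hEp : 0 < E := Real.exp_pos _
      rcases lt_or_ge T (2 * T0) with hlt | hge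
      · -- two windows
        have hsub : Rt σ (-T0) T ⊆ Rt σ (-T0) T0 ∪ Rt σ T0 (2 * T0) := by
          intro s hs
          rcases le_total s.im T0 with h | h
          · exact Or.inl ⟨hs.1, hs.2.1, hs.2.2.1, h⟩
          · exact Or.inr ⟨hs.1, hs.2.1, h, hs.2.2.2.trans hlt.le⟩
        have h3 : ∀ χ ∈ S, (cnt (L q χ) (Rt σ (-T0) T) : ℝ) ≤
            (cnt (L q χ) (Rt σ (-T0) T0) : ℝ) + (cnt (L q χ) (Rt σ T0 (2 * T0)) : ℝ) := by
          intro χ hχ
          have hf1 := hD.fin (hS χ hχ) hco (Rt_bdd σ (-T0) T0)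
          have hf2 := hD.fin (hS χ hχ) hco (Rt_bdd σ T0 (2 * T0))
          have hf3 := hD.fin (hS χ hχ) hco ((Rt_bdd σ (-T0) T0).union (Rt_bdd σ T0 (2 * T0)))
          exact_mod_cast (cnt_mono hsub hf3).trans (cnt_union hf1 hf2)
        refine (Finset.sum_le_sum h3).trans ?_
        rw [Finset.sum_add_distrib]
        have a1 := hw T0 (-T0) T0 σ (Or.inr ⟨rfl, rfl, rfl⟩) hσ1 hσ2
        have a2 := hw T0 T0 (2 * T0) σ (Or.inl ⟨le_rfl, rfl, rfl⟩) hσ1 hσ2
        have a3 := hcomp T0 le_rfl hlt.le h2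
        have hT0p : 0 < T0 := by linarith
        calc _ ≤ C * (q.totient : ℝ) * T0 * Real.log (q * T0) * Real.exp (-(c * (σ - 1 / 2) * Real.log (q * T0))) +
              C * (q.totient : ℝ) * T0 * Real.log (q * T0) * Real.exp (-(c * (σ - 1 / 2) * Real.log (q * T0))) :=
              add_le_add a1 a2
          _ = 2 * (C * (q.totient : ℝ) * T0) *
              (Real.log (q * T0) * Real.exp (-(c * (σ - 1 / 2) * Real.log (q * T0)))) := by ring
          _ ≤ 2 * (C * (q.totient : ℝ) * T) * (Real.log (q * T) * (3 / 2 * E)) := by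
              have hl0 : 0 ≤ Real.log (q * T0) := Real.log_nonneg (by nlinarith)
              gcongr
          _ = 3 * C * (q.totient : ℝ) * T * Real.log (q * T) * E := by ring
          _ ≤ _ := by
              have : 3 * C ≤ 4 * C := by linarith
              gcongr
      · -- the step
        set U := T / 2 with hU
        have hUT0 : T0 ≤ U := by rw [hU]; linarith
        have hUp : 0 < U := by linarith
        have hUn : U ≤ 2 ^ n * T0 := by
          rw [hU, pow_succ] at *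
          linarith
        have hsub : Rt σ (-T0) T ⊆ Rt σ (-T0) U ∪ Rt σ U (2 * U) := by
          intro s hs
          rcases le_total s.im U with h | h
          · exact Or.inl ⟨hs.1, hs.2.1, hs.2.2.1, h⟩
          · exact Or.inr ⟨hs.1, hs.2.1, h, hs.2.2.2.trans (by rw [hU]; linarith)⟩
        have h3 : ∀ χ ∈ S, (cnt (L q χ) (Rt σ (-T0) T) : ℝ) ≤
            (cnt (L q χ) (Rt σ (-T0) U) : ℝ) + (cnt (L q χ) (Rt σ U (2 * U)) : ℝ) := by
          intro χ hχ
          have hf1 := hD.fin (hS χ hχ) hco (Rt_bdd σ (-T0) U)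
          have hf2 := hD.fin (hS χ hχ) hco (Rt_bdd σ U (2 * U))
          have hf3 := hD.fin (hS χ hχ) hco ((Rt_bdd σ (-T0) U).union (Rt_bdd σ U (2 * U)))
          exact_mod_cast (cnt_mono hsub hf3).trans (cnt_union hf1 hf2)
        refine (Finset.sum_le_sum h3).trans ?_
        rw [Finset.sum_add_distrib]
        have a1 := ih U σ hUn hUT0 hσ1 hσ2
        have a2 := hw U U (2 * U) σ (Or.inl ⟨hUT0, rfl, rfl⟩) hσ1 hσ2
        have a3 := hcomp U hUT0 (by rw [hU]; linarith) (by rw [hU]; linarith)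
        calc _ ≤ 4 * C * (q.totient : ℝ) * U * Real.log (q * U) * Real.exp (-(c * (σ - 1 / 2) * Real.log (q * U))) +
              C * (q.totient : ℝ) * U * Real.log (q * U) * Real.exp (-(c * (σ - 1 / 2) * Real.log (q * U))) :=
              add_le_add a1 a2
          _ = 5 * (C * (q.totient : ℝ) * U) *
              (Real.log (q * U) * Real.exp (-(c * (σ - 1 / 2) * Real.log (q * U)))) := by ring
          _ ≤ 5 * (C * (q.totient : ℝ) * U) * (Real.log (q * T) * (3 / 2 * E)) := by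
              apply mul_le_mul_of_nonneg_left a3
              positivity
          _ = 15 / 4 * C * (q.totient : ℝ) * T * Real.log (q * T) * E := by
              rw [hU]
              ring
          _ ≤ _ := by
              have : 15 / 4 * C ≤ 4 * C := by linarith
              gcongr
  intro T σ h1 h2 h3
  obtain ⟨n, hn⟩ := pow_unbounded_of_one_lt (T / T0) (by norm_num : (1 : ℝ) < 2)
  have hT0p : 0 < T0 := by linarith
  rw [div_lt_iff₀ hT0p] at hn
  exact hind n T σ hn.le h1 h2 h3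

/-- the conjugate L-function -/
theorem LD.conj_eq (hD : LD k N ps lam L) (hr : ∀ n, conj (lam n) = lam n) {q : ℕ} [NeZero q]
    {χ : DirichletCharacter ℂ q} (hχ : χ.IsPrimitive) (hχ' : χ⁻¹.IsPrimitive) (hco : q.Coprime N) :
    L q χ⁻¹ = fun s => conj (L q χ (conj s)) := by
  have h1 := hD.isL q χ hχ hco
  have h2 := hD.isL q χ⁻¹ hχ' hco
  have hd : Differentiable ℂ (fun s => conj (L q χ (conj s))) := by
    intro s
    have h3 := (h1.diff (conj s)).hasDerivAt.conj_conj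
    rw [Complex.conj_conj] at h3
    exact h3.differentiableAt
  have heq : ∀ s : ℂ, 1 < s.re → L q χ⁻¹ s = conj (L q χ (conj s)) := by
    intro s hs
    rw [h1.ser (conj s) (by simpa using hs), h2.ser s hs, Complex.conj_tsum]
    refine tsum_congr fun n => ?_
    unfold tl
    rw [map_mul, map_mul, hr n]
    congr 1
    · congr 1
      exact (MulChar.star_apply' χ _).symm
    · rcases Nat.eq_zero_or_pos n with rfl | hn
      · have hs0 : s ≠ 0 := by
          intro h
          rw [h, Complex.zero_re] at hs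
          linarith
        have hcs0 : conj s ≠ 0 := by
          intro h
          exact hs0 (by simpa using h)
        rw [Nat.cast_zero, Complex.zero_cpow (neg_ne_zero.2 hs0), Complex.zero_cpow (neg_ne_zero.2 hcs0), map_zero]
      · have harg : ((n : ℂ)).arg ≠ Real.pi := by
          rw [Complex.natCast_arg]
          exact Real.pi_ne_zero.symm
        have h3 := Complex.cpow_conj (n : ℂ) (-s) harg
        rw [Complex.conj_natCast, map_neg] at h3
        rw [h3, Complex.conj_conj]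
  have han1 : AnalyticOnNhd ℂ (L q χ⁻¹) Set.univ := fun z _ => h2.diff.analyticAt z
  have han2 : AnalyticOnNhd ℂ (fun s => conj (L q χ (conj s))) Set.univ := fun z _ => hd.analyticAt z
  have hev : L q χ⁻¹ =ᶠ[𝓝 (2 : ℂ)] (fun s => conj (L q χ (conj s))) := by
    have : ∀ᶠ z : ℂ in 𝓝 2, 1 < z.re := (Complex.continuous_re.tendsto 2).eventually (lt_mem_nhds (by norm_num))
    filter_upwards [this] with z hz
    exact heq z hz
  exact han1.eq_of_eventuallyEq han2 hev

end Pool.Agent.K9h29.ZD
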