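import Pool.Agent.Y412.GL.ARC

set_option autoImplicit false

/-!
# Arcs at the cusps `a / q`, uniformly in the frequency `r` (K9h29, from `Y412.GL.ARC`)
-/

namespace Pool.Agent.K9h29.ZD

open Complex Finset MeasureTheory
open scoped ComplexConjugate
open Pool.Agent.Y671.GL
open Pool.Agent.Y412.GL
open Pool.Agent.H442R2.KF.TaskB (Kl)

variable {k N : ℕ} {ps lam : ℕ → ℂ}

theorem Kl_bdG : ∃ K : ℝ, 0 < K ∧ ∀ (q : ℕ) [NeZero q] (r s : ℤ) (M : ℕ) (g : ℝ), 0 ≤ g →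
    ((Nat.gcd q r.natAbs : ℕ) : ℝ) ≤ M * g →
    ‖Kl q (r : ZMod q) (s : ZMod q)‖ ≤ K * (q : ℝ) ^ (5 / 8 : ℝ) * ((M : ℝ) * g) ^ (1 / 2 : ℝ) := by
  obtain ⟨K, hK1, hK⟩ := Pool.Agent.TH43.LK.Kl_gcd
  obtain ⟨C, hC, hD⟩ := Pool.Agent.H510R2.divisor_bound (1 / 8) (by norm_num)
  refine ⟨K * C, by positivity, fun q _ r s M g hg hM => ?_⟩
  have hq : q ≠ 0 := NeZero.ne q
  have hq' : (0 : ℝ) < q := by exact_mod_cast Nat.pos_of_ne_zero hq
  have h1 := hK q r s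
  have h2 : (2 : ℝ) ^ q.primeFactors.card ≤ C * (q : ℝ) ^ (1 / 8 : ℝ) :=
    (two_pow_card_primeFactors_le q hq).trans (hD q (Nat.pos_of_ne_zero hq))
  have h3 : (Pool.Agent.TH43.LK.G q r s : ℝ) ≤ M * g := by
    refine le_trans ?_ hM
    have h4 : Pool.Agent.TH43.LK.G q r s ∣ Nat.gcd q r.natAbs := by
      unfold Pool.Agent.TH43.LK.G
      refine Nat.dvd_gcd (Nat.gcd_dvd_left _ _) ?_
      exact (Nat.gcd_dvd_right _ _).trans (Int.natAbs_dvd_natAbs.2 (Int.gcd_dvd_left r s) |>.trans (dvd_refl _))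
    have h5 := Nat.le_of_dvd (Nat.gcd_pos_of_pos_left _ (Nat.pos_of_ne_zero hq)) h4
    exact_mod_cast h5
  have h7 : Real.sqrt (Pool.Agent.TH43.LK.G q r s : ℝ) ≤ ((M : ℝ) * g) ^ (1 / 2 : ℝ) := by
    rw [Real.sqrt_eq_rpow]
    exact Real.rpow_le_rpow (by positivity) h3 (by norm_num)
  refine h1.trans ?_
  have h8 : (q : ℝ) ^ (5 / 8 : ℝ) = (q : ℝ) ^ (1 / 8 : ℝ) * Real.sqrt q := by
    rw [Real.sqrt_eq_rpow, ← Real.rpow_add hq']; norm_num
  rw [h8]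
  calc K * 2 ^ q.primeFactors.card * Real.sqrt q * Real.sqrt (Pool.Agent.TH43.LK.G q r s : ℝ)
      ≤ K * (C * (q : ℝ) ^ (1 / 8 : ℝ)) * Real.sqrt q * ((M : ℝ) * g) ^ (1 / 2 : ℝ) := by
        gcongr
    _ = _ := by ring

/-- The arcs at the cusps `a / (N h l p)`, `p` prime: the frequency `r` enters only through `p ∣ r`. -/
theorem arcU (hF : Frm k N ps lam) : ∃ C A : ℝ, 0 < C ∧ 1 ≤ A ∧
    ∀ (h l p : ℕ) (r : ℤ) (v β g : ℝ), 1 ≤ h → 1 ≤ l → p.Prime → 1 ≤ g →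
      ((p : ℤ) ∣ r → (p : ℝ) ≤ g) → 0 < v → v ≤ 1 → |β| ≤ 1 / 2 →
    ‖∑ a ∈ (Finset.range (N * h * l * p)).filter (fun a => a.Coprime (N * h * l * p)),
        gg k lam h l r v (a / (N * h * l * p : ℕ) + β)‖ ≤
      C * (h * l) ^ A * (p * (v + |β|)) ^ (5 / 2 : ℝ) * v ^ (-((k : ℝ) + 5 / 4)) * (p : ℝ) ^ (5 / 8 : ℝ) *
        g ^ (1 / 2 : ℝ) := by
  obtain ⟨ch, hch, hc⟩ := hF.cusp
  obtain ⟨C1, hC1, hS⟩ := sum_aa hF
  obtain ⟨K, hK, hKl⟩ := Kl_bdG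
  have hN : 1 ≤ N := hF.N_pos
  have hN' : (1 : ℝ) ≤ N := by exact_mod_cast hN
  refine ⟨C1 ^ 2 * K * (N : ℝ) ^ (29 / 8 : ℝ), 29 / 8, by positivity, by norm_num, ?_⟩
  intro h l p r v β g hh hl hpp hg hpr hv hv1 hβ
  have hp : 1 ≤ p := hpp.one_lt.le
  set q : ℕ := N * h * l * p with hq
  have hq0 : q ≠ 0 := by rw [hq]; positivity
  have : NeZero q := ⟨hq0⟩
  have hh' : (1 : ℝ) ≤ h := by exact_mod_cast hh
  have hl' : (1 : ℝ) ≤ l := by exact_mod_cast hl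
  have hp' : (1 : ℝ) ≤ p := by exact_mod_cast hp
  have hq' : (0 : ℝ) < q := by exact_mod_cast Nat.pos_of_ne_zero hq0
  have hgcd : ((Nat.gcd q r.natAbs : ℕ) : ℝ) ≤ ((N * h * l : ℕ) : ℝ) * g := by
    have e1 : Nat.gcd q r.natAbs ∣ (N * h * l) * Nat.gcd p r.natAbs := by
      rw [hq]
      calc Nat.gcd (N * h * l * p) r.natAbs ∣
            Nat.gcd (N * h * l) r.natAbs * Nat.gcd p r.natAbs := Nat.gcd_mul_left_dvd_mul_gcd _ _ _
        _ ∣ _ := mul_dvd_mul_right (Nat.gcd_dvd_left _ _) _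
    have e2 : 0 < (N * h * l) * Nat.gcd p r.natAbs :=
      Nat.mul_pos (by positivity) (Nat.gcd_pos_of_pos_left _ hp)
    have e3 := Nat.le_of_dvd e2 e1
    have e4 : ((Nat.gcd p r.natAbs : ℕ) : ℝ) ≤ g := by
      rcases (Nat.coprime_or_dvd_of_prime hpp r.natAbs).symm with h1 | h1
      · have h2 : (p : ℤ) ∣ r := Int.natCast_dvd.2 h1
        refine le_trans ?_ (hpr h2)
        exact_mod_cast Nat.gcd_le_left _ hp
      · rw [Nat.Coprime] at h1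
        rw [h1]
        simpa using hg
    calc ((Nat.gcd q r.natAbs : ℕ) : ℝ) ≤ (((N * h * l) * Nat.gcd p r.natAbs : ℕ) : ℝ) := by
          exact_mod_cast e3
      _ = ((N * h * l : ℕ) : ℝ) * ((Nat.gcd p r.natAbs : ℕ) : ℝ) := by push_cast; ring
      _ ≤ _ := mul_le_mul_of_nonneg_left e4 (by positivity)
  set ζ : ℂ := v + 2 * Real.pi * I * β with hζ
  have hζre : ζ.re = v := by
    rw [hζ]
    simp
  have hζ0 : ζ ≠ 0 := by
    intro h0
    rw [h0] at hζre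
    simp at hζre
    linarith
  have hζn : 0 < ‖ζ‖ := norm_pos_iff.2 hζ0
  set w : ℂ := 4 * Real.pi ^ 2 / (q ^ 2 * ζ) with hw
  set U : ℝ := q * ‖ζ‖ / (2 * Real.pi) with hU
  have hπ : 0 < Real.pi := Real.pi_pos
  have hU0 : 0 < U := by positivity
  have hwre : w.re = v / U ^ 2 := by
    have e1 : w = ((4 * Real.pi ^ 2 / q ^ 2 : ℝ) : ℂ) * ζ⁻¹ := by
      rw [hw]; push_cast
      have : (q : ℂ) ≠ 0 := by exact_mod_cast hq0
      field_simp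
    rw [e1, Complex.re_ofReal_mul, Complex.inv_re, hζre, Complex.normSq_eq_norm_sq, hU]
    field_simp
    ring
  have hwre0 : 0 < w.re := by rw [hwre]; positivity
  have hS1 := hS (h * w.re) (by positivity)
  have hS2 := hS (l * w.re) (by positivity)
  rw [sum_gg ch hch hc hN h l p hh hl hp q hq r v β hv w hw hS1.1 hS2.1]
  rw [norm_mul, norm_mul, Complex.norm_real, Real.norm_of_nonneg (by positivity)]
  have hnb : ‖cexp (2 * Real.pi * I * r * β)‖ = 1 := by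
    rw [← norm_phase (r * β)]
    congr 2
    push_cast; ring
  rw [hnb, mul_one]
  -- the norm of D
  have hD : ‖(2 * Real.pi / (I * q * ζ) : ℂ)‖ = 1 / U := by
    rw [norm_div, norm_mul, norm_mul, norm_mul, Complex.norm_I, Complex.norm_natCast,
      Complex.norm_real, Real.norm_of_nonneg hπ.le, hU]
    simp
  rw [hD]
  -- the series
  obtain ⟨hE1, hE2⟩ := summ_EE (k := k) (lam := lam) h l w hS1.1 hS2.1
  set B : ℝ := K * (q : ℝ) ^ (5 / 8 : ℝ) * (((N * h * l : ℕ) : ℝ) * g) ^ (1 / 2 : ℝ) with hB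
  have hB0 : 0 ≤ B := by positivity
  have hT : ‖∑' x : ℕ × ℕ, EE k lam h l w x *
        Kl q (r : ZMod q) (((x.1 * h - x.2 * l : ℤ)) : ZMod q)‖ ≤
      (∑' x : ℕ × ℕ, ‖EE k lam h l w x‖) * B := by
    have hsB : Summable (fun x : ℕ × ℕ => ‖EE k lam h l w x‖ * B) := hE1.mul_right B
    refine (tsum_of_norm_bounded hsB.hasSum fun x => ?_).trans (le_of_eq ?_)
    · rw [norm_mul]
      exact mul_le_mul_of_nonneg_left (hKl q r _ (N * h * l) g (by linarith) hgcd) (norm_nonneg _)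
    · rw [tsum_mul_right]
  set s1 : ℝ := ((k : ℝ) + 1) / 2 + 1 / 8 with hs1
  have hs1p : 0 < s1 := by rw [hs1]; positivity
  have hmono : ∀ m : ℝ, 1 ≤ m → (m * w.re) ^ (-s1) ≤ w.re ^ (-s1) := by
    intro m hm
    apply Real.rpow_le_rpow_of_nonpos hwre0 _ (by linarith)
    nlinarith
  have hEb : ∑' x : ℕ × ℕ, ‖EE k lam h l w x‖ ≤ C1 ^ 2 * (w.re ^ (-s1) * w.re ^ (-s1)) := by
    rw [hE2]
    have a1 := hS1.2.trans (mul_le_mul_of_nonneg_left (hmono h hh') hC1.le)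
    have a2 := hS2.2.trans (mul_le_mul_of_nonneg_left (hmono l hl') hC1.le)
    calc _ ≤ (C1 * w.re ^ (-s1)) * (C1 * w.re ^ (-s1)) := by
          apply mul_le_mul a1 a2 _ (by positivity)
          exact tsum_nonneg fun n => by positivity
      _ = _ := by ring
  have hw2 : w.re ^ (-s1) * w.re ^ (-s1) = v ^ (-((k : ℝ) + 5 / 4)) * U ^ (2 * (k : ℝ) + 5 / 2) := by
    rw [← Real.rpow_add hwre0, hwre, Real.div_rpow hv.le (by positivity),
      ← Real.rpow_natCast U 2, ← Real.rpow_mul hU0.le]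
    rw [div_eq_mul_inv, ← Real.rpow_neg hU0.le]
    congr 2
    · rw [hs1]; ring
    · rw [hs1]; push_cast; ring
  have hUk : (1 / U) ^ (2 * k) * U ^ (2 * (k : ℝ) + 5 / 2) = U ^ (5 / 2 : ℝ) := by
    rw [Real.rpow_add hU0, one_div, inv_pow]
    have : U ^ (2 * (k : ℝ)) = U ^ (2 * k) := by
      rw [← Real.rpow_natCast]; push_cast; rfl
    rw [this]
    field_simp
  have hζle : ‖ζ‖ ≤ 2 * Real.pi * (v + |β|) := by
    have e1 : ‖ζ‖ ≤ ‖(v : ℂ)‖ + ‖(2 * Real.pi * I * β : ℂ)‖ := norm_add_le _ _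
    have e2 : ‖(v : ℂ)‖ = v := by rw [Complex.norm_real, Real.norm_of_nonneg hv.le]
    have e3 : ‖(2 * Real.pi * I * β : ℂ)‖ = 2 * Real.pi * |β| := by
      rw [norm_mul, norm_mul, norm_mul, Complex.norm_I, Complex.norm_real, Complex.norm_real,
        Real.norm_of_nonneg hπ.le, Real.norm_eq_abs]
      simp
    rw [e2, e3] at e1
    have : (3 : ℝ) < Real.pi := Real.pi_gt_three
    nlinarith
  have hUle : U ≤ (N * h * l) * (p * (v + |β|)) := by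
    rw [hU, div_le_iff₀ (by positivity)]
    have : (q : ℝ) = N * h * l * p := by rw [hq]; push_cast; ring
    calc (q : ℝ) * ‖ζ‖ ≤ q * (2 * Real.pi * (v + |β|)) := mul_le_mul_of_nonneg_left hζle hq'.le
      _ = _ := by rw [this]; ring
  have hvβ : 0 < v + |β| := by positivity
  have hU52 : U ^ (5 / 2 : ℝ) ≤ (N * h * l : ℝ) ^ (5 / 2 : ℝ) * (p * (v + |β|)) ^ (5 / 2 : ℝ) := by
    rw [← Real.mul_rpow (by positivity) (by positivity)]
    exact Real.rpow_le_rpow hU0.le hUle (by norm_num)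
  have hq58 : (q : ℝ) ^ (5 / 8 : ℝ) = (N * h * l : ℝ) ^ (5 / 8 : ℝ) * (p : ℝ) ^ (5 / 8 : ℝ) := by
    rw [← Real.mul_rpow (by positivity) (by positivity)]
    congr 1
    rw [hq]; push_cast; ring
  have hNhl : (N * h * l : ℝ) ^ (5 / 2 : ℝ) * (N * h * l : ℝ) ^ (5 / 8 : ℝ) * (N * h * l : ℝ) ^ (1 / 2 : ℝ) =
      (N : ℝ) ^ (29 / 8 : ℝ) * (h * l : ℝ) ^ (29 / 8 : ℝ) := by
    rw [← Real.rpow_add (by positivity), ← Real.rpow_add (by positivity),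
      ← Real.mul_rpow (by positivity) (by positivity)]
    norm_num
    ring_nf
  have hgsplit : (((N * h * l : ℕ) : ℝ) * g) ^ (1 / 2 : ℝ) = (N * h * l : ℝ) ^ (1 / 2 : ℝ) * g ^ (1 / 2 : ℝ) := by
    rw [← Real.mul_rpow (by positivity) (by positivity)]
    congr 1
    push_cast; ring
  have hstep : (1 / U) ^ (2 * k) * ‖∑' x : ℕ × ℕ, EE k lam h l w x *
        Kl q (r : ZMod q) (((x.1 * h - x.2 * l : ℤ)) : ZMod q)‖ ≤
      C1 ^ 2 * v ^ (-((k : ℝ) + 5 / 4)) * U ^ (5 / 2 : ℝ) * B := by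
    calc _ ≤ (1 / U) ^ (2 * k) * ((C1 ^ 2 * (w.re ^ (-s1) * w.re ^ (-s1))) * B) := by
          apply mul_le_mul_of_nonneg_left _ (by positivity)
          exact hT.trans (mul_le_mul_of_nonneg_right hEb hB0)
      _ = C1 ^ 2 * v ^ (-((k : ℝ) + 5 / 4)) *
          ((1 / U) ^ (2 * k) * U ^ (2 * (k : ℝ) + 5 / 2)) * B := by
          rw [hw2]; ring
      _ = _ := by rw [hUk]
  refine hstep.trans ?_
  calc C1 ^ 2 * v ^ (-((k : ℝ) + 5 / 4)) * U ^ (5 / 2 : ℝ) * B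
      ≤ C1 ^ 2 * v ^ (-((k : ℝ) + 5 / 4)) *
        ((N * h * l : ℝ) ^ (5 / 2 : ℝ) * (p * (v + |β|)) ^ (5 / 2 : ℝ)) * B := by
        apply mul_le_mul_of_nonneg_right _ hB0
        exact mul_le_mul_of_nonneg_left hU52 (by positivity)
    _ = C1 ^ 2 * K * v ^ (-((k : ℝ) + 5 / 4)) * (p * (v + |β|)) ^ (5 / 2 : ℝ) *
        (p : ℝ) ^ (5 / 8 : ℝ) * ((N * h * l : ℝ) ^ (5 / 2 : ℝ) * (N * h * l : ℝ) ^ (5 / 8 : ℝ) *
          (N * h * l : ℝ) ^ (1 / 2 : ℝ)) * g ^ (1 / 2 : ℝ) := by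
        rw [hB, hq58, hgsplit]; ring
    _ = _ := by
        rw [hNhl]; ring

end Pool.Agent.K9h29.ZD
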