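import Pool.Agent.Y809.GL.SC
import Pool.Agent.K9h29.ZD.ArcU

set_option autoImplicit false

/-!
# Shifted convolution sums, uniformly for frequencies `|r| ≤ v ^ (-2)` (K9h29, from `Y809.GL.SC`)
-/

namespace Pool.Agent.K9h29.ZD

open Complex Filter Topology MeasureTheory Set
open scoped ComplexConjugate
open Pool.Agent.Y671.GL
open Pool.Agent.Y809.GL

/-- few primes `> P` divide a number `≤ P ^ 4` -/
theorem few_primes (M P : ℕ) (hP : 2 ≤ P) (r : ℤ) (hr : r ≠ 0) (hrP : r.natAbs ≤ P ^ 4) :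
    ((PP M P).filter (fun p : ℕ => (p : ℤ) ∣ r)).card ≤ 4 := by
  set S := (PP M P).filter (fun p : ℕ => (p : ℤ) ∣ r) with hS
  have h1 : ∏ p ∈ S, p ∣ r.natAbs := by
    apply Finset.prod_primes_dvd
    · intro p hp
      rw [hS, Finset.mem_filter] at hp
      have := hp.1
      unfold PP at this
      rw [Finset.mem_filter] at this
      exact this.2.1.prime
    · intro p hp
      rw [hS, Finset.mem_filter] at hp
      exact Int.natCast_dvd.1 hp.2
  have h2 : ∏ p ∈ S, p ≤ r.natAbs := Nat.le_of_dvd (Int.natAbs_pos.2 hr) h1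
  have h3 : P ^ S.card ≤ ∏ p ∈ S, p := by
    rw [← Finset.prod_const]
    apply Finset.prod_le_prod'
    intro p hp
    rw [hS, Finset.mem_filter] at hp
    have := hp.1
    unfold PP at this
    rw [Finset.mem_filter, Finset.mem_Ioc] at this
    exact this.1.1.le
  exact (Nat.pow_le_pow_iff_right (by omega)).1 (h3.trans (h2.trans hrP))

/-- Shifted convolution sums, uniform in the frequency. -/
def S_SCU : Prop := ∀ (k N : ℕ) (ps lam : ℕ → ℂ), Frm k N ps lam → ∃ c C A : ℝ, 0 < c ∧ 0 < C ∧ 1 ≤ A ∧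
  ∀ (h l : ℕ) (r : ℤ) (v : ℝ), 1 ≤ h → 1 ≤ l → r ≠ 0 → 0 < v → v ≤ 1 → |(r : ℝ)| ≤ v ^ (-2 : ℝ) →
  ‖∫ x in (0 : ℝ)..1, gg k lam h l r v x‖ ≤ C * (h * l) ^ A * v ^ (c - k)

theorem scU (h1 : S_JUT) : S_SCU := by
  intro k N ps lam hf
  obtain ⟨C1, P1, hC1, hP1', hJ⟩ := h1
  obtain ⟨cc, P2, hcc, hP2, hcard⟩ := exists_card_ge
  obtain ⟨C2', A, hC2', hA, hR⟩ := arcU hf
  set P0 : ℝ := max P1 P2 with hP0def
  have hP0 : 2 ≤ P0 := hP1'.trans (le_max_left _ _)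
  set C2 : ℝ := C2' * (1 + 16 / cc) with hC2def
  have hC2 : 0 < C2 := by positivity
  obtain ⟨G, hG, hgb⟩ := gg_bound hf
  have hN : (1 : ℝ) ≤ N := by exact_mod_cast hf.N_pos
  refine ⟨1 / 640, G * (N + P0) + 320 * C1 * N * G + 4096 * C2 + 2 * G, A, by norm_num, by positivity, hA, ?_⟩
  intro h l r v hh hl hr hv hv1 hrv
  have hh1 : (1 : ℝ) ≤ h := by exact_mod_cast hh
  have hl1 : (1 : ℝ) ≤ l := by exact_mod_cast hl
  set X : ℝ := h * l with hX
  have hhl1 : (1 : ℝ) ≤ h * l := by nlinarith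
  have hX1 : 1 ≤ X := by rw [hX]; exact hhl1
  have hXhl : (h : ℝ) * l ≤ X := by rw [hX]
  have hXA : X ≤ X ^ A := by
    calc X = X ^ (1 : ℝ) := (Real.rpow_one X).symm
      _ ≤ X ^ A := Real.rpow_le_rpow_of_exponent_le hX1 hA
  have hXA1 : 1 ≤ X ^ A := hX1.trans hXA
  have hvk0 : 0 < v ^ (-(k : ℝ)) := by positivity
  have hgc := gg_continuous hf h l hh hl r v hv
  set g := gg k lam h l r v with hg
  have hgn : ∀ x, ‖g x‖ ≤ G * v ^ (-(k : ℝ)) := fun x => hgb h l r v x hh hl hv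
  have hck : v ^ ((1 / 640 : ℝ) - k) = v ^ (1 / 640 : ℝ) * v ^ (-(k : ℝ)) := by
    rw [← Real.rpow_add hv]; congr 1
  set P : ℕ := ⌈v ^ (-(1 / 2) : ℝ)⌉₊ with hPdef
  have hvm : 1 ≤ v ^ (-(1 / 2) : ℝ) := Real.one_le_rpow_of_pos_of_le_one_of_nonpos hv hv1 (by norm_num)
  have hPl : v ^ (-(1 / 2) : ℝ) ≤ P := Nat.le_ceil _
  have hPu : (P : ℝ) ≤ 2 * v ^ (-(1 / 2) : ℝ) := by
    have := Nat.ceil_lt_add_one (show 0 ≤ v ^ (-(1 / 2) : ℝ) by positivity)
    rw [← hPdef] at this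
    linarith
  have hP1 : (1 : ℝ) ≤ P := hvm.trans hPl
  have hPpos : (0 : ℝ) < P := by linarith
  -- the powers of P
  have hPpow : ∀ e : ℝ, 0 ≤ e → (P : ℝ) ^ (-e) ≤ v ^ (e / 2) := by
    intro e he
    have h3 : (P : ℝ) ^ (-e) ≤ (v ^ (-(1 / 2) : ℝ)) ^ (-e) :=
      Real.rpow_le_rpow_of_nonpos (by positivity) hPl (by linarith)
    rw [← Real.rpow_mul hv.le] at h3
    rwa [show -(1 / 2) * -e = e / 2 by ring] at h3
  have hvmono : ∀ e : ℝ, 1 / 640 ≤ e → v ^ e ≤ v ^ (1 / 640 : ℝ) := fun e he =>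
    Real.rpow_le_rpow_of_exponent_ge hv hv1 he
  by_cases hc : P0 ≤ P ∧ N * h * l ≤ P
  swap
  · -- the trivial bound
    have h3 : ‖∫ x in (0 : ℝ)..1, g x‖ ≤ G * v ^ (-(k : ℝ)) := by
      have := intervalIntegral.norm_integral_le_of_norm_le_const (a := (0 : ℝ)) (b := 1) (f := g)
        (C := G * v ^ (-(k : ℝ))) (fun x _ => hgn x)
      simpa using this
    have h4 : (P : ℝ) ≤ N * h * l + P0 := by
      rw [not_and_or] at hc
      rcases hc with hc | hc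
      · push Not at hc
        have : (0 : ℝ) ≤ N * h * l := by positivity
        linarith
      · push Not at hc
        have : (P : ℝ) ≤ N * h * l := by exact_mod_cast hc.le
        linarith
    have h5 : (N : ℝ) * h * l + P0 ≤ (N + P0) * X ^ A := by
      have a1 : (N : ℝ) * h * l ≤ N * X := le_of_eq (by rw [hX]; ring)
      have a2 : P0 ≤ P0 * X ^ A := by nlinarith
      have a3 : (N : ℝ) * X ≤ N * X ^ A := by gcongr
      nlinarith
    have h6 : v ^ (-(1 / 640) : ℝ) ≤ v ^ (-(1 / 2) : ℝ) :=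
      Real.rpow_le_rpow_of_exponent_ge hv hv1 (by norm_num)
    have h7 : v ^ (-(1 / 640) : ℝ) ≤ (N + P0) * X ^ A := h6.trans (hPl.trans (h4.trans h5))
    have h8 : v ^ (-(k : ℝ)) = v ^ (-(1 / 640) : ℝ) * v ^ ((1 / 640 : ℝ) - k) := by
      rw [← Real.rpow_add hv]; congr 1; ring
    refine h3.trans ?_
    rw [h8]
    have h9 : 0 < v ^ ((1 / 640 : ℝ) - k) := by positivity
    calc G * (v ^ (-(1 / 640) : ℝ) * v ^ ((1 / 640 : ℝ) - k)) ≤
          G * (((N + P0) * X ^ A) * v ^ ((1 / 640 : ℝ) - k)) := by gcongr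
      _ = (G * (N + P0)) * X ^ A * v ^ ((1 / 640 : ℝ) - k) := by ring
      _ ≤ (G * (N + P0) + 320 * C1 * N * G + 4096 * C2 + 2 * G) * X ^ A * v ^ ((1 / 640 : ℝ) - k) := by
          have : G * (N + P0) ≤ G * (N + P0) + 320 * C1 * N * G + 4096 * C2 + 2 * G := by
            have : 0 ≤ 320 * C1 * N * G + 4096 * C2 + 2 * G := by positivity
            linarith
          gcongr
  · obtain ⟨hc1, hc2⟩ := hc
    set M : ℕ := N * h * l with hM
    have hM1 : 1 ≤ M := by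
      rw [hM]
      exact Nat.one_le_iff_ne_zero.mpr (by
        have := hf.N_pos
        have h3 : N * h ≠ 0 := Nat.mul_ne_zero (by omega) (by omega)
        exact Nat.mul_ne_zero h3 (by omega))
    set H : ℕ := ⌈(P : ℝ) ^ (79 / 40 : ℝ)⌉₊ with hHdef
    have hHl : (P : ℝ) ^ (79 / 40 : ℝ) ≤ H := Nat.le_ceil _
    have hPe1 : 1 ≤ (P : ℝ) ^ (79 / 40 : ℝ) := Real.one_le_rpow hP1 (by norm_num)
    have hHu : (H : ℝ) ≤ 2 * (P : ℝ) ^ (79 / 40 : ℝ) := by
      have := Nat.ceil_lt_add_one (show 0 ≤ (P : ℝ) ^ (79 / 40 : ℝ) by positivity)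
      rw [← hHdef] at this
      linarith
    have hH1 : (1 : ℝ) ≤ H := hPe1.trans hHl
    have hH1' : 1 ≤ H := by exact_mod_cast hH1
    have hHP : H ≤ P ^ 2 := by
      rw [hHdef, Nat.ceil_le]
      push_cast
      rw [← Real.rpow_natCast]
      exact Real.rpow_le_rpow_of_exponent_le hP1 (by norm_num)
    obtain ⟨hJ1, hJ2, hJ3⟩ := hJ M P H g hM1 ((le_max_left _ _).trans hc1) hc2 hH1' hHP hgc
      (gg_periodic h l r v)
    have hcd := hcard M P hM1 ((le_max_right _ _).trans hc1) hc2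
    -- the error term
    have hE : C1 * M * Real.sqrt H * Real.log P / P * Real.sqrt (∫ x in (0 : ℝ)..1, ‖g x‖ ^ 2) ≤
        320 * C1 * N * G * X ^ A * v ^ ((1 / 640 : ℝ) - k) := by
      have e1 : Real.sqrt (∫ x in (0 : ℝ)..1, ‖g x‖ ^ 2) ≤ G * v ^ (-(k : ℝ)) := by
        rw [Real.sqrt_le_left (by positivity)]
        have e2 : ∫ x in (0 : ℝ)..1, ‖g x‖ ^ 2 ≤ ∫ x in (0 : ℝ)..1, (G * v ^ (-(k : ℝ))) ^ 2 := by
          refine intervalIntegral.integral_mono_on (by norm_num) ((hgc.norm.pow 2).intervalIntegrable _ _)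
            (intervalIntegrable_const) ?_
          intro x _
          exact pow_le_pow_left₀ (norm_nonneg _) (hgn x) 2
        refine e2.trans (le_of_eq ?_)
        simp
      have e3 : Real.sqrt H ≤ 2 * (P : ℝ) ^ (79 / 80 : ℝ) := by
        rw [Real.sqrt_le_left (by positivity)]
        have e4 : (2 * (P : ℝ) ^ (79 / 80 : ℝ)) ^ 2 = 4 * (P : ℝ) ^ (79 / 40 : ℝ) := by
          rw [mul_pow, ← Real.rpow_natCast ((P : ℝ) ^ (79 / 80 : ℝ)), ← Real.rpow_mul hPpos.le]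
          norm_num
        rw [e4]; linarith
      have e5 : Real.log P ≤ 160 * (P : ℝ) ^ (1 / 160 : ℝ) := by
        have := Real.log_le_rpow_div hPpos.le (show (0 : ℝ) < 1 / 160 by norm_num)
        refine this.trans (le_of_eq ?_)
        ring
      have e6 : Real.sqrt H * Real.log P / P ≤ 320 * v ^ (1 / 640 : ℝ) := by
        have e7 : Real.sqrt H * Real.log P ≤ (2 * (P : ℝ) ^ (79 / 80 : ℝ)) * (160 * (P : ℝ) ^ (1 / 160 : ℝ)) :=
          mul_le_mul e3 e5 (Real.log_nonneg hP1) (by positivity)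
        have e8 : (2 * (P : ℝ) ^ (79 / 80 : ℝ)) * (160 * (P : ℝ) ^ (1 / 160 : ℝ)) / P =
            320 * (P : ℝ) ^ (-(1 / 160) : ℝ) := by
          have : (P : ℝ) ^ (79 / 80 : ℝ) * (P : ℝ) ^ (1 / 160 : ℝ) / P = (P : ℝ) ^ (-(1 / 160) : ℝ) := by
            rw [← Real.rpow_add hPpos, div_eq_mul_inv, ← Real.rpow_neg_one (P : ℝ), ← Real.rpow_add hPpos]
            norm_num
          rw [← this]; ring
        have e9 : Real.sqrt H * Real.log P / P ≤ 320 * (P : ℝ) ^ (-(1 / 160) : ℝ) := by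
          rw [← e8]; gcongr
        have e10 := hPpow (1 / 160) (by norm_num)
        have e11 := hvmono (1 / 160 / 2) (by norm_num)
        linarith
      have e12 : (M : ℝ) ≤ N * X ^ A := by
        rw [hM]; push_cast
        calc (N : ℝ) * h * l = N * (h * l) := by ring
          _ ≤ N * X ^ A := by
            have := hXhl.trans hXA
            gcongr
      calc C1 * M * Real.sqrt H * Real.log P / P * Real.sqrt (∫ x in (0 : ℝ)..1, ‖g x‖ ^ 2)
          = C1 * M * (Real.sqrt H * Real.log P / P) * Real.sqrt (∫ x in (0 : ℝ)..1, ‖g x‖ ^ 2) := by ring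
        _ ≤ C1 * (N * X ^ A) * (320 * v ^ (1 / 640 : ℝ)) * (G * v ^ (-(k : ℝ))) := by
            have e13 : 0 ≤ Real.sqrt H * Real.log P / P := by
              have := Real.log_nonneg hP1
              positivity
            gcongr
        _ = 320 * C1 * N * G * X ^ A * v ^ ((1 / 640 : ℝ) - k) := by rw [hck]; ring
    -- the main term
    set η : ℝ := v ^ (39 / 40 : ℝ) with hη
    have hη0 : 0 < η := by positivity
    have hvη : v ≤ η := by
      calc v = v ^ (1 : ℝ) := (Real.rpow_one v).symm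
        _ ≤ η := Real.rpow_le_rpow_of_exponent_ge hv hv1 (by norm_num)
    set B1 : ℝ := C2' * X ^ A * (16 * v ^ (19 / 40 : ℝ)) ^ (5 / 2 : ℝ) * v ^ (-((k : ℝ) + 5 / 4)) *
      (4 * P : ℝ) ^ (5 / 8 : ℝ) with hB1
    have hB10 : 0 ≤ B1 := by positivity
    have hPη : 4 * (P : ℝ) * (2 * η) ≤ 16 * v ^ (19 / 40 : ℝ) := by
      have m1 : v ^ (-(1 / 2) : ℝ) * η = v ^ (19 / 40 : ℝ) := by
        rw [hη, ← Real.rpow_add hv]; norm_num
      calc 4 * (P : ℝ) * (2 * η) ≤ 4 * (2 * v ^ (-(1 / 2) : ℝ)) * (2 * η) := by gcongr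
        _ = 16 * (v ^ (-(1 / 2) : ℝ) * η) := by ring
        _ = 16 * v ^ (19 / 40 : ℝ) := by rw [m1]
    have hQ : ∀ p ∈ PP M P, ‖∑ a ∈ (Finset.range (M * p)).filter (fun a => a.Coprime (M * p)),
        ∫ β in (-(1 / 2) : ℝ)..(1 / 2), g (a / (M * p : ℕ) + β) * (fej H β : ℂ)‖ ≤
        (B1 + if (p : ℤ) ∣ r then B1 * (4 * P : ℝ) ^ (1 / 2 : ℝ) else 0) +
          ((M * p).totient : ℝ) * (G * v ^ (-(k : ℝ)) * (Real.pi / (2 * H * η))) := by
      intro p hp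
      unfold PP at hp
      simp only [Finset.mem_filter, Finset.mem_Ioc] at hp
      have h4P : (1 : ℝ) ≤ 4 * P := by linarith
      set gp : ℝ := if (p : ℤ) ∣ r then 4 * (P : ℝ) else 1 with hgp
      have hgp1 : 1 ≤ gp := by rw [hgp]; split_ifs <;> linarith
      have hgpB : B1 * gp ^ (1 / 2 : ℝ) ≤
          B1 + if (p : ℤ) ∣ r then B1 * (4 * P : ℝ) ^ (1 / 2 : ℝ) else 0 := by
        rw [hgp]
        split_ifs
        · linarith
        · rw [Real.one_rpow]; linarith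
      have hb0 : 0 ≤ B1 + if (p : ℤ) ∣ r then B1 * (4 * P : ℝ) ^ (1 / 2 : ℝ) else 0 := by
        split_ifs <;> positivity
      refine one_modulus hf G hG hgb h l r v hh hl hv (M * p) H hH1' η _ hη0 hb0 ?_
      intro β hβ1 hβ2
      have hp1 : 1 ≤ p := hp.2.1.one_lt.le
      have hp0 : (0 : ℝ) < p := by exact_mod_cast hp1
      have hp4 : (p : ℝ) ≤ 4 * P := by exact_mod_cast hp.1.2
      refine (hR h l p r v β gp hh hl hp.2.1 hgp1 (fun hd => by rw [hgp, if_pos hd]; exact hp4)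
        hv hv1 hβ1).trans ?_
      refine le_trans ?_ hgpB
      have m2 : (p : ℝ) * (v + |β|) ≤ 16 * v ^ (19 / 40 : ℝ) := by
        refine le_trans ?_ hPη
        have : v + |β| ≤ 2 * η := by linarith
        have h0 : 0 ≤ v + |β| := by positivity
        exact mul_le_mul hp4 this h0 (by positivity)
      rw [hB1]
      have m3 : ((p : ℝ) * (v + |β|)) ^ (5 / 2 : ℝ) ≤ (16 * v ^ (19 / 40 : ℝ)) ^ (5 / 2 : ℝ) :=
        Real.rpow_le_rpow (by positivity) m2 (by norm_num)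
      have m4 : (p : ℝ) ^ (5 / 8 : ℝ) ≤ (4 * P : ℝ) ^ (5 / 8 : ℝ) :=
        Real.rpow_le_rpow (by positivity) hp4 (by norm_num)
      gcongr
    -- the count of the moduli
    have hP2n : 2 ≤ P := by exact_mod_cast hP0.trans hc1
    have hrP : r.natAbs ≤ P ^ 4 := by
      have e1 : |(r : ℝ)| = (r.natAbs : ℝ) := by
        rw [← Int.cast_abs, Int.abs_eq_natAbs]; simp
      have e2 : v ^ (-2 : ℝ) ≤ (P : ℝ) ^ 4 := by
        have e3 : v ^ (-2 : ℝ) = (v ^ (-(1 / 2) : ℝ)) ^ 4 := by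
          rw [← Real.rpow_natCast, ← Real.rpow_mul hv.le]; norm_num
        rw [e3]
        exact pow_le_pow_left₀ (by positivity) hPl 4
      have e4 : (r.natAbs : ℝ) ≤ (P : ℝ) ^ 4 := by rw [← e1]; exact hrv.trans e2
      exact_mod_cast e4
    have hfew := few_primes M P hP2n r hr hrP
    have hlogP : 0 < Real.log P := Real.log_pos (by
      have : (2 : ℝ) ≤ P := by exact_mod_cast hP2n
      linarith)
    have hcardP : 8 * (P : ℝ) ^ (1 / 2 : ℝ) ≤ 16 / cc * ((QQ M P).card : ℝ) := by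
      have e1 : Real.log P ≤ 2 * (P : ℝ) ^ (1 / 2 : ℝ) := by
        have := Real.log_le_rpow_div hPpos.le (show (0 : ℝ) < 1 / 2 by norm_num)
        refine this.trans (le_of_eq ?_)
        ring
      have e2 : (P : ℝ) ^ (1 / 2 : ℝ) * (P : ℝ) ^ (1 / 2 : ℝ) = P := by
        rw [← Real.rpow_add hPpos]; norm_num
      have e3 : cc / 2 * (P : ℝ) ^ (1 / 2 : ℝ) ≤ cc * P / Real.log P := by
        rw [le_div_iff₀ hlogP]
        have e4 : 0 < (P : ℝ) ^ (1 / 2 : ℝ) := by positivity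
        calc cc / 2 * (P : ℝ) ^ (1 / 2 : ℝ) * Real.log P ≤
              cc / 2 * (P : ℝ) ^ (1 / 2 : ℝ) * (2 * (P : ℝ) ^ (1 / 2 : ℝ)) := by gcongr
          _ = cc * ((P : ℝ) ^ (1 / 2 : ℝ) * (P : ℝ) ^ (1 / 2 : ℝ)) := by ring
          _ = cc * P := by rw [e2]
      have e5 := e3.trans hcd
      calc 8 * (P : ℝ) ^ (1 / 2 : ℝ) = 16 / cc * (cc / 2 * (P : ℝ) ^ (1 / 2 : ℝ)) := by
            field_simp; ring
        _ ≤ 16 / cc * ((QQ M P).card : ℝ) := by gcongr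
    have hsum4 : ∑ p ∈ PP M P, (B1 + if (p : ℤ) ∣ r then B1 * (4 * P : ℝ) ^ (1 / 2 : ℝ) else 0) ≤
        ((QQ M P).card : ℝ) * (B1 * (1 + 16 / cc)) := by
      rw [Finset.sum_add_distrib, Finset.sum_const, nsmul_eq_mul, ← Finset.sum_filter, Finset.sum_const,
        nsmul_eq_mul, ← QQ_card M P hM1]
      have e1 : (((PP M P).filter (fun p : ℕ => (p : ℤ) ∣ r)).card : ℝ) ≤ 4 := by exact_mod_cast hfew
      have e2 : (4 * P : ℝ) ^ (1 / 2 : ℝ) = 2 * (P : ℝ) ^ (1 / 2 : ℝ) := by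
        rw [Real.mul_rpow (by norm_num) hPpos.le]
        congr 1
        rw [show (4 : ℝ) = 2 ^ (2 : ℝ) by norm_num, ← Real.rpow_mul (by norm_num)]
        norm_num
      rw [e2]
      calc ((QQ M P).card : ℝ) * B1 + (((PP M P).filter (fun p : ℕ => (p : ℤ) ∣ r)).card : ℝ) *
            (B1 * (2 * (P : ℝ) ^ (1 / 2 : ℝ))) ≤
            ((QQ M P).card : ℝ) * B1 + 4 * (B1 * (2 * (P : ℝ) ^ (1 / 2 : ℝ))) := by gcongr
        _ = ((QQ M P).card : ℝ) * B1 + B1 * (8 * (P : ℝ) ^ (1 / 2 : ℝ)) := by ring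
        _ ≤ ((QQ M P).card : ℝ) * B1 + B1 * (16 / cc * ((QQ M P).card : ℝ)) := by gcongr
        _ = _ := by ring
    have hmain : ‖((1 / (Lam M P : ℝ) : ℝ) : ℂ) *
      ∑ q ∈ QQ M P, ∑ a ∈ (Finset.range q).filter (fun a => a.Coprime q),
        ∫ β in (-(1 / 2) : ℝ)..(1 / 2), g (a / q + β) * (fej H β : ℂ)‖ ≤
        (B1 * (1 + 16 / cc)) / P + G * v ^ (-(k : ℝ)) * (Real.pi / (2 * H * η)) := by
      rw [norm_mul, Complex.norm_real, Real.norm_of_nonneg (by positivity)]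
      have m1 : ‖∑ q ∈ QQ M P, ∑ a ∈ (Finset.range q).filter (fun a => a.Coprime q),
        ∫ β in (-(1 / 2) : ℝ)..(1 / 2), g (a / q + β) * (fej H β : ℂ)‖ ≤
          (QQ M P).card * (B1 * (1 + 16 / cc)) + Lam M P * (G * v ^ (-(k : ℝ)) * (Real.pi / (2 * H * η))) := by
        rw [QQ_sum M P hM1]
        refine (norm_sum_le _ _).trans ((Finset.sum_le_sum hQ).trans ?_)
        rw [Finset.sum_add_distrib, ← Finset.sum_mul]
        have e1 : ∑ p ∈ PP M P, ((M * p).totient : ℝ) = Lam M P := by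
          unfold Lam
          rw [QQ_sum M P hM1 (fun q => (q.totient : ℝ))]
        rw [e1]
        linarith
      have m2 : ((QQ M P).card : ℝ) * (B1 * (1 + 16 / cc)) ≤ Lam M P * ((B1 * (1 + 16 / cc)) / P) := by
        calc ((QQ M P).card : ℝ) * (B1 * (1 + 16 / cc)) = ((QQ M P).card * P) * ((B1 * (1 + 16 / cc)) / P) := by
              field_simp
          _ ≤ Lam M P * ((B1 * (1 + 16 / cc)) / P) := by gcongr
      calc 1 / Lam M P * ‖∑ q ∈ QQ M P, ∑ a ∈ (Finset.range q).filter (fun a => a.Coprime q),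
            ∫ β in (-(1 / 2) : ℝ)..(1 / 2), g (a / q + β) * (fej H β : ℂ)‖
          ≤ 1 / Lam M P * (Lam M P * ((B1 * (1 + 16 / cc)) / P) +
              Lam M P * (G * v ^ (-(k : ℝ)) * (Real.pi / (2 * H * η)))) := by
            gcongr; linarith
        _ = (B1 * (1 + 16 / cc)) / P + G * v ^ (-(k : ℝ)) * (Real.pi / (2 * H * η)) := by field_simp
    have hB1' : (B1 * (1 + 16 / cc)) / P ≤ 4096 * C2 * X ^ A * v ^ ((1 / 640 : ℝ) - k) := by
      have m1 : (16 * v ^ (19 / 40 : ℝ)) ^ (5 / 2 : ℝ) = 1024 * v ^ (19 / 16 : ℝ) := by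
        rw [Real.mul_rpow (by norm_num) (by positivity), ← Real.rpow_mul hv.le]
        have : (16 : ℝ) ^ (5 / 2 : ℝ) = 1024 := by
          rw [show (16 : ℝ) = 4 ^ (2 : ℝ) by norm_num, ← Real.rpow_mul (by norm_num)]
          norm_num
        rw [this]; norm_num
      have m2 : (4 * P : ℝ) ^ (5 / 8 : ℝ) / P ≤ 4 * v ^ (3 / 16 : ℝ) := by
        rw [Real.mul_rpow (by norm_num) hPpos.le]
        have n1 : (4 : ℝ) ^ (5 / 8 : ℝ) ≤ 4 := by
          calc (4 : ℝ) ^ (5 / 8 : ℝ) ≤ 4 ^ (1 : ℝ) := Real.rpow_le_rpow_of_exponent_le (by norm_num) (by norm_num)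
            _ = 4 := Real.rpow_one 4
        have n2 : (P : ℝ) ^ (5 / 8 : ℝ) / P = (P : ℝ) ^ (-(3 / 8) : ℝ) := by
          rw [div_eq_mul_inv, ← Real.rpow_neg_one (P : ℝ), ← Real.rpow_add hPpos]; norm_num
        have n3 := hPpow (3 / 8) (by norm_num)
        rw [show (3 / 8 : ℝ) / 2 = 3 / 16 by norm_num] at n3
        calc (4 : ℝ) ^ (5 / 8 : ℝ) * (P : ℝ) ^ (5 / 8 : ℝ) / P = (4 : ℝ) ^ (5 / 8 : ℝ) * ((P : ℝ) ^ (5 / 8 : ℝ) / P) := by
              ring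
          _ ≤ 4 * v ^ (3 / 16 : ℝ) := by rw [n2]; gcongr
      have m3 : v ^ (19 / 16 : ℝ) * v ^ (-((k : ℝ) + 5 / 4)) * v ^ (3 / 16 : ℝ) = v ^ (1 / 8 : ℝ) * v ^ (-(k : ℝ)) := by
        rw [← Real.rpow_add hv, ← Real.rpow_add hv, ← Real.rpow_add hv]; congr 1; ring
      have m4 := hvmono (1 / 8) (by norm_num)
      calc (B1 * (1 + 16 / cc)) / P = C2 * X ^ A * (1024 * v ^ (19 / 16 : ℝ)) * v ^ (-((k : ℝ) + 5 / 4)) *
            ((4 * P : ℝ) ^ (5 / 8 : ℝ) / P) := by rw [hB1, m1, hC2def]; ring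
        _ ≤ C2 * X ^ A * (1024 * v ^ (19 / 16 : ℝ)) * v ^ (-((k : ℝ) + 5 / 4)) * (4 * v ^ (3 / 16 : ℝ)) := by gcongr
        _ = 4096 * C2 * X ^ A * (v ^ (19 / 16 : ℝ) * v ^ (-((k : ℝ) + 5 / 4)) * v ^ (3 / 16 : ℝ)) := by ring
        _ = 4096 * C2 * X ^ A * (v ^ (1 / 8 : ℝ) * v ^ (-(k : ℝ))) := by rw [m3]
        _ ≤ 4096 * C2 * X ^ A * (v ^ (1 / 640 : ℝ) * v ^ (-(k : ℝ))) := by gcongr
        _ = 4096 * C2 * X ^ A * v ^ ((1 / 640 : ℝ) - k) := by rw [hck]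
    have hT : G * v ^ (-(k : ℝ)) * (Real.pi / (2 * H * η)) ≤ 2 * G * X ^ A * v ^ ((1 / 640 : ℝ) - k) := by
      have m1 : 1 / (H : ℝ) ≤ v ^ (79 / 80 : ℝ) := by
        calc 1 / (H : ℝ) ≤ 1 / (P : ℝ) ^ (79 / 40 : ℝ) := one_div_le_one_div_of_le (by positivity) hHl
          _ = (P : ℝ) ^ (-(79 / 40) : ℝ) := by rw [Real.rpow_neg hPpos.le, one_div]
          _ ≤ v ^ (79 / 40 / 2 : ℝ) := hPpow _ (by norm_num)
          _ = v ^ (79 / 80 : ℝ) := by norm_num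
      have m2 : 1 / η = v ^ (-(39 / 40) : ℝ) := by rw [hη, Real.rpow_neg hv.le, one_div]
      have m3 : v ^ (79 / 80 : ℝ) * v ^ (-(39 / 40) : ℝ) = v ^ (1 / 80 : ℝ) := by
        rw [← Real.rpow_add hv]; norm_num
      have m4 := hvmono (1 / 80) (by norm_num)
      have m5 : Real.pi / (2 * H * η) = (Real.pi / 2) * ((1 / (H : ℝ)) * (1 / η)) := by
        have : (H : ℝ) ≠ 0 := by positivity
        field_simp
      have m6 : (1 / (H : ℝ)) * (1 / η) ≤ v ^ (1 / 640 : ℝ) := by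
        rw [m2]
        calc 1 / (H : ℝ) * v ^ (-(39 / 40) : ℝ) ≤ v ^ (79 / 80 : ℝ) * v ^ (-(39 / 40) : ℝ) := by gcongr
          _ = v ^ (1 / 80 : ℝ) := m3
          _ ≤ _ := m4
      have m7 : Real.pi / 2 ≤ 2 := by linarith [Real.pi_le_four]
      rw [m5, hck]
      calc G * v ^ (-(k : ℝ)) * (Real.pi / 2 * (1 / (H : ℝ) * (1 / η))) ≤
            G * v ^ (-(k : ℝ)) * (2 * v ^ (1 / 640 : ℝ)) := by gcongr
        _ = 2 * G * 1 * (v ^ (1 / 640 : ℝ) * v ^ (-(k : ℝ))) := by ring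
        _ ≤ 2 * G * X ^ A * (v ^ (1 / 640 : ℝ) * v ^ (-(k : ℝ))) := by gcongr
    have hfin : ‖∫ x in (0 : ℝ)..1, g x‖ ≤ 320 * C1 * N * G * X ^ A * v ^ ((1 / 640 : ℝ) - k) +
        (4096 * C2 * X ^ A * v ^ ((1 / 640 : ℝ) - k) + 2 * G * X ^ A * v ^ ((1 / 640 : ℝ) - k)) := by
      have h3 := hJ3.trans hE
      have h4 := hmain.trans (add_le_add hB1' hT)
      calc ‖∫ x in (0 : ℝ)..1, g x‖ = ‖((∫ x in (0 : ℝ)..1, g x) - ((1 / (Lam M P : ℝ) : ℝ) : ℂ) *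
            ∑ q ∈ QQ M P, ∑ a ∈ (Finset.range q).filter (fun a => a.Coprime q),
              ∫ β in (-(1 / 2) : ℝ)..(1 / 2), g (a / q + β) * (fej H β : ℂ)) + ((1 / (Lam M P : ℝ) : ℝ) : ℂ) *
            ∑ q ∈ QQ M P, ∑ a ∈ (Finset.range q).filter (fun a => a.Coprime q),
              ∫ β in (-(1 / 2) : ℝ)..(1 / 2), g (a / q + β) * (fej H β : ℂ)‖ := by rw [sub_add_cancel]
        _ ≤ _ := (norm_add_le _ _).trans (add_le_add h3 h4)
    refine hfin.trans ?_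
    have h9 : 0 < v ^ ((1 / 640 : ℝ) - k) := by positivity
    have h10 : 0 ≤ G * (N + P0) * X ^ A * v ^ ((1 / 640 : ℝ) - k) := by positivity
    have h11 : (G * (N + P0) + 320 * C1 * N * G + 4096 * C2 + 2 * G) * X ^ A * v ^ ((1 / 640 : ℝ) - k) =
        G * (N + P0) * X ^ A * v ^ ((1 / 640 : ℝ) - k) + (320 * C1 * N * G * X ^ A * v ^ ((1 / 640 : ℝ) - k) +
        (4096 * C2 * X ^ A * v ^ ((1 / 640 : ℝ) - k) + 2 * G * X ^ A * v ^ ((1 / 640 : ℝ) - k))) := by ring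
    rw [h11]
    exact le_add_of_nonneg_left h10

end Pool.Agent.K9h29.ZD
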