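import Pool.Agent.Y412.GL.RYP
import Pool.Agent.K9h29.ZD.SCU

set_option autoImplicit false

/-!
# Fourier coefficients of the mollified form, uniformly in the frequency (K9h29, from `Y412.GL.RYP`)
-/

namespace Pool.Agent.K9h29.ZD

open Complex Finset MeasureTheory
open scoped ComplexConjugate
open Pool.Agent.Y671.GL Pool.Agent.Y412.GLB Pool.Agent.Y412.GLP
open Pool.Agent.H24R2.DZ (ray)

variable {k N : ℕ} {ps lam : ℕ → ℂ}

/-- the integral of the pure product -/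
theorem PP_coefU (h0 : S_SCU) (hF : Frm k N ps lam) : ∃ c C A : ℝ, 0 < c ∧ c ≤ 1 / 2 ∧ 0 < C ∧ 1 ≤ A ∧
    ∀ (y : ℕ) (b : ℕ → ℂ) (v : ℝ) (r : ℤ), 1 ≤ y → 0 < v → v ≤ 1 → r ≠ 0 → |(r : ℝ)| ≤ v ^ (-2 : ℝ) →
    ‖∫ u in (0 : ℝ)..(2 * Real.pi), PP k y lam b (v + u * I) * conj (PP k y lam b (v + u * I)) *
      cexp (I * r * u)‖ ≤ C * (y : ℝ) ^ A * v ^ (c - k) *
        (∑ h ∈ Finset.Icc 1 y, ‖b h‖) ^ 2 := by
  obtain ⟨c, C, A, hc, hC, hA, hS⟩ := h0 k N ps lam hF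
  have hk : (1 : ℝ) ≤ k := by exact_mod_cast hF.k_pos
  refine ⟨min c (1 / 2), 2 * Real.pi * C, (k - 1) + 2 * A, lt_min hc (by norm_num), min_le_right _ _,
    by positivity, by linarith, ?_⟩
  intro y b v r hy hv hv1 hr hrv
  have hy' : (1 : ℝ) ≤ y := by exact_mod_cast hy
  have hexp : ∀ u : ℝ, PP k y lam b (v + u * I) * conj (PP k y lam b (v + u * I)) *
      cexp (I * r * u) = ∑ h ∈ Finset.Icc 1 y, ∑ l ∈ Finset.Icc 1 y,
      (b h * (((h : ℝ) ^ (((k : ℝ) - 1) / 2) : ℝ) : ℂ) *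
        (conj (b l) * (((l : ℝ) ^ (((k : ℝ) - 1) / 2) : ℝ) : ℂ))) *
        (Ph k lam (h * (v + u * I)) * conj (Ph k lam (l * (v + u * I))) * cexp (I * r * u)) := by
    intro u
    unfold PP
    rw [map_sum, Finset.sum_mul_sum, Finset.sum_mul]
    refine Finset.sum_congr rfl fun h _ => ?_
    rw [Finset.sum_mul]
    refine Finset.sum_congr rfl fun l _ => ?_
    rw [map_mul, map_mul, Complex.conj_ofReal]
    ring
  have hcont : ∀ h ∈ Finset.Icc 1 y, ∀ l ∈ Finset.Icc 1 y, Continuous (fun u : ℝ =>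
      Ph k lam (h * (v + u * I)) * conj (Ph k lam (l * (v + u * I))) * cexp (I * r * u)) := by
    intro h hh l hl
    rw [Finset.mem_Icc] at hh hl
    exact ((cont_Ph hF h hh.1 hv).mul (Complex.continuous_conj.comp (cont_Ph hF l hl.1 hv))).mul
      (by fun_prop)
  simp_rw [hexp]
  rw [intervalIntegral.integral_finsetSum (fun h hh => by
    apply Continuous.intervalIntegrable
    exact continuous_finsetSum _ fun l hl => (hcont h hh l hl).const_mul _)]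
  have hinner : ∀ h ∈ Finset.Icc 1 y, ∫ u in (0 : ℝ)..(2 * Real.pi), ∑ l ∈ Finset.Icc 1 y,
      (b h * (((h : ℝ) ^ (((k : ℝ) - 1) / 2) : ℝ) : ℂ) *
        (conj (b l) * (((l : ℝ) ^ (((k : ℝ) - 1) / 2) : ℝ) : ℂ))) *
        (Ph k lam (h * (v + u * I)) * conj (Ph k lam (l * (v + u * I))) * cexp (I * r * u)) =
      ∑ l ∈ Finset.Icc 1 y, (b h * (((h : ℝ) ^ (((k : ℝ) - 1) / 2) : ℝ) : ℂ) *
        (conj (b l) * (((l : ℝ) ^ (((k : ℝ) - 1) / 2) : ℝ) : ℂ))) *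
        ((2 * Real.pi : ℝ) • ∫ x in (0 : ℝ)..1, gg k lam h l r v x) := by
    intro h hh
    rw [intervalIntegral.integral_finsetSum (fun l hl =>
      ((hcont h hh l hl).const_mul _).intervalIntegrable _ _)]
    refine Finset.sum_congr rfl fun l hl => ?_
    rw [intervalIntegral.integral_const_mul, int_two_pi]
    congr 2
    refine intervalIntegral.integral_congr fun x _ => ?_
    unfold gg
    have e1 : ((v : ℂ) + ((2 * Real.pi * x : ℝ) : ℂ) * I) = v + 2 * Real.pi * I * x := by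
      push_cast; ring
    have e2 : (I * r * ((2 * Real.pi * x : ℝ) : ℂ)) = 2 * Real.pi * I * r * x := by
      push_cast; ring
    simp only [e1, e2]
  rw [Finset.sum_congr rfl hinner]
  -- the bound
  set B : ℝ := v ^ (c - k) with hB
  have hterm : ∀ h ∈ Finset.Icc 1 y, ∀ l ∈ Finset.Icc 1 y,
      ‖(b h * (((h : ℝ) ^ (((k : ℝ) - 1) / 2) : ℝ) : ℂ) *
        (conj (b l) * (((l : ℝ) ^ (((k : ℝ) - 1) / 2) : ℝ) : ℂ))) *
        ((2 * Real.pi : ℝ) • ∫ x in (0 : ℝ)..1, gg k lam h l r v x)‖ ≤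
      (2 * Real.pi * C * B * (y : ℝ) ^ ((k : ℝ) - 1 + 2 * A)) * (‖b h‖ * ‖b l‖) := by
    intro h hh l hl
    rw [Finset.mem_Icc] at hh hl
    have hh' : (1 : ℝ) ≤ h := by exact_mod_cast hh.1
    have hl' : (1 : ℝ) ≤ l := by exact_mod_cast hl.1
    have hhy : (h : ℝ) ≤ y := by exact_mod_cast hh.2
    have hly : (l : ℝ) ≤ y := by exact_mod_cast hl.2
    have h1 := hS h l r v hh.1 hl.1 hr hv hv1 hrv
    rw [norm_mul, norm_mul, norm_mul, norm_mul, norm_smul, RCLike.norm_conj, Complex.norm_real,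
      Complex.norm_real, Real.norm_of_nonneg (r := (h : ℝ) ^ (((k : ℝ) - 1) / 2)) (by positivity),
      Real.norm_of_nonneg (r := (l : ℝ) ^ (((k : ℝ) - 1) / 2)) (by positivity),
      Real.norm_of_nonneg (r := 2 * Real.pi) (by positivity)]
    have e1 : (h * l : ℝ) ^ A = (h : ℝ) ^ A * (l : ℝ) ^ A := by
      rw [Real.mul_rpow (by positivity) (by positivity)]
    rw [e1] at h1
    have e2 : ∀ m : ℝ, 1 ≤ m → m ≤ y → m ^ (((k : ℝ) - 1) / 2) * m ^ A ≤
        (y : ℝ) ^ (((k : ℝ) - 1) / 2 + A) := by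
      intro m hm hmy
      rw [← Real.rpow_add (by linarith)]
      exact Real.rpow_le_rpow (by linarith) hmy (by linarith)
    have e3 : (y : ℝ) ^ ((k : ℝ) - 1 + 2 * A) =
        (y : ℝ) ^ (((k : ℝ) - 1) / 2 + A) * (y : ℝ) ^ (((k : ℝ) - 1) / 2 + A) := by
      rw [← Real.rpow_add (by linarith)]
      congr 1
      ring
    calc _ ≤ ‖b h‖ * (h : ℝ) ^ (((k : ℝ) - 1) / 2) * (‖b l‖ * (l : ℝ) ^ (((k : ℝ) - 1) / 2)) *
          (2 * Real.pi * (C * ((h : ℝ) ^ A * (l : ℝ) ^ A) * v ^ (c - k))) := by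
          apply mul_le_mul_of_nonneg_left _ (by positivity)
          exact mul_le_mul_of_nonneg_left h1 (by positivity)
      _ = (2 * Real.pi * C * B) * (((h : ℝ) ^ (((k : ℝ) - 1) / 2) * (h : ℝ) ^ A) *
          ((l : ℝ) ^ (((k : ℝ) - 1) / 2) * (l : ℝ) ^ A)) * (‖b h‖ * ‖b l‖) := by
          ring
      _ ≤ (2 * Real.pi * C * B) * ((y : ℝ) ^ (((k : ℝ) - 1) / 2 + A) *
          (y : ℝ) ^ (((k : ℝ) - 1) / 2 + A)) * (‖b h‖ * ‖b l‖) := by
          apply mul_le_mul_of_nonneg_right _ (by positivity)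
          apply mul_le_mul_of_nonneg_left _ (by positivity)
          exact mul_le_mul (e2 h hh' hhy) (e2 l hl' hly) (by positivity) (by positivity)
      _ = _ := by rw [e3]
  have hsum : ‖∑ h ∈ Finset.Icc 1 y, ∑ l ∈ Finset.Icc 1 y,
      (b h * (((h : ℝ) ^ (((k : ℝ) - 1) / 2) : ℝ) : ℂ) *
        (conj (b l) * (((l : ℝ) ^ (((k : ℝ) - 1) / 2) : ℝ) : ℂ))) *
        ((2 * Real.pi : ℝ) • ∫ x in (0 : ℝ)..1, gg k lam h l r v x)‖ ≤
      (2 * Real.pi * C * B * (y : ℝ) ^ ((k : ℝ) - 1 + 2 * A)) *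
        (∑ h ∈ Finset.Icc 1 y, ‖b h‖) ^ 2 := by
    rw [sq, Finset.sum_mul_sum, Finset.mul_sum]
    refine norm_sum_le_of_le _ fun h hh => ?_
    rw [Finset.mul_sum]
    exact norm_sum_le_of_le _ fun l hl => hterm h hh l hl
  refine hsum.trans ?_
  apply mul_le_mul_of_nonneg_right _ (by positivity)
  have e4 : v ^ (c - k) ≤ v ^ (min c (1 / 2) - k) :=
    Real.rpow_le_rpow_of_exponent_ge hv hv1 (by linarith [min_le_left c (1 / 2)])
  rw [hB]
  calc 2 * Real.pi * C * v ^ (c - k) * (y : ℝ) ^ ((k : ℝ) - 1 + 2 * A)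
      ≤ 2 * Real.pi * C * v ^ (min c (1 / 2) - k) *
        (y : ℝ) ^ ((k : ℝ) - 1 + 2 * A) := by gcongr
    _ = _ := by ring

theorem GF_coefU (h0 : S_SCU) (hF : Frm k N ps lam) : ∃ c C A : ℝ, 0 < c ∧ c ≤ 1 / 2 ∧ 0 < C ∧ 1 ≤ A ∧
    ∀ (y : ℕ) (b : ℕ → ℂ) (v : ℝ) (r : ℤ), 1 ≤ y → 0 < v → v ≤ 1 → r ≠ 0 → |(r : ℝ)| ≤ v ^ (-2 : ℝ) →
    ‖∫ u in (0 : ℝ)..(2 * Real.pi), ((‖GF k y lam b (v + u * I)‖ ^ 2 : ℝ) : ℂ) *
      cexp (I * r * u)‖ ≤ C * (y : ℝ) ^ A * v ^ (c - k) *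
        ∑ h ∈ Finset.Icc 1 y, ‖b h‖ ^ 2 := by
  obtain ⟨c, C, A, hc, hc2, hC, hA, hS⟩ := PP_coefU h0 hF
  obtain ⟨C1, hC1, hP⟩ := PP_bd hF
  have hk : (1 : ℝ) ≤ k := by exact_mod_cast hF.k_pos
  refine ⟨c, C + 4 * Real.pi * C1, A + 1, hc, hc2, by positivity, by linarith, ?_⟩
  intro y b v r hy hv hv1 hr hrv
  have hy' : (1 : ℝ) ≤ y := by exact_mod_cast hy
  set S1 : ℝ := ∑ h ∈ Finset.Icc 1 y, ‖b h‖ with hS1
  set S2 : ℝ := ∑ h ∈ Finset.Icc 1 y, ‖b h‖ ^ 2 with hS2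
  have hS10 : 0 ≤ S1 := Finset.sum_nonneg fun h _ => norm_nonneg _
  have hS20 : 0 ≤ S2 := Finset.sum_nonneg fun h _ => by positivity
  have hb1 : ‖b 1‖ ≤ S1 := by
    rw [hS1]
    exact Finset.single_le_sum (f := fun h => ‖b h‖) (fun h _ => norm_nonneg _)
      (Finset.mem_Icc.2 ⟨le_refl _, hy⟩)
  have hexp : ∀ u : ℝ, ((‖GF k y lam b (v + u * I)‖ ^ 2 : ℝ) : ℂ) * cexp (I * r * u) =
      PP k y lam b (v + u * I) * conj (PP k y lam b (v + u * I)) * cexp (I * r * u) -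
      (PP k y lam b (v + u * I) * conj (b 1 * cexp (-((v : ℂ) + u * I))) +
        b 1 * cexp (-((v : ℂ) + u * I)) * conj (PP k y lam b (v + u * I))) * cexp (I * r * u) +
      (b 1 * conj (b 1) * (Real.exp (-(2 * v)) : ℂ)) * cexp (I * r * u) := by
    intro u
    have e1 : ((‖GF k y lam b (v + u * I)‖ ^ 2 : ℝ) : ℂ) =
        GF k y lam b (v + u * I) * conj (GF k y lam b (v + u * I)) := by
      rw [Complex.mul_conj']; push_cast; rfl
    have e2 : GF k y lam b (v + u * I) =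
        PP k y lam b (v + u * I) - b 1 * cexp (-((v : ℂ) + u * I)) := rfl
    have e3 : cexp (-((v : ℂ) + u * I)) * conj (cexp (-((v : ℂ) + u * I))) =
        (Real.exp (-(2 * v)) : ℂ) := by
      rw [Complex.mul_conj', Complex.norm_exp]
      have : (-((v : ℂ) + u * I)).re = -v := by simp
      rw [this, ← Complex.ofReal_pow, ← Real.exp_nat_mul]
      congr 2
      push_cast
      ring
    rw [e1, e2, map_sub, map_mul (starRingEnd ℂ) (b 1), ← e3]
    ring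
  simp_rw [hexp]
  have hcP := cont_PP (b := b) hF y hv
  have hcPc : Continuous (fun u : ℝ => conj (PP k y lam b (v + u * I))) :=
    Complex.continuous_conj.comp hcP
  have hcE : Continuous (fun u : ℝ => b 1 * cexp (-((v : ℂ) + u * I))) := by fun_prop
  have hcEc : Continuous (fun u : ℝ => conj (b 1 * cexp (-((v : ℂ) + u * I)))) :=
    Complex.continuous_conj.comp hcE
  have hce : Continuous (fun u : ℝ => cexp (I * r * u)) := by fun_prop
  have hi1 : IntervalIntegrable (fun u : ℝ => PP k y lam b (v + u * I) *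
      conj (PP k y lam b (v + u * I)) * cexp (I * r * u)) volume 0 (2 * Real.pi) :=
    ((hcP.mul hcPc).mul hce).intervalIntegrable _ _
  have hi2 : IntervalIntegrable (fun u : ℝ =>
      (PP k y lam b (v + u * I) * conj (b 1 * cexp (-((v : ℂ) + u * I))) +
        b 1 * cexp (-((v : ℂ) + u * I)) * conj (PP k y lam b (v + u * I))) * cexp (I * r * u))
      volume 0 (2 * Real.pi) :=
    (((hcP.mul hcEc).add (hcE.mul hcPc)).mul hce).intervalIntegrable _ _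
  have hi3 : IntervalIntegrable (fun u : ℝ =>
      (b 1 * conj (b 1) * (Real.exp (-(2 * v)) : ℂ)) * cexp (I * r * u)) volume 0 (2 * Real.pi) :=
    (hce.const_mul _).intervalIntegrable _ _
  rw [intervalIntegral.integral_add (hi1.sub hi2) hi3, intervalIntegral.integral_sub hi1 hi2,
    intervalIntegral.integral_const_mul, int_exp_two_pi r hr, mul_zero, add_zero]
  have hb2 : ‖∫ u in (0 : ℝ)..(2 * Real.pi),
      (PP k y lam b (v + u * I) * conj (b 1 * cexp (-((v : ℂ) + u * I))) +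
        b 1 * cexp (-((v : ℂ) + u * I)) * conj (PP k y lam b (v + u * I))) * cexp (I * r * u)‖ ≤
      (2 * (C1 * v ^ (-((k : ℝ) / 2)) * S1 * S1)) * |2 * Real.pi - 0| := by
    apply intervalIntegral.norm_integral_le_of_norm_le_const
    intro u _
    have n1 : ‖cexp (I * r * u)‖ = 1 := by
      rw [show (I * r * u : ℂ) = ((r * u : ℝ) : ℂ) * I by push_cast; ring]
      exact Complex.norm_exp_ofReal_mul_I _
    have n2 : ‖b 1 * cexp (-((v : ℂ) + u * I))‖ ≤ S1 := by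
      rw [norm_mul, Complex.norm_exp]
      have : (-((v : ℂ) + u * I)).re = -v := by simp
      rw [this]
      have : Real.exp (-v) ≤ 1 := by rw [Real.exp_le_one_iff]; linarith
      nlinarith [norm_nonneg (b 1)]
    have n3 := hP y b v u hv
    rw [norm_mul, n1, mul_one]
    refine (norm_add_le _ _).trans ?_
    rw [norm_mul, norm_mul, RCLike.norm_conj, RCLike.norm_conj]
    have n4 : ‖PP k y lam b (v + u * I)‖ * ‖b 1 * cexp (-((v : ℂ) + u * I))‖ ≤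
        (C1 * v ^ (-((k : ℝ) / 2)) * S1) * S1 :=
      mul_le_mul n3 n2 (norm_nonneg _) (by positivity)
    linarith [mul_comm ‖PP k y lam b (v + u * I)‖ ‖b 1 * cexp (-((v : ℂ) + u * I))‖]
  refine (norm_sub_le _ _).trans ?_
  have h1 := hS y b v r hy hv hv1 hr hrv
  have hl1 := l1_sq y b
  have e1 : v ^ (-((k : ℝ) / 2)) ≤ v ^ (c - k) :=
    Real.rpow_le_rpow_of_exponent_ge hv hv1 (by linarith)
  have e2 : (1 : ℝ) ≤ (y : ℝ) ^ A := Real.one_le_rpow hy' (by linarith)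
  have e3 : (y : ℝ) ^ (A + 1) = (y : ℝ) ^ A * (y : ℝ) := by
    rw [Real.rpow_add (by linarith), Real.rpow_one]
  have hS1S2 : S1 ^ 2 ≤ (y : ℝ) * S2 := hl1
  have hvp : 0 < v ^ (c - k) := by positivity
  calc _ ≤ C * (y : ℝ) ^ A * v ^ (c - k) * S1 ^ 2 +
        (2 * (C1 * v ^ (-((k : ℝ) / 2)) * S1 * S1)) * |2 * Real.pi - 0| := add_le_add h1 hb2
    _ = C * (y : ℝ) ^ A * v ^ (c - k) * S1 ^ 2 +
        4 * Real.pi * C1 * v ^ (-((k : ℝ) / 2)) * S1 ^ 2 := by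
        rw [sub_zero, abs_of_pos Real.two_pi_pos]; ring
    _ ≤ C * (y : ℝ) ^ A * v ^ (c - k) * S1 ^ 2 +
        4 * Real.pi * C1 * ((y : ℝ) ^ A * v ^ (c - k)) * S1 ^ 2 := by
        apply add_le_add_right
        apply mul_le_mul_of_nonneg_right _ (by positivity)
        apply mul_le_mul_of_nonneg_left _ (by positivity)
        nlinarith
    _ = (C + 4 * Real.pi * C1) * (y : ℝ) ^ A * v ^ (c - k) * S1 ^ 2 := by ring
    _ ≤ (C + 4 * Real.pi * C1) * (y : ℝ) ^ A * v ^ (c - k) *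
        ((y : ℝ) * S2) := mul_le_mul_of_nonneg_left hS1S2 (by positivity)
    _ = _ := by rw [e3]; ring

end Pool.Agent.K9h29.ZD
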