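import Pool.Agent.K9h29.ZD.QRyp

set_option autoImplicit false

/-!
# The ray integral, primal range, averaged over the fractions `j / q`: sum over the blocks
-/

namespace Pool.Agent.K9h29.ZD

open Complex Finset MeasureTheory
open scoped ComplexConjugate
open Pool.Agent.Y671.GL Pool.Agent.Y412.GLB Pool.Agent.Y412.GLP
open Pool.Agent.H24R2.DZ (ray)

variable {k N : ℕ} {ps lam : ℕ → ℂ}

/-- the sum over the fractions `j / q` of the squares on the ray -/
noncomputable def SQ (k y : ℕ) (lam b : ℕ → ℂ) (q : ℕ) (δ x : ℝ) : ℝ :=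
  ∑ j ∈ Finset.range q, ‖GF k y lam b (ray δ x + 2 * Real.pi * I * j / q)‖ ^ 2

/-- the primal main term -/
noncomputable def WW (lam b : ℕ → ℂ) (σ e : ℝ) : ℝ :=
  ∑' n : ℕ, if n ≤ 1 then 0 else ‖cn lam b n‖ ^ 2 * (n : ℝ) ^ (-(2 * σ)) * Real.exp (-(n * e))

theorem SQ_nonneg (y : ℕ) (b : ℕ → ℂ) (q : ℕ) (δ x : ℝ) : 0 ≤ SQ k y lam b q δ x :=
  Finset.sum_nonneg fun j _ => by positivity

theorem SQ_cont (hF : Frm k N ps lam) (y : ℕ) (b : ℕ → ℂ) (q : ℕ) {δ : ℝ} (hδ : 0 < Real.sin δ) :
    ContinuousOn (fun x : ℝ => SQ k y lam b q δ x) (Set.Ioi 0) := by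
  have hrc : Continuous (ray δ) := by unfold ray; fun_prop
  unfold SQ
  refine continuousOn_finset_sum _ fun j _ => ?_
  intro x hx
  have hx' : (0 : ℝ) < x := hx
  have hre : 0 < (ray δ x + 2 * Real.pi * I * j / q : ℂ).re := by rw [re_shift, ray_re]; positivity
  have h1 : ContinuousAt (fun x : ℝ => ray δ x + 2 * Real.pi * I * j / q) x := by fun_prop
  exact ((ContinuousAt.comp (f := fun x : ℝ => ray δ x + 2 * Real.pi * I * j / q)
    (GF_diff hF y b hre).continuousAt h1).norm.pow 2).continuousWithinAt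

theorem rypq (h0 : S_SCU) (h2 : S_RTA) (h3 : S_FJ1) (hF : Frm k N ps lam) :
    ∃ c C A : ℝ, 0 < c ∧ c ≤ 1 / 2 ∧ 0 < C ∧ 1 ≤ A ∧ ∀ (q : ℕ) (T σ x0 : ℝ) (y : ℕ) (b : ℕ → ℂ), 1 ≤ q → 10 ≤ T →
    1 ≤ y → 1 / 2 ≤ σ → σ ≤ 3 / 2 → 0 < x0 → x0 ≤ 1 → (∀ h, y < h → b h = 0) →
    IntegrableOn (fun x : ℝ => SQ k y lam b q (1 / T) x * x ^ (2 * σ + k - 2)) (Set.Ioi (x0 / q)) ∧
    ∫ x in Set.Ioi (x0 / q), SQ k y lam b q (1 / T) x * x ^ (2 * σ + k - 2) ≤
      C * q * T ^ (2 * σ + k - 1) * (WW lam b σ (x0 / (C * (q * T))) +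
        (q * T) ^ (-c) * (y / x0) ^ A * ∑ h ∈ Finset.Icc 1 y, ‖b h‖ ^ 2) := by
  obtain ⟨c, C1, A, hc, hc2, hC1, hA, hblock⟩ := blockq h0 h2 h3 hF
  obtain ⟨C2, hC2, hdy⟩ := dy (k + 2)
  have hk : (1 : ℝ) ≤ k := by exact_mod_cast hF.k_pos
  set C3 : ℝ := C1 * 2 ^ ((k : ℝ) + 2) with hC3
  have hC3p : 0 < C3 := by positivity
  set CC : ℝ := C3 * C2 * 4 ^ ((k : ℝ) + 2) + 2 * C3 + 4 with hCC
  have hCCp : 0 < CC := by positivity
  refine ⟨c, CC, A + 2, hc, hc2, hCCp, by linarith, ?_⟩
  intro q T σ x0 y b hq hT hy hσ1 hσ2 hx0 hx01 hb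
  have hq0 : (0 : ℝ) < q := by exact_mod_cast hq
  have hq1 : (1 : ℝ) ≤ q := by exact_mod_cast hq
  have hT0 : 0 < T := by linarith
  have hT1 : 1 ≤ T := by linarith
  have hy' : (1 : ℝ) ≤ y := by exact_mod_cast hy
  set m : ℝ := 2 * σ + k - 1 with hm
  have hmk : (k : ℝ) ≤ m := by rw [hm]; linarith
  have hm1 : 1 ≤ m := by linarith
  have hm2 : m ≤ k + 2 := by rw [hm]; linarith
  have hm1' : 2 * σ + k - 2 = m - 1 := by rw [hm]; ring
  set S2 : ℝ := ∑ h ∈ Finset.Icc 1 y, ‖b h‖ ^ 2 with hS2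
  have hS20 : 0 ≤ S2 := Finset.sum_nonneg fun h _ => by positivity
  set f : ℝ → ℝ := fun x => SQ k y lam b q (1 / T) x * x ^ (2 * σ + k - 2) with hf
  have hδs : 0 < Real.sin (1 / T) := by
    apply Real.sin_pos_of_pos_of_lt_pi (by positivity)
    have : 1 / T ≤ 1 / 10 := one_div_le_one_div_of_le (by norm_num) hT
    linarith [Real.pi_gt_three]
  have hg : ContinuousOn (fun x : ℝ => SQ k y lam b q (1 / T) x) (Set.Ioi 0) := SQ_cont hF y b q hδs
  have hfc : ContinuousOn f (Set.Ioi 0) := by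
    refine hg.mul ?_
    intro x hx
    have hx' : (0 : ℝ) < x := hx
    exact (Real.continuousAt_rpow_const x _ (Or.inl hx'.ne')).continuousWithinAt
  have hfnn : ∀ x : ℝ, 0 < x → 0 ≤ f x := fun x hx => by
    rw [hf]
    exact mul_nonneg (SQ_nonneg _ _ _ _ _) (by positivity)
  -- dyadic points
  set z0 : ℝ := x0 / q with hz0
  have hz0p : 0 < z0 := by positivity
  set X : ℕ → ℝ := fun j => 2 ^ j * z0 with hX
  have hX0 : ∀ j, 0 < X j := fun j => by rw [hX]; positivity
  have hXs : ∀ j, X (j + 1) = 2 * X j := fun j => by rw [hX]; simp only; rw [pow_succ]; ring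
  have hXge : ∀ j, z0 ≤ X j := by
    intro j
    rw [hX]
    have : (1 : ℝ) ≤ 2 ^ j := one_le_pow₀ (by norm_num)
    nlinarith
  have hsub : ∀ a b : ℝ, 0 < a → a ≤ b → Set.uIcc a b ⊆ Set.Ioi 0 := by
    intro a b ha hab x hx
    rw [Set.uIcc_of_le hab] at hx
    exact lt_of_lt_of_le ha hx.1
  have hXle : ∀ j, X j ≤ X (j + 1) := fun j => by rw [hXs]; linarith [hX0 j]
  have hint : ∀ j, IntervalIntegrable f volume (X j) (X (j + 1)) := fun j =>
    (hfc.mono (hsub _ _ (hX0 j) (hXle j))).intervalIntegrable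
  -- one block
  set M : ℕ → ℝ := fun j => ∑' n : ℕ, ‖pc k lam b n‖ ^ 2 * Real.exp (-(n * X j / (2 * T))) with hM
  set Er : ℕ → ℝ := fun j => if q * X j < 1 then 1 / (q * X j) * (y : ℝ) ^ A * (T / X j) ^ ((k : ℝ) - c) * S2
    else 0 with hEr
  have hM0 : ∀ j, 0 ≤ M j := fun j => tsum_nonneg fun n => by positivity
  have hEr0 : ∀ j, 0 ≤ Er j := by
    intro j
    rw [hEr]
    simp only
    have := hX0 j
    split_ifs <;> positivity
  have hone : ∀ j, ∫ x in (X j)..(X (j + 1)), f x ≤ C3 * q * (X j ^ m * (M j + Er j)) := by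
    intro j
    have h1 := hblock q T (X j) y b hq hT (hX0 j) hy hb
    have h1' : ∫ x in (X j)..(2 * X j), SQ k y lam b q (1 / T) x ≤ C1 * q * X j * (M j + Er j) := by
      refine le_trans (le_of_eq ?_) h1
      unfold SQ
      rw [intervalIntegral.integral_finsetSum]
      intro i _
      have hrc : Continuous (ray (1 / T)) := by unfold ray; fun_prop
      apply ContinuousOn.intervalIntegrable
      intro x hx
      have hx' : (0 : ℝ) < x := hsub _ _ (hX0 j) (by linarith [hX0 j]) hx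
      have hre : 0 < (ray (1 / T) x + 2 * Real.pi * I * i / q : ℂ).re := by rw [re_shift, ray_re]; positivity
      have h1 : ContinuousAt (fun x : ℝ => ray (1 / T) x + 2 * Real.pi * I * i / q) x := by fun_prop
      exact ((ContinuousAt.comp (f := fun x : ℝ => ray (1 / T) x + 2 * Real.pi * I * i / q)
        (GF_diff hF y b hre).continuousAt h1).norm.pow 2).continuousWithinAt
    rw [← hXs] at h1'
    have h2 : ∫ x in (X j)..(X (j + 1)), f x ≤
        ∫ x in (X j)..(X (j + 1)), SQ k y lam b q (1 / T) x * (X (j + 1)) ^ (m - 1) := by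
      apply intervalIntegral.integral_mono_on (hXle j) (hint j)
      · exact ((hg.mono (hsub _ _ (hX0 j) (hXle j))).intervalIntegrable).mul_const _
      · intro x hx
        rw [hf]
        simp only
        rw [hm1']
        apply mul_le_mul_of_nonneg_left _ (SQ_nonneg _ _ _ _ _)
        exact Real.rpow_le_rpow ((hX0 j).le.trans hx.1) hx.2 (by linarith)
    rw [intervalIntegral.integral_mul_const] at h2
    refine h2.trans ?_
    have hXp : 0 < X (j + 1) ^ (m - 1) := Real.rpow_pos_of_pos (hX0 _) _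
    refine (mul_le_mul_of_nonneg_right h1' hXp.le).trans ?_
    rw [hXs, Real.mul_rpow (by norm_num) (hX0 j).le]
    have e1 : (2 : ℝ) ^ (m - 1) ≤ 2 ^ ((k : ℝ) + 2) :=
      Real.rpow_le_rpow_of_exponent_le (by norm_num) (by linarith)
    have e2 : X j ^ m = X j ^ (m - 1) * X j := by
      have h := Real.rpow_sub_one (hX0 j).ne' m
      rw [h, div_mul_cancel₀ _ (hX0 j).ne']
    have e3 : 0 ≤ M j + Er j := add_nonneg (hM0 j) (hEr0 j)
    have e4 : 0 < X j ^ (m - 1) := Real.rpow_pos_of_pos (hX0 _) _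
    rw [e2, hC3]
    calc C1 * q * X j * (M j + Er j) * (2 ^ (m - 1) * X j ^ (m - 1))
        ≤ C1 * q * X j * (M j + Er j) * (2 ^ ((k : ℝ) + 2) * X j ^ (m - 1)) := by
          apply mul_le_mul_of_nonneg_left _ (mul_nonneg (mul_nonneg (by positivity) (hX0 j).le) e3)
          exact mul_le_mul_of_nonneg_right e1 e4.le
      _ = _ := by ring
  -- the main sum
  set W : ℝ := ∑' n : ℕ, if n ≤ 1 then 0 else ‖cn lam b n‖ ^ 2 * (n : ℝ) ^ (-(2 * σ)) *
        Real.exp (-(n * (x0 / (CC * (q * T))))) with hW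
  have hsumQ : ∀ v : ℝ, 0 < v → Summable (fun n : ℕ => ‖pc k lam b n‖ ^ 2 * Real.exp (-(n * v))) := by
    intro v hv
    refine (GF_parseval hF y b hb (v := v / 2) (by positivity)).1.congr fun n => ?_
    congr 3
    ring
  have hWs : Summable (fun n : ℕ => if n ≤ 1 then 0 else ‖cn lam b n‖ ^ 2 * (n : ℝ) ^ (-(2 * σ)) *
        Real.exp (-(n * (x0 / (CC * (q * T)))))) := by
    refine Summable.of_nonneg_of_le (fun n => by split_ifs <;> positivity) (fun n => ?_)
      (hsumQ (x0 / (CC * (q * T))) (by positivity))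
    rw [pc_sq]
    split_ifs with h
    · simp
    · have hn : (1 : ℝ) ≤ n := by exact_mod_cast (by omega : 1 ≤ n)
      have e1 : (n : ℝ) ^ (-(2 * σ)) ≤ (n : ℝ) ^ ((k : ℝ) - 1) :=
        Real.rpow_le_rpow_of_exponent_le hn (by linarith)
      rw [mul_comm ((n : ℝ) ^ ((k : ℝ) - 1))]
      gcongr
  have hW0 : 0 ≤ W := tsum_nonneg fun n => by split_ifs <;> positivity
  have hmain : ∀ J : ℕ, ∑ j ∈ Finset.range J, X j ^ m * M j ≤ C2 * 4 ^ ((k : ℝ) + 2) * T ^ m * W := by
    intro J
    rw [hM]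
    simp only
    have e1 : ∀ j, X j ^ m * ∑' n : ℕ, ‖pc k lam b n‖ ^ 2 * Real.exp (-(n * X j / (2 * T))) =
        ∑' n : ℕ, X j ^ m * (‖pc k lam b n‖ ^ 2 * Real.exp (-(n * X j / (2 * T)))) := fun j =>
      tsum_mul_left.symm
    simp_rw [e1]
    have hs1 : ∀ j, Summable (fun n : ℕ =>
        X j ^ m * (‖pc k lam b n‖ ^ 2 * Real.exp (-(n * X j / (2 * T))))) := by
      intro j
      refine Summable.mul_left _ ?_
      refine (hsumQ (X j / (2 * T)) (by have := hX0 j; positivity)).congr fun n => ?_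
      congr 3
      ring
    rw [← Summable.tsum_finsetSum (fun j _ => hs1 j), hW, ← tsum_mul_left]
    refine Summable.tsum_le_tsum (fun n => ?_) (summable_sum fun j _ => hs1 j) (hWs.mul_left _)
    rw [pc_sq]
    split_ifs with h
    · simp
    · have hn0 : (0 : ℝ) < n := by exact_mod_cast (by omega : 0 < n)
      have e2 : ∀ j, X j ^ m * ((n : ℝ) ^ ((k : ℝ) - 1) * ‖cn lam b n‖ ^ 2 *
          Real.exp (-(n * X j / (2 * T)))) ≤ (n : ℝ) ^ ((k : ℝ) - 1) * ‖cn lam b n‖ ^ 2 *
          Real.exp (-(n * z0 / (4 * T))) * ((2 ^ j * z0) ^ m *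
            Real.exp (-((n / (4 * T)) * (2 ^ j * z0)))) := by
        intro j
        have e3 : Real.exp (-(n * X j / (2 * T))) ≤ Real.exp (-(n * z0 / (4 * T))) *
            Real.exp (-((n / (4 * T)) * (2 ^ j * z0))) := by
          rw [← Real.exp_add]
          apply Real.exp_le_exp.2
          have e4 : n * z0 / (4 * T) ≤ n * X j / (4 * T) := by
            have := hXge j
            gcongr
          have e5 : n * X j / (2 * T) = n * X j / (4 * T) + n * X j / (4 * T) := by
            field_simp; ring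
          have e6 : (n / (4 * T)) * (2 ^ j * z0) = n * X j / (4 * T) := by
            rw [hX]; ring
          rw [e6, e5]
          linarith
        calc X j ^ m * ((n : ℝ) ^ ((k : ℝ) - 1) * ‖cn lam b n‖ ^ 2 *
          Real.exp (-(n * X j / (2 * T)))) ≤ X j ^ m * ((n : ℝ) ^ ((k : ℝ) - 1) * ‖cn lam b n‖ ^ 2 *
            (Real.exp (-(n * z0 / (4 * T))) * Real.exp (-((n / (4 * T)) * (2 ^ j * z0))))) := by
              apply mul_le_mul_of_nonneg_left _ (Real.rpow_nonneg (hX0 j).le _)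
              exact mul_le_mul_of_nonneg_left e3 (by positivity)
          _ = _ := by rw [hX]; ring
      refine (Finset.sum_le_sum fun j _ => e2 j).trans ?_
      rw [← Finset.mul_sum]
      have hd := hdy m (n / (4 * T)) z0 J hm1 (by push_cast; exact hm2) (by positivity) hz0p
      refine (mul_le_mul_of_nonneg_left hd (by positivity)).trans ?_
      have e7 : ((n : ℝ) / (4 * T)) ^ (-m) = (n : ℝ) ^ (-m) * (4 ^ m * T ^ m) := by
        rw [Real.div_rpow hn0.le (by positivity), Real.rpow_neg (x := 4 * T) (by positivity),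
          div_inv_eq_mul, Real.mul_rpow (by norm_num) hT0.le]
      have e8 : (n : ℝ) ^ ((k : ℝ) - 1) * (n : ℝ) ^ (-m) = (n : ℝ) ^ (-(2 * σ)) := by
        rw [← Real.rpow_add hn0]
        congr 1
        rw [hm]; ring
      have e9 : (4 : ℝ) ^ m ≤ 4 ^ ((k : ℝ) + 2) :=
        Real.rpow_le_rpow_of_exponent_le (by norm_num) hm2
      have e10 : Real.exp (-(n * z0 / (4 * T))) ≤ Real.exp (-(n * (x0 / (CC * (q * T))))) := by
        apply Real.exp_le_exp.2
        have : n * (x0 / (CC * (q * T))) ≤ n * z0 / (4 * T) := by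
          have h4 : 4 ≤ CC := by
            rw [hCC]
            have : 0 < C3 * C2 * 4 ^ ((k : ℝ) + 2) := by positivity
            linarith
          have e11 : n * z0 / (4 * T) = n * (x0 / (4 * (q * T))) := by
            rw [hz0]; field_simp
          rw [e11]
          gcongr
        linarith
      rw [e7]
      calc (n : ℝ) ^ ((k : ℝ) - 1) * ‖cn lam b n‖ ^ 2 * Real.exp (-(n * z0 / (4 * T))) *
            (C2 * ((n : ℝ) ^ (-m) * (4 ^ m * T ^ m)))
          = C2 * 4 ^ m * T ^ m * (‖cn lam b n‖ ^ 2 * ((n : ℝ) ^ ((k : ℝ) - 1) * (n : ℝ) ^ (-m)) *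
            Real.exp (-(n * z0 / (4 * T)))) := by ring
        _ = C2 * 4 ^ m * T ^ m * (‖cn lam b n‖ ^ 2 * (n : ℝ) ^ (-(2 * σ)) *
            Real.exp (-(n * z0 / (4 * T)))) := by rw [e8]
        _ ≤ C2 * 4 ^ ((k : ℝ) + 2) * T ^ m * (‖cn lam b n‖ ^ 2 * (n : ℝ) ^ (-(2 * σ)) *
            Real.exp (-(n * (x0 / (CC * (q * T)))))) := by gcongr
  -- the error terms
  have herr : ∀ J : ℕ, ∑ j ∈ Finset.range J, X j ^ m * Er j ≤
      2 * (T ^ m * ((q * T) ^ (-c) * (y / x0) ^ (A + 2) * S2)) := by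
    intro J
    set E0 : ℝ := 1 / x0 * (y : ℝ) ^ A * (T ^ m * (q * T) ^ (-c)) * S2 with hE0
    have hE00 : 0 ≤ E0 := by positivity
    set J0 : ℕ := ⌈1 / x0⌉₊ with hJ0
    have hx0' : 1 ≤ 1 / x0 := by rw [le_div_iff₀ hx0]; linarith
    have hJ0le : (J0 : ℝ) ≤ 2 * (1 / x0) := by
      have : (J0 : ℝ) < 1 / x0 + 1 := Nat.ceil_lt_add_one (by positivity)
      linarith
    have hterm : ∀ j, X j ^ m * Er j ≤ if j < J0 then E0 else 0 := by
      intro j
      rw [hEr]
      simp only
      by_cases hXj : q * X j < 1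
      · have hqXj : q * X j = 2 ^ j * x0 := by
          rw [hX, hz0]; field_simp
        have hj : j < J0 := by
          have h1 : (j : ℝ) < 2 ^ j := by exact_mod_cast Nat.lt_two_pow_self
          have h2 : (2 : ℝ) ^ j < 1 / x0 := by
            rw [lt_div_iff₀ hx0]
            rw [hqXj] at hXj
            exact hXj
          have h3 : (j : ℝ) < (J0 : ℝ) := h1.trans (h2.trans_le (Nat.le_ceil _))
          exact_mod_cast h3
        rw [if_pos hXj, if_pos hj]
        have hXq : X j ≤ 1 / q := by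
          rw [le_div_iff₀ hq0, mul_comm]
          exact hXj.le
        have h4 : X j ^ m * (T / X j) ^ ((k : ℝ) - c) ≤ T ^ m * (q * T) ^ (-c) := by
          have g1 : X j ^ m * (T / X j) ^ ((k : ℝ) - c) = T ^ ((k : ℝ) - c) * X j ^ (m - k + c) := by
            rw [Real.div_rpow hT0.le (hX0 j).le, div_eq_mul_inv, ← Real.rpow_neg (hX0 j).le,
              show m - k + c = m + (-((k : ℝ) - c)) by ring, Real.rpow_add (hX0 j)]
            ring
          have g2 : X j ^ (m - k + c) ≤ (1 / (q : ℝ)) ^ (m - k + c) :=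
            Real.rpow_le_rpow (hX0 j).le hXq (by linarith)
          have g3 : (1 / (q : ℝ)) ^ (m - k + c) = (q : ℝ) ^ (-(m - k + c)) := by
            rw [one_div, Real.inv_rpow hq0.le, Real.rpow_neg hq0.le]
          have g4 : T ^ ((k : ℝ) - c) = T ^ m * T ^ (-(m - k + c)) := by
            rw [← Real.rpow_add hT0]; congr 1; ring
          have g5 : (q : ℝ) ^ (-(m - k + c)) * T ^ (-(m - k + c)) = (q * T) ^ (-(m - k + c)) := by
            rw [Real.mul_rpow hq0.le hT0.le]
          have g6 : (q * T) ^ (-(m - k + c)) ≤ (q * T) ^ (-c) :=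
            Real.rpow_le_rpow_of_exponent_le (by nlinarith) (by linarith)
          rw [g1]
          calc T ^ ((k : ℝ) - c) * X j ^ (m - k + c) ≤ T ^ ((k : ℝ) - c) * (1 / (q : ℝ)) ^ (m - k + c) := by
                gcongr
            _ = T ^ m * ((q : ℝ) ^ (-(m - k + c)) * T ^ (-(m - k + c))) := by rw [g3, g4]; ring
            _ ≤ _ := by rw [g5]; gcongr
        have h5 : 1 / (q * X j) ≤ 1 / x0 := by
          rw [hqXj]
          apply one_div_le_one_div_of_le hx0
          have : (1 : ℝ) ≤ 2 ^ j := one_le_pow₀ (by norm_num)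
          nlinarith
        have h6 : 0 < 1 / (q * X j) := by have := hX0 j; positivity
        calc X j ^ m * (1 / (q * X j) * (y : ℝ) ^ A * (T / X j) ^ ((k : ℝ) - c) * S2) =
              1 / (q * X j) * (y : ℝ) ^ A * (X j ^ m * (T / X j) ^ ((k : ℝ) - c)) * S2 := by ring
          _ ≤ 1 / x0 * (y : ℝ) ^ A * (T ^ m * (q * T) ^ (-c)) * S2 := by gcongr
          _ = E0 := hE0.symm
      · rw [if_neg hXj, mul_zero]
        split_ifs
        · exact hE00
        · exact le_refl _
    calc _ ≤ ∑ j ∈ Finset.range J, if j < J0 then E0 else 0 := Finset.sum_le_sum fun j _ => hterm j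
      _ = ((Finset.range J).filter (fun j => j < J0)).card * E0 := by
          rw [← Finset.sum_filter, Finset.sum_const, nsmul_eq_mul]
      _ ≤ (J0 : ℝ) * E0 := by
          apply mul_le_mul_of_nonneg_right _ hE00
          have : ((Finset.range J).filter (fun j => j < J0)).card ≤ (Finset.range J0).card := by
            apply Finset.card_le_card
            intro j hj
            rw [Finset.mem_filter] at hj
            exact Finset.mem_range.2 hj.2
          rw [Finset.card_range] at this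
          exact_mod_cast this
      _ ≤ (2 * (1 / x0)) * E0 := mul_le_mul_of_nonneg_right hJ0le hE00
      _ = 2 * (T ^ m * ((q * T) ^ (-c) * ((1 / x0) * (1 / x0) * (y : ℝ) ^ A) * S2)) := by rw [hE0]; ring
      _ ≤ _ := by
          have hyx : 1 ≤ (y : ℝ) / x0 := by rw [le_div_iff₀ hx0]; linarith
          have g0 : 1 / x0 ≤ y / x0 := by gcongr
          have g1 : (y : ℝ) ^ A ≤ (y / x0) ^ A := by
            apply Real.rpow_le_rpow (by positivity) _ (by linarith)
            rw [le_div_iff₀ hx0]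
            nlinarith
          have g2 : (y / x0 : ℝ) ^ (A + 2) = (y / x0) * (y / x0) * (y / x0) ^ A := by
            rw [Real.rpow_add (by positivity)]
            have : (y / x0 : ℝ) ^ (2 : ℝ) = (y / x0) * (y / x0) := by
              rw [show (2 : ℝ) = ((2 : ℕ) : ℝ) by norm_num, Real.rpow_natCast]; ring
            rw [this]; ring
          rw [g2]
          gcongr
  -- the total over finitely many blocks
  set BIG : ℝ := CC * q * T ^ m * (W + (q * T) ^ (-c) * (y / x0) ^ (A + 2) * S2) with hBIG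
  have htot : ∀ J : ℕ, ∫ x in z0..(X J), f x ≤ BIG := by
    intro J
    have h1 : ∑ j ∈ Finset.range J, ∫ x in (X j)..(X (j + 1)), f x = ∫ x in (X 0)..(X J), f x :=
      intervalIntegral.sum_integral_adjacent_intervals (fun j _ => hint j)
    have hX00 : X 0 = z0 := by rw [hX]; simp
    rw [← hX00, ← h1]
    calc _ ≤ ∑ j ∈ Finset.range J, C3 * q * (X j ^ m * (M j + Er j)) :=
          Finset.sum_le_sum fun j _ => hone j
      _ = C3 * q * ((∑ j ∈ Finset.range J, X j ^ m * M j) + ∑ j ∈ Finset.range J, X j ^ m * Er j) := by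
          rw [← Finset.sum_add_distrib, Finset.mul_sum]
          refine Finset.sum_congr rfl fun j _ => ?_
          ring
      _ ≤ C3 * q * (C2 * 4 ^ ((k : ℝ) + 2) * T ^ m * W +
          2 * (T ^ m * ((q * T) ^ (-c) * (y / x0) ^ (A + 2) * S2))) := by
          apply mul_le_mul_of_nonneg_left _ (by positivity)
          exact add_le_add (hmain J) (herr J)
      _ = (C3 * C2 * 4 ^ ((k : ℝ) + 2)) * (q * (T ^ m * W)) +
          (2 * C3) * (q * (T ^ m * ((q * T) ^ (-c) * (y / x0) ^ (A + 2) * S2))) := by ring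
      _ ≤ CC * (q * (T ^ m * W)) + CC * (q * (T ^ m * ((q * T) ^ (-c) * (y / x0) ^ (A + 2) * S2))) := by
          apply add_le_add
          · apply mul_le_mul_of_nonneg_right _ (by positivity)
            rw [hCC]; linarith
          · apply mul_le_mul_of_nonneg_right _ (by positivity)
            rw [hCC]
            have : 0 < C3 * C2 * 4 ^ ((k : ℝ) + 2) := by positivity
            linarith
      _ = BIG := by rw [hBIG]; ring
  -- passage to the limit
  have htend : Filter.Tendsto X Filter.atTop Filter.atTop := by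
    rw [hX]
    exact (tendsto_pow_atTop_atTop_of_one_lt (by norm_num : (1 : ℝ) < 2)).atTop_mul_const hz0p
  have hsubI : ∀ j, Set.Icc z0 (X j) ⊆ Set.Ioi 0 := fun j x hx => lt_of_lt_of_le hz0p hx.1
  have hfi : ∀ j, IntegrableOn f (Set.Ioc z0 (X j)) := fun j =>
    ((hfc.mono (hsubI j)).integrableOn_Icc).mono_set Set.Ioc_subset_Icc_self
  have hnorm : ∀ j, ∫ x in z0..(X j), ‖f x‖ = ∫ x in z0..(X j), f x := by
    intro j
    refine intervalIntegral.integral_congr fun x hx => ?_
    rw [Set.uIcc_of_le (hXge j)] at hx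
    exact Real.norm_of_nonneg (hfnn x (lt_of_lt_of_le hz0p hx.1))
  have hI : IntegrableOn f (Set.Ioi z0) :=
    integrableOn_Ioi_of_intervalIntegral_norm_bounded BIG z0 hfi htend
      (Filter.Eventually.of_forall fun j => by rw [hnorm]; exact htot j)
  refine ⟨hI, ?_⟩
  have hlim := intervalIntegral_tendsto_integral_Ioi z0 hI htend
  exact le_of_tendsto' hlim htot

end Pool.Agent.K9h29.ZD
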