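import Pool.Agent.H385R2.Char
import Pool.Agent.K9h29.ZD.QRyp2

set_option autoImplicit false

/-!
# From characters to residue classes and to fractions `j / q`
-/

namespace Pool.Agent.K9h29.ZD

open Complex Finset MeasureTheory
open scoped ComplexConjugate
open Pool.Agent.Y671.GL Pool.Agent.Y412.GLB Pool.Agent.Y412.GLP
open Pool.Agent.H24R2.DZ (ray)

section

variable {q : ℕ} [NeZero q]

theorem parseval_add (S : ZMod q → ℂ) :
    ∑ j : ZMod q, ‖∑ c : ZMod q, ZMod.stdAddChar (-(j * c)) * S c‖ ^ 2 = q * ∑ c : ZMod q, ‖S c‖ ^ 2 := by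
  classical
  have hmain : (((∑ j : ZMod q, ‖∑ c : ZMod q, ZMod.stdAddChar (-(j * c)) * S c‖ ^ 2 : ℝ)) : ℂ) =
      ((q * ∑ c : ZMod q, ‖S c‖ ^ 2 : ℝ) : ℂ) := by
    push_cast
    have h1 : ∀ j : ZMod q, ((‖∑ c : ZMod q, ZMod.stdAddChar (-(j * c)) * S c‖ : ℂ)) ^ 2 =
        ∑ c : ZMod q, ∑ d : ZMod q, (S c * conj (S d)) * ZMod.stdAddChar (j * (d - c)) := by
      intro j
      rw [← Complex.mul_conj', map_sum, Finset.sum_mul_sum]
      refine Finset.sum_congr rfl fun c _ => Finset.sum_congr rfl fun d _ => ?_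
      have h2 : conj (ZMod.stdAddChar (-(j * d)) : ℂ) = ZMod.stdAddChar (j * d) := by
        rw [← AddChar.map_neg_eq_conj, neg_neg]
      have h3 : (ZMod.stdAddChar (j * (d - c)) : ℂ) = ZMod.stdAddChar (-(j * c)) * ZMod.stdAddChar (j * d) := by
        rw [← AddChar.map_add_eq_mul]
        congr 1
        ring
      rw [map_mul, h2, h3]
      ring
    simp only [h1]
    rw [Finset.sum_comm]
    have h4 : ∀ c : ZMod q, ∑ j : ZMod q, ∑ d : ZMod q,
        (S c * conj (S d)) * ZMod.stdAddChar (j * (d - c)) = (q : ℂ) * (‖S c‖ : ℂ) ^ 2 := by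
      intro c
      rw [Finset.sum_comm]
      have h5 : ∀ d : ZMod q, ∑ j : ZMod q, (S c * conj (S d)) * (ZMod.stdAddChar (j * (d - c)) : ℂ) =
          if d = c then (q : ℂ) * (S c * conj (S d)) else 0 := by
        intro d
        rw [← Finset.mul_sum]
        have h6 := AddChar.sum_mulShift (R := ZMod q) (R' := ℂ) (ψ := ZMod.stdAddChar) (d - c)
          (ZMod.isPrimitive_stdAddChar q)
        rw [h6]
        by_cases hdc : d = c
        · rw [if_pos (sub_eq_zero.2 hdc), if_pos hdc, ZMod.card]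
          ring
        · rw [if_neg (fun h => hdc (sub_eq_zero.1 h)), if_neg hdc]
          simp
      simp only [h5]
      rw [Finset.sum_ite_eq']
      simp only [Finset.mem_univ, if_true]
      rw [Complex.mul_conj']
    simp only [h4]
    rw [Finset.mul_sum]
  exact_mod_cast hmain

/-- the part of a series over a residue class -/
noncomputable def cls (u : ℕ → ZMod q) (a : ℕ → ℂ) (c : ZMod q) : ℂ := ∑' n : ℕ, if u n = c then a n else 0

theorem cls_sum (u : ℕ → ZMod q) (a : ℕ → ℂ) (ha : Summable (fun n => ‖a n‖)) (φ : ZMod q → ℂ) :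
    ∑' n : ℕ, φ (u n) * a n = ∑ c : ZMod q, φ c * cls u a c := by
  classical
  have hs : ∀ c : ZMod q, Summable (fun n => φ c * (if u n = c then a n else 0)) := by
    intro c
    refine Summable.mul_left _ (Summable.of_norm ?_)
    refine Summable.of_nonneg_of_le (fun n => norm_nonneg _) (fun n => ?_) ha
    split_ifs
    · exact le_rfl
    · rw [norm_zero]; exact norm_nonneg _
  have h1 : ∀ n : ℕ, φ (u n) * a n = ∑ c : ZMod q, φ c * (if u n = c then a n else 0) := by
    intro n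
    rw [Finset.sum_eq_single (u n)]
    · rw [if_pos rfl]
    · intro c _ hc
      rw [if_neg (fun h => hc h.symm), mul_zero]
    · intro h
      exact absurd (Finset.mem_univ _) h
  rw [tsum_congr h1, Summable.tsum_finsetSum (fun c _ => hs c)]
  refine Finset.sum_congr rfl fun c _ => ?_
  rw [tsum_mul_left]
  rfl

theorem sum_inv_char (F : DirichletCharacter ℂ q → ℝ) :
    ∑ χ : DirichletCharacter ℂ q, F χ⁻¹ = ∑ χ : DirichletCharacter ℂ q, F χ :=
  Equiv.sum_comp (Equiv.inv (DirichletCharacter ℂ q)) F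

/-- from characters to residue classes -/
theorem orth_cls (u : ℕ → ZMod q) (a : ℕ → ℂ) (ha : Summable (fun n => ‖a n‖)) :
    ∑ χ : DirichletCharacter ℂ q, ‖∑' n : ℕ, χ (u n) * a n‖ ^ 2 ≤
      (q.totient : ℝ) * ∑ c : ZMod q, ‖cls u a c‖ ^ 2 := by
  classical
  rw [← sum_inv_char]
  simp_rw [cls_sum u a ha]
  rw [H385.parseval]
  refine mul_le_mul_of_nonneg_left ?_ (by positivity)
  exact Finset.sum_le_sum_of_subset_of_nonneg (Finset.filter_subset _ _) fun _ _ _ => by positivity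

/-- from residue classes to fractions -/
theorem cls_frac (a : ℕ → ℂ) (ha : Summable (fun n => ‖a n‖)) :
    (q : ℝ) * ∑ c : ZMod q, ‖cls (fun n : ℕ => (n : ZMod q)) a c‖ ^ 2 =
      ∑ j ∈ Finset.range q, ‖∑' n : ℕ, a n * cexp (-(n * (2 * Real.pi * I * j / q)))‖ ^ 2 := by
  rw [← parseval_add]
  simp_rw [← fun j : ZMod q => cls_sum (fun n : ℕ => (n : ZMod q)) a ha (fun c => ZMod.stdAddChar (-(j * c)))]
  rw [← H385.sum_range_zmod]
  refine Finset.sum_congr rfl fun j _ => ?_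
  congr 2
  refine tsum_congr fun n => ?_
  rw [mul_comm]
  congr 1
  have h1 : (-((j : ZMod q) * (n : ZMod q))) = ((-(j * n : ℤ) : ℤ) : ZMod q) := by push_cast; ring
  rw [h1, ZMod.stdAddChar_coe]
  congr 1
  push_cast
  ring

theorem orth_frac (a : ℕ → ℂ) (ha : Summable (fun n => ‖a n‖)) :
    ∑ χ : DirichletCharacter ℂ q, ‖∑' n : ℕ, χ (n : ZMod q) * a n‖ ^ 2 ≤
      (q.totient : ℝ) / q *
        ∑ j ∈ Finset.range q, ‖∑' n : ℕ, a n * cexp (-(n * (2 * Real.pi * I * j / q)))‖ ^ 2 := by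
  have hq : (0 : ℝ) < q := by exact_mod_cast Nat.pos_of_ne_zero (NeZero.ne q)
  refine (orth_cls (fun n : ℕ => (n : ZMod q)) a ha).trans (le_of_eq ?_)
  rw [← cls_frac a ha]
  field_simp

end

/-- twisted coefficients -/
noncomputable def tl {q : ℕ} (χ : DirichletCharacter ℂ q) (a : ℕ → ℂ) (n : ℕ) : ℂ := χ (n : ZMod q) * a n

theorem cn_tl {q : ℕ} (χ : DirichletCharacter ℂ q) (lam b : ℕ → ℂ) (n : ℕ) :
    cn (tl χ lam) (tl χ b) n = χ (n : ZMod q) * cn lam b n := by
  unfold cn tl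
  rw [Finset.mul_sum]
  refine Finset.sum_congr rfl fun h hh => ?_
  have h1 : (n : ZMod q) = (h : ZMod q) * ((n / h : ℕ) : ZMod q) := by
    rw [← Nat.cast_mul, Nat.mul_div_cancel' (Nat.dvd_of_mem_divisors hh)]
  rw [h1, map_mul]
  ring

theorem pc_tl {q : ℕ} (k : ℕ) (χ : DirichletCharacter ℂ q) (lam b : ℕ → ℂ) (n : ℕ) :
    pc k (tl χ lam) (tl χ b) n = χ (n : ZMod q) * pc k lam b n := by
  unfold pc
  rw [cn_tl]
  split_ifs
  · rw [mul_zero]
  · ring

/-- A form all of whose twists by primitive characters of conductor prime to the level are forms. -/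
structure TwF (k N : ℕ) (ps lam : ℕ → ℂ) : Prop where
  frm : Frm k N ps lam
  tw : ∀ (q : ℕ) [NeZero q] (χ : DirichletCharacter ℂ q), χ.IsPrimitive → q.Coprime N →
    Frm k (N * q ^ 2) (fun p => ps p * χ (p : ZMod q) ^ 2) (tl χ lam)

/-- the primal side: from the sum over primitive characters to the fractions -/
theorem sum_GF_le {k N q : ℕ} [NeZero q] {ps lam : ℕ → ℂ} (hF : TwF k N ps lam) (hco : q.Coprime N)
    (S : Finset (DirichletCharacter ℂ q)) (hS : ∀ χ ∈ S, χ.IsPrimitive) (y : ℕ) (b : ℕ → ℂ)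
    (hb : ∀ h, y < h → b h = 0) (δ x : ℝ) (hz : 0 < (ray δ x).re) :
    ∑ χ ∈ S, ‖GF k y (tl χ lam) (tl χ b) (ray δ x)‖ ^ 2 ≤ (q.totient : ℝ) / q * SQ k y lam b q δ x := by
  have hpg := pg_pc hF.frm y b hb
  set z := ray δ x with hzd
  have ha : Summable (fun n : ℕ => ‖pc k lam b n * cexp (-(n * z))‖) := by
    refine (hpg.summable hz).congr fun n => ?_
    rw [norm_mul, norm_cexp_nat]
  have h1 : ∀ χ ∈ S, ‖GF k y (tl χ lam) (tl χ b) z‖ ^ 2 =
      ‖∑' n : ℕ, χ (n : ZMod q) * (pc k lam b n * cexp (-(n * z)))‖ ^ 2 := by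
    intro χ hχ
    have hbχ : ∀ h, y < h → tl χ b h = 0 := fun h hh => by unfold tl; rw [hb h hh, mul_zero]
    rw [GF_series (hF.tw q χ (hS χ hχ) hco) y (tl χ b) hbχ hz]
    congr 2
    refine tsum_congr fun n => ?_
    rw [pc_tl]
    ring
  rw [Finset.sum_congr rfl h1]
  refine (Finset.sum_le_sum_of_subset_of_nonneg (Finset.subset_univ S) fun _ _ _ => by positivity).trans ?_
  refine (orth_frac _ ha).trans (le_of_eq ?_)
  unfold SQ
  congr 1
  refine Finset.sum_congr rfl fun j _ => ?_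
  have h2 : 0 < (z + 2 * Real.pi * I * j / q : ℂ).re := by rw [re_shift]; exact hz
  rw [GF_series hF.frm y b hb h2]
  congr 2
  refine tsum_congr fun n => ?_
  rw [mul_assoc, ← Complex.exp_add]
  congr 2
  ring

end Pool.Agent.K9h29.ZD
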