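import Pool.Agent.W388.TW.Good
import Pool.Agent.W108.TW.Mellin
import Pool.Agent.W440.TW.Twist
import Pool.Agent.W820.TW.FE
import Pool.Agent.Y693.GL.Twf
import Pool.Agent.Y24.E1
import Pool.Agent.Y671.GL.All

set_option autoImplicit false

/-!
# L-functions of the twists: functional equation, growth and the number of zeros, uniformly in the conductor

(`GG_diff`, `exists_entire`, `GG_conj` and `exists_L` are those of `Pool.Agent.R838.TW`, repeated here to avoid
its imports.)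
-/

namespace Pool.Agent.K9h29.ZD

open Filter Topology Complex Metric
open Pool.Agent.Y671.GL (Frm IsL)
open W388 (FE2 GG)
open scoped ComplexConjugate

section glue

variable {k : ℤ} {N Q : ℝ} {F : ℂ → ℂ}

theorem GG_diff (hk : 1 ≤ k) (hN : 0 < N) (hQ : 0 < Q) {s : ℂ} (hs : s.im ≠ 0 ∨ 0 < s.re) :
    DifferentiableAt ℂ (GG k N Q) s := by
  have hpi := Real.pi_pos
  have hk1 : (1 : ℝ) ≤ k := by exact_mod_cast hk
  have hsq : 0 < Real.sqrt N := Real.sqrt_pos.2 hN
  have hc : (0 : ℝ) < Real.sqrt N * Q / (2 * Real.pi) := by positivity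
  have hcc : ((Real.sqrt N * Q / (2 * Real.pi) : ℝ) : ℂ) ≠ 0 := by exact_mod_cast hc.ne'
  have hre : (s + ((k : ℂ) - 1) / 2).re = s.re + ((k : ℝ) - 1) / 2 := by
    have e : ((k : ℂ) - 1) / 2 = ((((k : ℝ) - 1) / 2 : ℝ) : ℂ) := by push_cast; ring
    rw [e, Complex.add_re, Complex.ofReal_re]
  have him : (s + ((k : ℂ) - 1) / 2).im = s.im := by
    have e : ((k : ℂ) - 1) / 2 = ((((k : ℝ) - 1) / 2 : ℝ) : ℂ) := by push_cast; ring
    rw [e, Complex.add_im, Complex.ofReal_im, add_zero]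
  unfold GG
  refine DifferentiableAt.mul ?_ ?_
  · exact DifferentiableAt.const_cpow differentiableAt_id (Or.inl hcc)
  · refine DifferentiableAt.comp s (f := fun z : ℂ => z + ((k : ℂ) - 1) / 2)
      (Complex.differentiableAt_Gamma _ ?_) (by fun_prop)
    intro m hm
    rcases hs with hs | hs
    · have h1 := congrArg Complex.im hm
      rw [him] at h1
      simp at h1
      exact hs h1
    · have h1 := congrArg Complex.re hm
      rw [hre] at h1
      simp at h1
      have hm0 : (0 : ℝ) ≤ m := Nat.cast_nonneg m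
      linarith

/-- The completed function is entire. -/
theorem exists_entire (hk : 1 ≤ k) (hN : 0 < N) (hQ : 0 < Q) (hF : FE2 k N Q F) :
    ∃ (Λ : ℂ → ℂ) (w : ℂ), ‖w‖ = 1 ∧ Differentiable ℂ Λ ∧ (∀ s, Λ s = w * conj (Λ (1 - conj s))) ∧
      (∀ s : ℂ, (s.im ≠ 0 ∨ 0 < s.re) → Λ s = GG k N Q s * F s) ∧
      (∀ a b : ℝ, ∃ M : ℝ, ∀ s : ℂ, a ≤ s.re → s.re ≤ b → ‖Λ s‖ ≤ M) := by
  obtain ⟨w, hw, hfe⟩ := hF.fe
  have hww : w * conj w = 1 := by
    rw [Complex.mul_conj, Complex.normSq_eq_norm_sq, hw]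
    simp
  obtain ⟨P, hP⟩ : ∃ P : ℂ → ℂ, P = fun s => GG k N Q s * F s := ⟨_, rfl⟩
  have hPv : ∀ s, P s = GG k N Q s * F s := fun s => by rw [hP]
  have hPd : ∀ s : ℂ, (s.im ≠ 0 ∨ 0 < s.re) → DifferentiableAt ℂ P s := by
    intro s hs
    rw [hP]
    exact (GG_diff hk hN hQ hs).mul (hF.diff s)
  obtain ⟨R, hR⟩ : ∃ R : ℂ → ℂ, R = fun s => w * conj (P (1 - conj s)) := ⟨_, rfl⟩
  have hRv : ∀ s, R s = w * conj (P (1 - conj s)) := fun s => by rw [hR]
  have hRd : ∀ s : ℂ, (s.im ≠ 0 ∨ s.re < 1) → DifferentiableAt ℂ R s := by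
    intro s hs
    have h1 : DifferentiableAt ℂ (fun z : ℂ => P (1 - z)) (conj s) := by
      refine DifferentiableAt.comp (conj s) (f := fun z : ℂ => 1 - z) (hPd _ ?_) (by fun_prop)
      rcases hs with hs | hs
      · left
        simpa using hs
      · right
        simp
        linarith
    have h2 := h1.hasDerivAt.conj_conj
    rw [Complex.conj_conj] at h2
    have h3 : R = fun s => w * (conj ∘ (fun z : ℂ => P (1 - z)) ∘ conj) s := by
      rw [hR]
      rfl
    rw [h3]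
    exact h2.differentiableAt.const_mul w
  have hPR0 : ∀ s : ℂ, s.im ≠ 0 → P s = R s := by
    intro s hs
    rw [hRv, hPv, hPv, hfe s hs]
  have hPR : ∀ s : ℂ, 0 < s.re → s.re < 1 → P s = R s := by
    intro s h1 h2
    by_cases hs : s.im = 0
    · have hc : ContinuousAt (fun y : ℝ => P (s + y * I) - R (s + y * I)) 0 := by
        have hl : ContinuousAt (fun y : ℝ => s + (y : ℂ) * I) 0 := by fun_prop
        have e0 : s + ((0 : ℝ) : ℂ) * I = s := by simp
        have h3 : ContinuousAt P (s + ((0 : ℝ) : ℂ) * I) := by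
          rw [e0]; exact (hPd s (Or.inr h1)).continuousAt
        have h4 : ContinuousAt R (s + ((0 : ℝ) : ℂ) * I) := by
          rw [e0]; exact (hRd s (Or.inr h2)).continuousAt
        exact (ContinuousAt.comp (f := fun y : ℝ => s + (y : ℂ) * I) h3 hl).sub
          (ContinuousAt.comp (f := fun y : ℝ => s + (y : ℂ) * I) h4 hl)
      have h3 : Tendsto (fun y : ℝ => P (s + y * I) - R (s + y * I)) (𝓝[≠] 0)
          (𝓝 (P (s + ((0 : ℝ) : ℂ) * I) - R (s + ((0 : ℝ) : ℂ) * I))) := hc.tendsto.mono_left nhdsWithin_le_nhds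
      have h4 : Tendsto (fun y : ℝ => P (s + y * I) - R (s + y * I)) (𝓝[≠] 0) (𝓝 0) := by
        refine tendsto_const_nhds.congr' ?_
        filter_upwards [self_mem_nhdsWithin] with y hy
        have h5 : (s + (y : ℂ) * I).im ≠ 0 := by
          simp [hs]
          exact hy
        rw [hPR0 _ h5, sub_self]
      have h5 := tendsto_nhds_unique h3 h4
      have e0 : s + ((0 : ℝ) : ℂ) * I = s := by simp
      rw [e0] at h5
      exact sub_eq_zero.1 h5
    · exact hPR0 s hs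
  classical
  obtain ⟨Λ, hΛ⟩ : ∃ Λ : ℂ → ℂ, Λ = fun s => if 0 < s.re then P s else R s := ⟨_, rfl⟩
  have hΛP : ∀ s : ℂ, (s.im ≠ 0 ∨ 0 < s.re) → Λ s = P s := by
    intro s hs
    rw [hΛ]
    simp only
    split_ifs with h
    · rfl
    · rcases hs with hs | hs
      · exact (hPR0 s hs).symm
      · exact absurd hs h
  have hΛR : ∀ s : ℂ, s.re < 1 → Λ s = R s := by
    intro s hs
    rw [hΛ]
    simp only
    split_ifs with h
    · exact hPR s h hs
    · rfl
  have hΛd : Differentiable ℂ Λ := by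
    intro s
    rcases lt_or_ge 0 s.re with h | h
    · refine (hPd s (Or.inr h)).congr_of_eventuallyEq ?_
      have : ∀ᶠ z : ℂ in 𝓝 s, 0 < z.re := (Complex.continuous_re.tendsto s).eventually (lt_mem_nhds h)
      filter_upwards [this] with z hz
      exact hΛP z (Or.inr hz)
    · have h1 : s.re < 1 := by linarith
      refine (hRd s (Or.inr h1)).congr_of_eventuallyEq ?_
      have : ∀ᶠ z : ℂ in 𝓝 s, z.re < 1 := (Complex.continuous_re.tendsto s).eventually (gt_mem_nhds h1)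
      filter_upwards [this] with z hz
      exact hΛR z hz
  refine ⟨Λ, w, hw, hΛd, ?_, fun s hs => (hΛP s hs).trans (hPv s), ?_⟩
  · intro s
    rcases lt_or_ge s.re 1 with h | h
    · rw [hΛR s h, hRv, hΛP (1 - conj s) (Or.inr (by simp; linarith))]
    · have e : 1 - conj (1 - conj s) = s := by
        rw [map_sub, map_one, Complex.conj_conj]
        ring
      rw [hΛP s (Or.inr (by linarith)), hΛR (1 - conj s) (by simp; linarith), hRv, e, map_mul,
        Complex.conj_conj, ← mul_assoc, hww, one_mul]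
  · intro a b
    obtain ⟨C1, hC1⟩ := hF.vert a b
    have hK : IsCompact (Set.Icc a b ×ℂ Set.Icc (-1 : ℝ) 1) := isCompact_Icc.reProdIm isCompact_Icc
    obtain ⟨C2, hC2⟩ := hK.exists_bound_of_continuousOn (f := Λ) hΛd.continuous.continuousOn
    refine ⟨max C1 C2, fun s hs1 hs2 => ?_⟩
    rcases le_or_gt 1 |s.im| with h1 | h1
    · refine le_trans ?_ (le_max_left _ _)
      have him : s.im ≠ 0 := by
        intro h0; rw [h0, abs_zero] at h1; linarith
      rw [hΛP s (Or.inl him), hPv]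
      exact hC1 s hs1 hs2 h1
    · refine le_trans (hC2 s ?_) (le_max_right _ _)
      rw [Complex.mem_reProdIm]
      have := abs_lt.1 h1
      exact ⟨⟨hs1, hs2⟩, ⟨this.1.le, this.2.le⟩⟩

theorem GG_conj (k : ℤ) (hN : 0 < N) (hQ : 0 < Q) (s : ℂ) : GG k N Q (conj s) = conj (GG k N Q s) := by
  have hpi := Real.pi_pos
  have hsq : 0 < Real.sqrt N := Real.sqrt_pos.2 hN
  have hc : (0 : ℝ) < Real.sqrt N * Q / (2 * Real.pi) := by positivity
  unfold GG
  rw [map_mul, ← Complex.Gamma_conj]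
  have e1 : conj (s + ((k : ℂ) - 1) / 2) = conj s + ((k : ℂ) - 1) / 2 := by
    have e : ((k : ℂ) - 1) / 2 = ((((k : ℝ) - 1) / 2 : ℝ) : ℂ) := by push_cast; ring
    rw [e, map_add, Complex.conj_ofReal]
  rw [e1]
  congr 1
  have harg : ((Real.sqrt N * Q / (2 * Real.pi) : ℝ) : ℂ).arg ≠ Real.pi := by
    rw [Complex.arg_ofReal_of_nonneg hc.le]
    exact Real.pi_ne_zero.symm
  have h2 := Complex.cpow_conj ((Real.sqrt N * Q / (2 * Real.pi) : ℝ) : ℂ) s harg
  rw [Complex.conj_ofReal] at h2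
  exact h2


/-- the zeros in the strip are symmetric about the line `Re s = 1/2` -/
theorem ord_symm (hk : 1 ≤ k) (hN : 0 < N) (hQ : 0 < Q) (hF : FE2 k N Q F) {s : ℂ} (h0 : 0 < s.re) (h1 : s.re < 1) :
    analyticOrderAt F (1 - conj s) = analyticOrderAt F s := by
  obtain ⟨Λ, w, hw, hd, hsym, heq, -⟩ := exists_entire hk hN hQ hF
  have hw0 : w ≠ 0 := by
    intro h
    rw [h, norm_zero] at hw
    exact zero_ne_one hw
  -- the order of `Λ` and `F`
  have key : ∀ z : ℂ, 0 < z.re → analyticOrderAt Λ z = analyticOrderAt F z := by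
    intro z hz
    have e1 : Λ =ᶠ[𝓝 z] (GG k N Q * F) := by
      have : ∀ᶠ y : ℂ in 𝓝 z, 0 < y.re := (Complex.continuous_re.tendsto z).eventually (lt_mem_nhds hz)
      filter_upwards [this] with y hy
      exact heq y (Or.inr hy)
    have hga : AnalyticAt ℂ (GG k N Q) z := by
      have hop : IsOpen {y : ℂ | 0 < y.re} := isOpen_lt continuous_const Complex.continuous_re
      have hdo : DifferentiableOn ℂ (GG k N Q) {y : ℂ | 0 < y.re} := fun y hy =>
        (GG_diff hk hN hQ (Or.inr hy)).differentiableWithinAt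
      exact hdo.analyticAt (hop.mem_nhds hz)
    have hFa : AnalyticAt ℂ F z := hF.diff.analyticAt z
    rw [analyticOrderAt_congr e1, analyticOrderAt_mul hga hFa]
    have hne : GG k N Q z ≠ 0 := by
      have hpi := Real.pi_pos
      have hsq : 0 < Real.sqrt N := Real.sqrt_pos.2 hN
      have hc : (0 : ℝ) < Real.sqrt N * Q / (2 * Real.pi) := by positivity
      have hcc : ((Real.sqrt N * Q / (2 * Real.pi) : ℝ) : ℂ) ≠ 0 := by exact_mod_cast hc.ne'
      have hk1 : (1 : ℝ) ≤ k := by exact_mod_cast hk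
      unfold GG
      refine mul_ne_zero ?_ ?_
      · rw [Ne, Complex.cpow_eq_zero_iff]
        exact fun h => hcc h.1
      · apply Complex.Gamma_ne_zero_of_re_pos
        have e : ((k : ℂ) - 1) / 2 = ((((k : ℝ) - 1) / 2 : ℝ) : ℂ) := by push_cast; ring
        rw [e, Complex.add_re, Complex.ofReal_re]
        linarith
    rw [hga.analyticOrderAt_eq_zero.2 hne, zero_add]
  have hre : (1 - conj s).re = 1 - s.re := by simp
  rw [← key s h0, ← key (1 - conj s) (by rw [hre]; linarith)]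
  have hΛan : ∀ z, AnalyticAt ℂ Λ z := fun z => hd.analyticAt z
  have e3 : Λ = (fun _ => w) * H370.DL.refl Λ := by
    funext z
    exact hsym z
  have e4 : analyticOrderAt (fun _ : ℂ => w) s = 0 :=
    (analyticAt_const.analyticOrderAt_eq_zero).2 hw0
  have e5 : analyticOrderAt Λ s = analyticOrderAt (H370.DL.refl Λ) s := by
    nth_rewrite 1 [e3]
    rw [analyticOrderAt_mul analyticAt_const (H370.DL.analyticAt_refl (hΛan _)), e4, zero_add]
  rw [e5, H370.DL.order_refl (hΛan _)]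

end glue

/-- the order of the conjugate function -/
theorem ord_conj {F : ℂ → ℂ} (hF : Differentiable ℂ F) (s : ℂ) :
    analyticOrderAt (fun z => conj (F (conj z))) s = analyticOrderAt F (conj s) := by
  have hG : Differentiable ℂ (fun z => F (1 - z)) := hF.comp (by fun_prop)
  have e1 : (fun z => conj (F (conj z))) = H370.DL.refl (fun z => F (1 - z)) := by
    funext z
    unfold H370.DL.refl
    simp only [sub_sub_cancel]
  rw [e1, H370.DL.order_refl (hG.analyticAt _)]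
  have hg : AnalyticAt ℂ (fun z : ℂ => 1 - z) (1 - conj s) := by fun_prop
  have hd' : deriv (fun z : ℂ => 1 - z) (1 - conj s) ≠ 0 := by simp
  have h := analyticOrderAt_comp_of_deriv_ne_zero (f := F) hg hd'
  have e2 : F ∘ (fun z : ℂ => 1 - z) = fun z => F (1 - z) := rfl
  rw [e2] at h
  rw [h, sub_sub_cancel]

section growth

variable {k : ℤ} {N Q B : ℝ} {F : ℂ → ℂ}

/-- growth at all heights, uniform in the conductor -/
theorem gro_all (hk : 1 ≤ k) (hN : 1 ≤ N) (hQ : 1 ≤ Q) (hB1 : 1 ≤ B) (hF : FE2 k N Q F)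
    (hB : ∀ s : ℂ, 3 / 2 ≤ s.re → ‖F s‖ ≤ B) (s : ℂ) (h1 : -1 / 2 ≤ s.re) :
    ‖F s‖ ≤ 2 * (B * N) * (Q * (|s.im| + k + 6)) ^ 2 := by
  have hk1 : (1 : ℝ) ≤ k := by exact_mod_cast hk
  have hBN : 1 ≤ B * N := by nlinarith
  have him := abs_nonneg s.im
  set c : ℝ := ((k : ℝ) - 1) / 2 with hc
  have hc0 : 0 ≤ c := by rw [hc]; linarith
  have hQ0 : (0 : ℝ) < Q := by linarith
  rcases le_total s.re (3 / 2) with h | h
  · have e1 := Pool.Agent.W820.TW.HH_bound hk hN hQ hF hB s h1 h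
    rw [← hc] at e1
    unfold Pool.Agent.W820.TW.HH at e1
    rw [norm_mul, norm_mul, norm_inv, norm_pow, Complex.norm_cpow_eq_rpow_re_of_pos hQ0] at e1
    have hre : (s - 3 / 2).re = s.re - 3 / 2 := by rw [Complex.sub_re]; norm_num
    rw [hre] at e1
    have e2 : 0 < ‖s + 3 + c‖ ^ 2 := by
      have : s + 3 + c ≠ 0 := Pool.Agent.W820.TW.sp3_ne hc0 h1
      positivity
    have e3 : ‖s + 3 + c‖ ^ 2 ≤ (|s.im| + k + 6) ^ 2 := by
      apply pow_le_pow_left₀ (norm_nonneg _)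
      refine (norm_le_abs_re_add_abs_im _).trans ?_
      have hre' : (s + 3 + c).re = s.re + 3 + c := by simp
      have him' : (s + 3 + c).im = s.im := by simp
      rw [hre', him', abs_of_nonneg (by linarith)]
      have : c ≤ k := by rw [hc]; linarith
      linarith
    have e4 : (Q ^ 2)⁻¹ ≤ Q ^ (s.re - 3 / 2) := by
      rw [← Real.rpow_natCast, ← Real.rpow_neg hQ0.le]
      apply Real.rpow_le_rpow_of_exponent_le hQ
      push_cast
      linarith
    have e5 : ‖F s‖ * (Q ^ 2)⁻¹ * (‖s + 3 + c‖ ^ 2)⁻¹ ≤ 2 * (B * N) := by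
      refine le_trans ?_ e1
      gcongr
    have hq2 : (0 : ℝ) < Q ^ 2 := by positivity
    have e6 : ‖F s‖ ≤ 2 * (B * N) * (‖s + 3 + c‖ ^ 2) * Q ^ 2 := by
      have : ‖F s‖ = (‖F s‖ * (Q ^ 2)⁻¹ * (‖s + 3 + c‖ ^ 2)⁻¹) *
          (‖s + 3 + c‖ ^ 2) * Q ^ 2 := by
        have e2' := e2.ne'
        generalize ‖s + 3 + c‖ ^ 2 = N at e2' ⊢
        field_simp
      rw [this]
      gcongr
    calc ‖F s‖ ≤ 2 * (B * N) * (‖s + 3 + c‖ ^ 2) * Q ^ 2 := e6
      _ ≤ 2 * (B * N) * ((|s.im| + k + 6) ^ 2) * Q ^ 2 := by gcongr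
      _ = _ := by ring
  · have e1 := hB s h
    have e2 : 1 ≤ (Q * (|s.im| + k + 6)) ^ 2 := by
      apply one_le_pow₀
      have : 1 ≤ |s.im| + k + 6 := by linarith
      exact one_le_mul_of_one_le_of_one_le hQ this
    have e3 : B ≤ 2 * (B * N) := by nlinarith
    calc ‖F s‖ ≤ 2 * (B * N) * 1 := by rw [mul_one]; exact e1.trans e3
      _ ≤ _ := by gcongr

/-- the number of zeros at distance at most `1/2` from a height, uniformly in the conductor -/
theorem unit_countU (hk : 1 ≤ k) (hN : 1 ≤ N) (hB1 : 1 ≤ B) {c : ℝ} (hc : 0 < c) : ∃ C : ℝ, 0 < C ∧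
    ∀ Q : ℝ, 1 ≤ Q → ∀ F : ℂ → ℂ, FE2 k N Q F → (∀ s : ℂ, 3 / 2 ≤ s.re → ‖F s‖ ≤ B) →
    (∀ s : ℂ, 2 ≤ s.re → c ≤ ‖F s‖) → ∀ t : ℝ, ∀ S : Finset ℂ,
    (∀ ρ ∈ S, 1 / 2 ≤ ρ.re ∧ ρ.re ≤ 1 ∧ |ρ.im - t| ≤ 1 / 2) →
    ∑ ρ ∈ S, (analyticOrderNatAt F ρ : ℝ) ≤ C * Real.log (Q * (|t| + 3)) := by
  have hk1 : (1 : ℝ) ≤ k := by exact_mod_cast hk
  have hBN : 1 ≤ B * N := by nlinarith
  refine ⟨12 * (|Real.log (2 * (B * N) * (k + 6) ^ 2)| + 2 + |Real.log c|) + 12, by positivity,
    fun Q hQ F hF hB hlow t S hS => ?_⟩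
  have hQ0 : (0 : ℝ) < Q := by linarith
  have ht := abs_nonneg t
  have ht0 : 0 < |t| + 3 := by linarith
  have hX3 : 3 ≤ Q * (|t| + 3) := by nlinarith
  have hX0 : 0 < Q * (|t| + 3) := by linarith
  have hlt : 1 ≤ Real.log (Q * (|t| + 3)) := by
    rw [Real.le_log_iff_exp_le hX0]
    have := Real.exp_one_lt_d9
    linarith
  set z0 : ℂ := (2 : ℂ) + (t : ℂ) * I with hz0
  have h0re : z0.re = 2 := by simp [hz0]
  have h0im : z0.im = t := by simp [hz0]
  have hball : ∀ z ∈ closedBall z0 (7 / 4), 1 / 4 ≤ z.re ∧ |z.im| ≤ |t| + 2 := by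
    intro z hz
    rw [mem_closedBall_iff_norm] at hz
    have e1 := (Complex.abs_re_le_norm (z - z0)).trans hz
    have e2 := (Complex.abs_im_le_norm (z - z0)).trans hz
    rw [Complex.sub_re, h0re] at e1
    rw [Complex.sub_im, h0im] at e2
    obtain ⟨a1, a2⟩ := abs_le.mp e1
    refine ⟨by linarith, ?_⟩
    have e3 : |z.im| ≤ |z.im - t| + |t| := by
      have := abs_add_le (z.im - t) t
      simpa using this
    linarith
  have hζan : AnalyticOnNhd ℂ F (closedBall z0 (7 / 4)) := fun z _ => hF.diff.analyticAt z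
  have hlow0 := hlow z0 (by rw [h0re])
  have hz0ne : F z0 ≠ 0 := by
    intro h; rw [h, norm_zero] at hlow0; linarith
  have hdist : ∀ ρ ∈ S, 0 < ‖z0 - ρ‖ ∧ ‖z0 - ρ‖ ≤ 8 / 5 := by
    intro ρ hρ
    obtain ⟨h1, h2, h3⟩ := hS ρ hρ
    obtain ⟨h4, h5⟩ := abs_le.mp h3
    have hd2 : ‖z0 - ρ‖ ^ 2 = (2 - ρ.re) ^ 2 + (t - ρ.im) ^ 2 := by
      rw [← Complex.normSq_eq_norm_sq, Complex.normSq_apply, Complex.sub_re, Complex.sub_im, h0re, h0im]
      ring
    constructor
    · rw [norm_pos_iff]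
      intro h6
      have := congrArg Complex.re h6
      rw [Complex.sub_re, h0re] at this
      simp at this
      linarith
    · have h6 : ‖z0 - ρ‖ ^ 2 ≤ (8 / 5) ^ 2 := by
        rw [hd2]
        nlinarith
      exact (pow_le_pow_iff_left₀ (norm_nonneg _) (by norm_num) (by norm_num)).mp h6
  have hJ := Pool.Agent.Y24.jensen_low (h := F) (c := z0) (R := 7 / 4) (by norm_num) hζan hz0ne S
    (analyticOrderNatAt F) (fun _ => 1 / 12)
    (fun ρ _ _ => le_rfl) (fun ρ _ => by norm_num)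
    (fun ρ hρ _ => by
      obtain ⟨h1, h2⟩ := hdist ρ hρ
      have h3 : (35:ℝ) / 32 ≤ 7 / 4 * ‖z0 - ρ‖⁻¹ := by
        rw [← div_eq_mul_inv, le_div_iff₀ h1]; linarith
      have h4 : (1:ℝ) / 12 ≤ Real.log (35 / 32) := by
        have := Real.one_sub_inv_le_log_of_pos (show (0:ℝ) < 35 / 32 by norm_num)
        norm_num at this
        linarith
      exact h4.trans (Real.log_le_log (by norm_num) h3))
    (fun ρ hρ hρB => by
      exfalso
      apply hρB
      rw [mem_closedBall, dist_eq_norm']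
      linarith [(hdist ρ hρ).2])
  have hbd : ∀ z ∈ sphere z0 |7 / 4|, Real.log ‖F z‖ ≤
      |Real.log (2 * (B * N) * (k + 6) ^ 2)| + 2 * Real.log (Q * (|t| + 3)) := by
    intro z hz
    rw [abs_of_pos (by norm_num : (0:ℝ) < 7 / 4)] at hz
    obtain ⟨b1, b2⟩ := hball z (sphere_subset_closedBall hz)
    rcases (norm_nonneg (F z)).eq_or_lt with h0 | h0
    · rw [← h0, Real.log_zero]; positivity
    · have h1 := gro_all hk hN hQ hB1 hF hB z (by linarith)
      have h2 : ‖F z‖ ≤ (2 * (B * N) * (k + 6) ^ 2) * (Q * (|t| + 3)) ^ 2 := by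
        have e1 : |z.im| + k + 6 ≤ (k + 6) * (|t| + 3) := by
          have e2 : |z.im| + k + 6 ≤ |t| + 2 + (k + 6) := by linarith
          have e3 : |t| + 2 + ((k : ℝ) + 6) ≤ ((k : ℝ) + 6) * (|t| + 3) := by nlinarith
          exact e2.trans e3
        calc ‖F z‖ ≤ 2 * (B * N) * (Q * (|z.im| + k + 6)) ^ 2 := h1
          _ ≤ 2 * (B * N) * (Q * ((k + 6) * (|t| + 3))) ^ 2 := by gcongr
          _ = _ := by ring
      calc Real.log ‖F z‖ ≤ Real.log ((2 * (B * N) * (k + 6) ^ 2) * (Q * (|t| + 3)) ^ 2) :=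
            Real.log_le_log h0 h2
        _ = Real.log (2 * (B * N) * (k + 6) ^ 2) + 2 * Real.log (Q * (|t| + 3)) := by
            rw [Real.log_mul (by positivity) (by positivity), Real.log_pow]
            push_cast
            ring
        _ ≤ _ := by gcongr; exact le_abs_self _
  have hci : CircleIntegrable (fun z => Real.log ‖F z‖) z0 (7 / 4) := by
    apply MeromorphicOn.circleIntegrable_log_norm
    rw [abs_of_pos (by norm_num : (0:ℝ) < 7 / 4)]
    exact (hζan.mono sphere_subset_closedBall).meromorphicOn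
  have havg := Real.circleAverage_mono_on_of_le_circle hci hbd
  have hlc : -|Real.log c| ≤ Real.log ‖F z0‖ :=
    (neg_abs_le _).trans (Real.log_le_log hc hlow0)
  rw [← Finset.sum_mul] at hJ
  have a1 := abs_nonneg (Real.log (2 * (B * N) * ((k : ℝ) + 6) ^ 2))
  have a2 := abs_nonneg (Real.log c)
  nlinarith

end growth

section form

open UpperHalfPlane hiding I
open MatrixGroups CongruenceSubgroup
open Pool.Agent.Y771.NF (lm psN frm_newf)
open Pool.Agent.Y693.GL (lx psx frm_tw)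

variable {N : ℕ} [NeZero N] {k : ℕ} {f : CuspForm (Gamma0 N : Subgroup (GL (Fin 2) ℝ)) (k : ℤ)} {ε : ℝ}
variable {q : ℕ} [NeZero q] {χ : DirichletCharacter ℂ q}

theorem exists_L (hk : 1 ≤ k) (hf : W388.IsNewf N k f ε) (hχ : χ.IsPrimitive) (hco : Nat.Coprime q N) :
    ∃ F : ℂ → ℂ, W388.FE2 k N q F ∧ IsL (lx f χ) F := by
  have hsum : ∀ (q : ℕ) [NeZero q] (χ : DirichletCharacter ℂ q) (s : ℂ), 1 < s.re →
      Summable (fun n : ℕ => ‖χ (n : ZMod q) * (W388.lamf f n : ℂ) * (n : ℂ) ^ (-s)‖) := by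
    intro q _ χ s hs
    have h0 : Frm k N (psN N) (lm f) := frm_newf hk hf
    obtain ⟨-, -, -, h4⟩ := Pool.Agent.Y771.GL.mf k N (psN N) (lm f) h0
    refine (h4 s.re hs).1.of_nonneg_of_le (fun n => norm_nonneg _) fun n => ?_
    rcases Nat.eq_zero_or_pos n with rfl | hn
    · have h5 : (W388.lamf f 0 : ℂ) = 0 := h0.zero
      rw [h5]
      simp
      positivity
    · rw [norm_mul, norm_mul, Complex.norm_natCast_cpow_of_pos hn, neg_re]
      have h6 := χ.norm_le_one (n : ZMod q)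
      have h7 : ‖lm f n‖ = ‖(W388.lamf f n : ℂ)‖ := rfl
      rw [h7]
      have h8 : (0 : ℝ) ≤ (n : ℝ) ^ (-s.re) := by positivity
      have h9 := norm_nonneg ((W388.lamf f n : ℂ))
      calc ‖χ (n : ZMod q)‖ * ‖(W388.lamf f n : ℂ)‖ * (n : ℝ) ^ (-s.re) ≤
          1 * ‖(W388.lamf f n : ℂ)‖ * (n : ℝ) ^ (-s.re) := by gcongr
        _ = _ := by ring
  have hk' : (1 : ℤ) ≤ (k : ℤ) := by exact_mod_cast hk
  obtain ⟨F, hF, hs⟩ := W388.exists_twist Pool.Agent.W440.TW.t_twist Pool.Agent.W108.TW.t_mellin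
    hk' hf hsum q χ hχ hco
  exact ⟨F, hF, hF.diff, hs⟩


end form

end Pool.Agent.K9h29.ZD
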