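import Pool.Agent.Y24.GL.H4

set_option autoImplicit false

/-!
# Zeros in a window for a finite family of mollified functions
-/

namespace Pool.Agent.K9h29.ZD

open Finset Filter MeasureTheory Complex Metric
open Pool.Agent.Y24 (jensen_low log_one_sub_sq_ge circle_re avg_cont fub)
open Pool.Agent.Y24.GL (weight_le log_le2 ind_int)

noncomputable section

/-- a trapezoid: `1` on `[lo + 1, hi - 1]`, `0` outside of `[lo, hi]` -/
def trap (lo hi y : ℝ) : ℝ := max 0 (min 1 (min (y - lo) (hi - y)))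

theorem trap_cont (lo hi : ℝ) : Continuous (trap lo hi) := by unfold trap; fun_prop

theorem trap_nonneg (lo hi y : ℝ) : 0 ≤ trap lo hi y := le_max_left _ _

theorem trap_le (lo hi y : ℝ) : trap lo hi y ≤ 1 := by
  unfold trap
  exact max_le (by norm_num) (min_le_left _ _)

theorem trap_one {lo hi y : ℝ} (h1 : lo + 1 ≤ y) (h2 : y ≤ hi - 1) : trap lo hi y = 1 := by
  unfold trap
  rw [min_eq_left (le_min (by linarith) (by linarith)), max_eq_right (by norm_num)]

theorem trap_zero {lo hi y : ℝ} (h : y ≤ lo ∨ hi ≤ y) : trap lo hi y = 0 := by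
  unfold trap
  apply max_eq_left
  rcases h with h | h
  · exact (min_le_right _ _).trans ((min_le_left _ _).trans (by linarith))
  · exact (min_le_right _ _).trans ((min_le_right _ _).trans (by linarith))

/-- a continuous function times the trapezoid -/
theorem trap_int {g : ℝ → ℝ} (hg : Continuous g) (hg0 : ∀ y, 0 ≤ g y) {lo hi : ℝ} (h : lo ≤ hi) :
    Integrable (fun y => g y * trap lo hi y) ∧
      ∫ y, g y * trap lo hi y ≤ ∫ y in lo..hi, g y := by
  have hcont : Continuous (fun y => g y * trap lo hi y) := hg.mul (trap_cont lo hi)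
  have hsupp : ∀ y, y ∉ Set.Icc lo hi → g y * trap lo hi y = 0 := by
    intro y hy
    rw [trap_zero, mul_zero]
    by_contra hcon
    push Not at hcon
    exact hy ⟨hcon.1.le, hcon.2.le⟩
  have hint : Integrable (fun y => g y * trap lo hi y) := by
    apply hcont.integrable_of_hasCompactSupport
    apply HasCompactSupport.of_support_subset_isCompact (isCompact_Icc (a := lo) (b := hi))
    intro y hy
    by_contra hcon
    exact hy (hsupp y hcon)
  refine ⟨hint, ?_⟩
  have e1 : ∫ y, g y * trap lo hi y = ∫ y in lo..hi, g y * trap lo hi y := by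
    rw [intervalIntegral.integral_of_le h, ← integral_Icc_eq_integral_Ioc,
      setIntegral_eq_integral_of_forall_compl_eq_zero hsupp]
  rw [e1]
  apply intervalIntegral.integral_mono_on h
  · exact hcont.intervalIntegrable _ _
  · exact hg.intervalIntegrable _ _
  · intro y _
    exact mul_le_of_le_one_right (hg0 y) (trap_le lo hi y)

section

variable {ι : Type*} {F P : ι → ℂ → ℂ} {lo hi : ℝ}

/-- the weighted function -/
def Gt (F P : ℂ → ℂ) (lo hi : ℝ) (z : ℂ) : ℝ := ‖F z * P z - 1‖ * trap lo hi z.im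

theorem Gt_cont {F P : ℂ → ℂ} (hF : Differentiable ℂ F) (hP : Differentiable ℂ P) :
    Continuous (Gt F P lo hi) := by
  unfold Gt
  exact ((hF.continuous.mul hP.continuous).sub continuous_const).norm.mul
    ((trap_cont lo hi).comp Complex.continuous_im)

/-- Jensen's formula at one point -/
theorem jen_pt {F P : ℂ → ℂ} (hF : Differentiable ℂ F) (hP : Differentiable ℂ P) {E0 : ℝ}
    (hright : ∀ s : ℂ, s.re = 3 → ‖F s * P s - 1‖ ≤ E0) (hsmall : E0 ^ 2 ≤ 1 / 2)
    {L : ℝ} (hL : 1 ≤ L) {σ t : ℝ} (hσ1 : 1 / 2 ≤ σ) (hσ2 : σ ≤ 1) (ht1 : lo + 4 ≤ t) (ht2 : t ≤ hi - 4)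
    (S : Finset ℂ) (hS : ∀ ρ ∈ S, σ + 1 / L ≤ ρ.re ∧ ρ.re ≤ 1) :
    ∑ ρ ∈ S, (analyticOrderNatAt F ρ : ℝ) *
      Set.indicator (Set.Icc (ρ.im - 1 / Real.sqrt L) (ρ.im + 1 / Real.sqrt L)) (fun _ => 1 / (7 * L)) t ≤
      2 * Real.circleAverage (Gt F P lo hi) ((3 : ℂ) + (t : ℂ) * I) (3 - σ) + 2 * E0 ^ 2 := by
  have hL0 : 0 < L := by linarith
  set R := 3 - σ with hR
  have hR2 : 2 ≤ R := by linarith
  have hR3 : R ≤ 5 / 2 := by linarith
  have hR0 : 0 < R := by linarith
  set c : ℂ := (3 : ℂ) + (t : ℂ) * I with hc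
  have hcre : c.re = 3 := by simp [hc]
  have hcim : c.im = t := by simp [hc]
  have hball : ∀ z ∈ closedBall c R, lo + 1 ≤ z.im ∧ z.im ≤ hi - 1 := by
    intro z hz
    rw [mem_closedBall_iff_norm] at hz
    have e2 := (Complex.abs_im_le_norm (z - c)).trans hz
    rw [Complex.sub_im, hcim] at e2
    obtain ⟨a3, a4⟩ := abs_le.mp e2
    constructor <;> linarith
  set f : ℂ → ℂ := fun z => F z * P z - 1 with hf
  set h : ℂ → ℂ := fun z => 1 - f z ^ 2 with hh
  have hfd : Differentiable ℂ f := (hF.mul hP).sub_const 1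
  have hhd : Differentiable ℂ h := (differentiable_const 1).sub (hfd.pow 2)
  have hFan : ∀ z, AnalyticAt ℂ F z := fun z => hF.analyticAt z
  have hPan : ∀ z, AnalyticAt ℂ P z := fun z => hP.analyticAt z
  have hhB : AnalyticOnNhd ℂ h (closedBall c R) := fun z _ => hhd.analyticAt z
  have hcB : c ∈ closedBall c R := mem_closedBall_self hR0.le
  have hfc : ‖f c‖ ≤ E0 := hright c hcre
  have hfc2 : ‖f c‖ ^ 2 ≤ E0 ^ 2 := pow_le_pow_left₀ (norm_nonneg _) hfc 2
  obtain ⟨hc0, hclog⟩ := log_one_sub_sq_ge (hfc2.trans hsmall)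
  have hhc : h c ≠ 0 := hc0
  have horder : ∀ ρ ∈ closedBall c R, analyticOrderNatAt F ρ ≤ analyticOrderNatAt h ρ := by
    intro ρ hρ
    have h1 : analyticOrderAt h ρ ≠ ⊤ :=
      AnalyticOnNhd.analyticOrderAt_ne_top_of_isPreconnected hhB (convex_closedBall c R).isPreconnected hcB hρ
        (by rw [(hhB c hcB).analyticOrderAt_eq_zero.mpr hhc]; simp)
    set q : ℂ → ℂ := fun z => P z * (2 - F z * P z) with hq
    have hqan : AnalyticAt ℂ q ρ := (hPan ρ).mul (analyticAt_const.sub ((hFan ρ).mul (hPan ρ)))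
    have hprod : h = F * q := by
      funext z
      simp only [hh, hf, hq, Pi.mul_apply]
      ring
    have h2 := analyticOrderAt_mul (hFan ρ) hqan
    rw [← hprod] at h2
    have h3 : analyticOrderAt F ρ ≠ ⊤ := by
      intro h4; rw [h4, top_add] at h2; exact h1 h2
    have h4 : analyticOrderAt q ρ ≠ ⊤ := by
      intro h5; rw [h5, add_top] at h2; exact h1 h2
    rw [hprod, analyticOrderNatAt_mul (hFan ρ) hqan h3 h4]
    omega
  have hJ := jensen_low (h := h) (c := c) (R := R) hR0 hhB hhc S (analyticOrderNatAt F)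
    (fun ρ => Set.indicator (Set.Icc (ρ.im - 1 / Real.sqrt L) (ρ.im + 1 / Real.sqrt L)) (fun _ => 1 / (7 * L)) t)
    (fun ρ _ hρ => horder ρ hρ)
    (fun ρ _ => Set.indicator_nonneg (fun _ _ => by positivity) _)
    (fun ρ hρ hρB => by
      by_cases hm : t ∈ Set.Icc (ρ.im - 1 / Real.sqrt L) (ρ.im + 1 / Real.sqrt L)
      · rw [Set.indicator_of_mem hm]
        exact (weight_le hL hσ1 hσ2 (hS ρ hρ).1 (hS ρ hρ).2 (by
          rw [abs_le]; constructor <;> linarith [hm.1, hm.2])).2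
      · rw [Set.indicator_of_notMem hm]
        rw [mem_closedBall, dist_eq_norm'] at hρB
        have hpos : 0 < ‖c - ρ‖ := by
          rw [norm_pos_iff]
          intro h5
          have := congrArg Complex.re h5
          rw [Complex.sub_re, hcre] at this
          have := (hS ρ hρ).2
          simp at *
          linarith
        apply Real.log_nonneg
        rw [← div_eq_mul_inv, one_le_div hpos]; exact hρB)
    (fun ρ hρ hρB => by
      apply Set.indicator_of_notMem
      intro hm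
      exact hρB (weight_le hL hσ1 hσ2 (hS ρ hρ).1 (hS ρ hρ).2 (by
          rw [abs_le]; constructor <;> linarith [hm.1, hm.2])).1)
  refine hJ.trans ?_
  -- the circle average
  set G : ℂ → ℝ := Gt F P lo hi with hG
  have hsph : ∀ z ∈ sphere c |R|, Real.log ‖h z‖ ≤ 2 * G z := by
    intro z hz
    rw [abs_of_pos hR0] at hz
    obtain ⟨b1, b2⟩ := hball z (sphere_subset_closedBall hz)
    refine (log_le2 (f z)).trans ?_
    rw [hG]
    unfold Gt
    rw [trap_one b1 b2, mul_one]
  have hGc : Continuous G := Gt_cont hF hP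
  have hci2 : CircleIntegrable (fun z => 2 * G z) c R := by
    apply ContinuousOn.circleIntegrable'
    exact (continuous_const.mul hGc).continuousOn
  have hci1 : CircleIntegrable (fun z => Real.log ‖h z‖) c R := by
    apply MeromorphicOn.circleIntegrable_log_norm
    rw [abs_of_pos hR0]
    exact (hhB.mono sphere_subset_closedBall).meromorphicOn
  have hmono := Real.circleAverage_mono hci1 hci2 hsph
  have hK2 : Real.circleAverage (fun z => 2 * G z) c R = 2 * Real.circleAverage G c R := by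
    have := Real.circleAverage_fun_smul (a := (2:ℝ)) (f := G) (c := c) (R := R)
    simpa [smul_eq_mul] using this
  rw [hK2] at hmono
  linarith

/-- **Zeros in a window, for a family.** -/
theorem jen_win (S : Finset ι) (hF : ∀ i ∈ S, Differentiable ℂ (F i)) (hP : ∀ i ∈ S, Differentiable ℂ (P i))
    {A μ E0 L σ u v : ℝ} (hA : 0 ≤ A) (hμ : 0 < μ)
    (hmid : ∀ x : ℝ, 1 / 2 ≤ x → x ≤ 11 / 2 →
      ∑ i ∈ S, ∫ t in lo..hi, ‖F i ((x : ℂ) + t * I) * P i ((x : ℂ) + t * I) - 1‖ ≤
        A * Real.exp (-(μ * (x - 1 / 2))))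
    (hright : ∀ i ∈ S, ∀ s : ℂ, s.re = 3 → ‖F i s * P i s - 1‖ ≤ E0) (hsmall : E0 ^ 2 ≤ 1 / 2)
    (hL : 1 ≤ L) (hσ1 : 1 / 2 ≤ σ) (hσ2 : σ ≤ 1) (huv : u ≤ v) (hu : lo + 5 ≤ u) (hv : v ≤ hi - 5)
    (Z : ι → Finset ℂ)
    (hZ : ∀ i ∈ S, ∀ ρ ∈ Z i, σ + 1 / L ≤ ρ.re ∧ ρ.re ≤ 1 ∧ u ≤ ρ.im ∧ ρ.im ≤ v) :
    (∑ i ∈ S, ∑ ρ ∈ Z i, (analyticOrderNatAt (F i) ρ : ℝ)) * (2 / (7 * (L * Real.sqrt L))) ≤
      2 * (A * Real.exp (-(μ * (σ - 1 / 2))) * Real.sqrt (Real.pi / (μ * (3 - σ)))) +
        (v - u + 2) * (S.card * (2 * E0 ^ 2)) := by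
  classical
  have hL0 : 0 < L := by linarith
  set R := 3 - σ with hR
  have hR2 : 2 ≤ R := by linarith
  have hR3 : R ≤ 5 / 2 := by linarith
  have hR0 : 0 < R := by linarith
  have hsq1 : 1 ≤ Real.sqrt L := by
    rw [Real.one_le_sqrt]; exact hL
  have hsl : 1 / Real.sqrt L ≤ 1 := by
    rw [div_le_one (by linarith)]; exact hsq1
  have hsl0 : 0 < 1 / Real.sqrt L := by positivity
  have hlh : lo ≤ hi := by linarith
  -- the sum of the weighted functions
  set G : ℂ → ℝ := fun z => ∑ i ∈ S, Gt (F i) (P i) lo hi z with hG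
  have hGc : Continuous G := continuous_finsetSum _ fun i hm => Gt_cont (hF i hm) (hP i hm)
  have hGn : ∀ z, 0 ≤ G z := fun z => Finset.sum_nonneg fun i _ =>
    mul_nonneg (norm_nonneg _) (trap_nonneg _ _ _)
  have hlin : ∀ i ∈ S, ∀ x : ℝ, Continuous fun y : ℝ =>
      ‖F i ((x : ℂ) + y * I) * P i ((x : ℂ) + y * I) - 1‖ := by
    intro i hm x
    have hl : Continuous fun y : ℝ => ((x : ℂ) + y * I) := by fun_prop
    exact ((((hF i hm).continuous.comp hl).mul ((hP i hm).continuous.comp hl)).sub continuous_const).norm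
  have hGline : ∀ i ∈ S, ∀ x : ℝ, Integrable (fun y : ℝ => Gt (F i) (P i) lo hi ((x : ℂ) + (y : ℂ) * I)) ∧
      ∫ y : ℝ, Gt (F i) (P i) lo hi ((x : ℂ) + (y : ℂ) * I) ≤
        ∫ t in lo..hi, ‖F i ((x : ℂ) + t * I) * P i ((x : ℂ) + t * I) - 1‖ := by
    intro i hm x
    have h1 := trap_int (hlin i hm x) (fun y => norm_nonneg _) hlh
    have e1 : (fun y : ℝ => Gt (F i) (P i) lo hi ((x : ℂ) + (y : ℂ) * I)) =
        fun y : ℝ => ‖F i ((x : ℂ) + y * I) * P i ((x : ℂ) + y * I) - 1‖ * trap lo hi y := by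
      funext y
      unfold Gt
      have : ((x : ℂ) + (y : ℂ) * I).im = y := by simp
      rw [this]
    rw [e1]
    exact h1
  have hfub := fub (G := G) hGc.continuousOn hGn (c₀ := 3) (R := R) (a := u - 1) (b := v + 1)
    (K := A) (μ := μ) (σ := 1 / 2) hR0 (by linarith) (by linarith) hA hμ
    (fun x _ _ => by
      have h1 := integrable_finsetSum S fun i hm => (hGline i hm x).1
      exact h1)
    (fun x hx1 hx2 => by
      have h1 := integral_finsetSum S fun i hm => (hGline i hm x).1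
      have h2 : ∫ y : ℝ, G ((x : ℂ) + (y : ℂ) * I) =
          ∑ i ∈ S, ∫ y : ℝ, Gt (F i) (P i) lo hi ((x : ℂ) + (y : ℂ) * I) := h1
      rw [h2]
      exact (Finset.sum_le_sum fun i hm => (hGline i hm x).2).trans (hmid x (by linarith) (by linarith)))
  have h3 : (3:ℝ) - R - 1 / 2 = σ - 1 / 2 := by rw [hR]; ring
  rw [h3] at hfub
  -- the pointwise inequality
  have hpt : ∀ t ∈ Set.Icc (u - 1) (v + 1), ∑ i ∈ S, ∑ ρ ∈ Z i, (analyticOrderNatAt (F i) ρ : ℝ) *
      Set.indicator (Set.Icc (ρ.im - 1 / Real.sqrt L) (ρ.im + 1 / Real.sqrt L)) (fun _ => 1 / (7 * L)) t ≤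
      2 * Real.circleAverage G (((3:ℝ) : ℂ) + (t : ℂ) * I) R + S.card * (2 * E0 ^ 2) := by
    intro t ht
    have h4 : ∀ i ∈ S, ∑ ρ ∈ Z i, (analyticOrderNatAt (F i) ρ : ℝ) *
      Set.indicator (Set.Icc (ρ.im - 1 / Real.sqrt L) (ρ.im + 1 / Real.sqrt L)) (fun _ => 1 / (7 * L)) t ≤
      2 * Real.circleAverage (Gt (F i) (P i) lo hi) (((3:ℝ) : ℂ) + (t : ℂ) * I) R + 2 * E0 ^ 2 := by
      intro i hm
      have := jen_pt (lo := lo) (hF i hm) (hP i hm) (hright i hm) hsmall hL hσ1 hσ2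
        (by linarith [ht.1]) (by linarith [ht.2] : t ≤ hi - 4) (Z i)
        (fun ρ hρ => ⟨(hZ i hm ρ hρ).1, (hZ i hm ρ hρ).2.1⟩)
      exact this
    refine (Finset.sum_le_sum h4).trans ?_
    rw [Finset.sum_add_distrib, Finset.sum_const, nsmul_eq_mul, ← Finset.mul_sum]
    have h5 : Real.circleAverage G (((3:ℝ) : ℂ) + (t : ℂ) * I) R =
        ∑ i ∈ S, Real.circleAverage (Gt (F i) (P i) lo hi) (((3:ℝ) : ℂ) + (t : ℂ) * I) R := by
      have h6 := Real.circleAverage_sum (s := S) (f := fun i => Gt (F i) (P i) lo hi)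
        (c := ((3:ℝ) : ℂ) + (t : ℂ) * I) (R := R) (fun i hm => by
          apply ContinuousOn.circleIntegrable'
          exact (Gt_cont (hF i hm) (hP i hm)).continuousOn)
      rw [← h6]
      congr 1
      funext z
      rw [hG]
      simp
    rw [h5]
  have hind : ∀ ρ : ℂ, Integrable (Set.indicator (Set.Icc (ρ.im - 1 / Real.sqrt L)
      (ρ.im + 1 / Real.sqrt L)) (fun _ => 1 / (7 * L))) := by
    intro ρ
    rw [integrable_indicator_iff measurableSet_Icc]
    exact integrableOn_const (by simp)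
  have hintS : ∀ i ∈ S, ∀ ρ ∈ Z i, IntervalIntegrable (fun t => (analyticOrderNatAt (F i) ρ : ℝ) *
      Set.indicator (Set.Icc (ρ.im - 1 / Real.sqrt L) (ρ.im + 1 / Real.sqrt L)) (fun _ => 1 / (7 * L)) t) volume
      (u - 1) (v + 1) := fun i _ ρ _ => (hind ρ).intervalIntegrable.const_mul _
  have hintI : ∀ i ∈ S, IntervalIntegrable (fun t => ∑ ρ ∈ Z i, (analyticOrderNatAt (F i) ρ : ℝ) *
      Set.indicator (Set.Icc (ρ.im - 1 / Real.sqrt L) (ρ.im + 1 / Real.sqrt L)) (fun _ => 1 / (7 * L)) t) volume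
      (u - 1) (v + 1) := by
    intro i hm
    have h5 := IntervalIntegrable.sum (Z i) (hintS i hm)
    refine (intervalIntegrable_congr ?_).mp h5
    intro t _
    simp
  have hintL : IntervalIntegrable (fun t => ∑ i ∈ S, ∑ ρ ∈ Z i, (analyticOrderNatAt (F i) ρ : ℝ) *
      Set.indicator (Set.Icc (ρ.im - 1 / Real.sqrt L) (ρ.im + 1 / Real.sqrt L)) (fun _ => 1 / (7 * L)) t) volume
      (u - 1) (v + 1) := by
    have h5 := IntervalIntegrable.sum S hintI
    refine (intervalIntegrable_congr ?_).mp h5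
    intro t _
    simp
  have havgc := avg_cont (G := G) hGc.continuousOn (c₀ := 3) (R := R) hR0 (by linarith)
  have hcK : Continuous fun t : ℝ => 2 * Real.circleAverage G (((3:ℝ) : ℂ) + (t : ℂ) * I) R :=
    continuous_const.mul havgc
  have hcK2 : Continuous fun t : ℝ => 2 * Real.circleAverage G (((3:ℝ) : ℂ) + (t : ℂ) * I) R +
      S.card * (2 * E0 ^ 2) := hcK.add continuous_const
  have hI := intervalIntegral.integral_mono_on (μ := volume) (by linarith : u - 1 ≤ v + 1) hintL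
    (hcK2.intervalIntegrable _ _) hpt
  rw [intervalIntegral.integral_finsetSum hintI] at hI
  have hlhs : ∑ i ∈ S, ∫ t in (u - 1)..(v + 1), ∑ ρ ∈ Z i, (analyticOrderNatAt (F i) ρ : ℝ) *
      Set.indicator (Set.Icc (ρ.im - 1 / Real.sqrt L) (ρ.im + 1 / Real.sqrt L)) (fun _ => 1 / (7 * L)) t =
      (∑ i ∈ S, ∑ ρ ∈ Z i, (analyticOrderNatAt (F i) ρ : ℝ)) * (2 / (7 * (L * Real.sqrt L))) := by
    rw [Finset.sum_mul]
    refine Finset.sum_congr rfl fun i hm => ?_
    rw [intervalIntegral.integral_finsetSum (hintS i hm), Finset.sum_mul]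
    refine Finset.sum_congr rfl fun ρ hρ => ?_
    obtain ⟨_, _, g1, g2⟩ := hZ i hm ρ hρ
    rcases eq_or_lt_of_le hsl with h5 | h5
    · rw [intervalIntegral.integral_const_mul]
      have h6 : ∫ t in (u - 1)..(v + 1), Set.indicator (Set.Icc (ρ.im - 1 / Real.sqrt L)
          (ρ.im + 1 / Real.sqrt L)) (fun _ => 1 / (7 * L)) t = (2 / Real.sqrt L) * (1 / (7 * L)) := by
        rw [intervalIntegral.integral_of_le (by linarith), ← integral_Icc_eq_integral_Ioc,
          setIntegral_indicator measurableSet_Icc]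
        have h7 : Set.Icc (u - 1) (v + 1) ∩ Set.Icc (ρ.im - 1 / Real.sqrt L) (ρ.im + 1 / Real.sqrt L) =
            Set.Icc (ρ.im - 1 / Real.sqrt L) (ρ.im + 1 / Real.sqrt L) := by
          apply Set.inter_eq_right.mpr
          intro t ht
          exact ⟨by linarith [ht.1], by linarith [ht.2]⟩
        rw [h7, setIntegral_const, Real.volume_real_Icc_of_le (by linarith), smul_eq_mul]
        ring
      rw [h6]
      field_simp
    · rw [intervalIntegral.integral_const_mul, ind_int (by linarith) (by linarith) (by linarith)]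
      field_simp
      ring
  rw [hlhs] at hI
  refine hI.trans ?_
  rw [intervalIntegral.integral_add (hcK.intervalIntegrable _ _)
    (continuous_const.intervalIntegrable _ _), intervalIntegral.integral_const_mul,
    intervalIntegral.integral_const, smul_eq_mul]
  have e1 : v + 1 - (u - 1) = v - u + 2 := by ring
  rw [e1]
  gcongr

end

end

end Pool.Agent.K9h29.ZD
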