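import Pool.Agent.Y671.GL.All
import Pool.Agent.K9h29.ZD.QChar

set_option autoImplicit false

/-!
# The mollifier sums of the twists of a form, with constants that do not depend on the character
-/

namespace Pool.Agent.K9h29.ZD

open Complex Filter Topology MeasureTheory Set
open scoped ComplexConjugate
open Pool.Agent.H24R2.DZ (ph SFour)
open Pool.Agent.Y671.GL
open Pool.Agent.Y494.GL
open Pool.Agent.Y771.GL (Dat Hk pr mem_pr KC kt kt_pos er er_nonneg fin_bound TZ TZ_tendsto l_summable RSb cpow_eq_exp norm_ppow)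
open Pool.Agent.W368.SD (ss rho rho_pos rho_int rho_cont rho_mul cs FT cpow_cont cpow_norm_le ss_re)

section

variable {ps lam : ℕ → ℂ} {th C : ℝ}

/-- the twisted nebentypus -/
noncomputable def tp {q : ℕ} (χ : DirichletCharacter ℂ q) (ps : ℕ → ℂ) (p : ℕ) : ℂ := ps p * χ p ^ 2

theorem norm_tl_le {q : ℕ} (χ : DirichletCharacter ℂ q) (a : ℕ → ℂ) (n : ℕ) : ‖tl χ a n‖ ≤ ‖a n‖ := by
  unfold tl
  rw [norm_mul]
  exact mul_le_of_le_one_left (norm_nonneg _) (χ.norm_le_one _)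

/-- the data of a twist -/
theorem dat_tl (h : Dat ps lam th C) {q : ℕ} (χ : DirichletCharacter ℂ q) : Dat (tp χ ps) (tl χ lam) th C where
  hk := by
    refine ⟨?_, ?_, ?_⟩
    · unfold tl
      simp [h.hk.one]
    · intro m n hmn
      unfold tl
      rw [h.hk.mul m n hmn]
      push_cast
      rw [map_mul]
      ring
    · intro p j hp
      unfold tl tp
      rw [h.hk.pow p j hp]
      push_cast
      rw [map_pow, map_pow, map_pow]
      ring
  ps_le := by
    intro p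
    unfold tp
    rw [norm_mul, norm_pow]
    have h1 := h.ps_le p
    have h2 : ‖χ (p : ZMod q)‖ ^ 2 ≤ 1 := pow_le_one₀ (norm_nonneg _) (χ.norm_le_one _)
    calc ‖ps p‖ * ‖χ (p : ZMod q)‖ ^ 2 ≤ 1 * 1 := mul_le_mul h1 h2 (by positivity) (by norm_num)
      _ = 1 := by norm_num
  th0 := h.th0
  th1 := h.th1
  C1 := h.C1
  bd := fun n hn => (norm_tl_le χ lam n).trans (h.bd n hn)
  rs := by
    intro x hx
    refine le_trans (Finset.sum_le_sum fun p hp => ?_) (h.rs x hx)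
    have h1 : ‖tl χ lam p‖ ^ 2 ≤ ‖lam p‖ ^ 2 := pow_le_pow_left₀ (norm_nonneg _) (norm_tl_le χ lam p) 2
    have h2 : 0 ≤ Real.log (p : ℝ) := Real.log_natCast_nonneg p
    simp only
    gcongr

/-- the inverse of the twist is the twist of the inverse -/
theorem mf_tl {q : ℕ} (χ : DirichletCharacter ℂ q) (n : ℕ) : mf (tp χ ps) (tl χ lam) n = tl χ (mf ps lam) n := by
  classical
  by_cases hn : n = 0
  · subst hn
    unfold tl mf
    simp
  unfold tl
  have e1 : χ (n : ZMod q) = ∏ p ∈ n.primeFactors, χ (p : ZMod q) ^ n.factorization p := by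
    nth_rewrite 1 [← Nat.prod_factorization_pow_eq_self hn]
    rw [Finsupp.prod, Nat.cast_prod, map_prod]
    refine Finset.prod_congr rfl fun p _ => ?_
    rw [Nat.cast_pow, map_pow]
  rw [e1]
  unfold mf
  rw [if_neg hn, if_neg hn, ← Finset.prod_mul_distrib]
  refine Finset.prod_congr rfl fun p _ => ?_
  unfold tp
  beta_reduce
  by_cases h1 : n.factorization p = 1
  · rw [if_pos h1, if_pos h1, h1, pow_one]
    ring
  · rw [if_neg h1, if_neg h1]
    by_cases h2 : n.factorization p = 2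
    · rw [if_pos h2, if_pos h2, h2]
      ring
    · rw [if_neg h2, if_neg h2, mul_zero]

theorem bq_tl {q : ℕ} (χ : DirichletCharacter ℂ q) (θ L : ℝ) (β : ℂ) :
    bq (tp χ ps) (tl χ lam) θ L β = tl χ (bq ps lam θ L β) := by
  funext n
  unfold bq
  rw [mf_tl]
  unfold tl
  ring

end

/-- The Euler product bound, uniform over all forms dominated by a given one. -/
theorem eu2U {ps0 lam0 : ℕ → ℂ} {th C : ℝ} (h : Dat ps0 lam0 th C) : ∃ K : ℝ, 0 < K ∧ ∀ ps lam : ℕ → ℂ,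
    Dat ps lam th C → (∀ p, ‖lam p‖ ≤ ‖lam0 p‖) → ∀ (L τ : ℝ) (X : ℕ), 1 ≤ L →
    ∑ q ∈ Finset.Icc 1 X, ∑ a ∈ (Finset.Icc 1 X).filter (fun a => a.Coprime q), ((a : ℝ) * q) ^ (-(1 + 1 / L)) *
      ‖∑' l : ℕ, mf ps lam (q * l) * conj (lam (a * l)) *
        (l : ℂ) ^ (-(1 + (1 + I * τ) / L))‖ ^ 2 ≤ K * (1 + |τ|) ^ 16 := by
  have h0 := h.th0
  have h1 := h.th1
  have hC := h.C1
  obtain ⟨K1, hK1, h2⟩ := h.err
  obtain ⟨K2, hK2, h3⟩ := h.rs.main (fun n => sq_nonneg _) (by linarith)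
  have hKC : 0 ≤ KC th C := by
    unfold KC
    have := (kt_pos h1).le
    positivity
  refine ⟨Real.exp (K2 + KC th C * K1), Real.exp_pos _, fun ps lam hd hdom L τ X hL => ?_⟩
  have hL0 : 0 < L := by linarith
  have hτ : 0 ≤ |τ| := abs_nonneg τ
  obtain ⟨z, hzd⟩ : ∃ z : ℂ, z = 1 + (1 + I * τ) / L := ⟨_, rfl⟩
  have hzre : z.re = 1 + 1 / L := by
    rw [hzd, add_re, one_re, Complex.div_ofReal_re]
    simp
  have hzim : z.im = τ / L := by
    rw [hzd, add_im, one_im, Complex.div_ofReal_im]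
    simp
  have hz1 : 1 < z.re := by
    rw [hzre]
    have : 0 < 1 / L := by positivity
    linarith
  rw [← hzd, ← hzre]
  have hlim : Tendsto (fun Z => ∑ q ∈ Finset.Icc 1 X, ∑ a ∈ (Finset.Icc 1 X).filter (fun a => a.Coprime q),
      ((a : ℝ) * q) ^ (-z.re) * ‖TZ ps lam z Z a q‖ ^ 2) atTop
      (𝓝 (∑ q ∈ Finset.Icc 1 X, ∑ a ∈ (Finset.Icc 1 X).filter (fun a => a.Coprime q), ((a : ℝ) * q) ^ (-z.re) *
      ‖∑' l : ℕ, mf ps lam (q * l) * conj (lam (a * l)) * (l : ℂ) ^ (-z)‖ ^ 2)) := by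
    refine tendsto_finsetSum _ fun q hq => tendsto_finsetSum _ fun a ha => ?_
    rw [Finset.mem_Icc] at hq
    rw [Finset.mem_filter, Finset.mem_Icc] at ha
    have hq0 : q ≠ 0 := by omega
    have ha0 : a ≠ 0 := by omega
    exact ((TZ_tendsto z a q hq0 (l_summable hd hz1 ha0 hq0)).norm.pow 2).const_mul _
  refine le_of_tendsto hlim ?_
  rw [eventually_atTop]
  refine ⟨max X 1, fun Z hZ => ?_⟩
  have hXZ : X ≤ Z := (le_max_left _ _).trans hZ
  have hZ1 : 1 ≤ Z := (le_max_right _ _).trans hZ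
  refine (fin_bound hd hz1 hXZ hZ1).trans ?_
  have h4 : (1 + |τ|) ^ 16 = Real.exp (16 * Real.log (1 + |τ|)) := by
    rw [mul_comm, Real.exp_mul, Real.exp_log (by positivity)]
    norm_cast
  rw [h4, ← Real.exp_add]
  apply Real.exp_le_exp.2
  rw [Finset.sum_add_distrib, ← Finset.mul_sum]
  have h9 := mul_le_mul_of_nonneg_left (h2 Z) hKC
  have h9' : KC th C * ∑ p ∈ pr Z, er th ‖lam p‖ p ≤ KC th C * ∑ p ∈ pr Z, er th ‖lam0 p‖ p := by
    refine mul_le_mul_of_nonneg_left (Finset.sum_le_sum fun p _ => ?_) hKC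
    unfold er
    refine mul_le_mul_of_nonneg_right ?_ (Real.rpow_nonneg (Nat.cast_nonneg _) _)
    have := pow_le_pow_left₀ (norm_nonneg _) (hdom p) 2
    linarith
  have h10 := h3 L τ Z (fun p => 2 - 2 * Real.cos (τ / L * Real.log p)) hL (fun p => by
      have := Real.neg_one_le_cos (τ / L * Real.log p)
      linarith) (fun p => by
      have h5 := Real.one_sub_sq_div_two_le_cos (x := τ / L * Real.log p)
      have hl : 0 ≤ Real.log p := Real.log_natCast_nonneg p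
      have h6 : (τ / L * Real.log p) ^ 2 ≤ (Real.log p * (1 + |τ|) / L) ^ 2 := by
        rw [← sq_abs (τ / L * Real.log p)]
        apply pow_le_pow_left₀ (abs_nonneg _)
        rw [abs_mul, abs_div, abs_of_pos hL0, abs_of_nonneg hl]
        calc |τ| / L * Real.log p = Real.log p * |τ| / L := by ring
          _ ≤ Real.log p * (1 + |τ|) / L := by gcongr; linarith
      linarith)
  have h11 : ∑ p ∈ pr Z, ‖lam p‖ ^ 2 * (2 * ‖(p : ℂ) ^ (-z)‖ - 2 * ((p : ℂ) ^ (-z)).re) ≤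
      ∑ p ∈ pr Z, ‖lam0 p‖ ^ 2 * (p : ℝ) ^ (-(1 + 1 / L)) * (2 - 2 * Real.cos (τ / L * Real.log p)) := by
    refine Finset.sum_le_sum fun p hp => ?_
    have hpp := (mem_pr.1 hp).2
    have e1 : ((p : ℂ) ^ (-z)).re = (p : ℝ) ^ (-z.re) * Real.cos (z.im * Real.log p) := by
      rw [cpow_eq_exp hpp.ne_zero, Complex.exp_re]
      have e2 : (-(z * ((Real.log p : ℝ) : ℂ))).re = -z.re * Real.log p := by
        rw [neg_re, Complex.re_mul_ofReal]
        ring
      have e3 : (-(z * ((Real.log p : ℝ) : ℂ))).im = -(z.im * Real.log p) := by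
        rw [neg_im, Complex.im_mul_ofReal]
      rw [e2, e3, Real.cos_neg, Real.rpow_def_of_pos (by exact_mod_cast hpp.pos)]
      congr 2
      ring
    have e5 : ‖lam p‖ ^ 2 * (2 * ‖(p : ℂ) ^ (-z)‖ - 2 * ((p : ℂ) ^ (-z)).re) =
        ‖lam p‖ ^ 2 * (p : ℝ) ^ (-(1 + 1 / L)) * (2 - 2 * Real.cos (τ / L * Real.log p)) := by
      rw [norm_ppow hpp, e1, hzim, hzre]
      ring
    rw [e5]
    have e6 := pow_le_pow_left₀ (norm_nonneg _) (hdom p) 2
    have e7 : 0 ≤ 2 - 2 * Real.cos (τ / L * Real.log p) := by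
      have := Real.cos_le_one (τ / L * Real.log p)
      linarith
    have e8 : 0 ≤ (p : ℝ) ^ (-(1 + 1 / L)) := Real.rpow_nonneg (Nat.cast_nonneg _) _
    exact mul_le_mul_of_nonneg_right (mul_le_mul_of_nonneg_right e6 e8) e7
  linarith

/-- The dual mollifier sum, uniform over all forms dominated by a given one. -/
theorem mo2U {ps0 lam0 : ℕ → ℂ} {th Cd : ℝ} (hdat : Dat ps0 lam0 th Cd) (θ : ℝ) (hθ : 0 < θ) (hθ1 : θ ≤ 1) :
    ∃ C : ℝ, 0 < C ∧ ∀ ps lam : ℕ → ℂ, Dat ps lam th Cd → (∀ p, ‖lam p‖ ≤ ‖lam0 p‖) →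
    ∀ (L : ℝ) (β : ℂ) (X y : ℕ), 1 ≤ L → Real.exp (θ * L) ≤ y →
    ∑ q ∈ Finset.Icc 1 X, ∑ a ∈ (Finset.Icc 1 X).filter (fun a => a.Coprime q), ((a : ℝ) * q) ^ (-(1 + 1 / L)) *
      ‖Gq y lam (bq ps lam θ L β) q a‖ ^ 2 ≤ C * (1 + L * ‖β‖) ^ 20 * Real.exp (2 * θ * L * ‖β‖) := by
  obtain ⟨C, hC, hEE⟩ := eu2U hdat
  obtain ⟨C1, hC1, hw⟩ := wbound (θ := θ) Pool.Agent.W688.SD.sfour hθ hθ1
  set K2 := ∫ τ, rho 2 τ with hK2
  have hK2' : 0 ≤ K2 := integral_nonneg fun τ => (rho_pos _ τ).le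
  refine ⟨C1 * (K2 * (C * K2)) + 1, by positivity, fun ps lam hd hdom L β X y hL hy => ?_⟩
  have hE := hEE ps lam hd hdom
  obtain ⟨W, w, hft, hW⟩ := hw L β hL
  have hL0 : 0 < L := by linarith
  have hσ : 1 < 1 + 1 / L := by
    have : 0 < 1 / L := by positivity
    linarith
  have hs1 := hd.sq_lam hσ
  have hs2 := hd.sq_mf hσ
  -- the terms
  set e : ℕ → ℕ → ℕ → ℝ → ℂ := fun q a l τ =>
    mf ps lam (q * l) * conj (lam (a * l)) * (l : ℂ) ^ (-(1 + (1 + I * τ) / L)) with he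
  have henorm : ∀ (q a l : ℕ) (τ : ℝ), ‖e q a l τ‖ =
      ‖mf ps lam (q * l)‖ * ‖lam (a * l)‖ * (l : ℝ) ^ (-(1 + 1 / L)) := by
    intro q a l τ
    simp only [he]
    rw [norm_mul, norm_mul, RCLike.norm_conj]
    rcases Nat.eq_zero_or_pos l with rfl | hl
    · simp [mf_zero]
    · rw [Complex.norm_natCast_cpow_of_pos hl, neg_re, add_re, one_re]
      have := ss_re L τ
      unfold ss at this
      rw [this]
  have hsum : ∀ q a : ℕ, 1 ≤ q → 1 ≤ a → Summable (fun l : ℕ =>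
      ‖mf ps lam (q * l)‖ * ‖lam (a * l)‖ * (l : ℝ) ^ (-(1 + 1 / L))) := fun q a hq ha =>
    sum_prod (mf ps lam) lam (1 + 1 / L) q a hq ha hs2 hs1
  have hecont : ∀ q a l : ℕ, Continuous (e q a l) := by
    intro q a l
    simp only [he]
    rcases Nat.eq_zero_or_pos l with rfl | hl
    · simp only [mul_zero, mf_zero, zero_mul]
      exact continuous_const
    · refine continuous_const.mul (Continuous.const_cpow (by fun_prop) (Or.inl ?_))
      exact_mod_cast (by omega : l ≠ 0)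
  set Z : ℕ → ℕ → ℝ → ℂ := fun q a τ => ∑' l : ℕ, e q a l τ with hZ
  have hZc : ∀ q a : ℕ, 1 ≤ q → 1 ≤ a → Continuous (Z q a) := fun q a hq ha =>
    continuous_tsum (hecont q a) (hsum q a hq ha) fun l τ => (henorm q a l τ).le
  have hZb : ∀ q a : ℕ, 1 ≤ q → 1 ≤ a → ∀ τ, ‖Z q a τ‖ ≤ ∑' l : ℕ,
      ‖mf ps lam (q * l)‖ * ‖lam (a * l)‖ * (l : ℝ) ^ (-(1 + 1 / L)) := by
    intro q a hq ha τ
    have h1 : Summable (fun l => ‖e q a l τ‖) := by
      simp only [henorm]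
      exact hsum q a hq ha
    refine (norm_tsum_le_tsum_norm h1).trans (le_of_eq ?_)
    simp only [henorm]
  -- the representation
  have hG : ∀ q a : ℕ, 1 ≤ q → 1 ≤ a → Gq y lam (bq ps lam θ L β) q a =
      ∫ τ, w τ * ((q : ℂ) ^ (-ss L τ) * Z q a τ) := by
    intro q a hq ha
    have hq0 : (0 : ℝ) < q := by exact_mod_cast hq
    have hterm : ∀ l : ℕ, bq ps lam θ L β (q * l) * conj (lam (a * l)) / l =
        ∫ τ, w τ * ((q : ℂ) ^ (-ss L τ) * e q a l τ) := by
      intro l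
      rcases Nat.eq_zero_or_pos l with rfl | hl
      · simp [he, mf_zero]
      · rw [bq_eq L hL hθ β hft ps lam (q * l) (Nat.mul_pos hq hl), mul_div_assoc, ← integral_mul_const]
        refine integral_congr_ae (Eventually.of_forall fun τ => ?_)
        show w τ * (mf ps lam (q * l) * ((q * l : ℕ) : ℂ) ^ (-ss L τ)) * (conj (lam (a * l)) / l) =
          w τ * ((q : ℂ) ^ (-ss L τ) * e q a l τ)
        have hl0 : (l : ℂ) ≠ 0 := by exact_mod_cast (by omega : l ≠ 0)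
        have e1 : (l : ℂ) ^ (-(1 + (1 + I * (τ : ℂ)) / (L : ℂ))) = (l : ℂ) ^ (-ss L τ) / l := by
          rw [show -(1 + (1 + I * (τ : ℂ)) / (L : ℂ)) = -ss L τ - 1 by unfold ss; ring,
            cpow_sub _ _ hl0, cpow_one]
        simp only [he]
        rw [e1, Nat.cast_mul, Complex.natCast_mul_natCast_cpow]
        ring
    have hfi : ∀ l, Integrable fun τ => w τ * ((q : ℂ) ^ (-ss L τ) * e q a l τ) := by
      intro l
      refine hft.int_mul _ ((cpow_cont L q hq).mul (hecont q a l)) (1 *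
        (‖mf ps lam (q * l)‖ * ‖lam (a * l)‖ * (l : ℝ) ^ (-(1 + 1 / L)))) fun τ => ?_
      rw [norm_mul, henorm]
      have := cpow_norm_le L τ hL q hq
      gcongr
    have hsumi : Summable fun l : ℕ => ∫ τ, ‖w τ * ((q : ℂ) ^ (-ss L τ) * e q a l τ)‖ := by
      refine Summable.of_nonneg_of_le (fun l => integral_nonneg fun τ => norm_nonneg _)
        (fun l => ?_) ((hsum q a hq ha).mul_left (∫ τ, ‖w τ‖))
      rw [← integral_mul_const]
      refine integral_mono (hfi l).norm (hft.int_norm.mul_const _) fun τ => ?_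
      show ‖w τ * ((q : ℂ) ^ (-ss L τ) * e q a l τ)‖ ≤ ‖w τ‖ * _
      rw [norm_mul, norm_mul, henorm]
      refine mul_le_mul_of_nonneg_left ?_ (norm_nonneg _)
      have := cpow_norm_le L τ hL q hq
      exact mul_le_of_le_one_left (by positivity) this
    have hHS := hasSum_integral_of_summable_integral_norm hfi hsumi
    have hfin : Gq y lam (bq ps lam θ L β) q a =
        ∑' l : ℕ, bq ps lam θ L β (q * l) * conj (lam (a * l)) / l := by
      unfold Gq
      rw [tsum_eq_sum (s := Finset.Icc 1 (y / q))]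
      intro l hl
      rw [Finset.mem_Icc, not_and_or] at hl
      rcases hl with hl | hl
      · have : l = 0 := by omega
        subst this
        simp
      · have : y < q * l := by
          rw [not_le] at hl
          rw [mul_comm]
          exact (Nat.div_lt_iff_lt_mul hq).1 hl
        rw [bq_zero_of L hL hθ β ps lam y (q * l) hy this]
        simp
    rw [hfin, tsum_congr hterm, hHS.tsum_eq]
    refine integral_congr_ae (Eventually.of_forall fun τ => ?_)
    show ∑' l, w τ * ((q : ℂ) ^ (-ss L τ) * e q a l τ) = w τ * ((q : ℂ) ^ (-ss L τ) * Z q a τ)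
    rw [tsum_mul_left, tsum_mul_left]
  -- the sum over pairs
  set s : Finset (Σ _ : ℕ, ℕ) := (Finset.Icc 1 X).sigma
    (fun q => (Finset.Icc 1 X).filter (fun a => a.Coprime q)) with hs
  have hmem : ∀ i ∈ s, 1 ≤ i.1 ∧ 1 ≤ i.2 := by
    intro i hi
    rw [hs, Finset.mem_sigma, Finset.mem_filter, Finset.mem_Icc, Finset.mem_Icc] at hi
    exact ⟨hi.1.1, hi.2.1.1⟩
  have h1 := sumw s hft (fun i => ((i.2 : ℝ) * i.1) ^ (-(1 + 1 / L)))
    (fun i _ => by positivity)
    (fun i τ => (i.1 : ℂ) ^ (-ss L τ) * Z i.1 i.2 τ)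
    (fun i hi => (cpow_cont L i.1 (hmem i hi).1).mul (hZc i.1 i.2 (hmem i hi).1 (hmem i hi).2))
    (fun i => 1 * ∑' l : ℕ, ‖mf ps lam (i.1 * l)‖ * ‖lam (i.2 * l)‖ * (l : ℝ) ^ (-(1 + 1 / L)))
    (fun i hi τ => by
      rw [norm_mul]
      exact mul_le_mul (cpow_norm_le L τ hL i.1 (hmem i hi).1)
        (hZb i.1 i.2 (hmem i hi).1 (hmem i hi).2 τ) (norm_nonneg _) zero_le_one)
    C (fun τ => by
      refine le_trans ?_ (hE L τ X hL)
      rw [hs, Finset.sum_sigma]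
      refine Finset.sum_le_sum fun q hq => Finset.sum_le_sum fun a ha => ?_
      refine mul_le_mul_of_nonneg_left ?_ (by positivity)
      refine pow_le_pow_left₀ (norm_nonneg _) ?_ 2
      rw [norm_mul]
      refine mul_le_of_le_one_left (norm_nonneg _) ?_
      exact cpow_norm_le L τ hL q (Finset.mem_Icc.1 hq).1)
  calc ∑ q ∈ Finset.Icc 1 X, ∑ a ∈ (Finset.Icc 1 X).filter (fun a => a.Coprime q),
        ((a : ℝ) * q) ^ (-(1 + 1 / L)) * ‖Gq y lam (bq ps lam θ L β) q a‖ ^ 2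
      = ∑ i ∈ s, ((i.2 : ℝ) * i.1) ^ (-(1 + 1 / L)) *
        ‖∫ τ, w τ * ((i.1 : ℂ) ^ (-ss L τ) * Z i.1 i.2 τ)‖ ^ 2 := by
        rw [hs, Finset.sum_sigma]
        refine Finset.sum_congr rfl fun q hq => Finset.sum_congr rfl fun a ha => ?_
        rw [hG q a (Finset.mem_Icc.1 hq).1 (Finset.mem_Icc.1 (Finset.mem_filter.1 ha).1).1]
    _ ≤ _ := h1
    _ ≤ _ := by
        rw [hW]
        have h5 : 0 ≤ (1 + L * ‖β‖) ^ 20 * Real.exp (2 * θ * L * ‖β‖) := by
          have : 0 ≤ L * ‖β‖ := by positivity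
          positivity
        calc _ = C1 * (K2 * (C * K2)) * ((1 + L * ‖β‖) ^ 20 * Real.exp (2 * θ * L * ‖β‖)) := by ring
          _ ≤ (C1 * (K2 * (C * K2)) + 1) * ((1 + L * ‖β‖) ^ 20 * Real.exp (2 * θ * L * ‖β‖)) :=
              mul_le_mul_of_nonneg_right (by linarith) h5
          _ = _ := by ring

end Pool.Agent.K9h29.ZD
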