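import Pool.Agent.K9h29.ZD.QRya

set_option autoImplicit false

/-!
# The ray integral for all primitive characters modulo `q`
-/

namespace Pool.Agent.K9h29.ZD

open Complex Filter Topology MeasureTheory Set
open scoped ComplexConjugate
open Pool.Agent.Y671.GL Pool.Agent.Y671.GL.RA
open Pool.Agent.H24R2.DZ (ray)

theorem DS_nonneg (y : ℕ) (lam b : ℕ → ℂ) (T : ℝ) : 0 ≤ DS y lam b T := by
  unfold DS
  refine Finset.sum_nonneg fun q _ => tsum_nonneg fun a => ?_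
  split_ifs
  · positivity
  · exact le_rfl

theorem WW_nonneg (lam b : ℕ → ℂ) (σ e : ℝ) : 0 ≤ WW lam b σ e := by
  unfold WW
  refine tsum_nonneg fun n => ?_
  split_ifs
  · exact le_rfl
  · positivity

theorem WW_mono {k N : ℕ} {ps lam : ℕ → ℂ} (hf : Frm k N ps lam) {y : ℕ} {b : ℕ → ℂ} (hb : ∀ h, y < h → b h = 0)
    {σ e e' : ℝ} (hσ : 1 / 2 ≤ σ) (he' : 0 < e') (hee : e' ≤ e) : WW lam b σ e ≤ WW lam b σ e' := by
  obtain ⟨K, hK, hKb⟩ := cn_bd hf y b hb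
  have hsum : ∀ e : ℝ, 0 < e → Summable (fun n : ℕ => if n ≤ 1 then 0 else ‖cn lam b n‖ ^ 2 *
      (n : ℝ) ^ (-(2 * σ)) * Real.exp (-(n * e))) := by
    intro e he
    refine Summable.of_nonneg_of_le (fun n => ?_) (fun n => ?_)
      ((Real.summable_pow_mul_exp_neg_nat_mul 2 he).mul_left (K ^ 2))
    · split_ifs
      · exact le_rfl
      · positivity
    · split_ifs with hn
      · positivity
      · have hn1 : (1 : ℝ) ≤ n := by
          have : 1 ≤ n := by omega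
          exact_mod_cast this
        have e1 : (n : ℝ) ^ (-(2 * σ)) ≤ 1 :=
          Real.rpow_le_one_of_one_le_of_nonpos hn1 (by linarith)
        have e2 : ‖cn lam b n‖ ^ 2 ≤ (K * n) ^ 2 := by
          gcongr; exact hKb n
        have e3 : -(n * e) = -e * n := by ring
        rw [e3]
        calc ‖cn lam b n‖ ^ 2 * (n : ℝ) ^ (-(2 * σ)) * Real.exp (-e * n) ≤ (K * n) ^ 2 * 1 * Real.exp (-e * n) := by
              gcongr
          _ = _ := by ring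
  unfold WW
  refine Summable.tsum_le_tsum ?_ (hsum _ (lt_of_lt_of_le he' hee)) (hsum _ he')
  intro n
  split_ifs with hn
  · exact le_rfl
  · refine mul_le_mul_of_nonneg_left (Real.exp_le_exp.2 ?_) (by positivity)
    have : (0 : ℝ) ≤ n := Nat.cast_nonneg n
    nlinarith

/-- **The ray integral, all primitive characters.** -/
theorem rayq (h0 : S_SCU) (h2 : S_RTA) (h3 : S_FJ1) (h4 : S_FJ2) {k N : ℕ} {ps lam : ℕ → ℂ}
    (hF : TwF k N ps lam) :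
    ∃ c C A : ℝ, 0 < c ∧ 0 < C ∧ 1 ≤ A ∧ ∀ (q : ℕ) [NeZero q], q.Coprime N →
    ∀ (S : Finset (DirichletCharacter ℂ q)), (∀ χ ∈ S, χ.IsPrimitive) →
    ∀ χ0 : DirichletCharacter ℂ q, χ0.IsPrimitive → ∀ (T σ : ℝ) (y : ℕ) (b : ℕ → ℂ),
    10 ≤ T → 1 ≤ y → 1 / 2 ≤ σ → σ ≤ 3 / 2 → (∀ h, y < h → b h = 0) →
    (∀ χ ∈ S, IntegrableOn (fun x : ℝ => ‖GF k y (tl χ lam) (tl χ b) (ray (1 / T) x)‖ ^ 2 *
      x ^ (2 * σ + k - 2)) (Ioi 0)) ∧
    ∑ χ ∈ S, ∫ x in Ioi (0 : ℝ), ‖GF k y (tl χ lam) (tl χ b) (ray (1 / T) x)‖ ^ 2 * x ^ (2 * σ + k - 2) ≤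
      C * (q.totient : ℝ) * T ^ (2 * σ + k - 1) * (WW lam b σ (1 / (C * (q * T) * (y : ℝ) ^ A)) +
        (q * T) ^ (1 - 2 * σ) * DS y (tl χ0 lam) (tl χ0 b) (q * T) +
        (q * T) ^ (-c) * (y : ℝ) ^ A * ∑ h ∈ Finset.Icc 1 y, ‖b h‖ ^ 2) := by
  obtain ⟨c, C1, A, hc, hc2, hC1, hA, H1⟩ := rypq h0 h2 h3 hF.frm
  obtain ⟨D, hD0, H2⟩ := smallq hF h2 h4
  have hN := hF.frm.N_pos
  have hk := hF.frm.k_pos
  have hN0 : (1 : ℝ) ≤ N := by exact_mod_cast hN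
  have hk0 : (1 : ℝ) ≤ k := by exact_mod_cast hk
  have hpi := Real.pi_gt_three
  have hpi0 : 0 < Real.pi := by linarith
  obtain ⟨C, hC⟩ : ∃ C : ℝ, C = C1 * (N : ℝ) ^ A + 2 + C1 * N + 2 * D + C1 := ⟨_, rfl⟩
  have hNAp : 0 < (N : ℝ) ^ A := by positivity
  have hC0 : 0 < C := by rw [hC]; positivity
  refine ⟨c, C, 3 * A, hc, hC0, by linarith, ?_⟩
  intro q _ hco S hS χ0 hχ0 T σ y b hT hy hσ1 hσ2 hb
  have hq1 : (1 : ℝ) ≤ q := by exact_mod_cast Nat.pos_of_ne_zero (NeZero.ne q)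
  have hq1' : 1 ≤ q := Nat.pos_of_ne_zero (NeZero.ne q)
  have hq0 : (0 : ℝ) < q := by linarith
  have hT0 : 0 < T := by linarith
  have hT1 : 1 ≤ T := by linarith
  have hy1 : (1 : ℝ) ≤ y := by exact_mod_cast hy
  have hδ : 0 < Real.sin (1 / T) := by
    apply Real.sin_pos_of_pos_of_lt_pi (by positivity)
    have : 1 / T ≤ 1 := by rw [div_le_one hT0]; linarith
    linarith
  obtain ⟨x0, hx0⟩ : ∃ x0 : ℝ, x0 = 1 / (N * (y : ℝ) ^ 2) := ⟨_, rfl⟩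
  have hx0p : 0 < x0 := by rw [hx0]; positivity
  have hx01 : x0 ≤ 1 := by
    rw [hx0, div_le_one (by positivity)]
    nlinarith
  have hx0N : x0 * (N * (y : ℝ) ^ 2) ≤ 1 := by
    rw [hx0]
    apply le_of_eq
    field_simp
  obtain ⟨hi1, hb1⟩ := H1 q T σ x0 y b hq1' hT hy hσ1 hσ2 hx0p hx01 hb
  obtain ⟨hi2, hb2⟩ := H2 q hco S hS χ0 hχ0 T σ x0 y b hT hy hσ1 hσ2 hx0p hx0N
  set p : ℝ := 2 * σ + k - 2 with hp
  have hp0 : 0 ≤ p := by rw [hp]; linarith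
  obtain ⟨z0, hz0⟩ : ∃ z0 : ℝ, z0 = x0 / q := ⟨_, rfl⟩
  have hz0p : 0 < z0 := by rw [hz0]; positivity
  have hz01 : z0 ≤ 1 := by
    rw [hz0, div_le_one hq0]; linarith
  rw [← hz0] at hi1 hb1 hi2 hb2
  -- the total
  set G : ℝ → ℝ := fun x => (∑ χ ∈ S, ‖GF k y (tl χ lam) (tl χ b) (ray (1 / T) x)‖ ^ 2) * x ^ p with hG
  set Q : ℝ → ℝ := fun x => (∑ χ ∈ S, ‖DP k y (tl χ lam) (tl χ b) (ray (1 / T) x)‖ ^ 2) * x ^ p with hQ
  set B1 : ℝ := (q.totient : ℝ) * ‖b 1‖ ^ 2 with hB1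
  have hB10 : 0 ≤ B1 := by positivity
  have hcontχ : ∀ χ ∈ S, ContinuousOn (fun x : ℝ => ‖GF k y (tl χ lam) (tl χ b) (ray (1 / T) x)‖ ^ 2) (Ioi 0) := by
    intro χ hχ
    refine ContinuousOn.pow (ContinuousOn.norm ?_) 2
    have : (fun x : ℝ => GF k y (tl χ lam) (tl χ b) (ray (1 / T) x)) = fun x : ℝ =>
        DP k y (tl χ lam) (tl χ b) (ray (1 / T) x) - tl χ b 1 * cexp (-(ray (1 / T) x)) := rfl
    rw [this]
    refine (DP_cont (hF.tw q χ (hS χ hχ) hco) y (tl χ b) hδ).sub (Continuous.continuousOn ?_)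
    have := ray_cont (1 / T)
    fun_prop
  have hxp : ContinuousOn (fun x : ℝ => x ^ p) (Ioi 0) := fun x hx =>
    (Real.continuousAt_rpow_const x p (Or.inl (ne_of_gt hx))).continuousWithinAt
  have hGcont : ContinuousOn G (Ioi 0) := (continuousOn_finsetSum _ hcontχ).mul hxp
  -- large range
  have hGl : ∀ x : ℝ, 0 < x → 0 ≤ G x ∧ G x ≤ (q.totient : ℝ) / q * (SQ k y lam b q (1 / T) x * x ^ p) := by
    intro x hx
    have hxp0 : 0 ≤ x ^ p := by positivity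
    have hre : 0 < (ray (1 / T) x).re := by rw [ray_re]; positivity
    refine ⟨mul_nonneg (Finset.sum_nonneg fun _ _ => by positivity) hxp0, ?_⟩
    have := mul_le_mul_of_nonneg_right (sum_GF_le hF hco S hS y b hb (1 / T) x hre) hxp0
    simp only [hG]
    linarith [this, mul_assoc ((q.totient : ℝ) / q) (SQ k y lam b q (1 / T) x) (x ^ p)]
  have hGi1 : IntegrableOn G (Ioi z0) := by
    refine Integrable.mono' (hi1.const_mul ((q.totient : ℝ) / q)) ?_ ?_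
    · exact (hGcont.mono fun x hx => lt_trans hz0p hx).aestronglyMeasurable measurableSet_Ioi
    · rw [ae_restrict_iff' measurableSet_Ioi]
      refine Filter.Eventually.of_forall fun x hx => ?_
      obtain ⟨h5, h6⟩ := hGl x (lt_trans hz0p hx)
      rw [Real.norm_of_nonneg h5]
      exact h6
  have hGb1 : ∫ x in Ioi z0, G x ≤ (q.totient : ℝ) / q * ∫ x in Ioi z0, SQ k y lam b q (1 / T) x * x ^ p := by
    rw [← integral_const_mul]
    exact setIntegral_mono_on hGi1 (hi1.const_mul _) measurableSet_Ioi fun x hx => (hGl x (lt_trans hz0p hx)).2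
  -- small range
  have hGs : ∀ x ∈ Ioo 0 z0, G x ≤ 2 * Q x + 2 * B1 * z0 ^ p := by
    intro x hx
    have hx1 : 0 < x := hx.1
    have e3 : ∀ χ ∈ S, ‖GF k y (tl χ lam) (tl χ b) (ray (1 / T) x)‖ ^ 2 ≤
        2 * ‖DP k y (tl χ lam) (tl χ b) (ray (1 / T) x)‖ ^ 2 + 2 * ‖b 1‖ ^ 2 := by
      intro χ hχ
      have e1 : GF k y (tl χ lam) (tl χ b) (ray (1 / T) x) =
        DP k y (tl χ lam) (tl χ b) (ray (1 / T) x) - tl χ b 1 * cexp (-(ray (1 / T) x)) := rfl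
      have e0 : tl χ b 1 = b 1 := by unfold tl; simp
      rw [e0] at e1
      have e2 : ‖b 1 * cexp (-(ray (1 / T) x))‖ ≤ ‖b 1‖ := by
        rw [norm_mul, Complex.norm_exp, Complex.neg_re, ray_re]
        have : Real.exp (-(x * Real.sin (1 / T))) ≤ 1 := by
          rw [Real.exp_le_one_iff]
          have := mul_pos hx1 hδ
          linarith
        calc ‖b 1‖ * Real.exp (-(x * Real.sin (1 / T))) ≤ ‖b 1‖ * 1 := by gcongr
          _ = _ := mul_one _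
      have h3 : ‖GF k y (tl χ lam) (tl χ b) (ray (1 / T) x)‖ ≤
          ‖DP k y (tl χ lam) (tl χ b) (ray (1 / T) x)‖ + ‖b 1‖ := by
        rw [e1]
        exact (norm_sub_le _ _).trans (by linarith)
      have h4 := norm_nonneg (GF k y (tl χ lam) (tl χ b) (ray (1 / T) x))
      have h5 : ‖GF k y (tl χ lam) (tl χ b) (ray (1 / T) x)‖ ^ 2 ≤
          (‖DP k y (tl χ lam) (tl χ b) (ray (1 / T) x)‖ + ‖b 1‖) ^ 2 := by gcongr
      nlinarith [sq_nonneg (‖DP k y (tl χ lam) (tl χ b) (ray (1 / T) x)‖ - ‖b 1‖)]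
    have e4 : 0 ≤ x ^ p := by positivity
    have e5 : x ^ p ≤ z0 ^ p := Real.rpow_le_rpow hx1.le hx.2.le hp0
    have e6 : ∑ χ ∈ S, ‖GF k y (tl χ lam) (tl χ b) (ray (1 / T) x)‖ ^ 2 ≤
        2 * (∑ χ ∈ S, ‖DP k y (tl χ lam) (tl χ b) (ray (1 / T) x)‖ ^ 2) + 2 * B1 := by
      refine (Finset.sum_le_sum e3).trans ?_
      rw [Finset.sum_add_distrib, ← Finset.mul_sum, Finset.sum_const, nsmul_eq_mul]
      have := mul_le_mul_of_nonneg_right (card_le S) (show 0 ≤ 2 * ‖b 1‖ ^ 2 by positivity)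
      rw [hB1]
      linarith
    simp only [hG, hQ]
    calc (∑ χ ∈ S, ‖GF k y (tl χ lam) (tl χ b) (ray (1 / T) x)‖ ^ 2) * x ^ p ≤
          (2 * (∑ χ ∈ S, ‖DP k y (tl χ lam) (tl χ b) (ray (1 / T) x)‖ ^ 2) + 2 * B1) * x ^ p :=
          mul_le_mul_of_nonneg_right e6 e4
      _ = 2 * ((∑ χ ∈ S, ‖DP k y (tl χ lam) (tl χ b) (ray (1 / T) x)‖ ^ 2) * x ^ p) + 2 * B1 * x ^ p := by ring
      _ ≤ _ := by gcongr
  have hcst : IntegrableOn (fun _ : ℝ => 2 * B1 * z0 ^ p) (Ioo 0 z0) := by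
    refine integrableOn_const ?_
    rw [Real.volume_Ioo]
    exact ENNReal.ofReal_ne_top
  have hGi : IntegrableOn G (Ioo 0 z0) := by
    refine Integrable.mono' ((hi2.const_mul 2).add hcst) ?_ ?_
    · exact (hGcont.mono fun x hx => hx.1).aestronglyMeasurable measurableSet_Ioo
    · rw [ae_restrict_iff' measurableSet_Ioo]
      refine Filter.Eventually.of_forall fun x hx => ?_
      rw [Real.norm_of_nonneg (hGl x hx.1).1]
      exact hGs x hx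
  have hGb : ∫ x in Ioo 0 z0, G x ≤ 2 * (∫ x in Ioo 0 z0, Q x) + 2 * B1 * (z0 ^ p * z0) := by
    calc ∫ x in Ioo 0 z0, G x ≤ ∫ x in Ioo 0 z0, (2 * Q x + 2 * B1 * z0 ^ p) :=
          setIntegral_mono_on hGi ((hi2.const_mul 2).add hcst) measurableSet_Ioo fun x hx => hGs x hx
      _ = 2 * (∫ x in Ioo 0 z0, Q x) + ∫ x in Ioo 0 z0, 2 * B1 * z0 ^ p := by
          rw [integral_add (hi2.const_mul 2) hcst, integral_const_mul]
      _ = _ := by
          rw [setIntegral_const, smul_eq_mul, Measure.real, Real.volume_Ioo, sub_zero,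
            ENNReal.toReal_ofReal hz0p.le]
          ring
  -- assembly
  have hu : Ioi (0 : ℝ) = Ioc 0 z0 ∪ Ioi z0 := (Ioc_union_Ioi_eq_Ioi hz0p.le).symm
  have hGi2 : IntegrableOn G (Ioc 0 z0) := by
    rw [integrableOn_Ioc_iff_integrableOn_Ioo]
    exact hGi
  have hGb2 : ∫ x in Ioc 0 z0, G x = ∫ x in Ioo 0 z0, G x := integral_Ioc_eq_integral_Ioo
  have hGtot : IntegrableOn G (Ioi 0) := by rw [hu]; exact hGi2.union hGi1
  have hind : ∀ χ ∈ S, IntegrableOn (fun x : ℝ => ‖GF k y (tl χ lam) (tl χ b) (ray (1 / T) x)‖ ^ 2 * x ^ p)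
      (Ioi 0) := by
    intro χ hχ
    refine Integrable.mono' hGtot ?_ ?_
    · exact ((hcontχ χ hχ).mul hxp).aestronglyMeasurable measurableSet_Ioi
    · rw [ae_restrict_iff' measurableSet_Ioi]
      refine Filter.Eventually.of_forall fun x hx => ?_
      have hx0 : (0 : ℝ) < x := hx
      have hxp0 : 0 ≤ x ^ p := by positivity
      rw [Real.norm_of_nonneg (by positivity)]
      simp only [hG]
      apply mul_le_mul_of_nonneg_right _ hxp0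
      exact Finset.single_le_sum (f := fun χ => ‖GF k y (tl χ lam) (tl χ b) (ray (1 / T) x)‖ ^ 2)
        (fun _ _ => by positivity) hχ
  refine ⟨hind, ?_⟩
  rw [← integral_finsetSum S hind]
  have hGe : ∫ x in Ioi (0 : ℝ), ∑ χ ∈ S, ‖GF k y (tl χ lam) (tl χ b) (ray (1 / T) x)‖ ^ 2 * x ^ p =
      ∫ x in Ioi (0 : ℝ), G x := by
    refine setIntegral_congr_fun measurableSet_Ioi fun x _ => ?_
    simp only [hG]
    rw [Finset.sum_mul]
  rw [hGe]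
  have hsplit : ∫ x in Ioi (0 : ℝ), G x = (∫ x in Ioo 0 z0, G x) + ∫ x in Ioi z0, G x := by
    rw [hu, setIntegral_union Ioc_disjoint_Ioi_same measurableSet_Ioi hGi2 hGi1, hGb2]
  rw [hsplit]
  -- the sums
  obtain ⟨Sb, hSb⟩ : ∃ Sb : ℝ, Sb = ∑ h ∈ Finset.Icc 1 y, ‖b h‖ ^ 2 := ⟨_, rfl⟩
  have hSb0 : 0 ≤ Sb := by rw [hSb]; positivity
  have hB1S : B1 ≤ (q.totient : ℝ) * Sb := by
    rw [hSb, hB1]
    apply mul_le_mul_of_nonneg_left _ (by positivity)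
    exact Finset.single_le_sum (f := fun h => ‖b h‖ ^ 2) (fun _ _ => by positivity)
      (Finset.mem_Icc.2 ⟨le_rfl, hy⟩)
  obtain ⟨DD, hDD⟩ : ∃ DD : ℝ, DD = DS y (tl χ0 lam) (tl χ0 b) (q * T) := ⟨_, rfl⟩
  have hDS0 : 0 ≤ DD := by rw [hDD]; exact DS_nonneg _ _ _ _
  rw [← hSb] at hb1
  rw [← hSb, ← hDD]
  rw [← hDD] at hb2
  have hyx : ((y : ℝ) / x0) ^ A = (N : ℝ) ^ A * (y : ℝ) ^ (3 * A) := by
    have : (y : ℝ) / x0 = N * (y : ℝ) ^ (3 : ℝ) := by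
      rw [hx0, div_div_eq_mul_div, div_one]
      have : (y : ℝ) ^ (3 : ℝ) = (y : ℝ) ^ (3 : ℕ) := by
        rw [← Real.rpow_natCast]; norm_num
      rw [this]; ring
    rw [this, Real.mul_rpow (by positivity) (by positivity), ← Real.rpow_mul (by positivity)]
  rw [hyx] at hb1
  obtain ⟨Tm, hTm⟩ : ∃ Tm : ℝ, Tm = T ^ (2 * σ + k - 1) := ⟨_, rfl⟩
  have hTm0 : 0 < Tm := by rw [hTm]; positivity
  have hqT0 : 0 < q * T := by positivity
  have hqT1 : 1 ≤ q * T := by nlinarith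
  obtain ⟨Qc, hQc⟩ : ∃ Qc : ℝ, Qc = (q * T) ^ (-c) := ⟨_, rfl⟩
  have hQc0 : 0 < Qc := by rw [hQc]; positivity
  obtain ⟨Y, hY⟩ : ∃ Y : ℝ, Y = (y : ℝ) ^ (3 * A) := ⟨_, rfl⟩
  have hY1 : 1 ≤ Y := by rw [hY]; exact Real.one_le_rpow hy1 (by linarith)
  obtain ⟨W2, hW2⟩ : ∃ W2 : ℝ, W2 = WW lam b σ (1 / (C * (q * T) * (y : ℝ) ^ (3 * A))) := ⟨_, rfl⟩
  have hW20 : 0 ≤ W2 := by rw [hW2]; exact WW_nonneg _ _ _ _
  have hWle : WW lam b σ (x0 / (C1 * (q * T))) ≤ W2 := by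
    rw [hW2]
    refine WW_mono hF.frm hb hσ1 (by positivity) ?_
    rw [hx0, div_div]
    refine div_le_div_of_nonneg_left zero_le_one (by positivity) ?_
    have hy2A : (y : ℝ) ^ 2 ≤ (y : ℝ) ^ (3 * A) := by
      rw [← Real.rpow_natCast]
      apply Real.rpow_le_rpow_of_exponent_le hy1
      push_cast; linarith
    have hCN : C1 * N ≤ C := by
      rw [hC]
      have : 0 < C1 * (N : ℝ) ^ A := by positivity
      linarith
    calc N * (y : ℝ) ^ 2 * (C1 * (q * T)) = (C1 * N) * (q * T) * (y : ℝ) ^ 2 := by ring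
      _ ≤ C * (q * T) * (y : ℝ) ^ (3 * A) := by gcongr
  have e1 : 2 * B1 * (z0 ^ p * z0) ≤ (q.totient : ℝ) * Tm * (2 * (Qc * Y * Sb)) := by
    have h5 : z0 ^ p * z0 ≤ Tm * Qc := by
      have h6 : z0 ≤ 1 / q := by rw [hz0]; gcongr
      have h7 : z0 ^ p * z0 = z0 ^ (p + 1) := by
        rw [Real.rpow_add hz0p, Real.rpow_one]
      have h8 : z0 ^ (p + 1) ≤ (1 / (q : ℝ)) ^ (p + 1) := Real.rpow_le_rpow hz0p.le h6 (by linarith)
      have h9 : (1 / (q : ℝ)) ^ (p + 1) = (q : ℝ) ^ (-(p + 1)) := by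
        rw [one_div, Real.inv_rpow hq0.le, Real.rpow_neg hq0.le]
      have h10 : Tm * Qc = (q : ℝ) ^ (-c) * T ^ (2 * σ + k - 1 - c) := by
        rw [hTm, hQc, Real.mul_rpow hq0.le hT0.le, sub_eq_add_neg (2 * σ + k - 1) c, Real.rpow_add hT0]
        ring
      have h11 : 1 ≤ T ^ (2 * σ + k - 1 - c) := Real.one_le_rpow hT1 (by linarith)
      have h12 : (q : ℝ) ^ (-(p + 1)) ≤ (q : ℝ) ^ (-c) :=
        Real.rpow_le_rpow_of_exponent_le hq1 (by linarith)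
      have h13 : 0 < (q : ℝ) ^ (-c) := by positivity
      rw [h7, h10]
      calc z0 ^ (p + 1) ≤ (q : ℝ) ^ (-c) := h8.trans (by rw [h9]; exact h12)
        _ = (q : ℝ) ^ (-c) * 1 := by ring
        _ ≤ _ := by gcongr
    have h6 : 0 ≤ z0 ^ p * z0 := by positivity
    calc 2 * B1 * (z0 ^ p * z0) ≤ 2 * ((q.totient : ℝ) * Sb) * (Tm * Qc) := by gcongr
      _ = (q.totient : ℝ) * Tm * (2 * (Qc * 1 * Sb)) := by ring
      _ ≤ _ := by gcongr
  have hqk : (q.totient : ℝ) / q * (C1 * q * Tm * (WW lam b σ (x0 / (C1 * (q * T))) +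
      Qc * ((N : ℝ) ^ A * Y) * Sb)) ≤ (q.totient : ℝ) * Tm * (C1 * W2 + (C1 * (N : ℝ) ^ A) * (Qc * Y * Sb)) := by
    have h5 : (q.totient : ℝ) / q * (C1 * q * Tm * (WW lam b σ (x0 / (C1 * (q * T))) +
      Qc * ((N : ℝ) ^ A * Y) * Sb)) = (q.totient : ℝ) * Tm * (C1 * WW lam b σ (x0 / (C1 * (q * T))) +
        (C1 * (N : ℝ) ^ A) * (Qc * Y * Sb)) := by
      field_simp
    rw [h5]
    gcongr
  have hqs : (q : ℝ) ^ (1 - 2 * σ) * T ^ k = Tm * (q * T) ^ (1 - 2 * σ) := by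
    rw [hTm, Real.mul_rpow hq0.le hT0.le]
    have : T ^ k = T ^ (2 * σ + k - 1) * T ^ (1 - 2 * σ) := by
      rw [← Real.rpow_add hT0, ← Real.rpow_natCast]
      congr 1; ring
    rw [this]; ring
  rw [← hTm, ← hQc, ← hY] at hb1
  rw [← hTm, ← hQc, ← hY]
  rw [← hY] at hW2
  rw [← hW2]
  have hφ0 : (0 : ℝ) ≤ (q.totient : ℝ) := by positivity
  obtain ⟨TD, hTD⟩ : ∃ TD : ℝ, TD = (q * T) ^ (1 - 2 * σ) := ⟨_, rfl⟩
  have hTD0 : 0 < TD := by rw [hTD]; positivity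
  rw [← hTD]
  rw [← hTD] at hqs
  have hb2' : 2 * (∫ x in Ioo 0 z0, Q x) ≤ (q.totient : ℝ) * Tm * ((2 * D) * (TD * DD)) := by
    have h5 : D * (q.totient : ℝ) * ((q : ℝ) ^ (1 - 2 * σ) * (T ^ k * DD)) =
        (q.totient : ℝ) * Tm * (D * (TD * DD)) := by
      calc D * (q.totient : ℝ) * ((q : ℝ) ^ (1 - 2 * σ) * (T ^ k * DD)) =
            D * (q.totient : ℝ) * (((q : ℝ) ^ (1 - 2 * σ) * T ^ k) * DD) := by ring
        _ = _ := by rw [hqs]; ring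
    rw [h5] at hb2
    linarith
  have e4 : 0 ≤ Qc * Y * Sb := by positivity
  have e5 : 0 ≤ TD * DD := by positivity
  have c1 : C1 ≤ C := by rw [hC]; nlinarith [mul_pos hC1 hNAp]
  have c2 : 2 * D ≤ C := by rw [hC]; nlinarith [mul_pos hC1 hNAp]
  have c3 : C1 * (N : ℝ) ^ A + 2 ≤ C := by rw [hC]; nlinarith [mul_pos hC1 hNAp]
  calc (∫ x in Ioo 0 z0, G x) + ∫ x in Ioi z0, G x
      ≤ (2 * (∫ x in Ioo 0 z0, Q x) + 2 * B1 * (z0 ^ p * z0)) +
        (q.totient : ℝ) / q * (C1 * q * Tm * (WW lam b σ (x0 / (C1 * (q * T))) +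
          Qc * ((N : ℝ) ^ A * Y) * Sb)) := by
        refine add_le_add hGb (hGb1.trans ?_)
        exact mul_le_mul_of_nonneg_left hb1 (by positivity)
    _ ≤ ((q.totient : ℝ) * Tm * ((2 * D) * (TD * DD)) + (q.totient : ℝ) * Tm * (2 * (Qc * Y * Sb))) +
        (q.totient : ℝ) * Tm * (C1 * W2 + (C1 * (N : ℝ) ^ A) * (Qc * Y * Sb)) :=
        add_le_add (add_le_add hb2' e1) hqk
    _ = (q.totient : ℝ) * Tm * (C1 * W2 + (2 * D) * (TD * DD) + (C1 * (N : ℝ) ^ A + 2) * (Qc * Y * Sb)) := by ring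
    _ ≤ (q.totient : ℝ) * Tm * (C * W2 + C * (TD * DD) + C * (Qc * Y * Sb)) := by gcongr
    _ = C * (q.totient : ℝ) * Tm * (W2 + TD * DD + Qc * Y * Sb) := by ring

end Pool.Agent.K9h29.ZD
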