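import Pool.Agent.Y671.GL.All
import Pool.Agent.K9h29.ZD.QRay

set_option autoImplicit false

/-!
# The mean square of `F M - b_1` over all primitive characters modulo `q`
-/

namespace Pool.Agent.K9h29.ZD

open Complex Filter Topology MeasureTheory Set Asymptotics
open scoped ComplexConjugate
open Pool.Agent.H24R2.DZ (MM ray)
open Pool.Agent.Y671.GL

/-- the Gamma factor -/
noncomputable def EG (T s t : ℝ) : ℂ :=
  cexp (-(I * ((Real.pi / 2 - 1 / T : ℝ) : ℂ)) * ((s : ℂ) + t * I)) * Complex.Gamma ((s : ℂ) + t * I)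

/-- from the ray integral to the mean square -/
theorem san1 {k N : ℕ} {ps lam : ℕ → ℂ} {F : ℂ → ℂ} (hf : Frm k N ps lam) (hF : IsL lam F) (h2 : S_MEL)
    {T σ lo hi g0 : ℝ} {y : ℕ} {b : ℕ → ℂ} (hT : 10 ≤ T) (hσ : 1 / 2 ≤ σ) (hσ1 : σ ≤ 3 / 2)
    (hlh : lo ≤ hi)
    (hg : ∀ t : ℝ, lo ≤ t → t ≤ hi → g0 ≤ ‖EG T (σ + ((k : ℝ) - 1) / 2) t‖ ^ 2) :
    g0 * ∫ t in lo..hi, ‖F ((σ : ℂ) + t * I) * MM y b ((σ : ℂ) + t * I) - b 1‖ ^ 2 ≤
      2 * Real.pi * ∫ x in Ioi (0 : ℝ), ‖GF k y lam b (ray (1 / T) x)‖ ^ 2 * x ^ (2 * σ + k - 2) := by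
  have hk1 : (1 : ℝ) ≤ k := by exact_mod_cast hf.k_pos
  set κ : ℝ := ((k : ℝ) - 1) / 2 with hκ
  have hκ0 : 0 ≤ κ := by rw [hκ]; linarith
  have hpi := Real.pi_pos
  have hpi3 := Real.pi_gt_three
  have hTp : 0 < T := by linarith
  set δ : ℝ := 1 / T with hδ
  have hδ0 : 0 < δ := by positivity
  have hδ2 : δ < Real.pi / 2 := by
    have : δ ≤ 1 / 10 := by
      rw [hδ, div_le_div_iff₀ hTp (by norm_num)]; linarith
    linarith
  -- Plancherel
  set a : ℝ := σ + κ - 1 / 2 with ha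
  have ha0 : 0 ≤ a := by rw [ha]; linarith
  obtain ⟨hcont, Ca, hCa, hba⟩ := Pool.Agent.Y180.GL.gf_bd hf hδ0 hδ2 y b ha0
  obtain ⟨-, Cb, hCb, hbb⟩ := Pool.Agent.Y180.GL.gf_bd hf hδ0 hδ2 y b (show 0 ≤ a + 1 by linarith)
  set G : ℝ → ℂ := fun x => GF k y lam b (ray δ x) * ((x ^ a : ℝ) : ℂ) with hG
  have hGn : ∀ x : ℝ, 0 < x → ‖G x‖ = ‖GF k y lam b (ray δ x)‖ * x ^ a := by
    intro x hx
    rw [hG]
    simp only
    rw [norm_mul, Complex.norm_real, Real.norm_of_nonneg (by positivity)]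
  have hGc : ContinuousOn G (Ioi 0) := by
    refine hcont.mul ?_
    refine Complex.continuous_ofReal.comp_continuousOn ?_
    intro x hx
    exact (Real.continuousAt_rpow_const x _ (Or.inl (ne_of_gt hx))).continuousWithinAt
  have hG1 : ∀ x : ℝ, 0 < x → ‖G x‖ ≤ Ca + Cb := by
    intro x hx
    rw [hGn x hx]
    linarith [hba x hx]
  have hG2 : ∀ x : ℝ, 0 < x → ‖G x‖ ≤ (Ca + Cb) / x := by
    intro x hx
    rw [hGn x hx, le_div_iff₀ hx]
    have := hbb x hx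
    rw [Real.rpow_add hx, Real.rpow_one, ← mul_assoc] at this
    linarith
  have hplan := Pool.Agent.W352.SD.splan G (Ca + Cb) (1 / 2) lo hi hGc (by norm_num)
    (by norm_num) hG1 hG2 hlh
  set Z : ℝ → ℂ := fun t => F ((σ : ℂ) + t * I) * MM y b ((σ : ℂ) + t * I) - b 1 with hZ
  set s' : ℝ := σ + κ with hs'
  set E : ℝ → ℂ := fun t => EG T s' t with hE
  have hmel : ∀ t : ℝ, ∫ x in Ioi (0 : ℝ), G x * (x : ℂ) ^ (((1 / 2 : ℝ) : ℂ) + t * I - 1) = E t * Z t := by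
    intro t
    have h4 := (h2 k N ps lam F hf hF δ σ t y b hδ0 hδ2 hσ hσ1).2
    have h5 : ∫ x in Ioi (0 : ℝ), G x * (x : ℂ) ^ (((1 / 2 : ℝ) : ℂ) + t * I - 1) =
        ∫ x in Ioi (0 : ℝ), GF k y lam b (ray δ x) *
          (x : ℂ) ^ (((σ + ((k : ℝ) - 1) / 2 : ℝ) : ℂ) + t * I - 1) := by
      refine setIntegral_congr_fun measurableSet_Ioi fun x hx => ?_
      have hx0 : (0 : ℝ) < x := hx
      have hxc : (x : ℂ) ≠ 0 := by exact_mod_cast hx0.ne'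
      simp only [hG]
      rw [mul_assoc]
      congr 1
      rw [Complex.ofReal_cpow hx0.le, ← Complex.cpow_add _ _ hxc]
      congr 1
      rw [ha, hs', hκ]
      push_cast
      ring
    rw [h5, h4]
    rfl
  simp_rw [hmel] at hplan
  have hrhs : ∫ x in Ioi (0 : ℝ), ‖G x‖ ^ 2 * x ^ (2 * (1 / 2 : ℝ) - 1) =
      ∫ x in Ioi (0 : ℝ), ‖GF k y lam b (ray δ x)‖ ^ 2 * x ^ (2 * σ + k - 2) := by
    refine setIntegral_congr_fun measurableSet_Ioi fun x hx => ?_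
    have hx0 : (0 : ℝ) < x := hx
    rw [hGn x hx0, mul_pow, ← Real.rpow_natCast (x ^ a) 2, ← Real.rpow_mul hx0.le]
    have e1 : (2 * (1 / 2 : ℝ) - 1) = 0 := by norm_num
    rw [e1, Real.rpow_zero, mul_one]
    congr 2
    rw [ha, hs', hκ]
    push_cast
    ring
  rw [hrhs] at hplan
  -- continuity
  have hline : Continuous (fun t : ℝ => (σ : ℂ) + t * I) := by fun_prop
  have hline' : Continuous (fun t : ℝ => (s' : ℂ) + t * I) := by fun_prop
  have hZc : Continuous Z := by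
    rw [hZ]
    apply Continuous.sub _ continuous_const
    apply Continuous.mul
    · exact hF.diff.continuous.comp hline
    · unfold MM
      apply continuous_finsetSum
      intro h hh
      apply continuous_const.mul
      apply Continuous.const_cpow (by fun_prop)
      left
      have : h ≠ 0 := by
        have := (Finset.mem_Icc.1 hh).1
        omega
      exact_mod_cast this
  have hEc : Continuous E := by
    rw [hE]
    unfold EG
    apply Continuous.mul (by fun_prop)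
    rw [continuous_iff_continuousAt]
    intro t
    refine ContinuousAt.comp (f := fun t : ℝ => (s' : ℂ) + t * I) (g := Complex.Gamma) ?_ hline'.continuousAt
    apply (Complex.differentiableAt_Gamma _ _).continuousAt
    intro m h
    have := congrArg Complex.re h
    simp at this
    have hm : (0:ℝ) ≤ m := Nat.cast_nonneg m
    linarith
  refine le_trans ?_ hplan
  rw [← intervalIntegral.integral_const_mul]
  apply intervalIntegral.integral_mono_on hlh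
  · exact ((continuous_const.mul (hZc.norm.pow 2))).intervalIntegrable _ _
  · exact ((hEc.mul hZc).norm.pow 2).intervalIntegrable _ _
  · intro t ht
    have h7 := hg t ht.1 ht.2
    rw [norm_mul, mul_pow]
    exact mul_le_mul_of_nonneg_right h7 (by positivity)

/-- the windows -/
def Win (T0 T lo hi : ℝ) : Prop := (T0 ≤ T ∧ lo = T / 4 ∧ hi = 4 * T) ∨ (T = T0 ∧ lo = -(4 * T0) ∧ hi = 4 * T0)

theorem Win.le {T0 T lo hi : ℝ} (h : Win T0 T lo hi) : T0 ≤ T := by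
  rcases h with h | h
  · exact h.1
  · exact h.1.ge

theorem Win.lh {T0 T lo hi : ℝ} (h : Win T0 T lo hi) (hT0 : 0 ≤ T0) : lo ≤ hi := by
  rcases h with ⟨h1, h2, h3⟩ | ⟨h1, h2, h3⟩
  · rw [h2, h3]; linarith
  · rw [h2, h3]; linarith

/-- lower bound for the Gamma factor, all windows -/
theorem gamW (A B : ℝ) (hA : 0 < A) (hAB : A ≤ B) : ∃ c T0 : ℝ, 0 < c ∧ 10 ≤ T0 ∧ ∀ T lo hi t s : ℝ,
    Win T0 T lo hi → lo ≤ t → t ≤ hi → A ≤ s → s ≤ B → c * T ^ (2 * s - 1) ≤ ‖EG T s t‖ ^ 2 := by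
  obtain ⟨c1, T1, hc1, hT1, h1⟩ := Pool.Agent.Y180.GL.gam A B hA hAB
  set T0 : ℝ := max T1 10 with hT0
  have hT010 : 10 ≤ T0 := le_max_right _ _
  have hT0p : 0 < T0 := by linarith
  -- the compact range
  have hcont : ContinuousOn (fun p : ℝ × ℝ => ‖EG T0 p.1 p.2‖ ^ 2) (Icc A B ×ˢ Icc (-(4 * T0)) (4 * T0)) := by
    unfold EG
    refine (ContinuousOn.norm (ContinuousOn.mul (by fun_prop) ?_)).pow 2
    intro p hp
    have hp1 : A ≤ p.1 := hp.1.1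
    refine ContinuousAt.continuousWithinAt ?_
    refine ContinuousAt.comp (f := fun p : ℝ × ℝ => (p.1 : ℂ) + p.2 * I) (g := Complex.Gamma) ?_ ?_
    · apply (Complex.differentiableAt_Gamma _ _).continuousAt
      intro m h
      have := congrArg Complex.re h
      simp at this
      have hm : (0:ℝ) ≤ m := Nat.cast_nonneg m
      linarith
    · apply Continuous.continuousAt
      fun_prop
  have hcomp : IsCompact (Icc A B ×ˢ Icc (-(4 * T0)) (4 * T0)) := isCompact_Icc.prod isCompact_Icc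
  have hne : (Icc A B ×ˢ Icc (-(4 * T0)) (4 * T0)).Nonempty :=
    ⟨(A, 0), ⟨⟨le_rfl, hAB⟩, ⟨by linarith, by linarith⟩⟩⟩
  obtain ⟨p0, hp0, hmin⟩ := hcomp.exists_isMinOn hne hcont
  set m0 : ℝ := ‖EG T0 p0.1 p0.2‖ ^ 2 with hm0
  have hm0p : 0 < m0 := by
    rw [hm0]
    have hne0 : EG T0 p0.1 p0.2 ≠ 0 := by
      unfold EG
      refine mul_ne_zero (Complex.exp_ne_zero _) ?_
      apply Complex.Gamma_ne_zero_of_re_pos
      have hp1 : A ≤ p0.1 := hp0.1.1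
      simp
      linarith
    have := norm_pos_iff.2 hne0
    positivity
  set P : ℝ := T0 ^ (2 * B) with hP
  have hPp : 0 < P := by positivity
  refine ⟨min c1 (m0 / P), T0, lt_min hc1 (by positivity), hT010, ?_⟩
  intro T lo hi t s hW hlo hhi hs1 hs2
  rcases hW with ⟨w1, w2, w3⟩ | ⟨w1, w2, w3⟩
  · have hT : T1 ≤ T := (le_max_left _ _).trans w1
    have hTp : 0 < T := by linarith
    have h2 := h1 T t s hT (by rw [← w2]; exact hlo) (by rw [← w3]; exact hhi) hs1 hs2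
    refine le_trans ?_ h2
    have : 0 < T ^ (2 * s - 1) := by positivity
    exact mul_le_mul_of_nonneg_right (min_le_left _ _) this.le
  · subst w1
    have h2 := hmin (show (s, t) ∈ Icc A B ×ˢ Icc (-(4 * T0)) (4 * T0) from
      ⟨⟨hs1, hs2⟩, ⟨by rw [← w2]; exact hlo, by rw [← w3]; exact hhi⟩⟩)
    have h3 : m0 ≤ ‖EG T0 s t‖ ^ 2 := h2
    refine le_trans ?_ h3
    have h4 : T0 ^ (2 * s - 1) ≤ P := Real.rpow_le_rpow_of_exponent_le (by linarith) (by linarith)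
    calc min c1 (m0 / P) * T0 ^ (2 * s - 1) ≤ (m0 / P) * P := by
          apply mul_le_mul (min_le_right _ _) h4 (by positivity) (by positivity)
      _ = m0 := by field_simp

/-- **The mean square, all primitive characters.** -/
theorem sanq (h0 : S_SCU) {k N : ℕ} {ps lam : ℕ → ℂ} (hF : TwF k N ps lam) :
    ∃ c C A T0 : ℝ, 0 < c ∧ 0 < C ∧ 1 ≤ A ∧ 10 ≤ T0 ∧ ∀ (q : ℕ) [NeZero q], q.Coprime N →
    ∀ (S : Finset (DirichletCharacter ℂ q)), (∀ χ ∈ S, χ.IsPrimitive) →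
    ∀ χ0 : DirichletCharacter ℂ q, χ0.IsPrimitive → ∀ L : DirichletCharacter ℂ q → ℂ → ℂ,
    (∀ χ ∈ S, IsL (tl χ lam) (L χ)) →
    ∀ (T lo hi σ : ℝ) (y : ℕ) (b : ℕ → ℂ),
    Win T0 T lo hi → 1 ≤ y → 1 / 2 ≤ σ → σ ≤ 3 / 2 → (∀ h, y < h → b h = 0) →
    ∑ χ ∈ S, ∫ t in lo..hi, ‖L χ ((σ : ℂ) + t * I) * MM y (tl χ b) ((σ : ℂ) + t * I) - b 1‖ ^ 2 ≤
      C * (q.totient : ℝ) * T * (WW lam b σ (1 / (C * (q * T) * (y : ℝ) ^ A)) +
        (q * T) ^ (1 - 2 * σ) * DS y (tl χ0 lam) (tl χ0 b) (q * T) +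
        (q * T) ^ (-c) * (y : ℝ) ^ A * ∑ h ∈ Finset.Icc 1 y, ‖b h‖ ^ 2) := by
  obtain ⟨c, C, A, hc, hC, hA, hray⟩ := rayq h0 Pool.Agent.Y285.GL.rta Pool.Agent.Y494.GL.fj1
    Pool.Agent.Y494.GL.fj2 hF
  have hk1 : (1 : ℝ) ≤ k := by exact_mod_cast hF.frm.k_pos
  obtain ⟨cg, T0, hcg, hT0, hgam⟩ := gamW (1 / 2) (3 / 2 + ((k : ℝ) - 1) / 2) (by norm_num) (by linarith)
  have hpi := Real.pi_pos
  set C' : ℝ := 2 * Real.pi * C / cg + C with hC'
  have hC'0 : 0 < C' := by positivity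
  refine ⟨c, C', A, T0, hc, hC'0, hA, hT0, ?_⟩
  intro q _ hco S hS χ0 hχ0 L hL T lo hi σ y b hW hy hσ hσ1 hb
  have hTT0 : T0 ≤ T := hW.le
  have hT10 : 10 ≤ T := hT0.trans hTT0
  have hTp : 0 < T := by linarith
  have hq1 : (1 : ℝ) ≤ q := by exact_mod_cast Nat.pos_of_ne_zero (NeZero.ne q)
  have hyR : (1:ℝ) ≤ y := by exact_mod_cast hy
  obtain ⟨-, hle⟩ := hray q hco S hS χ0 hχ0 T σ y b hT10 hy hσ hσ1 hb
  have hCC : C ≤ C' := by
    have : 0 ≤ 2 * Real.pi * C / cg := by positivity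
    linarith
  obtain ⟨X1, hX1⟩ : ∃ X1 : ℝ, X1 = WW lam b σ (1 / (C * (q * T) * (y : ℝ) ^ A)) := ⟨_, rfl⟩
  obtain ⟨X1', hX1'⟩ : ∃ X1' : ℝ, X1' = WW lam b σ (1 / (C' * (q * T) * (y : ℝ) ^ A)) := ⟨_, rfl⟩
  have hX10 : 0 ≤ X1 := by rw [hX1]; exact WW_nonneg _ _ _ _
  have hXX : X1 ≤ X1' := by
    rw [hX1, hX1']
    refine WW_mono hF.frm hb hσ (by positivity) ?_
    gcongr
  obtain ⟨X2, hX2⟩ : ∃ X2 : ℝ, X2 = (q * T) ^ (1 - 2 * σ) * DS y (tl χ0 lam) (tl χ0 b) (q * T) := ⟨_, rfl⟩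
  have hX20 : 0 ≤ X2 := by
    rw [hX2]
    exact mul_nonneg (by positivity) (DS_nonneg _ _ _ _)
  obtain ⟨X3, hX3⟩ : ∃ X3 : ℝ, X3 = (q * T) ^ (-c) * (y : ℝ) ^ A * ∑ h ∈ Finset.Icc 1 y, ‖b h‖ ^ 2 := ⟨_, rfl⟩
  have hX30 : 0 ≤ X3 := by
    rw [hX3]
    have : 0 ≤ ∑ h ∈ Finset.Icc 1 y, ‖b h‖ ^ 2 := Finset.sum_nonneg fun h _ => by positivity
    positivity
  rw [← hX1, ← hX2, ← hX3] at hle
  rw [← hX1', ← hX2, ← hX3]
  have hone : ∀ χ ∈ S, cg * T ^ (2 * σ + k - 2) *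
      ∫ t in lo..hi, ‖L χ ((σ : ℂ) + t * I) * MM y (tl χ b) ((σ : ℂ) + t * I) - b 1‖ ^ 2 ≤
      2 * Real.pi * ∫ x in Ioi (0 : ℝ), ‖GF k y (tl χ lam) (tl χ b) (ray (1 / T) x)‖ ^ 2 *
        x ^ (2 * σ + k - 2) := by
    intro χ hχ
    have e0 : tl χ b 1 = b 1 := by unfold tl; simp
    have h5 := san1 (hF.tw q χ (hS χ hχ) hco) (hL χ hχ) Pool.Agent.Y180.GL.mel (y := y) (b := tl χ b)
      (lo := lo) (hi := hi) (g0 := cg * T ^ (2 * σ + k - 2)) hT10 hσ hσ1 (hW.lh (by linarith)) (by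
        intro t ht1 ht2
        have h6 := hgam T lo hi t (σ + ((k : ℝ) - 1) / 2) hW ht1 ht2 (by linarith) (by linarith)
        have e1 : 2 * (σ + ((k : ℝ) - 1) / 2) - 1 = 2 * σ + k - 2 := by ring
        rw [e1] at h6
        exact h6)
    rw [e0] at h5
    exact h5
  have hsum : cg * T ^ (2 * σ + k - 2) *
      ∑ χ ∈ S, ∫ t in lo..hi, ‖L χ ((σ : ℂ) + t * I) * MM y (tl χ b) ((σ : ℂ) + t * I) - b 1‖ ^ 2 ≤
      2 * Real.pi * (C * (q.totient : ℝ) * T ^ (2 * σ + k - 1) * (X1 + X2 + X3)) := by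
    rw [Finset.mul_sum]
    refine (Finset.sum_le_sum hone).trans ?_
    rw [← Finset.mul_sum]
    exact mul_le_mul_of_nonneg_left hle (by positivity)
  have eT : T ^ (2 * σ + k - 1) = T * T ^ (2 * σ + k - 2) := by
    have := Real.rpow_add hTp 1 (2 * σ + k - 2)
    rw [Real.rpow_one] at this
    rw [← this]
    congr 1
    ring
  have hTq : 0 < T ^ (2 * σ + k - 2) := Real.rpow_pos_of_pos hTp _
  have hfin : cg * T ^ (2 * σ + k - 2) *
      ∑ χ ∈ S, ∫ t in lo..hi, ‖L χ ((σ : ℂ) + t * I) * MM y (tl χ b) ((σ : ℂ) + t * I) - b 1‖ ^ 2 ≤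
      cg * T ^ (2 * σ + k - 2) * ((2 * Real.pi * C / cg) * (q.totient : ℝ) * T * (X1 + X2 + X3)) := by
    refine hsum.trans (le_of_eq ?_)
    rw [eT]
    field_simp
  have h8 := le_of_mul_le_mul_left hfin (by positivity)
  refine h8.trans ?_
  have e9 : 2 * Real.pi * C / cg ≤ C' := by linarith
  have e10 : X1 + X2 + X3 ≤ X1' + X2 + X3 := by linarith
  have e11 : 0 ≤ X1 + X2 + X3 := by positivity
  calc 2 * Real.pi * C / cg * (q.totient : ℝ) * T * (X1 + X2 + X3) ≤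
        C' * (q.totient : ℝ) * T * (X1 + X2 + X3) := by gcongr
    _ ≤ C' * (q.totient : ℝ) * T * (X1' + X2 + X3) := by gcongr

end Pool.Agent.K9h29.ZD
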