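import Pool.Agent.Y671.GL.All
import Pool.Agent.K9h29.ZD.QMo
import Pool.Agent.K9h29.ZD.QSan

set_option autoImplicit false

/-!
# The mollified mean square over all primitive characters modulo `q`
-/

namespace Pool.Agent.K9h29.ZD

open Complex Filter Topology MeasureTheory Set
open scoped ComplexConjugate
open Pool.Agent.H24R2.DZ (MM ph)
open Pool.Agent.Y671.GL
open Pool.Agent.Y157.GL (exp_cut second_sum third_sum cn_zero bq_one bq_zero)
open Pool.Agent.Y771.GL (Dat)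

/-- the primal main term -/
theorem first_sumK {ps lam : ℕ → ℂ} (θ L T' σ E W K : ℝ) (β : ℂ) (hT : 0 < T') (hTL : Real.log T' ≤ K * L) (hL1 : 1 ≤ L)
    (hE : 0 ≤ E)
    (hcc : ∀ n : ℕ, 2 ≤ n → cn lam (bq ps lam θ L β) n ≠ 0 → (n : ℝ) ^ (-(2 * σ - 1)) ≤ E)
    (hS : ∀ N : ℕ, ∑ n ∈ Finset.Icc 1 N, (n : ℝ) ^ (-(1 + 1 / L)) *
      ‖cn lam (bq ps lam θ L β) n‖ ^ 2 ≤ W) :
    WW lam (bq ps lam θ L β) σ (1 / T') ≤ Real.exp K * E * W := by
  unfold WW
  set f : ℕ → ℝ := fun n => if n ≤ 1 then 0 else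
      ‖cn lam (bq ps lam θ L β) n‖ ^ 2 * (n : ℝ) ^ (-(2 * σ)) * Real.exp (-(n * (1 / T'))) with hf
  have hf0 : ∀ n, 0 ≤ f n := by
    intro n
    simp only [hf]
    split_ifs
    · exact le_rfl
    · positivity
  have hterm : ∀ n : ℕ, 1 ≤ n → f n ≤ Real.exp K * E *
      ((n : ℝ) ^ (-(1 + 1 / L)) * ‖cn lam (bq ps lam θ L β) n‖ ^ 2) := by
    intro n hn
    have hn1 : (1 : ℝ) ≤ n := by exact_mod_cast hn
    have hn0 : (0 : ℝ) < n := by linarith
    simp only [hf]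
    split_ifs with h1
    · positivity
    · by_cases hc : cn lam (bq ps lam θ L β) n = 0
      · rw [hc]; simp
      · have h2 := hcc n (by omega) hc
        have h3 : Real.exp (-(n * (1 / T'))) ≤ Real.exp K * (n : ℝ) ^ (-(1 / L)) := by
          apply exp_cut L n (n * (1 / T')) K hL1 hn1 (by positivity)
          have h4 := Real.log_le_sub_one_of_pos (x := n / T') (by positivity)
          rw [Real.log_div hn0.ne' hT.ne'] at h4
          have h5 : (n : ℝ) * (1 / T') = n / T' := by ring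
          rw [h5]
          linarith
        have h4 : (n : ℝ) ^ (-(2 * σ)) = (n : ℝ) ^ (-1 : ℝ) * (n : ℝ) ^ (-(2 * σ - 1)) := by
          rw [← Real.rpow_add hn0]; congr 1; ring
        have h5 : (n : ℝ) ^ (-(1 + 1 / L)) = (n : ℝ) ^ (-1 : ℝ) * (n : ℝ) ^ (-(1 / L)) := by
          rw [← Real.rpow_add hn0]; congr 1; ring
        rw [h4, h5]
        have h6 : (n : ℝ) ^ (-(2 * σ - 1)) * Real.exp (-(n * (1 / T'))) ≤
            E * (Real.exp K * (n : ℝ) ^ (-(1 / L))) := by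
          apply mul_le_mul h2 h3 (Real.exp_pos _).le hE
        calc ‖cn lam (bq ps lam θ L β) n‖ ^ 2 * ((n : ℝ) ^ (-1 : ℝ) * (n : ℝ) ^ (-(2 * σ - 1))) *
              Real.exp (-(n * (1 / T')))
            = ‖cn lam (bq ps lam θ L β) n‖ ^ 2 * (n : ℝ) ^ (-1 : ℝ) *
              ((n : ℝ) ^ (-(2 * σ - 1)) * Real.exp (-(n * (1 / T')))) := by ring
          _ ≤ ‖cn lam (bq ps lam θ L β) n‖ ^ 2 * (n : ℝ) ^ (-1 : ℝ) *
              (E * (Real.exp K * (n : ℝ) ^ (-(1 / L)))) := by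
            apply mul_le_mul_of_nonneg_left h6 (by positivity)
          _ = _ := by ring
  apply Real.tsum_le_of_sum_range_le hf0
  intro N
  calc ∑ i ∈ Finset.range N, f i ≤ ∑ i ∈ insert 0 (Finset.Icc 1 N), f i := by
        apply Finset.sum_le_sum_of_subset_of_nonneg
        · intro i hi
          rw [Finset.mem_range] at hi
          rw [Finset.mem_insert, Finset.mem_Icc]
          omega
        · intro i _ _; exact hf0 i
    _ = f 0 + ∑ i ∈ Finset.Icc 1 N, f i := by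
        rw [Finset.sum_insert (by simp)]
    _ = ∑ i ∈ Finset.Icc 1 N, f i := by
        have : f 0 = 0 := by simp [hf]
        rw [this, zero_add]
    _ ≤ ∑ n ∈ Finset.Icc 1 N, Real.exp K * E *
          ((n : ℝ) ^ (-(1 + 1 / L)) * ‖cn lam (bq ps lam θ L β) n‖ ^ 2) := by
        apply Finset.sum_le_sum
        intro n hn
        exact hterm n (Finset.mem_Icc.mp hn).1
    _ = Real.exp K * E * ∑ n ∈ Finset.Icc 1 N,
          ((n : ℝ) ^ (-(1 + 1 / L)) * ‖cn lam (bq ps lam θ L β) n‖ ^ 2) := by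
        rw [Finset.mul_sum]
    _ ≤ Real.exp K * E * W := by
        apply mul_le_mul_of_nonneg_left (hS N) (by positivity)

/-- **The mollified mean square over all primitive characters.** -/
theorem mvq (h0 : S_SCU) {k N : ℕ} {ps lam : ℕ → ℂ} (hF : TwF k N ps lam) :
    ∃ θ0 T0 : ℝ, 0 < θ0 ∧ θ0 ≤ 1 / 200 ∧ 10 ≤ T0 ∧ ∀ θ : ℝ, 0 < θ → θ ≤ θ0 → ∃ C : ℝ, 0 < C ∧
    ∀ (q : ℕ) [NeZero q], q.Coprime N →
    ∀ (S : Finset (DirichletCharacter ℂ q)), (∀ χ ∈ S, χ.IsPrimitive) →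
    ∀ L : DirichletCharacter ℂ q → ℂ → ℂ, (∀ χ ∈ S, IsL (tl χ lam) (L χ)) →
    ∀ (T lo hi σ : ℝ), Win T0 T lo hi → 1 / 2 ≤ σ → σ ≤ 3 / 2 →
    ∑ χ ∈ S, ∫ t in lo..hi, ‖L χ ((σ : ℂ) + t * I) *
      MM (yT θ (q * T)) (tl χ (bq ps lam θ (Real.log (q * T)) 0)) ((σ : ℂ) + t * I) - 1‖ ^ 2 ≤
      C * (q.totient : ℝ) * T * Real.exp (-(θ * (σ - 1 / 2) * Real.log (q * T))) := by
  obtain ⟨c, C0, A, T0, hc, hC0, hA, hT0, h1⟩ := sanq h0 hF
  obtain ⟨-, hinv, ⟨th, Cm, hth0, hth, hmf⟩, -⟩ := Pool.Agent.Y771.GL.mf k N ps lam hF.frm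
  obtain ⟨thd, Cd, hdat⟩ := Pool.Agent.Y771.GL.dat_of_frm hF.frm
  have hCm : 0 ≤ Cm := by
    have := (norm_nonneg _).trans (hmf 1 le_rfl)
    simpa using this
  refine ⟨min (1 / 200) (min (1 / (2 * A)) (c / (4 * (A + 5)))), T0, by positivity, min_le_left _ _, hT0,
    fun θ hθ hθ' => ?_⟩
  have hθ1 : θ ≤ 1 / 200 := hθ'.trans (min_le_left _ _)
  have hθ2 : θ * A ≤ 1 / 2 := by
    have : θ ≤ 1 / (2 * A) := hθ'.trans ((min_le_right _ _).trans (min_le_left _ _))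
    rw [le_div_iff₀ (by positivity)] at this
    linarith
  have hθ3 : θ * (A + 5) ≤ c / 4 := by
    have : θ ≤ c / (4 * (A + 5)) := hθ'.trans ((min_le_right _ _).trans (min_le_right _ _))
    rw [le_div_iff₀ (by positivity)] at this
    linarith
  obtain ⟨C1, hC1, h2⟩ := mo1_all k N ps lam hF.frm θ hθ (by linarith)
  obtain ⟨C2, hC2, h3⟩ := mo2U hdat θ hθ (by linarith)
  set K := Cm ^ 2 * 2 ^ (A + 5) with hK
  have hK0 : 0 ≤ K := by positivity
  set K3 := |Real.log C0| + A + 2 with hK3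
  refine ⟨C0 * (Real.exp K3 * C1 + Real.exp 5 * C2 + K), by positivity, ?_⟩
  intro q _ hco S hS L hL T lo hi σ hW hσ hσ'
  have hTT0 : T0 ≤ T := hW.le
  have hT10 : 10 ≤ T := hT0.trans hTT0
  have hTp : 0 < T := by linarith
  have hq1 : (1 : ℝ) ≤ q := by exact_mod_cast Nat.pos_of_ne_zero (NeZero.ne q)
  set X : ℝ := q * T with hX
  have hX10 : 10 ≤ X := by
    rw [hX]
    nlinarith
  have hX0 : 0 < X := by linarith
  have hX1 : 1 < X := by linarith
  set y := yT θ X with hy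
  set Lg := Real.log X with hLg
  have hL1 : 1 ≤ Lg := by
    rw [hLg, Real.le_log_iff_exp_le hX0]
    have := Real.exp_one_lt_d9
    linarith
  set E := Real.exp (-(θ * (σ - 1 / 2) * Lg)) with hEd
  have hE0 : 0 < E := Real.exp_pos _
  have hXθ : 1 ≤ X ^ θ := Real.one_le_rpow hX1.le hθ.le
  have hyθ : X ^ θ ≤ y := Nat.le_ceil _
  have hy1' : (1 : ℝ) ≤ y := hXθ.trans hyθ
  have hy1 : 1 ≤ y := by exact_mod_cast hy1'
  have hy2 : (y : ℝ) ≤ 2 * X ^ θ := by
    have := (Nat.ceil_lt_add_one (a := X ^ θ) (by positivity)).le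
    rw [hy]
    unfold yT
    linarith
  have hyA : (y : ℝ) ^ A ≤ 2 ^ A * X := by
    calc (y : ℝ) ^ A ≤ (2 * X ^ θ) ^ A := Real.rpow_le_rpow (by positivity) hy2 (by linarith)
      _ = 2 ^ A * X ^ (θ * A) := by
          rw [Real.mul_rpow (by norm_num) (by positivity), ← Real.rpow_mul hX0.le]
      _ ≤ 2 ^ A * X ^ (1 : ℝ) := by
          apply mul_le_mul_of_nonneg_left _ (by positivity)
          exact Real.rpow_le_rpow_of_exponent_le hX1.le (by linarith)
      _ = 2 ^ A * X := by rw [Real.rpow_one]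
  have hyX : (y : ℝ) ≤ X := by
    have e1 : X ^ θ ≤ X ^ (1 / 2 : ℝ) := Real.rpow_le_rpow_of_exponent_le hX1.le (by linarith)
    have e2 : X ^ (1 / 2 : ℝ) = Real.sqrt X := (Real.sqrt_eq_rpow X).symm
    have e3 : 2 ≤ Real.sqrt X := by
      rw [show (2 : ℝ) = Real.sqrt 4 by rw [show (4 : ℝ) = 2 ^ 2 by norm_num, Real.sqrt_sq (by norm_num)]]
      exact Real.sqrt_le_sqrt (by linarith)
    have e4 : Real.sqrt X * Real.sqrt X = X := Real.mul_self_sqrt hX0.le
    have e5 : 2 * Real.sqrt X ≤ Real.sqrt X * Real.sqrt X := mul_le_mul_of_nonneg_right e3 (Real.sqrt_nonneg _)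
    calc (y : ℝ) ≤ 2 * X ^ θ := hy2
      _ ≤ 2 * Real.sqrt X := by rw [← e2]; linarith
      _ ≤ X := by rw [e4] at e5; exact e5
  set b : ℕ → ℂ := bq ps lam θ Lg 0 with hb
  have hb1 : b 1 = 1 := bq_one θ Lg 0
  have hbz : ∀ h, y < h → b h = 0 := fun h hh => bq_zero θ X 0 hθ hX1 h hh
  rcases S.eq_empty_or_nonempty with hSe | ⟨χ0, hχ0⟩
  · rw [hSe, Finset.sum_empty]
    positivity
  have hSAN := h1 q hco S hS χ0 (hS χ0 hχ0) L hL T lo hi σ y b hW hy1 hσ hσ' hbz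
  rw [hb1] at hSAN
  refine hSAN.trans ?_
  -- first sum
  have hFS := first_sumK (ps := ps) (lam := lam) θ Lg (C0 * X * (y : ℝ) ^ A) σ E C1 K3 0
    (by positivity) (by
      have h4 : C0 * X * (y : ℝ) ^ A ≤ C0 * (2 ^ A * (X * X)) := by
        calc C0 * X * (y : ℝ) ^ A ≤ C0 * X * (2 ^ A * X) := by gcongr
          _ = _ := by ring
      have h5 := Real.log_le_log (by positivity) h4
      have e10 : Real.log (C0 * (2 ^ A * (X * X))) = Real.log C0 + (A * Real.log 2 + (Lg + Lg)) := by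
        rw [Real.log_mul hC0.ne' (by positivity), Real.log_mul (by positivity) (by positivity),
          Real.log_mul hX0.ne' hX0.ne', ← hLg, Real.log_rpow (by norm_num)]
      rw [e10] at h5
      have h6 : Real.log 2 ≤ 1 := by
        have := Real.log_two_lt_d9
        linarith
      have h7 := le_abs_self (Real.log C0)
      have h8 := abs_nonneg (Real.log C0)
      have h9 : A * Real.log 2 ≤ A * 1 := mul_le_mul_of_nonneg_left h6 (by linarith)
      calc _ ≤ _ := h5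
        _ ≤ |Real.log C0| + A + 2 * Lg := by linarith
        _ ≤ K3 * Lg := by
            rw [hK3]
            nlinarith) hL1 hE0.le (by
    intro n hn hcc
    have hlt : X ^ (θ / 2) < n := by
      by_contra hle
      push Not at hle
      exact hcc (cn_zero hinv θ X hθ hX1 n hn hle)
    have hn0 : (0 : ℝ) < n := by positivity
    calc (n : ℝ) ^ (-(2 * σ - 1)) ≤ (X ^ (θ / 2)) ^ (-(2 * σ - 1)) := by
          apply Real.rpow_le_rpow_of_nonpos (by positivity) hlt.le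
          linarith
      _ = E := by
          rw [hEd, ← Real.rpow_mul hX0.le, Real.rpow_def_of_pos hX0]
          congr 1
          ring) (by
    intro Y
    have := h2 Lg 0 Y hL1
    simpa using this)
  -- second sum
  have hexp : Real.exp (θ * Lg) ≤ y := by
    have : Real.exp (θ * Lg) = X ^ θ := by
      rw [Real.rpow_def_of_pos hX0, mul_comm]
    rw [this]; exact hyθ
  have hSS := second_sum (lam := tl χ0 lam) Lg X C2 y (tl χ0 b) hL1 hX1 rfl hyX (by
    intro Y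
    have h4 := h3 (tp χ0 ps) (tl χ0 lam) (dat_tl hdat χ0) (fun p => norm_tl_le χ0 lam p) Lg 0 Y y hL1 hexp
    rw [bq_tl] at h4
    simpa using h4)
  have hXpow : X ^ (1 - 2 * σ) ≤ E := by
    rw [hEd, Real.rpow_def_of_pos hX0, ← hLg]
    apply Real.exp_le_exp.mpr
    have h4 : 0 ≤ Lg * (σ - 1 / 2) := mul_nonneg (by linarith) (by linarith)
    have h5 : θ * (Lg * (σ - 1 / 2)) ≤ 1 * (Lg * (σ - 1 / 2)) :=
      mul_le_mul_of_nonneg_right (by linarith) h4
    linarith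
  -- third sum
  have hTh := third_sum hth0 hth hmf θ Lg y 0 (by simp)
  have hthird : X ^ (-c) * (y : ℝ) ^ A * ∑ h ∈ Finset.Icc 1 y, ‖b h‖ ^ 2 ≤ K * E := by
    have e1 : (y : ℝ) ^ A * (y : ℝ) ^ 5 = (y : ℝ) ^ (A + 5) := by
      rw [Real.rpow_add (by linarith)]
      congr 1
      rw [← Real.rpow_natCast]
      norm_num
    have e2 : (y : ℝ) ^ (A + 5) ≤ 2 ^ (A + 5) * X ^ (c / 4) := by
      calc (y : ℝ) ^ (A + 5) ≤ (2 * X ^ θ) ^ (A + 5) :=
            Real.rpow_le_rpow (by positivity) hy2 (by linarith)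
        _ = 2 ^ (A + 5) * X ^ (θ * (A + 5)) := by
            rw [Real.mul_rpow (by norm_num) (by positivity), ← Real.rpow_mul hX0.le]
        _ ≤ 2 ^ (A + 5) * X ^ (c / 4) := by
            apply mul_le_mul_of_nonneg_left _ (by positivity)
            exact Real.rpow_le_rpow_of_exponent_le hX1.le hθ3
    have e3 : X ^ (-c) * X ^ (c / 4) ≤ E := by
      rw [← Real.rpow_add hX0, Real.rpow_def_of_pos hX0, ← hLg, hEd]
      apply Real.exp_le_exp.mpr
      have h6 : θ ≤ c / 4 := by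
        have h6' : θ * 1 ≤ θ * (A + 5) := mul_le_mul_of_nonneg_left (by linarith) hθ.le
        linarith
      have h7 : θ * (σ - 1 / 2) ≤ c / 4 := by
        have h7' : θ * (σ - 1 / 2) ≤ θ * 1 := mul_le_mul_of_nonneg_left (by linarith) hθ.le
        linarith
      have h8 : θ * (σ - 1 / 2) * Lg ≤ c / 4 * Lg :=
        mul_le_mul_of_nonneg_right h7 (by linarith)
      have h9 : 0 ≤ c * Lg := mul_nonneg hc.le (by linarith)
      linarith
    calc X ^ (-c) * (y : ℝ) ^ A * ∑ h ∈ Finset.Icc 1 y, ‖b h‖ ^ 2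
        ≤ X ^ (-c) * (y : ℝ) ^ A * (Cm ^ 2 * (y : ℝ) ^ 5) := by
          apply mul_le_mul_of_nonneg_left hTh (by positivity)
      _ = Cm ^ 2 * (X ^ (-c) * ((y : ℝ) ^ A * (y : ℝ) ^ 5)) := by ring
      _ = Cm ^ 2 * (X ^ (-c) * (y : ℝ) ^ (A + 5)) := by rw [e1]
      _ ≤ Cm ^ 2 * (X ^ (-c) * (2 ^ (A + 5) * X ^ (c / 4))) := by gcongr
      _ = Cm ^ 2 * 2 ^ (A + 5) * (X ^ (-c) * X ^ (c / 4)) := by ring
      _ ≤ Cm ^ 2 * 2 ^ (A + 5) * E := by gcongr
      _ = K * E := by rw [hK]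
  have hDS0 : 0 ≤ DS y (tl χ0 lam) (tl χ0 b) X := DS_nonneg _ _ _ _
  have hsecond : X ^ (1 - 2 * σ) * DS y (tl χ0 lam) (tl χ0 b) X ≤
      E * (Real.exp 5 * C2) := mul_le_mul hXpow hSS hDS0 hE0.le
  calc _ ≤ C0 * (q.totient : ℝ) * T * (Real.exp K3 * E * C1 + E * (Real.exp 5 * C2) + K * E) := by
        apply mul_le_mul_of_nonneg_left _ (by positivity)
        exact add_le_add (add_le_add hFS hsecond) hthird
    _ = C0 * (Real.exp K3 * C1 + Real.exp 5 * C2 + K) * (q.totient : ℝ) * T * E := by ring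

end Pool.Agent.K9h29.ZD
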