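import Pool.Agent.K9h29.ZD.QCnt

set_option autoImplicit false

/-!
# Zeros off the critical line, all characters modulo `q`
-/

namespace Pool.Agent.K9h29.ZD

open Complex Filter Topology MeasureTheory Set
open scoped ComplexConjugate
open Pool.Agent.Y671.GL
open W388 (FE2)
open H370 (mult)
open Pool.Agent.H82R3.EK (cnt SS PP SS_eq)

variable {k N : ℕ} {ps lam : ℕ → ℂ} {L : (q : ℕ) → DirichletCharacter ℂ q → ℂ → ℂ}

/-- the zeros of one L-function off the line -/
theorem off_le (hD : LD k N ps lam L) (hr : ∀ n, conj (lam n) = lam n) {q : ℕ} [NeZero q]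
    {χ : DirichletCharacter ℂ q} (hχ : χ.IsPrimitive) (hχ' : χ⁻¹.IsPrimitive) (hco : q.Coprime N)
    {δ T T0 : ℝ} (hδ : 0 ≤ δ) (hT0 : 0 ≤ T0) (hT : T0 ≤ T) :
    cnt (L q χ) (off δ T) ≤ 2 * cnt (L q χ) (Rt (1 / 2 + δ) (-T0) T) + 2 * cnt (L q χ⁻¹) (Rt (1 / 2 + δ) (-T0) T) := by
  have hk : (1 : ℤ) ≤ (k : ℤ) := by exact_mod_cast hD.tw.frm.k_pos
  have hN : (0 : ℝ) < N := by exact_mod_cast hD.tw.frm.N_pos
  have hq : (0 : ℝ) < q := by exact_mod_cast Nat.pos_of_ne_zero (NeZero.ne q)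
  have hce := hD.conj_eq hr hχ hχ' hco
  set A : Set ℂ := Rt (1 / 2 + δ) (-T0) T with hA
  set A1 : Set ℂ := {s : ℂ | s ∈ A ∧ s.re < 1} with hA1
  set cj : ℂ → ℂ := fun s => conj s with hcj
  set rf : ℂ → ℂ := fun s => 1 - conj s with hrf
  have icj : Function.Injective cj := fun a b h => by
    have := congrArg conj h
    simpa [hcj] using this
  have irf : Function.Injective rf := fun a b h => by
    have h1 : conj a = conj b := by
      have := h
      simp only [hrf] at this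
      linear_combination -this
    exact icj h1
  have hA1A : A1 ⊆ A := fun s hs => hs.1
  have bA : Bornology.IsBounded A := Rt_bdd _ _ _
  have bA1 : Bornology.IsBounded A1 := bA.subset hA1A
  -- order and zero
  have hz : ∀ (F : ℂ → ℂ), Differentiable ℂ F → ∀ s, (F s = 0 ↔ analyticOrderAt F s ≠ 0) := by
    intro F hF s
    rw [Ne, (hF.analyticAt s).analyticOrderAt_eq_zero, not_not]
  have hd := (hD.isL q χ hχ hco).diff
  have hd' := (hD.isL q χ⁻¹ hχ' hco).diff
  have c1 : ∀ B : Set ℂ, cnt (L q χ) (cj '' B) = cnt (L q χ⁻¹) B := by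
    intro B
    have ho : ∀ s, analyticOrderAt (L q χ) (cj s) = analyticOrderAt (L q χ⁻¹) s := by
      intro s
      rw [hce, ord_conj hd]
    refine cnt_image cj icj (fun s _ => ?_) (fun s _ => ho s)
    rw [hz _ hd, hz _ hd', ho]
  have c2 : ∀ B : Set ℂ, (∀ s ∈ B, 0 < s.re ∧ s.re < 1) → cnt (L q χ) (rf '' B) = cnt (L q χ) B := by
    intro B hB
    have ho : ∀ s ∈ B, analyticOrderAt (L q χ) (rf s) = analyticOrderAt (L q χ) s := fun s hs =>
      ord_symm hk hN hq (hD.fe q χ hχ hco) (hB s hs).1 (hB s hs).2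
    refine cnt_image rf irf (fun s hs => ?_) ho
    rw [hz _ hd, hz _ hd, ho s hs]
  have hsub : off δ T ⊆ (A ∪ cj '' A) ∪ (rf '' A1 ∪ rf '' (cj '' A1)) := by
    intro s hs
    obtain ⟨h1, h2, h3, h4⟩ := hs
    obtain ⟨h5, h6⟩ := abs_le.1 h4
    rcases le_abs'.1 h3 with h | h
    · -- to the left
      right
      rcases le_total (-T0) s.im with h7 | h7
      · left
        refine ⟨1 - conj s, ⟨⟨?_, ?_, ?_, ?_⟩, ?_⟩, ?_⟩
        · simp; linarith
        · simp; linarith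
        · simp; linarith
        · simp; linarith
        · simp; linarith
        · simp [hrf]
      · right
        refine ⟨1 - conj s, ⟨1 - s, ⟨⟨?_, ?_, ?_, ?_⟩, ?_⟩, ?_⟩, ?_⟩
        · simp; linarith
        · simp; linarith
        · simp; linarith
        · simp; linarith
        · simp; linarith
        · simp [hcj]
        · simp [hrf]
    · left
      rcases le_total (-T0) s.im with h7 | h7
      · left
        exact ⟨by linarith, h2.le, h7, h6⟩
      · right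
        refine ⟨conj s, ⟨?_, ?_, ?_, ?_⟩, ?_⟩
        · simp; linarith
        · simp; linarith
        · simp; linarith
        · simp; linarith
        · simp [hcj]
  have bnd : ∀ B : Set ℂ, B ⊆ {s : ℂ | -1 ≤ s.re ∧ s.re ≤ 2 ∧ -T ≤ s.im ∧ s.im ≤ T} → Bornology.IsBounded B := by
    intro B hB
    have : B ⊆ Set.Icc (-1) 2 ×ℂ Set.Icc (-T) T := fun s hs =>
      ⟨⟨(hB hs).1, (hB hs).2.1⟩, ⟨(hB hs).2.2.1, (hB hs).2.2.2⟩⟩
    exact (isCompact_Icc.reProdIm isCompact_Icc).isBounded.subset this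
  have b1 : Bornology.IsBounded A := bA
  have b2 : Bornology.IsBounded (cj '' A) := by
    apply bnd
    rintro _ ⟨t, ht, rfl⟩
    obtain ⟨g1, g2, g3, g4⟩ := ht
    refine ⟨?_, ?_, ?_, ?_⟩ <;> simp [hcj] <;> linarith
  have b3 : Bornology.IsBounded (rf '' A1) := by
    apply bnd
    rintro _ ⟨t, ⟨ht, _⟩, rfl⟩
    obtain ⟨g1, g2, g3, g4⟩ := ht
    refine ⟨?_, ?_, ?_, ?_⟩ <;> simp [hrf] <;> linarith
  have b4 : Bornology.IsBounded (rf '' (cj '' A1)) := by
    apply bnd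
    rintro _ ⟨_, ⟨t, ⟨ht, _⟩, rfl⟩, rfl⟩
    obtain ⟨g1, g2, g3, g4⟩ := ht
    refine ⟨?_, ?_, ?_, ?_⟩ <;> simp [hrf, hcj] <;> linarith
  have f1 := fun (W : Set ℂ) (hW : Bornology.IsBounded W) => hD.fin hχ hco hW
  have k1 := cnt_mono hsub (f1 _ ((b1.union b2).union (b3.union b4)))
  have k2 := cnt_union (f1 _ (b1.union b2)) (f1 _ (b3.union b4))
  have k3 := cnt_union (f1 _ b1) (f1 _ b2)
  have k4 := cnt_union (f1 _ b3) (f1 _ b4)
  have e2 := c1 A
  have e3 := c2 A1 (fun s hs => ⟨by have := hs.1.1; linarith, hs.2⟩)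
  have e4 := c2 (cj '' A1) (fun s hs => by
    obtain ⟨t, ht, rfl⟩ := hs
    have := ht.1.1
    have h9 := ht.2
    simp only [hcj, Complex.conj_re]
    exact ⟨by linarith, h9⟩)
  have e5 := c1 A1
  have m1 := cnt_mono hA1A (f1 _ bA)
  have m2 := cnt_mono (F := L q χ⁻¹) hA1A (hD.fin hχ' hco bA)
  omega

open Classical in
/-- the primitive characters -/
noncomputable def prims (q : ℕ) [NeZero q] : Finset (DirichletCharacter ℂ q) :=
  Finset.univ.filter (fun χ => χ.IsPrimitive)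

/-- **Primitive characters modulo `q`.** -/
theorem offq (h0 : S_SCU) (hD : LD k N ps lam L) (hr : ∀ n, conj (lam n) = lam n) :
    ∃ c C : ℝ, 0 < c ∧ c ≤ 1 ∧ 0 < C ∧ ∀ (q : ℕ) [NeZero q], q.Coprime N →
    ∀ (T δ : ℝ), 2 ≤ T → 0 ≤ δ → δ ≤ 1 / 2 →
    ∑ χ ∈ prims q, (cnt (L q χ) (off δ T) : ℝ) ≤
      C * (q.totient : ℝ) * T * Real.log (q * T) * Real.exp (-(c * δ * Real.log (q * T))) := by
  classical
  obtain ⟨c, C, T0, hc, hc1, hC, hT0, hrt⟩ := rtq h0 hD
  have hl2 : 0 < Real.log 2 := Real.log_pos (by norm_num)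
  have hT0p : 0 < T0 := by linarith
  set R : ℝ := 1 + Real.log T0 / Real.log 2 with hR
  have hlT0 : 0 ≤ Real.log T0 := Real.log_nonneg (by linarith)
  have hR1 : 1 ≤ R := by
    rw [hR]
    have : 0 ≤ Real.log T0 / Real.log 2 := by positivity
    linarith
  refine ⟨c, 4 * C * T0 * R, hc, hc1, by positivity, fun q _ hco T δ hT hδ hδ1 => ?_⟩
  have hq1 : (1 : ℝ) ≤ q := by exact_mod_cast Nat.pos_of_ne_zero (NeZero.ne q)
  have hp : ∀ χ ∈ prims q, χ.IsPrimitive := fun χ hχ => by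
    unfold prims at hχ
    rw [Finset.mem_filter] at hχ
    exact hχ.2
  have hinv : ∀ χ ∈ prims q, χ⁻¹ ∈ prims q := fun χ hχ => by
    have h1 := hp χ hχ
    unfold prims
    rw [Finset.mem_filter]
    exact ⟨Finset.mem_univ _, Pool.Agent.W440.TW.inv_primitive χ h1⟩
  -- heights at least `T0`
  have hbig : ∀ T : ℝ, T0 ≤ T → ∑ χ ∈ prims q, (cnt (L q χ) (off δ T) : ℝ) ≤
      4 * (C * (q.totient : ℝ) * T * Real.log (q * T) * Real.exp (-(c * δ * Real.log (q * T)))) := by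
    intro T hT
    have h1 : ∀ χ ∈ prims q, (cnt (L q χ) (off δ T) : ℝ) ≤
        2 * (cnt (L q χ) (Rt (1 / 2 + δ) (-T0) T) : ℝ) + 2 * (cnt (L q χ⁻¹) (Rt (1 / 2 + δ) (-T0) T) : ℝ) := by
      intro χ hχ
      have := off_le hD hr (hp χ hχ) (hp _ (hinv χ hχ)) hco hδ hT0p.le hT
      exact_mod_cast this
    refine (Finset.sum_le_sum h1).trans ?_
    rw [Finset.sum_add_distrib, ← Finset.mul_sum, ← Finset.mul_sum]
    have h2 : ∑ χ ∈ prims q, (cnt (L q χ⁻¹) (Rt (1 / 2 + δ) (-T0) T) : ℝ) =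
        ∑ χ ∈ prims q, (cnt (L q χ) (Rt (1 / 2 + δ) (-T0) T) : ℝ) := by
      refine Finset.sum_bij' (fun χ _ => χ⁻¹) (fun χ _ => χ⁻¹) hinv hinv (fun χ _ => inv_inv χ)
        (fun χ _ => inv_inv χ) (fun χ _ => rfl)
    rw [h2]
    have h3 := hrt q hco (prims q) hp T (1 / 2 + δ) hT (by linarith) (by linarith)
    have e1 : (1 / 2 + δ - 1 / 2 : ℝ) = δ := by ring
    rw [e1] at h3
    linarith
  have hlqT : Real.log 2 ≤ Real.log (q * T) := Real.log_le_log (by norm_num) (by nlinarith)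
  have hEp : 0 < Real.exp (-(c * δ * Real.log (q * T))) := Real.exp_pos _
  have hφ : (0 : ℝ) ≤ q.totient := by positivity
  rcases le_total T0 T with h | h
  · refine (hbig T h).trans ?_
    have h1 : 1 ≤ T0 * R := by nlinarith
    calc _ = 4 * C * 1 * ((q.totient : ℝ) * T * Real.log (q * T) * Real.exp (-(c * δ * Real.log (q * T)))) := by ring
      _ ≤ 4 * C * (T0 * R) * ((q.totient : ℝ) * T * Real.log (q * T) * Real.exp (-(c * δ * Real.log (q * T)))) := by
          have : 0 ≤ Real.log (q * T) := by linarith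
          gcongr
      _ = _ := by ring
  · have hsub : off δ T ⊆ off δ T0 := fun s hs => ⟨hs.1, hs.2.1, hs.2.2.1, hs.2.2.2.trans h⟩
    have h1 : ∀ χ ∈ prims q, (cnt (L q χ) (off δ T) : ℝ) ≤ (cnt (L q χ) (off δ T0) : ℝ) := by
      intro χ hχ
      exact_mod_cast cnt_mono hsub (hD.fin (hp χ hχ) hco (off_bdd δ T0))
    refine (Finset.sum_le_sum h1).trans ((hbig T0 le_rfl).trans ?_)
    have hTp : 0 < T := by linarith
    have h2 : Real.log (q * T0) ≤ R * Real.log (q * T) := by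
      have e1 : Real.log (q * T0) = Real.log q + Real.log T0 := Real.log_mul (by linarith) hT0p.ne'
      have e2 : Real.log (q * T) = Real.log q + Real.log T := Real.log_mul (by linarith) hTp.ne'
      have e3 : 0 ≤ Real.log T := Real.log_nonneg (by linarith)
      have e4 : Real.log T0 ≤ Real.log T0 / Real.log 2 * Real.log (q * T) := by
        rw [div_mul_eq_mul_div, le_div_iff₀ hl2]
        exact mul_le_mul_of_nonneg_left hlqT hlT0
      rw [hR, add_mul, one_mul]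
      linarith
    have h3 : Real.exp (-(c * δ * Real.log (q * T0))) ≤ Real.exp (-(c * δ * Real.log (q * T))) := by
      apply Real.exp_le_exp.mpr
      have e1 : Real.log (q * T) ≤ Real.log (q * T0) := Real.log_le_log (by positivity) (by nlinarith)
      have := mul_le_mul_of_nonneg_left e1 (mul_nonneg hc.le hδ)
      linarith
    have hl0 : 0 ≤ Real.log (q * T0) := Real.log_nonneg (by nlinarith)
    have hl9 : 0 ≤ Real.log (q * T) := by linarith
    calc 4 * (C * (q.totient : ℝ) * T0 * Real.log (q * T0) * Real.exp (-(c * δ * Real.log (q * T0))))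
        ≤ 4 * (C * (q.totient : ℝ) * T0 * (R * Real.log (q * T)) * Real.exp (-(c * δ * Real.log (q * T)))) := by
          gcongr
      _ = 4 * C * T0 * R * ((q.totient : ℝ) * 1 * Real.log (q * T) * Real.exp (-(c * δ * Real.log (q * T)))) := by ring
      _ ≤ 4 * C * T0 * R * ((q.totient : ℝ) * T * Real.log (q * T) * Real.exp (-(c * δ * Real.log (q * T)))) := by
          have : 0 ≤ Real.log (q * T) := by linarith
          have h5 : (1 : ℝ) ≤ T := by linarith
          gcongr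
      _ = _ := by ring

/-- the sum over the divisors -/
theorem div_sum {γ : ℝ} (hγ0 : 0 ≤ γ) (hγ1 : γ ≤ 1) (q : ℕ) (hq : 1 ≤ q) :
    ∑ d ∈ q.divisors, (d.totient : ℝ) * (d : ℝ) ^ (-γ) ≤ 2 * (q : ℝ) ^ (1 - γ / 4) := by
  have hq1 : (1 : ℝ) ≤ q := by exact_mod_cast hq
  have hq0 : (0 : ℝ) < q := by linarith
  rw [← Finset.sum_filter_add_sum_filter_not q.divisors (fun d : ℕ => (q : ℝ) ^ (1 / 4 : ℝ) ≤ (d : ℝ))]
  have h1 : ∑ d ∈ q.divisors.filter (fun d : ℕ => (q : ℝ) ^ (1 / 4 : ℝ) ≤ (d : ℝ)), (d.totient : ℝ) * (d : ℝ) ^ (-γ) ≤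
      (q : ℝ) ^ (1 - γ / 4) := by
    have e1 : ∀ d ∈ q.divisors.filter (fun d : ℕ => (q : ℝ) ^ (1 / 4 : ℝ) ≤ (d : ℝ)),
        (d.totient : ℝ) * (d : ℝ) ^ (-γ) ≤ (d.totient : ℝ) * (q : ℝ) ^ (-(γ / 4)) := by
      intro d hd
      rw [Finset.mem_filter] at hd
      apply mul_le_mul_of_nonneg_left _ (by positivity)
      calc (d : ℝ) ^ (-γ) ≤ ((q : ℝ) ^ (1 / 4 : ℝ)) ^ (-γ) :=
            Real.rpow_le_rpow_of_nonpos (by positivity) hd.2 (by linarith)
        _ = (q : ℝ) ^ (-(γ / 4)) := by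
            rw [← Real.rpow_mul hq0.le]
            congr 1
            ring
    refine (Finset.sum_le_sum e1).trans ?_
    rw [← Finset.sum_mul]
    have e2 : ∑ d ∈ q.divisors.filter (fun d : ℕ => (q : ℝ) ^ (1 / 4 : ℝ) ≤ (d : ℝ)), (d.totient : ℝ) ≤ q := by
      refine (Finset.sum_le_sum_of_subset_of_nonneg (Finset.filter_subset _ _) fun _ _ _ => by positivity).trans ?_
      have := Nat.sum_totient q
      exact_mod_cast this.le
    calc _ ≤ (q : ℝ) * (q : ℝ) ^ (-(γ / 4)) := mul_le_mul_of_nonneg_right e2 (by positivity)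
      _ = _ := by
          nth_rewrite 1 [← Real.rpow_one (q : ℝ)]
          rw [← Real.rpow_add hq0]
          congr 1
  have h2 : ∑ d ∈ q.divisors.filter (fun d : ℕ => ¬ (q : ℝ) ^ (1 / 4 : ℝ) ≤ (d : ℝ)), (d.totient : ℝ) * (d : ℝ) ^ (-γ) ≤
      (q : ℝ) ^ (1 - γ / 4) := by
    set X : ℕ := ⌊(q : ℝ) ^ (1 / 4 : ℝ)⌋₊ with hX
    have hXle : (X : ℝ) ≤ (q : ℝ) ^ (1 / 4 : ℝ) := Nat.floor_le (by positivity)
    have e1 : ∀ d ∈ q.divisors.filter (fun d : ℕ => ¬ (q : ℝ) ^ (1 / 4 : ℝ) ≤ (d : ℝ)),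
        (d.totient : ℝ) * (d : ℝ) ^ (-γ) ≤ (q : ℝ) ^ (1 / 4 : ℝ) := by
      intro d hd
      rw [Finset.mem_filter, not_le] at hd
      have hd1 : (1 : ℝ) ≤ d := by exact_mod_cast Nat.pos_of_mem_divisors hd.1
      have e2 : (d.totient : ℝ) ≤ d := by exact_mod_cast Nat.totient_le d
      have e3 : (d : ℝ) ^ (-γ) ≤ 1 := Real.rpow_le_one_of_one_le_of_nonpos hd1 (by linarith)
      have e4 : 0 ≤ (d : ℝ) ^ (-γ) := by positivity
      calc (d.totient : ℝ) * (d : ℝ) ^ (-γ) ≤ d * 1 := mul_le_mul e2 e3 e4 (by positivity)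
        _ ≤ _ := by rw [mul_one]; exact hd.2.le
    refine (Finset.sum_le_sum e1).trans ?_
    rw [Finset.sum_const, nsmul_eq_mul]
    have e2 : ((q.divisors.filter (fun d : ℕ => ¬ (q : ℝ) ^ (1 / 4 : ℝ) ≤ (d : ℝ))).card : ℝ) ≤ (q : ℝ) ^ (1 / 4 : ℝ) := by
      refine le_trans ?_ hXle
      have : q.divisors.filter (fun d : ℕ => ¬ (q : ℝ) ^ (1 / 4 : ℝ) ≤ (d : ℝ)) ⊆ Finset.Icc 1 X := by
        intro d hd
        rw [Finset.mem_filter, not_le] at hd
        rw [Finset.mem_Icc]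
        exact ⟨Nat.pos_of_mem_divisors hd.1, Nat.le_floor hd.2.le⟩
      have h3 := Finset.card_le_card this
      rw [Nat.card_Icc] at h3
      exact_mod_cast h3
    calc _ ≤ (q : ℝ) ^ (1 / 4 : ℝ) * (q : ℝ) ^ (1 / 4 : ℝ) := mul_le_mul_of_nonneg_right e2 (by positivity)
      _ = (q : ℝ) ^ (1 / 2 : ℝ) := by
          rw [← Real.rpow_add hq0]
          norm_num
      _ ≤ _ := Real.rpow_le_rpow_of_exponent_le hq1 (by linarith)
  linarith

/-- **All characters modulo `q`.** -/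
theorem offall (h0 : S_SCU) (hD : LD k N ps lam L) (hr : ∀ n, conj (lam n) = lam n) :
    ∃ c C : ℝ, 0 < c ∧ 0 < C ∧ ∀ q : ℕ, 1 ≤ q → q.Coprime N →
    ∀ (T δ : ℝ), 2 ≤ T → 0 ≤ δ →
    SS (fun q χ => (cnt (L q χ) (off δ T) : ℝ)) q ≤
      C * (q * T) ^ (1 - c * δ) * Real.log (q * T) := by
  classical
  obtain ⟨c, C, hc, hc1, hC, hoff⟩ := offq h0 hD hr
  refine ⟨c / 4, 2 * C, by positivity, by positivity, fun q hq hco T δ hT hδ => ?_⟩
  have hq1 : (1 : ℝ) ≤ q := by exact_mod_cast hq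
  have hTp : 0 < T := by linarith
  have hqT : 2 ≤ q * T := by nlinarith
  have hlog : 0 ≤ Real.log (q * T) := Real.log_nonneg (by linarith)
  rw [SS_eq _ q hq]
  rcases le_or_gt δ (1 / 2) with hδ1 | hδ1
  · have hγ0 : 0 ≤ c * δ := mul_nonneg hc.le hδ
    have hγ1 : c * δ ≤ 1 := by nlinarith
    have h1 : ∀ d ∈ q.divisors, PP (fun q χ => (cnt (L q χ) (off δ T) : ℝ)) d ≤
        C * T * Real.log (q * T) * T ^ (-(c * δ)) * ((d.totient : ℝ) * (d : ℝ) ^ (-(c * δ))) := by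
      intro d hd
      have hdd := Nat.mem_divisors.1 hd
      have hd1 : 1 ≤ d := Nat.pos_of_mem_divisors hd
      have : NeZero d := ⟨by omega⟩
      have hdR : (1 : ℝ) ≤ d := by exact_mod_cast hd1
      have hdq : (d : ℝ) ≤ q := by exact_mod_cast Nat.divisor_le hd
      have h2 := hoff d (Nat.Coprime.coprime_dvd_left hdd.1 hco) T δ hT hδ hδ1
      have h3 : PP (fun q χ => (cnt (L q χ) (off δ T) : ℝ)) d = ∑ χ ∈ prims d, (cnt (L d χ) (off δ T) : ℝ) := by
        unfold PP prims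
        rw [finsum_eq_sum_of_fintype, Finset.sum_subtype (p := fun χ : DirichletCharacter ℂ d => χ.IsPrimitive)]
        intro χ
        simp
      rw [h3]
      refine h2.trans ?_
      have e1 : Real.exp (-(c * δ * Real.log (d * T))) = (d : ℝ) ^ (-(c * δ)) * T ^ (-(c * δ)) := by
        rw [← Real.mul_rpow (by positivity) hTp.le, Real.rpow_def_of_pos (by positivity)]
        congr 1
        ring
      have e2 : Real.log (d * T) ≤ Real.log (q * T) := Real.log_le_log (by positivity) (by gcongr)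
      rw [e1]
      calc C * (d.totient : ℝ) * T * Real.log (d * T) * ((d : ℝ) ^ (-(c * δ)) * T ^ (-(c * δ)))
          ≤ C * (d.totient : ℝ) * T * Real.log (q * T) * ((d : ℝ) ^ (-(c * δ)) * T ^ (-(c * δ))) := by gcongr
        _ = _ := by ring
    refine (Finset.sum_le_sum h1).trans ?_
    rw [← Finset.mul_sum]
    have h4 := div_sum hγ0 hγ1 q hq
    have e3 : T * T ^ (-(c * δ)) ≤ T ^ (1 - c / 4 * δ) := by
      nth_rewrite 1 [← Real.rpow_one T]
      rw [← Real.rpow_add hTp]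
      apply Real.rpow_le_rpow_of_exponent_le (by linarith)
      nlinarith
    have e4 : (q : ℝ) ^ (1 - c * δ / 4) = (q : ℝ) ^ (1 - c / 4 * δ) := by
      congr 1
      ring
    rw [e4] at h4
    calc C * T * Real.log (q * T) * T ^ (-(c * δ)) * ∑ d ∈ q.divisors, (d.totient : ℝ) * (d : ℝ) ^ (-(c * δ))
        = C * Real.log (q * T) * ((T * T ^ (-(c * δ))) * ∑ d ∈ q.divisors, (d.totient : ℝ) * (d : ℝ) ^ (-(c * δ))) := by ring
      _ ≤ C * Real.log (q * T) * (T ^ (1 - c / 4 * δ) * (2 * (q : ℝ) ^ (1 - c / 4 * δ))) := by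
          have : 0 ≤ ∑ d ∈ q.divisors, (d.totient : ℝ) * (d : ℝ) ^ (-(c * δ)) :=
            Finset.sum_nonneg fun d _ => by positivity
          gcongr
      _ = 2 * C * ((q : ℝ) ^ (1 - c / 4 * δ) * T ^ (1 - c / 4 * δ)) * Real.log (q * T) := by ring
      _ = _ := by rw [Real.mul_rpow (by positivity) hTp.le]
  · -- no zeros at all
    have h1 : ∀ (F : ℂ → ℂ), cnt F (off δ T) = 0 := by
      intro F
      have h2 : off δ T = ∅ := by
        ext s
        simp only [Set.mem_empty_iff_false, iff_false]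
        rintro ⟨a1, a2, a3, a4⟩
        have : |s.re - 1 / 2| < δ := by
          rw [abs_lt]; constructor <;> linarith
        linarith
      unfold cnt
      rw [h2]
      simp
    have h2 : ∀ d ∈ q.divisors, PP (fun q χ => (cnt (L q χ) (off δ T) : ℝ)) d = 0 := by
      intro d _
      unfold PP
      simp [h1]
    rw [Finset.sum_congr rfl h2, Finset.sum_const_zero]
    positivity

end Pool.Agent.K9h29.ZD
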