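import Pool.Agent.Y671.GL.All
import Pool.Agent.K9h29.ZD.QMo

set_option autoImplicit false

/-!
# The product `F m` to the right of the critical strip, with uniform constants
-/

namespace Pool.Agent.K9h29.ZD

open Complex Finset Filter
open Pool.Agent.H24R2.DZ (MM ph)
open Pool.Agent.Y771.GL (Dat af af_apply inverse)
open Pool.Agent.Y671.GL (mf bq IsL yT)

/-- partial sums of a convolution -/
theorem conv_ab {f g : ArithmeticFunction ℂ} {S1 S2 : ℝ}
    (h1 : ∀ X : ℕ, ∑ n ∈ Icc 1 X, ‖f n‖ * (n : ℝ) ^ (-(5 / 4) : ℝ) ≤ S1)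
    (h2 : ∀ X : ℕ, ∑ n ∈ Icc 1 X, ‖g n‖ * (n : ℝ) ^ (-(5 / 4) : ℝ) ≤ S2) (X : ℕ) :
    ∑ n ∈ Icc 1 X, ‖(f * g) n‖ * (n : ℝ) ^ (-(5 / 4) : ℝ) ≤ S1 * S2 := by
  have hS1 : 0 ≤ S1 := by
    have := h1 0
    simpa using this
  have e1 : ∀ n ∈ Icc 1 X, ‖(f * g) n‖ * (n : ℝ) ^ (-(5 / 4) : ℝ) ≤
      ∑ x ∈ n.divisorsAntidiagonal, (‖f x.1‖ * (x.1 : ℝ) ^ (-(5 / 4) : ℝ)) * (‖g x.2‖ * (x.2 : ℝ) ^ (-(5 / 4) : ℝ)) := by
    intro n hn
    rw [ArithmeticFunction.mul_apply]
    have h0 : (0 : ℝ) ≤ (n : ℝ) ^ (-(5 / 4) : ℝ) := by positivity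
    refine (mul_le_mul_of_nonneg_right (norm_sum_le _ _) h0).trans ?_
    rw [sum_mul]
    refine sum_le_sum fun x hx => ?_
    have h4 := (Nat.mem_divisorsAntidiagonal.mp hx).1
    rw [norm_mul, ← h4]
    push_cast
    rw [Real.mul_rpow (by positivity) (by positivity)]
    apply le_of_eq
    ring
  refine (sum_le_sum e1).trans ?_
  rw [← sum_biUnion]
  · calc ∑ x ∈ (Icc 1 X).biUnion fun n => n.divisorsAntidiagonal,
          (‖f x.1‖ * (x.1 : ℝ) ^ (-(5 / 4) : ℝ)) * (‖g x.2‖ * (x.2 : ℝ) ^ (-(5 / 4) : ℝ))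
        ≤ ∑ x ∈ Icc 1 X ×ˢ Icc 1 X, (‖f x.1‖ * (x.1 : ℝ) ^ (-(5 / 4) : ℝ)) * (‖g x.2‖ * (x.2 : ℝ) ^ (-(5 / 4) : ℝ)) := by
          refine sum_le_sum_of_subset_of_nonneg ?_ fun x _ _ => by positivity
          intro x hx
          rw [mem_biUnion] at hx
          obtain ⟨n, hn, hx⟩ := hx
          have h3 := Nat.ne_zero_of_mem_divisorsAntidiagonal hx
          have h4 := (Nat.mem_divisorsAntidiagonal.mp hx).1
          have hn1 := mem_Icc.mp hn
          have h5 : x.1 ≤ n := by rw [← h4]; exact Nat.le_mul_of_pos_right _ (by omega)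
          have h6 : x.2 ≤ n := by rw [← h4]; exact Nat.le_mul_of_pos_left _ (by omega)
          rw [mem_product, mem_Icc, mem_Icc]
          omega
      _ = (∑ a ∈ Icc 1 X, ‖f a‖ * (a : ℝ) ^ (-(5 / 4) : ℝ)) * ∑ b ∈ Icc 1 X, ‖g b‖ * (b : ℝ) ^ (-(5 / 4) : ℝ) := by
          rw [sum_mul_sum, sum_product]
      _ ≤ S1 * S2 := mul_le_mul (h1 X) (h2 X) (sum_nonneg fun _ _ => by positivity) hS1
  · intro a _ b _ hab
    simp only [Function.onFun]
    rw [disjoint_left]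
    intro x hx hx2
    have h4 := (Nat.mem_divisorsAntidiagonal.mp hx).1
    have h5 := (Nat.mem_divisorsAntidiagonal.mp hx2).1
    exact hab (h4.symm.trans h5)

/-- the Dirichlet series to the right -/
theorem ls_bd4 {f : ArithmeticFunction ℂ} {S : ℝ}
    (hS : ∀ X : ℕ, ∑ n ∈ Icc 1 X, ‖f n‖ * (n : ℝ) ^ (-(5 / 4) : ℝ) ≤ S)
    {s : ℂ} (hs : 5 / 4 ≤ s.re) {D : ℝ} (h0 : ∀ n : ℕ, 1 ≤ n → Real.log n < D → f n = 0) :
    LSeriesSummable (fun n => f n) s ∧ ‖LSeries (fun n => f n) s‖ ≤ Real.exp (-((s.re - 5 / 4) * D)) * S := by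
  have hsum : ∀ n : ℕ, ∑ i ∈ range n, ‖f i‖ * (i : ℝ) ^ (-(5 / 4) : ℝ) ≤ S := by
    intro n
    refine le_trans ?_ (hS n)
    have h1 : range n ⊆ insert 0 (Icc 1 n) := by
      intro m hm
      rw [mem_range] at hm
      rw [mem_insert, mem_Icc]
      omega
    refine (sum_le_sum_of_subset_of_nonneg h1 fun _ _ _ => by positivity).trans ?_
    rw [sum_insert (by simp)]
    simp
  have ha : Summable (fun n : ℕ => ‖f n‖ * (n : ℝ) ^ (-(5 / 4) : ℝ)) :=
    summable_of_sum_range_le (c := S) (fun n => by positivity) hsum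
  have hb : ∑' n : ℕ, ‖f n‖ * (n : ℝ) ^ (-(5 / 4) : ℝ) ≤ S :=
    Real.tsum_le_of_sum_range_le (fun n => by positivity) hsum
  have hE : 0 ≤ Real.exp (-((s.re - 5 / 4) * D)) := (Real.exp_pos _).le
  have ht : ∀ n : ℕ, ‖LSeries.term (fun n => f n) s n‖ ≤
      Real.exp (-((s.re - 5 / 4) * D)) * (‖f n‖ * (n : ℝ) ^ (-(5 / 4) : ℝ)) := by
    intro n
    rcases Nat.eq_zero_or_pos n with h1 | h1
    · subst h1
      simp
    · rw [LSeries.term_of_ne_zero (by omega), norm_div, Complex.norm_natCast_cpow_of_pos h1]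
      have hn0 : (0 : ℝ) < n := by exact_mod_cast h1
      by_cases h2 : f n = 0
      · rw [h2]; simp
      · have h3 : D ≤ Real.log n := by
          by_contra hcon
          exact h2 (h0 n h1 (not_le.mp hcon))
        have h4 : ‖f n‖ / (n : ℝ) ^ s.re = (n : ℝ) ^ (-(s.re - 5 / 4)) * (‖f n‖ * (n : ℝ) ^ (-(5 / 4) : ℝ)) := by
          have : (n : ℝ) ^ (-(s.re - 5 / 4)) * (n : ℝ) ^ (-(5 / 4) : ℝ) = ((n : ℝ) ^ s.re)⁻¹ := by
            rw [← Real.rpow_add hn0, ← Real.rpow_neg hn0.le]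
            congr 1
            ring
          rw [div_eq_mul_inv, ← this]
          ring
        have h5 : (n : ℝ) ^ (-(s.re - 5 / 4)) ≤ Real.exp (-((s.re - 5 / 4) * D)) := by
          rw [Real.rpow_def_of_pos hn0]
          apply Real.exp_le_exp.mpr
          have := mul_le_mul_of_nonneg_left h3 (show 0 ≤ s.re - 5 / 4 by linarith)
          linarith
        rw [h4]
        exact mul_le_mul_of_nonneg_right h5 (by positivity)
  refine ⟨Summable.of_norm_bounded (ha.mul_left _) ht, ?_⟩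
  calc ‖LSeries (fun n => f n) s‖ ≤ ∑' n : ℕ, Real.exp (-((s.re - 5 / 4) * D)) * (‖f n‖ * (n : ℝ) ^ (-(5 / 4) : ℝ)) :=
        tsum_of_norm_bounded (ha.mul_left _).hasSum ht
    _ = Real.exp (-((s.re - 5 / 4) * D)) * ∑' n : ℕ, ‖f n‖ * (n : ℝ) ^ (-(5 / 4) : ℝ) := tsum_mul_left
    _ ≤ _ := mul_le_mul_of_nonneg_left hb hE

theorem norm_bq_le0 (ps lam : ℕ → ℂ) (θ L : ℝ) (n : ℕ) : ‖bq ps lam θ L 0 n‖ ≤ ‖mf ps lam n‖ := by
  unfold bq
  rw [neg_zero, Complex.cpow_zero, mul_one, norm_mul, Complex.norm_real, Real.norm_eq_abs]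
  refine mul_le_of_le_one_right (norm_nonneg _) ?_
  unfold Pool.Agent.H24R2.DZ.ph
  rw [abs_of_nonneg (Real.smoothTransition.nonneg _)]
  exact Real.smoothTransition.le_one _

/-- **The product to the right.** -/
theorem right_gen {ps lam : ℕ → ℂ} {th C : ℝ} (hd : Dat ps lam th C) {F : ℂ → ℂ} (hF : IsL lam F) {θ X S1 S2 : ℝ}
    (hθ : 0 < θ) (hX : 3 ≤ X)
    (h1 : ∀ Y : ℕ, ∑ n ∈ Icc 1 Y, ‖mf ps lam n‖ * (n : ℝ) ^ (-(5 / 4) : ℝ) ≤ S1)
    (h2 : ∀ Y : ℕ, ∑ n ∈ Icc 1 Y, ‖lam n‖ * (n : ℝ) ^ (-(5 / 4) : ℝ) ≤ S2)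
    {s : ℂ} (hs : 5 / 4 ≤ s.re) :
    ‖F s * MM (yT θ X) (bq ps lam θ (Real.log X) 0) s - 1‖ ≤
      Real.exp (-((s.re - 5 / 4) * (θ / 2 * Real.log X))) * (1 + S1 * S2) := by
  classical
  have hX0 : 0 < X := by linarith
  have hlX : 1 ≤ Real.log X := by
    rw [Real.le_log_iff_exp_le hX0]
    have := Real.exp_one_lt_d9
    linarith
  set L := Real.log X with hL
  set B : ArithmeticFunction ℂ := af (bq ps lam θ L 0) with hB
  set A : ArithmeticFunction ℂ := af lam with hA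
  have hB1 : ∀ Y : ℕ, ∑ n ∈ Icc 1 Y, ‖B n‖ * (n : ℝ) ^ (-(5 / 4) : ℝ) ≤ S1 := by
    intro Y
    refine (sum_le_sum fun n hn => ?_).trans (h1 Y)
    rw [hB, af_apply (by have := (mem_Icc.mp hn).1; omega)]
    exact mul_le_mul_of_nonneg_right (norm_bq_le0 ps lam θ L n) (by positivity)
  have hA1 : ∀ Y : ℕ, ∑ n ∈ Icc 1 Y, ‖A n‖ * (n : ℝ) ^ (-(5 / 4) : ℝ) ≤ S2 := by
    intro Y
    refine (sum_le_sum fun n hn => ?_).trans (h2 Y)
    rw [hA, af_apply (by have := (mem_Icc.mp hn).1; omega)]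
  have hAB := conv_ab hB1 hA1
  -- the difference `B * A - 1`
  have hD1 : ∀ Y : ℕ, ∑ n ∈ Icc 1 Y, ‖(B * A - 1) n‖ * (n : ℝ) ^ (-(5 / 4) : ℝ) ≤ 1 + S1 * S2 := by
    intro Y
    have e1 : ∀ n ∈ Icc 1 Y, ‖(B * A - 1) n‖ * (n : ℝ) ^ (-(5 / 4) : ℝ) ≤
        (if n = 1 then 1 else 0) + ‖(B * A) n‖ * (n : ℝ) ^ (-(5 / 4) : ℝ) := by
      intro n hn
      rw [sub_eq_add_neg, ArithmeticFunction.add_apply, ArithmeticFunction.neg_apply]
      by_cases hn1 : n = 1
      · rw [if_pos hn1, hn1, ArithmeticFunction.one_one]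
        simp only [Nat.cast_one, Real.one_rpow, mul_one]
        refine (norm_add_le _ _).trans ?_
        rw [norm_neg, norm_one]
        linarith
      · rw [if_neg hn1, ArithmeticFunction.one_apply_ne hn1, neg_zero, add_zero, zero_add]
    refine (sum_le_sum e1).trans ?_
    rw [sum_add_distrib]
    have e2 : ∑ n ∈ Icc 1 Y, (if n = 1 then (1 : ℝ) else 0) ≤ 1 := by
      rw [sum_ite_eq']
      split_ifs <;> norm_num
    exact add_le_add e2 (hAB Y)
  have hvan : ∀ n : ℕ, 1 ≤ n → Real.log n < θ / 2 * L → (B * A - 1) n = 0 := by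
    intro n hn hlog
    rw [sub_eq_add_neg, ArithmeticFunction.add_apply, ArithmeticFunction.neg_apply, ← sub_eq_add_neg, sub_eq_zero]
    have h3 : (B * A) n = ∑ x ∈ n.divisorsAntidiagonal, mf ps lam x.1 * lam x.2 := by
      rw [ArithmeticFunction.mul_apply]
      refine sum_congr rfl fun x hx => ?_
      have h3 := Nat.ne_zero_of_mem_divisorsAntidiagonal hx
      have h4 := (Nat.mem_divisorsAntidiagonal.mp hx).1
      rw [hB, hA, af_apply h3.1, af_apply h3.2]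
      unfold bq
      rw [neg_zero, Complex.cpow_zero, mul_one]
      have h5 : x.1 ≤ n := by rw [← h4]; exact Nat.le_mul_of_pos_right _ (by omega)
      have h6 : (0 : ℝ) < x.1 := by exact_mod_cast (by omega : 0 < x.1)
      have h7 : Real.log x.1 < θ / 2 * L := (Real.log_le_log h6 (by exact_mod_cast h5)).trans_lt hlog
      have h8 : Real.log x.1 / (θ * L) ≤ 1 / 2 := by
        rw [div_le_iff₀ (by positivity)]
        nlinarith
      unfold Pool.Agent.H24R2.DZ.ph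
      rw [Real.smoothTransition.one_of_one_le (by linarith)]
      simp
    rw [h3, Nat.sum_divisorsAntidiagonal (fun a b => mf ps lam a * lam b), inverse hd.hk n hn,
      ArithmeticFunction.one_apply]
  have hm1 : ∀ n : ℕ, 1 ≤ n → Real.log n < -1 → False := fun n hn h =>
    absurd h (not_lt.mpr (le_trans (by norm_num) (Real.log_natCast_nonneg n)))
  have a1 := (ls_bd4 hB1 hs (D := -1) (fun n hn h => (hm1 n hn h).elim)).1
  have a2 := (ls_bd4 hA1 hs (D := -1) (fun n hn h => (hm1 n hn h).elim)).1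
  have a3 := (ls_bd4 hAB hs (D := -1) (fun n hn h => (hm1 n hn h).elim)).1
  have hser : LSeries (fun n => (B * A) n) s = F s * MM (yT θ X) (bq ps lam θ L 0) s := by
    rw [ArithmeticFunction.LSeries_mul' a1 a2, mul_comm]
    congr 1
    · rw [hF.ser s (by linarith)]
      unfold LSeries
      refine tsum_congr fun n => ?_
      rcases Nat.eq_zero_or_pos n with h | h
      · subst h
        have : (0 : ℂ) ^ (-s) = 0 := Complex.zero_cpow (by
          intro h; have := congrArg Complex.re h; simp at this; linarith)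
        simp [this]
      · rw [LSeries.term_of_ne_zero (by omega), hA, af_apply (by omega), Complex.cpow_neg]
        rfl
    · unfold Pool.Agent.H24R2.DZ.MM LSeries
      rw [tsum_eq_sum (s := Icc 1 (yT θ X))]
      · refine sum_congr rfl fun n hn => ?_
        have hn1 := (mem_Icc.mp hn).1
        rw [LSeries.term_of_ne_zero (by omega), hB, af_apply (by omega), Complex.cpow_neg]
        rfl
      · intro n hn
        rcases Nat.eq_zero_or_pos n with h0 | h0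
        · subst h0; simp
        · rw [LSeries.term_of_ne_zero (by omega), hB, af_apply (by omega)]
          have h3 : yT θ X < n := by
            by_contra hcon
            exact hn (mem_Icc.mpr ⟨h0, by omega⟩)
          rw [Pool.Agent.Y494.GL.bq_zero_of L hlX hθ 0 ps lam (yT θ X) n ?_ h3]
          · simp
          · unfold Pool.Agent.Y671.GL.yT
            refine le_trans (le_of_eq ?_) (Nat.le_ceil _)
            rw [hL, Real.rpow_def_of_pos hX0, mul_comm]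
  have hone : LSeries (fun n => (1 : ArithmeticFunction ℂ) n) s = 1 := by
    have e : (fun n => (1 : ArithmeticFunction ℂ) n) = LSeries.delta := by
      funext n
      simp [ArithmeticFunction.one_apply, LSeries.delta]
    rw [e, LSeries_delta]
    rfl
  have hone' : LSeriesSummable (fun n => (1 : ArithmeticFunction ℂ) n) s := by
    have e : (fun n => (1 : ArithmeticFunction ℂ) n) = LSeries.delta := by
      funext n
      simp [ArithmeticFunction.one_apply, LSeries.delta]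
    rw [e]
    unfold LSeriesSummable
    refine summable_of_ne_finset_zero (s := {1}) fun n hn => ?_
    rw [mem_singleton] at hn
    rcases eq_or_ne n 0 with h0 | h0
    · rw [h0]; simp
    · rw [LSeries.term_of_ne_zero h0]
      simp [LSeries.delta, hn]
  have hsub : LSeries (fun n => (B * A - 1) n) s = F s * MM (yT θ X) (bq ps lam θ L 0) s - 1 := by
    rw [← hser, ← hone, ← LSeries_sub a3 hone']
    congr 1
  rw [← hsub]
  exact (ls_bd4 hD1 hs hvan).2

/-- **The product to the right, all twists.** -/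
theorem right_tl {ps lam : ℕ → ℂ} {th C : ℝ} (hd : Dat ps lam th C) : ∃ K : ℝ, 1 ≤ K ∧
    ∀ {q : ℕ} (χ : DirichletCharacter ℂ q) (F : ℂ → ℂ), IsL (tl χ lam) F → ∀ θ X : ℝ, 0 < θ → 3 ≤ X →
    ∀ s : ℂ, 5 / 4 ≤ s.re →
    ‖F s * MM (yT θ X) (tl χ (bq ps lam θ (Real.log X) 0)) s - 1‖ ≤
      K * Real.exp (-((s.re - 5 / 4) * (θ / 2 * Real.log X))) := by
  have s1 := Dat.of_sq (by norm_num : (1 : ℝ) < 5 / 4) (hd.sq_lam (by norm_num : (1 : ℝ) < 5 / 4))
  have s2 := Dat.of_sq (by norm_num : (1 : ℝ) < 5 / 4) (hd.sq_mf (by norm_num : (1 : ℝ) < 5 / 4))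
  set S2 := ∑' n : ℕ, ‖lam n‖ * (n : ℝ) ^ (-(5 / 4) : ℝ) with hS2
  set S1 := ∑' n : ℕ, ‖mf ps lam n‖ * (n : ℝ) ^ (-(5 / 4) : ℝ) with hS1
  have h2 : ∀ Y : ℕ, ∑ n ∈ Icc 1 Y, ‖lam n‖ * (n : ℝ) ^ (-(5 / 4) : ℝ) ≤ S2 := fun Y =>
    s1.sum_le_tsum _ (fun n _ => by positivity)
  have h1 : ∀ Y : ℕ, ∑ n ∈ Icc 1 Y, ‖mf ps lam n‖ * (n : ℝ) ^ (-(5 / 4) : ℝ) ≤ S1 := fun Y =>
    s2.sum_le_tsum _ (fun n _ => by positivity)
  have hS10 : 0 ≤ S1 := tsum_nonneg fun n => by positivity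
  have hS20 : 0 ≤ S2 := tsum_nonneg fun n => by positivity
  refine ⟨1 + S1 * S2, by nlinarith [mul_nonneg hS10 hS20], fun {q} χ F hF θ X hθ hX s hs => ?_⟩
  have h3 := right_gen (dat_tl hd χ) hF (S1 := S1) (S2 := S2) hθ hX
    (fun Y => (sum_le_sum fun n _ => by
      rw [mf_tl]
      exact mul_le_mul_of_nonneg_right (norm_tl_le χ _ n) (by positivity)).trans (h1 Y))
    (fun Y => (sum_le_sum fun n _ => by
      exact mul_le_mul_of_nonneg_right (norm_tl_le χ _ n) (by positivity)).trans (h2 Y)) hs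
  rw [bq_tl] at h3
  exact h3.trans (le_of_eq (mul_comm _ _))

end Pool.Agent.K9h29.ZD
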