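import Pool.Agent.K9h29.ZD.QRyd

set_option autoImplicit false

/-!
# The dual range for all primitive characters modulo `q`: the ray integral
-/

namespace Pool.Agent.K9h29.ZD

open Complex Filter Topology MeasureTheory Set
open scoped ComplexConjugate
open Pool.Agent.Y671.GL Pool.Agent.Y287.GL
open Pool.Agent.H24R2.DZ (ray)

/-- the dual polynomial of one class -/
noncomputable def DBc {q : ℕ} (k y : ℕ) (lam b : ℕ → ℂ) (u : ℕ → ZMod q) (c : ZMod q) (w : ℂ) : ℂ :=
  ∑' m : ℕ, dc k y lam b u c m * cexp (-((m : ℂ) / (y.factorial : ℕ) * w))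

/-- the sum of the squares -/
noncomputable def SD {q : ℕ} [NeZero q] (k y : ℕ) (lam b : ℕ → ℂ) (u : ℕ → ZMod q) (δ x : ℝ) : ℝ :=
  ∑ c : ZMod q, ‖DBc k y lam b u c (ray δ x)‖ ^ 2

/-- the data of the dual range -/
structure DDat {q : ℕ} [NeZero q] (k N' : ℕ) (ps' lam : ℕ → ℂ) (χ0 : DirichletCharacter ℂ q) (y : ℕ) (b : ℕ → ℂ)
    (u : ℕ → ZMod q) : Prop where
  frm : Frm k N' ps' (tl χ0 lam)
  unit : ∀ m, IsUnit (u m)
  eq : ∀ (m : ℕ) (χ : DirichletCharacter ℂ q), dd k y (tl χ lam) (tl χ b) m =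
      χ (u m) * dd k y (tl (1 : DirichletCharacter ℂ q) lam) (tl (1 : DirichletCharacter ℂ q) b) m
  fr : ∀ m : ℕ, dd k y (tl (1 : DirichletCharacter ℂ q) lam) (tl (1 : DirichletCharacter ℂ q) b) m ≠ 0 →
      ∃ h c : ℕ, 1 ≤ h ∧ h ≤ y ∧ h * m = c * y.factorial ∧ (c : ZMod q) = u m * h ∧ IsUnit (h : ZMod q)

theorem DDat.ex {q : ℕ} [NeZero q] {k N' : ℕ} {ps' lam : ℕ → ℂ} {χ0 : DirichletCharacter ℂ q}
    (F : Frm k N' ps' (tl χ0 lam)) (y : ℕ) (b : ℕ → ℂ) : ∃ u : ℕ → ZMod q, DDat k N' ps' lam χ0 y b u := by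
  choose u h1 h2 h3 using fun m => dd_tl1 (q := q) k y lam b m
  exact ⟨u, F, h1, h2, h3⟩

section

variable {q : ℕ} [NeZero q] {k N' : ℕ} {ps' lam : ℕ → ℂ} {χ0 : DirichletCharacter ℂ q} {y : ℕ} {b : ℕ → ℂ}
  {u : ℕ → ZMod q}

theorem DDat.norm_dd (D : DDat k N' ps' lam χ0 y b u) (m : ℕ) :
    ‖dd k y (tl (1 : DirichletCharacter ℂ q) lam) (tl (1 : DirichletCharacter ℂ q) b) m‖ =
      ‖dd k y (tl χ0 lam) (tl χ0 b) m‖ := by
  obtain ⟨v, hv⟩ := D.unit m
  rw [D.eq m χ0, norm_mul, ← hv, DirichletCharacter.unit_norm_eq_one χ0 v, one_mul]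

theorem DDat.norm_dc (D : DDat k N' ps' lam χ0 y b u) (c : ZMod q) (m : ℕ) :
    ‖dc k y lam b u c m‖ ≤ ‖dd k y (tl χ0 lam) (tl χ0 b) m‖ := by
  unfold dc
  split_ifs
  · rw [D.norm_dd]
  · rw [norm_zero]; exact norm_nonneg _

theorem DDat.sum_dc (D : DDat k N' ps' lam χ0 y b u) (m : ℕ) :
    ∑ c : ZMod q, ‖dc k y lam b u c m‖ ^ 2 = ‖dd k y (tl χ0 lam) (tl χ0 b) m‖ ^ 2 := by
  classical
  rw [Finset.sum_eq_single (u m)]
  · unfold dc
    rw [if_pos rfl, D.norm_dd]
  · intro c _ hc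
    unfold dc
    rw [if_neg (fun h => hc h.symm), norm_zero]
    norm_num
  · intro h
    exact absurd (Finset.mem_univ _) h

theorem DDat.bd (D : DDat k N' ps' lam χ0 y b u) : ∃ B : ℝ, 0 ≤ B ∧
    ∀ (c : ZMod q) (m : ℕ), ‖dc k y lam b u c m‖ ≤ B * (m : ℝ) ^ k := by
  obtain ⟨B, hB, hBd, -⟩ := dd_bound D.frm y (tl χ0 b)
  exact ⟨B, hB, fun c m => (D.norm_dc c m).trans (hBd m)⟩

theorem DDat.diff (D : DDat k N' ps' lam χ0 y b u) (c : ZMod q) (z : ℂ) (hz : 0 < z.re) :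
    DifferentiableAt ℂ (DBc k y lam b u c) z := by
  obtain ⟨B, hB, hBd⟩ := D.bd
  have hQ' : (0 : ℝ) < y.factorial := by exact_mod_cast Nat.factorial_pos y
  set U : Set ℂ := {w | z.re / 2 < w.re} with hU
  have hUo : IsOpen U := isOpen_lt continuous_const Complex.continuous_re
  have hzU : z ∈ U := by
    change z.re / 2 < z.re
    linarith
  have h1 : DifferentiableOn ℂ (DBc k y lam b u c) U := by
    refine differentiableOn_tsum_of_summable_norm
      ((summable_pow_exp k (c := z.re / 2 / y.factorial) (by positivity)).mul_left B)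
      (fun m => ?_) hUo (fun m w hw => ?_)
    · fun_prop
    · rw [norm_mul, norm_cexp_freq, ← mul_assoc]
      have hw' : z.re / 2 < w.re := hw
      gcongr
      exact hBd c m
  exact h1.differentiableAt (hUo.mem_nhds hzU)

/-- from the characters to the classes -/
theorem DDat.sum_le (D : DDat k N' ps' lam χ0 y b u) (S : Finset (DirichletCharacter ℂ q))
    (hS : ∀ χ ∈ S, ∃ (N1 : ℕ) (ps1 : ℕ → ℂ), Frm k N1 ps1 (tl χ lam)) {δ x : ℝ} (hz : 0 < (ray δ x).re) :
    ∑ χ ∈ S, ‖DB k y (tl χ lam) (tl χ b) (ray δ x)‖ ^ 2 ≤ (q.totient : ℝ) * SD k y lam b u δ x := by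
  set w := ray δ x with hw
  have hQ' : (0 : ℝ) < y.factorial := by exact_mod_cast Nat.factorial_pos y
  obtain ⟨B, hB, hBd, -⟩ := dd_bound D.frm y (tl χ0 b)
  obtain ⟨a, ha⟩ : ∃ a : ℕ → ℂ, a = fun m =>
    dd k y (tl (1 : DirichletCharacter ℂ q) lam) (tl (1 : DirichletCharacter ℂ q) b) m *
      cexp (-((m : ℂ) / (y.factorial : ℕ) * w)) := ⟨_, rfl⟩
  have hsum : Summable (fun m => ‖a m‖) := by
    refine Summable.of_nonneg_of_le (fun m => norm_nonneg _) (fun m => ?_)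
      ((summable_pow_exp k (c := w.re / y.factorial) (by positivity)).mul_left B)
    rw [ha]
    simp only
    rw [norm_mul, norm_cexp_freq, ← mul_assoc, D.norm_dd]
    gcongr
    exact hBd m
  have h1 : ∀ χ ∈ S, ‖DB k y (tl χ lam) (tl χ b) w‖ ^ 2 = ‖∑' m : ℕ, χ (u m) * a m‖ ^ 2 := by
    intro χ hχ
    obtain ⟨N1, ps1, F1⟩ := hS χ hχ
    rw [DB_eq F1 y (tl χ b) w hz]
    congr 2
    refine tsum_congr fun m => ?_
    rw [D.eq m χ, ha]
    ring
  rw [Finset.sum_congr rfl h1]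
  refine (Finset.sum_le_sum_of_subset_of_nonneg (Finset.subset_univ S) fun _ _ _ => by positivity).trans ?_
  refine (orth_cls u a hsum).trans (le_of_eq ?_)
  unfold SD
  congr 1
  refine Finset.sum_congr rfl fun c _ => ?_
  congr 2
  unfold cls DBc dc
  refine tsum_congr fun m => ?_
  rw [ha]
  split_ifs
  · rfl
  · rw [zero_mul]

theorem DDat.summable_sq (D : DDat k N' ps' lam χ0 y b u) (c' : ZMod q) {c : ℝ} (hc : 0 < c) :
    Summable fun m : ℕ => ‖dc k y lam b u c' m‖ ^ 2 * Real.exp (-(m * c)) := by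
  refine Summable.of_nonneg_of_le (fun m => by positivity) (fun m => ?_)
    (Pool.Agent.Y287.GL.summable_sq D.frm y (tl χ0 b) hc)
  have := D.norm_dc c' m
  gcongr

theorem DDat.block (D : DDat k N' ps' lam χ0 y b u) (hy : 1 ≤ y)
    {C1 C2 : ℝ} (hC1 : 0 < C1) (hC2 : 0 < C2)
    (hRTA : ∀ (g : ℂ → ℂ) (δ X : ℝ), 0 < δ → δ ≤ 1 / 10 → 0 < X →
      (∀ z : ℂ, 0 < z.re → DifferentiableAt ℂ g z) →
      ∫ x in X..(2 * X), ‖g (ray δ x)‖ ^ 2 ≤
        C1 / (δ * X) * ∫ v in (δ * X / 4)..(4 * δ * X), ∫ u in (X / 4)..(4 * X),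
          ‖g (v + u * I)‖ ^ 2)
    (hFJ : ∀ (d : ℕ → ℂ) (Q Y U v : ℝ), 0 < Q → 0 < Y → Y ≤ U → 0 < v →
      Summable (fun m => ‖d m‖ * Real.exp (-(m / Q * v))) →
      (∀ m n : ℕ, d m ≠ 0 → d n ≠ 0 → m ≠ n → Q / Y ≤ |(m : ℝ) - n|) →
      ∫ u in (U / 4)..(4 * U), ‖∑' m : ℕ, d m * cexp (-(m / Q * (v + u * I)))‖ ^ 2 ≤
        C2 * U * ∑' m : ℕ, ‖d m‖ ^ 2 * Real.exp (-(2 * (m / Q) * v)))
    {T X : ℝ} (hT : 10 ≤ T) (hX : (y : ℝ) ^ 2 / q ≤ X) (c : ZMod q) :
    ∫ x in X..(2 * X), ‖DBc k y lam b u c (ray (1 / T) x)‖ ^ 2 ≤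
      C1 * C2 * (15 / 4) * X * ∑' m : ℕ, ‖dc k y lam b u c m‖ ^ 2 *
        Real.exp (-(((m : ℝ) / y.factorial / T) * X / 2)) := by
  obtain ⟨B, hB, hBd⟩ := D.bd
  have hQ' : (0 : ℝ) < y.factorial := by exact_mod_cast Nat.factorial_pos y
  have hq0 : (0 : ℝ) < q := by exact_mod_cast Nat.pos_of_ne_zero (NeZero.ne q)
  have hy0 : (0 : ℝ) < y := by exact_mod_cast hy
  have hX0 : 0 < X := lt_of_lt_of_le (by positivity) hX
  have hT0 : 0 < T := by linarith
  have hδ : 0 < 1 / T := by positivity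
  have hδ' : 1 / T ≤ 1 / 10 := one_div_le_one_div_of_le (by norm_num) hT
  set δ : ℝ := 1 / T with hδdef
  set S : ℝ := ∑' m : ℕ, ‖dc k y lam b u c m‖ ^ 2 *
        Real.exp (-(((m : ℝ) / y.factorial / T) * X / 2)) with hS
  have hsumS : Summable fun m : ℕ => ‖dc k y lam b u c m‖ ^ 2 *
        Real.exp (-(((m : ℝ) / y.factorial / T) * X / 2)) := by
    refine (D.summable_sq c (c := X / (2 * y.factorial * T)) (by positivity)).congr
      fun m => ?_
    congr 3
    field_simp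
  have hinner : ∀ v ∈ Set.uIoc (δ * X / 4) (4 * δ * X),
      ‖∫ t in (X / 4)..(4 * X), ‖DBc k y lam b u c (v + t * I)‖ ^ 2‖ ≤ C2 * X * S := by
    intro v hv
    have hle : δ * X / 4 ≤ 4 * δ * X := by nlinarith [mul_pos hδ hX0]
    rw [uIoc_of_le hle] at hv
    have hv0 : 0 < v := lt_trans (by positivity) hv.1
    have hnn : 0 ≤ ∫ t in (X / 4)..(4 * X), ‖DBc k y lam b u c (v + t * I)‖ ^ 2 :=
      intervalIntegral.integral_nonneg (by linarith) fun u _ => by positivity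
    rw [Real.norm_eq_abs, abs_of_nonneg hnn]
    have h1 := hFJ (dc k y lam b u c) (y.factorial : ℕ) ((y : ℝ) ^ 2 / q) X v hQ' (by positivity) hX hv0
      (by
        refine Summable.of_nonneg_of_le (fun m => by positivity) (fun m => ?_)
          ((summable_pow_exp k (c := v / y.factorial) (by positivity)).mul_left B)
        rw [← mul_assoc]
        have : (m : ℝ) / (y.factorial : ℕ) * v = m * (v / y.factorial) := by ring
        rw [this]
        gcongr
        exact hBd c m)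
      (fun m n hm hn hmn => spacingq y hy b u D.fr c m n hm hn hmn)
    have e1 : ∀ t : ℝ, DBc k y lam b u c (v + t * I) = ∑' m : ℕ, dc k y lam b u c m *
        cexp (-((m : ℂ) / (((y.factorial : ℕ) : ℝ) : ℂ) * (v + t * I))) := by
      intro t
      unfold DBc
      simp only [Complex.ofReal_natCast]
    simp only [e1]
    refine h1.trans ?_
    gcongr
    refine Summable.tsum_le_tsum (fun m => ?_) ?_ hsumS
    · gcongr
      rw [hδdef] at hv
      have h4 : 1 / T * X / 4 ≤ v := hv.1.le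
      have h5 : (m : ℝ) / (y.factorial : ℕ) / T * X / 2 =
          2 * ((m : ℝ) / (y.factorial : ℕ)) * (1 / T * X / 4) := by ring
      rw [h5]
      gcongr
    · refine (D.summable_sq c (c := 2 * v / y.factorial) (by positivity)).congr fun m => ?_
      congr 3
      ring
  have h2 := intervalIntegral.norm_integral_le_of_norm_le_const hinner
  have h3 := hRTA (DBc k y lam b u c) δ X hδ hδ' hX0 (fun z hz => D.diff c z hz)
  have hlen : |4 * δ * X - δ * X / 4| = 15 / 4 * (δ * X) := by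
    rw [abs_of_nonneg (by nlinarith [mul_pos hδ hX0])]
    ring
  rw [hlen] at h2
  have h4 := (le_abs_self _).trans h2
  calc ∫ x in X..(2 * X), ‖DBc k y lam b u c (ray δ x)‖ ^ 2 ≤ _ := h3
    _ ≤ C1 / (δ * X) * (C2 * X * S * (15 / 4 * (δ * X))) := by gcongr
    _ = C1 * C2 * (15 / 4) * X * S := by
      field_simp

theorem DDat.cont (D : DDat k N' ps' lam χ0 y b u) (c : ZMod q) {δ : ℝ} (hδ : 0 < Real.sin δ) :
    ContinuousOn (fun x : ℝ => ‖DBc k y lam b u c (ray δ x)‖ ^ 2) (Ioi 0) := by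
  intro x hx
  have hx0 : (0 : ℝ) < x := hx
  have h1 : 0 < (ray δ x).re := by
    rw [ray_re]
    positivity
  refine ContinuousAt.continuousWithinAt ?_
  have h2 := (D.diff c _ h1).continuousAt
  exact (ContinuousAt.comp (f := fun x : ℝ => ray δ x) h2 (ray_cont _).continuousAt).norm.pow 2

theorem DDat.cont_SD (D : DDat k N' ps' lam χ0 y b u) {δ : ℝ} (hδ : 0 < Real.sin δ) :
    ContinuousOn (fun x : ℝ => SD k y lam b u δ x) (Ioi 0) := by
  unfold SD
  exact continuousOn_finsetSum _ fun c _ => D.cont c hδ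

theorem SD_nonneg (δ x : ℝ) : 0 ≤ SD k y lam b u δ x := Finset.sum_nonneg fun c _ => by positivity

end

/-- **The dual range.** -/
theorem rydq (hR : S_RTA) (hF : S_FJ2) (k : ℕ) (hk1 : 1 ≤ k) : ∃ C : ℝ, 0 < C ∧ ∀ {q : ℕ} [NeZero q] {N' : ℕ}
    {ps' lam : ℕ → ℂ} {χ0 : DirichletCharacter ℂ q} {y : ℕ} {b : ℕ → ℂ} {u : ℕ → ZMod q},
    DDat k N' ps' lam χ0 y b u → ∀ T : ℝ, 10 ≤ T → 1 ≤ y →
    IntegrableOn (fun x : ℝ => SD k y lam b u (1 / T) x * x ^ ((k : ℝ) - 1)) (Ioi ((y : ℝ) ^ 2 / q)) ∧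
    ∫ x in Ioi ((y : ℝ) ^ 2 / q), SD k y lam b u (1 / T) x * x ^ ((k : ℝ) - 1) ≤
      C * T ^ k * DS y (tl χ0 lam) (tl χ0 b) (q * T) := by
  obtain ⟨C1, hC1, hRTA⟩ := hR
  obtain ⟨C2, hC2, hFJ⟩ := hF
  obtain ⟨Ck, hCk, hgeom⟩ := geom_sum k hk1
  have hk : (1 : ℝ) ≤ k := by exact_mod_cast hk1
  refine ⟨C1 * C2 * (15 / 4) * (2 : ℝ) ^ ((k : ℝ) - 1) * Ck, by positivity, ?_⟩
  intro q _ N' ps' lam χ0 y b u D T hT hy
  have F := D.frm
  have hT0 : 0 < T := by linarith
  have hq0 : (0 : ℝ) < q := by exact_mod_cast Nat.pos_of_ne_zero (NeZero.ne q)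
  have hQ' : (0 : ℝ) < y.factorial := by exact_mod_cast Nat.factorial_pos y
  have hy0 : (1 : ℝ) ≤ y := by exact_mod_cast hy
  have hY1 : (1 : ℝ) ≤ (y : ℝ) ^ 2 := one_le_pow₀ hy0
  set Y : ℝ := (y : ℝ) ^ 2 / q with hY
  have hYp : 0 < Y := by positivity
  set G : ℝ → ℝ := fun x => SD k y lam b u (1 / T) x * x ^ ((k : ℝ) - 1) with hG
  have hsin : 0 < Real.sin (1 / T) := by
    refine Real.sin_pos_of_pos_of_lt_pi (by positivity) ?_
    have : 1 / T ≤ 1 / 10 := one_div_le_one_div_of_le (by norm_num) hT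
    linarith [Real.pi_gt_three]
  have hD := D.cont_SD hsin
  have hGc : ContinuousOn G (Ioi 0) := by
    refine hD.mul fun x hx => ?_
    exact (Real.continuousAt_rpow_const _ _ (Or.inl (ne_of_gt hx))).continuousWithinAt
  have hX : ∀ j : ℕ, 0 < 2 ^ j * Y := by
    intro j
    positivity
  have hXY : ∀ j : ℕ, Y ≤ 2 ^ j * Y := by
    intro j
    have : (1 : ℝ) ≤ 2 ^ j := one_le_pow₀ (by norm_num)
    nlinarith
  have hsub : ∀ A B : ℝ, 0 < A → A ≤ B → uIcc A B ⊆ Ioi (0 : ℝ) := by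
    intro A B hA hAB x hx
    rw [uIcc_of_le hAB] at hx
    exact lt_of_lt_of_le hA hx.1
  have hstepX : ∀ j : ℕ, (2 : ℝ) ^ (j + 1) * Y = 2 * (2 ^ j * Y) := by
    intro j
    rw [pow_succ]
    ring
  have hint : ∀ j : ℕ, IntervalIntegrable G volume (2 ^ j * Y) (2 ^ (j + 1) * Y) := by
    intro j
    refine (hGc.mono (hsub _ _ (hX j) ?_)).intervalIntegrable
    rw [hstepX]
    linarith [hX j]
  -- one block
  have hblock : ∀ j : ℕ, ∫ x in (2 ^ j * Y)..(2 ^ (j + 1) * Y), G x ≤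
      C1 * C2 * (15 / 4) * (2 : ℝ) ^ ((k : ℝ) - 1) * ((2 ^ j * Y) ^ k *
        ∑' m : ℕ, ‖dd k y (tl χ0 lam) (tl χ0 b) m‖ ^ 2 *
        Real.exp (-(((m : ℝ) / y.factorial / T) * (2 ^ j * Y) / 2))) := by
    intro j
    have hi := hint j
    rw [hstepX] at hi ⊢
    set X : ℝ := 2 ^ j * Y with hXd
    have hX0 : 0 < X := hX j
    have hi2 : IntervalIntegrable (fun x : ℝ => SD k y lam b u (1 / T) x) volume X (2 * X) :=
      (hD.mono (hsub _ _ hX0 (by linarith))).intervalIntegrable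
    have hb : ∫ x in X..(2 * X), SD k y lam b u (1 / T) x ≤
        C1 * C2 * (15 / 4) * X * ∑' m : ℕ, ‖dd k y (tl χ0 lam) (tl χ0 b) m‖ ^ 2 *
        Real.exp (-(((m : ℝ) / y.factorial / T) * X / 2)) := by
      unfold SD
      rw [intervalIntegral.integral_finsetSum (fun c _ =>
        ((D.cont c hsin).mono (hsub _ _ hX0 (by linarith))).intervalIntegrable)]
      refine (Finset.sum_le_sum fun c _ => D.block hy hC1 hC2 hRTA hFJ hT (hXY j) c).trans (le_of_eq ?_)
      have hsc : ∀ c ∈ (Finset.univ : Finset (ZMod q)), Summable (fun m : ℕ => ‖dc k y lam b u c m‖ ^ 2 *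
          Real.exp (-(((m : ℝ) / y.factorial / T) * X / 2))) := by
        intro c _
        refine (D.summable_sq c (c := X / (2 * y.factorial * T)) (by positivity)).congr fun m => ?_
        have e : (m : ℝ) * (X / (2 * y.factorial * T)) = ((m : ℝ) / y.factorial / T) * X / 2 := by
          clear_value X
          field_simp
        rw [e]
      rw [← Finset.mul_sum, ← Summable.tsum_finsetSum hsc]
      congr 1
      refine tsum_congr fun m => ?_
      rw [← Finset.sum_mul, D.sum_dc]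
    have h1 : ∫ x in X..(2 * X), G x ≤
        ∫ x in X..(2 * X), SD k y lam b u (1 / T) x * (2 * X) ^ ((k : ℝ) - 1) := by
      refine intervalIntegral.integral_mono_on (by linarith) hi (hi2.mul_const _) ?_
      intro x hx
      have hx0 : 0 ≤ x := by linarith [hx.1]
      exact mul_le_mul_of_nonneg_left (Real.rpow_le_rpow hx0 hx.2 (by linarith)) (SD_nonneg _ _)
    rw [intervalIntegral.integral_mul_const] at h1
    refine h1.trans ?_
    have h2 : (2 * X) ^ ((k : ℝ) - 1) = (2 : ℝ) ^ ((k : ℝ) - 1) * X ^ ((k : ℝ) - 1) :=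
      Real.mul_rpow (by norm_num) hX0.le
    have h3 : X * X ^ ((k : ℝ) - 1) = X ^ k := by
      rw [← Real.rpow_natCast, ← Real.rpow_one_add' hX0.le (by linarith)]
      congr 1
      ring
    calc (∫ x in X..(2 * X), SD k y lam b u (1 / T) x) * (2 * X) ^ ((k : ℝ) - 1) ≤
        (C1 * C2 * (15 / 4) * X * ∑' m : ℕ, ‖dd k y (tl χ0 lam) (tl χ0 b) m‖ ^ 2 *
        Real.exp (-(((m : ℝ) / y.factorial / T) * X / 2))) * (2 * X) ^ ((k : ℝ) - 1) := by
          gcongr
      _ = _ := by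
          rw [h2, ← h3]
          ring
  -- the sum over the blocks
  have hsw : ∀ j : ℕ, Summable fun m : ℕ => ‖dd k y (tl χ0 lam) (tl χ0 b) m‖ ^ 2 *
        Real.exp (-(((m : ℝ) / y.factorial / T) * (2 ^ j * Y) / 2)) := by
    intro j
    have := hX j
    refine (Pool.Agent.Y287.GL.summable_sq F y (tl χ0 b)
      (c := (2 ^ j * Y) / (2 * y.factorial * T)) (by positivity)).congr fun m => ?_
    congr 3
    field_simp
  have hqT : 0 < q * T := by positivity
  obtain ⟨hs1, hs2⟩ := tsum_term_le F y (tl χ0 b) hqT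
  have htotal : ∀ J : ℕ, ∑ j ∈ Finset.range J, ((2 ^ j * Y) ^ k *
        ∑' m : ℕ, ‖dd k y (tl χ0 lam) (tl χ0 b) m‖ ^ 2 *
        Real.exp (-(((m : ℝ) / y.factorial / T) * (2 ^ j * Y) / 2))) ≤
      Ck * (T ^ k * DS y (tl χ0 lam) (tl χ0 b) (q * T)) := by
    intro J
    have e1 : ∑ j ∈ Finset.range J, ((2 ^ j * Y) ^ k *
        ∑' m : ℕ, ‖dd k y (tl χ0 lam) (tl χ0 b) m‖ ^ 2 *
        Real.exp (-(((m : ℝ) / y.factorial / T) * (2 ^ j * Y) / 2))) =
        ∑' m : ℕ, ∑ j ∈ Finset.range J, (2 ^ j * Y) ^ k * (‖dd k y (tl χ0 lam) (tl χ0 b) m‖ ^ 2 *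
        Real.exp (-(((m : ℝ) / y.factorial / T) * (2 ^ j * Y) / 2))) := by
      rw [Summable.tsum_finsetSum (fun j _ => (hsw j).mul_left _)]
      refine Finset.sum_congr rfl fun j _ => ?_
      rw [tsum_mul_left]
    have e2 : T ^ k * DS y (tl χ0 lam) (tl χ0 b) (q * T) =
        ((q : ℝ) ^ k)⁻¹ * ((q * T) ^ k * DS y (tl χ0 lam) (tl χ0 b) (q * T)) := by
      rw [mul_pow]
      have : (q : ℝ) ^ k ≠ 0 := by positivity
      field_simp
    rw [e1, e2, ← hs2, ← tsum_mul_left, ← tsum_mul_left]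
    refine Summable.tsum_le_tsum (fun m => ?_) ?_ ((hs1.mul_left _).mul_left Ck)
    · have hterm := term_le F y (tl χ0 b) hqT m
      have hqk : 0 < (q : ℝ) ^ k := by positivity
      refine le_trans ?_ (mul_le_mul_of_nonneg_left (mul_le_mul_of_nonneg_left hterm (inv_pos.2 hqk).le) hCk.le)
      rcases Nat.eq_zero_or_pos m with rfl | hm
      · simp [dd_zero F y (tl χ0 b)]
      · have hm0 : (0 : ℝ) < m := by exact_mod_cast hm
        obtain ⟨w, hw⟩ : ∃ w : ℝ, w = (m : ℝ) / y.factorial / T := ⟨_, rfl⟩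
        have hwp : 0 < w := by rw [hw]; positivity
        have hwY : 0 < w * Y := by positivity
        have h1 := hgeom (w * Y) 1 J hwY le_rfl
        have h2 : ∑ j ∈ Finset.range J, (2 ^ j * Y) ^ k * Real.exp (-(w * (2 ^ j * Y) / 2)) ≤
            Ck * (w⁻¹ ^ k * Real.exp (-(w * Y / 4))) := by
          calc ∑ j ∈ Finset.range J, (2 ^ j * Y) ^ k * Real.exp (-(w * (2 ^ j * Y) / 2)) =
                Y ^ k * ∑ j ∈ Finset.range J, (2 ^ j * 1) ^ k * Real.exp (-(w * Y * (2 ^ j * 1) / 2)) := by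
                rw [Finset.mul_sum]
                refine Finset.sum_congr rfl fun j _ => ?_
                have e3 : w * Y * (2 ^ j * 1) / 2 = w * (2 ^ j * Y) / 2 := by ring
                rw [e3, mul_pow, mul_pow]
                ring
            _ ≤ Y ^ k * (Ck * (w * Y)⁻¹ ^ k * Real.exp (-(w * Y / 4))) :=
                mul_le_mul_of_nonneg_left h1 (by positivity)
            _ = _ := by
                rw [mul_inv, mul_pow, inv_pow Y]
                have : Y ^ k ≠ 0 := by positivity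
                field_simp
        have h3 : w⁻¹ ^ k * Real.exp (-(w * Y / 4)) ≤
            ((q : ℝ) ^ k)⁻¹ * (((m : ℝ) / y.factorial / (q * T))⁻¹ ^ k *
              Real.exp (-(((m : ℝ) / y.factorial / (q * T)) / 4))) := by
          have e4 : (m : ℝ) / y.factorial / (q * T) = w / q := by rw [hw]; field_simp
          rw [e4]
          have e5 : ((q : ℝ) ^ k)⁻¹ * (w / q)⁻¹ ^ k = w⁻¹ ^ k := by
            rw [inv_div, div_pow, inv_pow]
            field_simp
          rw [← mul_assoc, e5]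
          apply mul_le_mul_of_nonneg_left _ (by positivity)
          apply Real.exp_le_exp.2
          have e6 : w / q / 4 ≤ w * Y / 4 := by
            rw [hY]
            have : w / q ≤ w * ((y : ℝ) ^ 2 / q) := by
              rw [mul_div_assoc', div_le_div_iff_of_pos_right hq0]
              nlinarith
            linarith
          linarith
        calc ∑ j ∈ Finset.range J, (2 ^ j * Y) ^ k * (‖dd k y (tl χ0 lam) (tl χ0 b) m‖ ^ 2 *
            Real.exp (-(((m : ℝ) / y.factorial / T) * (2 ^ j * Y) / 2))) =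
            ‖dd k y (tl χ0 lam) (tl χ0 b) m‖ ^ 2 * ∑ j ∈ Finset.range J, (2 ^ j * Y) ^ k *
            Real.exp (-(w * (2 ^ j * Y) / 2)) := by
              rw [Finset.mul_sum, hw]
              exact Finset.sum_congr rfl fun j _ => by ring
          _ ≤ ‖dd k y (tl χ0 lam) (tl χ0 b) m‖ ^ 2 * (Ck * (((q : ℝ) ^ k)⁻¹ *
              (((m : ℝ) / y.factorial / (q * T))⁻¹ ^ k *
              Real.exp (-(((m : ℝ) / y.factorial / (q * T)) / 4))))) := by
              apply mul_le_mul_of_nonneg_left _ (by positivity)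
              exact h2.trans (mul_le_mul_of_nonneg_left h3 hCk.le)
          _ = _ := by ring
    · exact summable_sum fun j _ => (hsw j).mul_left _
  set I0 : ℝ := C1 * C2 * (15 / 4) * (2 : ℝ) ^ ((k : ℝ) - 1) * Ck * T ^ k *
    DS y (tl χ0 lam) (tl χ0 b) (q * T) with hI0
  have hbound : ∀ J : ℕ, ∫ x in Y..(2 ^ J * Y), G x ≤ I0 := by
    intro J
    have e1 : ∫ x in Y..(2 ^ J * Y), G x =
        ∑ j ∈ Finset.range J, ∫ x in (2 ^ j * Y)..(2 ^ (j + 1) * Y), G x := by
      have := intervalIntegral.sum_integral_adjacent_intervals (μ := volume) (f := G)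
        (a := fun j : ℕ => (2 : ℝ) ^ j * Y) (n := J) (fun j _ => hint j)
      simp only [pow_zero, one_mul] at this
      exact this.symm
    rw [e1]
    refine (Finset.sum_le_sum fun j _ => hblock j).trans ?_
    rw [← Finset.mul_sum]
    calc C1 * C2 * (15 / 4) * (2 : ℝ) ^ ((k : ℝ) - 1) * _ ≤
        C1 * C2 * (15 / 4) * (2 : ℝ) ^ ((k : ℝ) - 1) * (Ck * (T ^ k * DS y (tl χ0 lam) (tl χ0 b) (q * T))) := by
          gcongr
          exact htotal J
      _ = I0 := by rw [hI0]; ring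
  have htend : Tendsto (fun J : ℕ => (2 : ℝ) ^ J * Y) atTop atTop :=
    (tendsto_pow_atTop_atTop_of_one_lt (by norm_num)).atTop_mul_const hYp
  have hGnn : ∀ x ∈ Ioi Y, 0 ≤ G x := by
    intro x hx
    have : (0 : ℝ) < x := lt_trans hYp hx
    simp only [hG]
    exact mul_nonneg (SD_nonneg _ _) (by positivity)
  have hIO : IntegrableOn G (Ioi Y) := by
    refine integrableOn_Ioi_of_intervalIntegral_norm_bounded (l := atTop) I0 Y
      (b := fun J : ℕ => (2 : ℝ) ^ J * Y) (fun J => ?_) htend (Eventually.of_forall fun J => ?_)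
    · have h1 : IntervalIntegrable G volume Y (2 ^ J * Y) :=
        (hGc.mono (hsub _ _ hYp (hXY J))).intervalIntegrable
      exact (intervalIntegrable_iff_integrableOn_Ioc_of_le (hXY J)).1 h1
    · refine le_trans (le_of_eq ?_) (hbound J)
      refine intervalIntegral.integral_congr fun x hx => ?_
      rw [uIcc_of_le (hXY J)] at hx
      have hx0 : (0 : ℝ) < x := lt_of_lt_of_le hYp hx.1
      have : 0 ≤ G x := by
        simp only [hG]
        exact mul_nonneg (SD_nonneg _ _) (by positivity)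
      exact Real.norm_of_nonneg this
  refine ⟨hIO, ?_⟩
  exact le_of_tendsto' (intervalIntegral_tendsto_integral_Ioi Y hIO htend) hbound

end Pool.Agent.K9h29.ZD
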