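import Pool.Agent.Y671.GL.RYA
import Pool.Agent.K9h29.ZD.QRyd2

set_option autoImplicit false

/-!
# The ray integral for all primitive characters modulo `q`: assembly with the Fricke involutions
-/

namespace Pool.Agent.K9h29.ZD

open Complex Filter Topology MeasureTheory Set
open scoped ComplexConjugate
open Pool.Agent.Y671.GL Pool.Agent.Y671.GL.RA
open Pool.Agent.H24R2.DZ (ray)

theorem key_ineq {κ q x' σ : ℝ} {k : ℕ} (hκ : 0 < κ) (hq : 1 ≤ q) (hx : 1 / q ≤ x') (hk : 1 ≤ k)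
    (hσ1 : 1 / 2 ≤ σ) (hσ2 : σ ≤ 3 / 2) :
    (κ / q ^ 2) / x' ^ 2 * ((q ^ 2 * x' ^ 2 / κ) ^ k * ((κ / q ^ 2) / x') ^ (2 * σ + k - 2)) ≤
      (1 + κ) ^ (k + 2) * κ⁻¹ ^ k * (q ^ (1 - 2 * σ) * x' ^ ((k : ℝ) - 1)) := by
  have hq0 : 0 < q := by linarith
  have hx0 : 0 < x' := lt_of_lt_of_le (by positivity) hx
  have hk' : (1 : ℝ) ≤ k := by exact_mod_cast hk
  obtain ⟨p, hp⟩ : ∃ p : ℝ, p = 2 * σ + k - 2 := ⟨_, rfl⟩
  rw [← hp]
  have e1 : ((κ / q ^ 2) / x') ^ p = κ ^ p * q ^ (-(2 * p)) * x' ^ (-p) := by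
    rw [Real.div_rpow (by positivity) hx0.le, Real.div_rpow hκ.le (by positivity), ← Real.rpow_natCast q 2,
      ← Real.rpow_mul hq0.le, div_eq_mul_inv, div_eq_mul_inv, ← Real.rpow_neg hq0.le, ← Real.rpow_neg hx0.le]
    push_cast
    ring
  have e2 : (q ^ 2 * x' ^ 2 / κ) ^ k = κ⁻¹ ^ k * q ^ (2 * (k : ℝ)) * x' ^ (2 * (k : ℝ)) := by
    have a1 : q ^ (2 * (k : ℝ)) = (q ^ 2) ^ k := by
      rw [← pow_mul, ← Real.rpow_natCast q (2 * k)]
      push_cast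
      rfl
    have a2 : x' ^ (2 * (k : ℝ)) = (x' ^ 2) ^ k := by
      rw [← pow_mul, ← Real.rpow_natCast x' (2 * k)]
      push_cast
      rfl
    rw [a1, a2, div_eq_mul_inv, mul_pow, mul_pow]
    ring
  have e3 : (κ / q ^ 2) / x' ^ 2 = κ ^ (1 : ℝ) * q ^ (-2 : ℝ) * x' ^ (-2 : ℝ) := by
    rw [Real.rpow_one, Real.rpow_neg hq0.le, Real.rpow_neg hx0.le]
    have b1 : q ^ (2 : ℝ) = q ^ 2 := by exact_mod_cast Real.rpow_natCast q 2
    have b2 : x' ^ (2 : ℝ) = x' ^ 2 := by exact_mod_cast Real.rpow_natCast x' 2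
    rw [b1, b2]
    field_simp
  have e4 : (κ / q ^ 2) / x' ^ 2 * ((q ^ 2 * x' ^ 2 / κ) ^ k * ((κ / q ^ 2) / x') ^ p) =
      (κ ^ (1 : ℝ) * κ ^ p) * κ⁻¹ ^ k * (q ^ (-2 : ℝ) * q ^ (2 * (k : ℝ)) * q ^ (-(2 * p))) *
        (x' ^ (-2 : ℝ) * x' ^ (2 * (k : ℝ)) * x' ^ (-p)) := by
    rw [e1, e2, e3]; ring
  rw [e4, ← Real.rpow_add hκ, ← Real.rpow_add hq0, ← Real.rpow_add hq0, ← Real.rpow_add hx0,
    ← Real.rpow_add hx0]
  have e5 : x' ^ (-2 + 2 * (k : ℝ) + -p) = x' ^ (1 - 2 * σ) * x' ^ ((k : ℝ) - 1) := by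
    rw [← Real.rpow_add hx0]; congr 1; rw [hp]; ring
  have e6 : x' ^ (1 - 2 * σ) ≤ q ^ (2 * σ - 1) := by
    calc x' ^ (1 - 2 * σ) ≤ (1 / q) ^ (1 - 2 * σ) :=
          Real.rpow_le_rpow_of_nonpos (by positivity) hx (by linarith)
      _ = q ^ (2 * σ - 1) := by
          rw [one_div, Real.inv_rpow hq0.le, ← Real.rpow_neg hq0.le]; congr 1; ring
  have e7 : q ^ (-2 + 2 * (k : ℝ) + -(2 * p)) * q ^ (2 * σ - 1) = q ^ (1 - 2 * σ) := by
    rw [← Real.rpow_add hq0]; congr 1; rw [hp]; ring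
  have e8 : κ ^ (1 + p) ≤ (1 + κ) ^ (k + 2) := by
    calc κ ^ (1 + p) ≤ (1 + κ) ^ (1 + p) := Real.rpow_le_rpow hκ.le (by linarith) (by rw [hp]; linarith)
      _ ≤ (1 + κ) ^ (((k + 2 : ℕ) : ℝ)) := by
          apply Real.rpow_le_rpow_of_exponent_le (by linarith)
          push_cast
          rw [hp]
          linarith
      _ = _ := Real.rpow_natCast _ _
  rw [e5]
  calc κ ^ (1 + p) * κ⁻¹ ^ k * q ^ (-2 + 2 * (k : ℝ) + -(2 * p)) * (x' ^ (1 - 2 * σ) * x' ^ ((k : ℝ) - 1))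
      ≤ (1 + κ) ^ (k + 2) * κ⁻¹ ^ k * q ^ (-2 + 2 * (k : ℝ) + -(2 * p)) *
        (q ^ (2 * σ - 1) * x' ^ ((k : ℝ) - 1)) := by gcongr
    _ = (1 + κ) ^ (k + 2) * κ⁻¹ ^ k * ((q ^ (-2 + 2 * (k : ℝ) + -(2 * p)) * q ^ (2 * σ - 1)) *
        x' ^ ((k : ℝ) - 1)) := by ring
    _ = _ := by rw [e7]

section

variable {q : ℕ} [NeZero q]

theorem card_le (S : Finset (DirichletCharacter ℂ q)) : (S.card : ℝ) ≤ q.totient := by
  have h1 : S.card ≤ Fintype.card (DirichletCharacter ℂ q) := Finset.card_le_univ S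
  have h2 : Fintype.card (DirichletCharacter ℂ q) = q.totient := by
    rw [← Nat.card_eq_fintype_card]
    exact DirichletCharacter.card_eq_totient_of_hasEnoughRootsOfUnity ℂ q
  rw [h2] at h1
  exact_mod_cast h1

/-- the small range -/
theorem smallq {k N : ℕ} {ps lam : ℕ → ℂ} (hF : TwF k N ps lam) (h2 : S_RTA) (h3 : S_FJ2) :
    ∃ D : ℝ, 0 < D ∧ ∀ (q : ℕ) [NeZero q], q.Coprime N → ∀ (S : Finset (DirichletCharacter ℂ q)),
    (∀ χ ∈ S, χ.IsPrimitive) → ∀ χ0 : DirichletCharacter ℂ q, χ0.IsPrimitive → ∀ (T σ x0 : ℝ) (y : ℕ) (b : ℕ → ℂ),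
    10 ≤ T → 1 ≤ y → 1 / 2 ≤ σ → σ ≤ 3 / 2 → 0 < x0 → x0 * (N * (y : ℝ) ^ 2) ≤ 1 →
    IntegrableOn (fun x : ℝ => (∑ χ ∈ S, ‖DP k y (tl χ lam) (tl χ b) (ray (1 / T) x)‖ ^ 2) *
      x ^ (2 * σ + k - 2)) (Ioo 0 (x0 / q)) ∧
    ∫ x in Ioo 0 (x0 / q), (∑ χ ∈ S, ‖DP k y (tl χ lam) (tl χ b) (ray (1 / T) x)‖ ^ 2) *
      x ^ (2 * σ + k - 2) ≤
      D * (q.totient : ℝ) * ((q : ℝ) ^ (1 - 2 * σ) * (T ^ k * DS y (tl χ0 lam) (tl χ0 b) (q * T))) := by
  have hk := hF.frm.k_pos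
  obtain ⟨C2, hC2, H2⟩ := rydq h2 h3 k hk
  have hN := hF.frm.N_pos
  have hN0 : (1 : ℝ) ≤ N := by exact_mod_cast hN
  have hk0 : (1 : ℝ) ≤ k := by exact_mod_cast hk
  have hpi := Real.pi_gt_three
  have hpi0 : 0 < Real.pi := by linarith
  obtain ⟨κ, hκ⟩ : ∃ κ : ℝ, κ = 4 * Real.pi ^ 2 / N := ⟨_, rfl⟩
  have hκ0 : 0 < κ := by rw [hκ]; positivity
  obtain ⟨D, hD⟩ : ∃ D : ℝ, D = (1 + κ) ^ (k + 2) * κ⁻¹ ^ k := ⟨_, rfl⟩
  have hD0 : 0 < D := by rw [hD]; positivity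
  refine ⟨D * C2, by positivity, ?_⟩
  intro q _ hco S hS χ0 hχ0 T σ x0 y b hT hy hσ1 hσ2 hx0p hx0N
  have hq1 : (1 : ℝ) ≤ q := by exact_mod_cast Nat.pos_of_ne_zero (NeZero.ne q)
  have hq0 : (0 : ℝ) < q := by linarith
  have hT0 : 0 < T := by linarith
  have hy1 : (1 : ℝ) ≤ y := by exact_mod_cast hy
  have hδ : 0 < Real.sin (1 / T) := by
    apply Real.sin_pos_of_pos_of_lt_pi (by positivity)
    have : 1 / T ≤ 1 := by rw [div_le_one hT0]; linarith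
    linarith
  have F0 := hF.tw q χ0 hχ0 hco
  obtain ⟨u, hu⟩ := DDat.ex F0 y b
  obtain ⟨hi2, hb2⟩ := H2 hu T hT hy
  set p : ℝ := 2 * σ + k - 2 with hp
  have hp0 : 0 ≤ p := by rw [hp]; linarith
  obtain ⟨z0, hz0⟩ : ∃ z0 : ℝ, z0 = x0 / q := ⟨_, rfl⟩
  have hz0p : 0 < z0 := by rw [hz0]; positivity
  rw [← hz0]
  obtain ⟨κq, hκq⟩ : ∃ κq : ℝ, κq = κ / q ^ 2 := ⟨_, rfl⟩
  have hκq0 : 0 < κq := by rw [hκq]; positivity
  have hκqN : κq = 4 * Real.pi ^ 2 / ((N * q ^ 2 : ℕ) : ℝ) := by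
    rw [hκq, hκ]; push_cast; field_simp
  set S' : Set ℝ := Ioi (κq / z0) with hS'
  set f : ℝ → ℝ := fun x' => κq / x' with hfd
  have hSpos : ∀ x' ∈ S', 0 < x' := fun x' hx' => (div_pos hκq0 hz0p).trans hx'
  have hSy : ∀ x' ∈ S', (y : ℝ) ^ 2 / q < x' := by
    intro x' hx'
    refine lt_of_le_of_lt ?_ hx'
    have e1 : κq / z0 = 4 * Real.pi ^ 2 / (N * x0) / q := by
      rw [hκq, hκ, hz0]
      field_simp
    rw [e1]
    apply div_le_div_of_nonneg_right _ hq0.le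
    rw [le_div_iff₀ (by positivity)]
    have h4 : (1 : ℝ) ≤ 4 * Real.pi ^ 2 := by nlinarith
    calc (y : ℝ) ^ 2 * (N * x0) = x0 * (N * (y : ℝ) ^ 2) := by ring
      _ ≤ 4 * Real.pi ^ 2 := by linarith
  have hder : ∀ x' ∈ S', HasDerivWithinAt f (-κq / x' ^ 2) S' x' := by
    intro x' hx'
    have h3 := (hSpos x' hx').ne'
    have := ((hasDerivAt_inv h3).const_mul κq).hasDerivWithinAt (s := S')
    refine HasDerivWithinAt.congr_deriv (this.congr_of_eventuallyEq ?_ ?_) ?_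
    · exact Filter.Eventually.of_forall fun z => by simp [hfd, div_eq_mul_inv]
    · simp [hfd, div_eq_mul_inv]
    · ring
  have hinj : InjOn f S' := by
    intro a ha a' ha' haa
    simp only [hfd] at haa
    have h3 := hSpos a ha
    have h4 := hSpos a' ha'
    rw [div_eq_div_iff h3.ne' h4.ne'] at haa
    exact (mul_left_cancel₀ hκq0.ne' haa).symm
  have himg : f '' S' = Ioo 0 z0 := by
    ext x
    constructor
    · rintro ⟨x', hx', rfl⟩
      have h3 := hSpos x' hx'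
      refine ⟨div_pos hκq0 h3, ?_⟩
      have h4 : κq / z0 < x' := hx'
      rw [div_lt_iff₀ hz0p] at h4
      simp only [hfd]
      rw [div_lt_iff₀ h3]
      linarith
    · rintro ⟨h3, h4⟩
      refine ⟨κq / x, ?_, ?_⟩
      · show κq / z0 < κq / x
        exact div_lt_div_of_pos_left hκq0 h3 h4
      · simp only [hfd]
        field_simp
  set Q : ℝ → ℝ := fun x => (∑ χ ∈ S, ‖DP k y (tl χ lam) (tl χ b) (ray (1 / T) x)‖ ^ 2) * x ^ p with hQ
  set g : ℝ → ℝ := fun x' => SD k y lam b u (1 / T) x' * x' ^ ((k : ℝ) - 1) with hg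
  have hg0 : ∀ x', 0 < x' → 0 ≤ g x' := fun x' h => by
    simp only [hg]
    exact mul_nonneg (SD_nonneg _ _) (by positivity)
  obtain ⟨E, hE⟩ : ∃ E : ℝ, E = D * (q.totient : ℝ) * (q : ℝ) ^ (1 - 2 * σ) := ⟨_, rfl⟩
  have hE0 : 0 ≤ E := by rw [hE]; positivity
  have hqf : ∀ x' ∈ S', 0 ≤ |(-κq / x' ^ 2)| • Q (f x') ∧ |(-κq / x' ^ 2)| • Q (f x') ≤ E * g x' := by
    intro x' hx'
    have h3 := hSpos x' hx'
    have h31 : 1 / (q : ℝ) ≤ x' := by
      refine le_trans ?_ (hSy x' hx').le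
      have : (1 : ℝ) ≤ (y : ℝ) ^ 2 := one_le_pow₀ hy1
      gcongr
    have h4 : 0 < f x' := by simp only [hfd]; positivity
    have hfr : ∀ χ ∈ S, ‖DP k y (tl χ lam) (tl χ b) (ray (1 / T) (f x'))‖ ^ 2 =
        (q ^ 2 * x' ^ 2 / κ) ^ k * ‖DB k y (tl χ lam) (tl χ b) (ray (1 / T) x')‖ ^ 2 := by
      intro χ hχ
      have h5 := fricke_DP (hF.tw q χ (hS χ hχ) hco) y (tl χ b) (δ := 1 / T) hδ h4 (x' := x') (by
        simp only [hfd]; rw [hκqN]; field_simp)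
      rw [h5, mul_pow, ← pow_mul, mul_comm k 2, pow_mul, div_pow, mul_pow, Real.sq_sqrt (by positivity)]
      congr 2
      rw [hκ]
      push_cast
      field_simp
      ring
    simp only [hQ, smul_eq_mul]
    rw [Finset.sum_congr rfl hfr, ← Finset.mul_sum]
    have e1 : |(-κq / x' ^ 2)| = κq / x' ^ 2 := by
      rw [abs_div, abs_neg, abs_of_pos hκq0, abs_of_pos (by positivity)]
    rw [e1]
    have hsum0 : 0 ≤ ∑ χ ∈ S, ‖DB k y (tl χ lam) (tl χ b) (ray (1 / T) x')‖ ^ 2 :=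
      Finset.sum_nonneg fun _ _ => by positivity
    refine ⟨by positivity, ?_⟩
    have hre : 0 < (ray (1 / T) x').re := by rw [ray_re]; positivity
    have hsumle := hu.sum_le S (fun χ hχ => ⟨_, _, hF.tw q χ (hS χ hχ) hco⟩) hre
    have hkey := key_ineq hκ0 hq1 h31 hk hσ1 hσ2
    rw [← hp] at hkey
    have hf' : f x' = κ / q ^ 2 / x' := by simp only [hfd]; rw [hκq]
    rw [hf', hκq]
    have hSD0 : 0 ≤ SD k y lam b u (1 / T) x' := SD_nonneg _ _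
    calc κ / (q : ℝ) ^ 2 / x' ^ 2 * (((q : ℝ) ^ 2 * x' ^ 2 / κ) ^ k *
          (∑ χ ∈ S, ‖DB k y (tl χ lam) (tl χ b) (ray (1 / T) x')‖ ^ 2) * (κ / (q : ℝ) ^ 2 / x') ^ p)
        = (κ / (q : ℝ) ^ 2 / x' ^ 2 * (((q : ℝ) ^ 2 * x' ^ 2 / κ) ^ k * (κ / (q : ℝ) ^ 2 / x') ^ p)) *
          (∑ χ ∈ S, ‖DB k y (tl χ lam) (tl χ b) (ray (1 / T) x')‖ ^ 2) := by ring
      _ ≤ ((1 + κ) ^ (k + 2) * κ⁻¹ ^ k * ((q : ℝ) ^ (1 - 2 * σ) * x' ^ ((k : ℝ) - 1))) *
          ((q.totient : ℝ) * SD k y lam b u (1 / T) x') := by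
          apply mul_le_mul hkey hsumle hsum0 (by positivity)
      _ = E * g x' := by rw [hE, hD, hg]; ring
  have hgi : IntegrableOn g S' := by
    refine hi2.mono_set ?_
    intro x' hx'
    exact hSy x' hx'
  have hQcont : ContinuousOn Q (Ioi 0) := by
    refine ContinuousOn.mul (continuousOn_finsetSum _ fun χ hχ =>
      ((DP_cont (hF.tw q χ (hS χ hχ) hco) y (tl χ b) hδ).norm).pow 2) ?_
    intro x hx
    exact (Real.continuousAt_rpow_const x p (Or.inl (ne_of_gt hx))).continuousWithinAt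
  have hmeas : MeasurableSet S' := measurableSet_Ioi
  have hqi' : IntegrableOn (fun x' => |(-κq / x' ^ 2)| • Q (f x')) S' := by
    refine Integrable.mono' (hgi.const_mul E) ?_ ?_
    · have hcont : ContinuousOn (fun x' => |(-κq / x' ^ 2)| • Q (f x')) S' := by
        have h3 : ContinuousOn f S' := fun x' hx' => (hder x' hx').continuousWithinAt
        have h4 : ContinuousOn (fun x' => Q (f x')) S' := by
          refine hQcont.comp h3 ?_
          intro x' hx'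
          have := hSpos x' hx'
          show 0 < κq / x'
          positivity
        have h5 : ContinuousOn (fun x' : ℝ => |(-κq / x' ^ 2)|) S' := by
          refine ContinuousOn.abs (ContinuousOn.div continuousOn_const (by fun_prop) ?_)
          intro x' hx'
          have := hSpos x' hx'
          positivity
        exact h5.smul h4
      exact hcont.aestronglyMeasurable hmeas
    · rw [ae_restrict_iff' hmeas]
      refine Filter.Eventually.of_forall fun x' hx' => ?_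
      obtain ⟨h3, h4⟩ := hqf x' hx'
      rw [Real.norm_of_nonneg h3]
      exact h4
  refine ⟨?_, ?_⟩
  · rw [← himg]
    exact (integrableOn_image_iff_integrableOn_abs_deriv_smul hmeas hder hinj Q).2 hqi'
  · rw [← himg, integral_image_eq_integral_abs_deriv_smul hmeas hder hinj Q]
    calc ∫ x' in S', |(-κq / x' ^ 2)| • Q (f x') ≤ ∫ x' in S', E * g x' :=
          setIntegral_mono_on hqi' (hgi.const_mul E) hmeas fun x' hx' => (hqf x' hx').2
      _ = E * ∫ x' in S', g x' := by rw [integral_const_mul]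
      _ ≤ E * ∫ x' in Ioi ((y : ℝ) ^ 2 / q), g x' := by
          refine mul_le_mul_of_nonneg_left ?_ hE0
          refine setIntegral_mono_set hi2 ?_ (HasSubset.Subset.eventuallyLE fun x' hx' => hSy x' hx')
          rw [Filter.EventuallyLE, ae_restrict_iff' measurableSet_Ioi]
          refine Filter.Eventually.of_forall fun x' hx' => ?_
          exact hg0 x' ((by positivity : (0 : ℝ) ≤ (y : ℝ) ^ 2 / q).trans_lt hx')
      _ ≤ E * (C2 * T ^ k * DS y (tl χ0 lam) (tl χ0 b) (q * T)) := mul_le_mul_of_nonneg_left hb2 hE0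
      _ = _ := by rw [hE]; ring

end

end Pool.Agent.K9h29.ZD
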