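import Pool.Agent.Y287.GL.RYD
import Pool.Agent.K9h29.ZD.QChar

set_option autoImplicit false

/-!
# The dual range for all primitive characters modulo `q` (K9h29, from `Y287.GL.RYD`)
-/

namespace Pool.Agent.K9h29.ZD

open Complex Filter Topology MeasureTheory Set
open scoped ComplexConjugate
open Pool.Agent.Y671.GL Pool.Agent.Y287.GL
open Pool.Agent.H24R2.DZ (ray)

variable {k N : ℕ} {ps lam : ℕ → ℂ}

section

variable {q : ℕ} [NeZero q]

theorem aa_tl (χ : DirichletCharacter ℂ q) (k : ℕ) (lam : ℕ → ℂ) (n : ℕ) :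
    aa k (tl χ lam) n = χ (n : ZMod q) * aa k lam n := by
  unfold aa tl
  ring

theorem conj_mul_char (χ : DirichletCharacter ℂ q) {a : ZMod q} (ha : IsUnit a) : conj (χ a) * χ a = 1 := by
  obtain ⟨u, rfl⟩ := ha
  have h1 : ‖χ (u : ZMod q)‖ = 1 := DirichletCharacter.unit_norm_eq_one χ u
  rw [mul_comm, Complex.mul_conj', h1]
  norm_num

/-- the dual coefficients of the twists -/
theorem dd_tl1 (k y : ℕ) (lam b : ℕ → ℂ) (m : ℕ) : ∃ u : ZMod q, IsUnit u ∧
    (∀ χ : DirichletCharacter ℂ q, dd k y (tl χ lam) (tl χ b) m =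
      χ u * dd k y (tl (1 : DirichletCharacter ℂ q) lam) (tl (1 : DirichletCharacter ℂ q) b) m) ∧
    (dd k y (tl (1 : DirichletCharacter ℂ q) lam) (tl (1 : DirichletCharacter ℂ q) b) m ≠ 0 →
      ∃ h c : ℕ, 1 ≤ h ∧ h ≤ y ∧ h * m = c * y.factorial ∧ (c : ZMod q) = u * h ∧ IsUnit (h : ZMod q)) := by
  classical
  have hQ : 0 < y.factorial := Nat.factorial_pos y
  have hdiv : ∀ h : ℕ, 1 ≤ h → h ≤ y → y.factorial / h ∣ m → h * m = (m / (y.factorial / h)) * y.factorial := by
    intro h h1 h2 hd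
    obtain ⟨r, hr⟩ := Nat.dvd_factorial (by omega : 0 < h) h2
    have hr0 : 0 < r := by
      rcases Nat.eq_zero_or_pos r with h0 | h0
      · rw [h0, mul_zero] at hr
        omega
      · exact h0
    have hdv : y.factorial / h = r := by rw [hr]; exact Nat.mul_div_cancel_left r (by omega)
    rw [hdv] at hd ⊢
    obtain ⟨c, rfl⟩ := hd
    rw [Nat.mul_div_cancel_left c hr0, hr]
    ring
  by_cases hP : ∃ h : ℕ, 1 ≤ h ∧ h ≤ y ∧ y.factorial / h ∣ m ∧ IsUnit (h : ZMod q) ∧
      IsUnit ((m / (y.factorial / h) : ℕ) : ZMod q)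
  · obtain ⟨h0, h01, h02, h0d, h0u, n0u⟩ := hP
    set n0 : ℕ := m / (y.factorial / h0) with hn0
    have e0 := hdiv h0 h01 h02 h0d
    rw [← hn0] at e0
    obtain ⟨uh, huh⟩ := h0u
    refine ⟨(n0 : ZMod q) * ((uh⁻¹ : (ZMod q)ˣ) : ZMod q), n0u.mul (Units.isUnit _), ?_, ?_⟩
    · intro χ
      unfold dd
      rw [Finset.mul_sum]
      refine Finset.sum_congr rfl fun h hh => ?_
      obtain ⟨h1, h2⟩ := Finset.mem_Icc.1 hh
      by_cases hd : y.factorial / h ∣ m
      · rw [if_pos hd, if_pos hd, aa_tl, aa_tl]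
        set n : ℕ := m / (y.factorial / h) with hn
        have e1 := hdiv h h1 h2 hd
        rw [← hn] at e1
        have key : conj (χ (h : ZMod q)) * χ (n : ZMod q) =
            χ ((n0 : ZMod q) * ((uh⁻¹ : (ZMod q)ˣ) : ZMod q)) *
              (conj ((1 : DirichletCharacter ℂ q) (h : ZMod q)) * (1 : DirichletCharacter ℂ q) (n : ZMod q)) := by
          by_cases hu : IsUnit (h : ZMod q) ∧ IsUnit (n : ZMod q)
          · obtain ⟨hu1, hu2⟩ := hu
            have e2 : n * h0 = n0 * h := by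
              have : (n * h0) * y.factorial = (n0 * h) * y.factorial := by
                calc (n * h0) * y.factorial = h0 * (n * y.factorial) := by ring
                  _ = h0 * (h * m) := by rw [e1]
                  _ = h * (h0 * m) := by ring
                  _ = h * (n0 * y.factorial) := by rw [e0]
                  _ = _ := by ring
              exact Nat.eq_of_mul_eq_mul_right hQ this
            have e3 : (n : ZMod q) * (h0 : ZMod q) = (n0 : ZMod q) * (h : ZMod q) := by
              exact_mod_cast congrArg (fun t : ℕ => (t : ZMod q)) e2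
            have e4 : (n : ZMod q) = ((n0 : ZMod q) * ((uh⁻¹ : (ZMod q)ˣ) : ZMod q)) * (h : ZMod q) := by
              calc (n : ZMod q) = (n : ZMod q) * ((uh : ZMod q) * ((uh⁻¹ : (ZMod q)ˣ) : ZMod q)) := by
                    rw [Units.mul_inv, mul_one]
                _ = ((n : ZMod q) * (h0 : ZMod q)) * ((uh⁻¹ : (ZMod q)ˣ) : ZMod q) := by rw [huh]; ring
                _ = _ := by rw [e3]; ring
            have e5 := conj_mul_char χ hu1
            rw [MulChar.one_apply hu1, MulChar.one_apply hu2]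
            rw [e4, map_mul χ _ (h : ZMod q)]
            simp only [map_one, mul_one]
            calc conj (χ (h : ZMod q)) * (χ ((n0 : ZMod q) * ((uh⁻¹ : (ZMod q)ˣ) : ZMod q)) * χ (h : ZMod q)) =
                  χ ((n0 : ZMod q) * ((uh⁻¹ : (ZMod q)ˣ) : ZMod q)) * (conj (χ (h : ZMod q)) * χ (h : ZMod q)) := by
                    ring
              _ = _ := by rw [e5, mul_one]
          · rw [not_and_or] at hu
            rcases hu with hu | hu
            · rw [MulChar.map_nonunit χ hu, MulChar.map_nonunit _ hu]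
              simp
            · rw [MulChar.map_nonunit χ hu, MulChar.map_nonunit _ hu]
              simp
        unfold tl
        rw [map_mul (starRingEnd ℂ) (χ (h : ZMod q)) (b h),
          map_mul (starRingEnd ℂ) ((1 : DirichletCharacter ℂ q) (h : ZMod q)) (b h)]
        linear_combination (conj (b h) * (((h : ℝ) ^ (-(((k : ℝ) + 1) / 2)) : ℝ) : ℂ) * aa k lam n) * key
      · rw [if_neg hd, if_neg hd]
        ring
    · intro _
      refine ⟨h0, n0, h01, h02, e0, ?_, ⟨uh, huh⟩⟩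
      rw [← huh, mul_assoc, Units.inv_mul, mul_one]
  · have hz : ∀ χ : DirichletCharacter ℂ q, dd k y (tl χ lam) (tl χ b) m = 0 := by
      intro χ
      unfold dd
      refine Finset.sum_eq_zero fun h hh => ?_
      obtain ⟨h1, h2⟩ := Finset.mem_Icc.1 hh
      by_cases hd : y.factorial / h ∣ m
      · rw [if_pos hd, aa_tl]
        by_cases hu : IsUnit (h : ZMod q)
        · have hu2 : ¬ IsUnit ((m / (y.factorial / h) : ℕ) : ZMod q) := fun hc => hP ⟨h, h1, h2, hd, hu, hc⟩
          rw [MulChar.map_nonunit χ hu2]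
          ring
        · unfold tl
          rw [MulChar.map_nonunit χ hu]
          simp
      · rw [if_neg hd, mul_zero]
    refine ⟨1, isUnit_one, fun χ => by rw [hz, hz, mul_zero], fun h => absurd (hz 1) h⟩

end

/-- the coefficients of one class -/
noncomputable def dc {q : ℕ} (k y : ℕ) (lam b : ℕ → ℂ) (u : ℕ → ZMod q) (c : ZMod q) (m : ℕ) : ℂ :=
  if u m = c then dd k y (tl (1 : DirichletCharacter ℂ q) lam) (tl (1 : DirichletCharacter ℂ q) b) m else 0

theorem spacingq {q : ℕ} [NeZero q] (y : ℕ) (hy : 1 ≤ y) (b : ℕ → ℂ) (u : ℕ → ZMod q)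
    (hu : ∀ m : ℕ, dd k y (tl (1 : DirichletCharacter ℂ q) lam) (tl (1 : DirichletCharacter ℂ q) b) m ≠ 0 →
      ∃ h c : ℕ, 1 ≤ h ∧ h ≤ y ∧ h * m = c * y.factorial ∧ (c : ZMod q) = u m * h ∧ IsUnit (h : ZMod q))
    (c : ZMod q) (m n : ℕ)
    (hm : dc k y lam b u c m ≠ 0) (hn : dc k y lam b u c n ≠ 0) (hmn : m ≠ n) :
    (y.factorial : ℝ) / ((y : ℝ) ^ 2 / q) ≤ |(m : ℝ) - n| := by
  unfold dc at hm hn
  have hum : u m = c := by
    by_contra h
    rw [if_neg h] at hm
    exact hm rfl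
  have hun : u n = c := by
    by_contra h
    rw [if_neg h] at hn
    exact hn rfl
  rw [if_pos hum] at hm
  rw [if_pos hun] at hn
  obtain ⟨h, d, h1, h2, h3, h4, -⟩ := hu m hm
  obtain ⟨h', d', h1', h2', h3', h4', -⟩ := hu n hn
  rw [hum] at h4
  rw [hun] at h4'
  have hQ' : (0 : ℝ) < y.factorial := by exact_mod_cast Nat.factorial_pos y
  have hq0 : (0 : ℝ) < q := by exact_mod_cast Nat.pos_of_ne_zero (NeZero.ne q)
  have e3 : (h : ℝ) * m = d * y.factorial := by exact_mod_cast h3
  have e3' : (h' : ℝ) * n = d' * y.factorial := by exact_mod_cast h3'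
  have e : (h : ℝ) * h' * (m - n) = y.factorial * ((d : ℝ) * h' - d' * h) := by
    linear_combination (h' : ℝ) * e3 - (h : ℝ) * e3'
  have hint : ((d : ℤ) * h' - d' * h) ≠ 0 := by
    intro h0
    have h0' : ((d : ℝ) * h' - d' * h) = 0 := by exact_mod_cast h0
    rw [h0', mul_zero] at e
    have hh : (h : ℝ) * h' ≠ 0 := by
      have : (0 : ℝ) < h := by exact_mod_cast h1
      have : (0 : ℝ) < h' := by exact_mod_cast h1'
      positivity
    have : (m : ℝ) - n = 0 := (mul_eq_zero.1 e).resolve_left hh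
    exact hmn (by exact_mod_cast sub_eq_zero.1 this)
  have hdvd : (q : ℤ) ∣ ((d : ℤ) * h' - d' * h) := by
    rw [← ZMod.intCast_zmod_eq_zero_iff_dvd]
    push_cast
    rw [h4, h4']
    ring
  have habs : (q : ℝ) ≤ |(d : ℝ) * h' - d' * h| := by
    have := Int.le_of_dvd (abs_pos.2 hint) ((dvd_abs _ _).2 hdvd)
    exact_mod_cast this
  have hpos : (0 : ℝ) < h := by exact_mod_cast h1
  have hpos' : (0 : ℝ) < h' := by exact_mod_cast h1'
  have hy0 : (0 : ℝ) < y := by exact_mod_cast hy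
  have e4 : (h : ℝ) * h' * |(m : ℝ) - n| = y.factorial * |(d : ℝ) * h' - d' * h| := by
    have := congrArg abs e
    rw [abs_mul ((h : ℝ) * h') _, abs_mul (y.factorial : ℝ) _,
      abs_of_pos (by positivity : (0 : ℝ) < (h : ℝ) * h'), abs_of_pos hQ'] at this
    exact this
  have e5 : (y.factorial : ℝ) * q ≤ (h : ℝ) * h' * |(m : ℝ) - n| := by
    rw [e4]
    exact mul_le_mul_of_nonneg_left habs hQ'.le
  have e6 : (h : ℝ) * h' ≤ (y : ℝ) ^ 2 := by
    have a1 : (h : ℝ) ≤ y := by exact_mod_cast h2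
    have a2 : (h' : ℝ) ≤ y := by exact_mod_cast h2'
    nlinarith
  rw [div_div_eq_mul_div, div_le_iff₀ (by positivity)]
  calc (y.factorial : ℝ) * q ≤ (h : ℝ) * h' * |(m : ℝ) - n| := e5
    _ ≤ (y : ℝ) ^ 2 * |(m : ℝ) - n| := by gcongr
    _ = |(m : ℝ) - n| * (y : ℝ) ^ 2 := by ring

end Pool.Agent.K9h29.ZD
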