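import Pool.Agent.K9h29.ZD.QMV
import Pool.Agent.K9h29.ZD.QRt
import Pool.Agent.K9h29.ZD.QFe
import Pool.Agent.K9h29.ZD.QJen
import Pool.Agent.Y24.GL.H7

set_option autoImplicit false

/-!
# Zeros in a window, all primitive characters modulo `q`
-/

namespace Pool.Agent.K9h29.ZD

open Complex Filter Topology MeasureTheory Set
open scoped ComplexConjugate
open Pool.Agent.H24R2.DZ (MM ph)
open Pool.Agent.Y671.GL
open Pool.Agent.Y771.GL (Dat)
open W388 (FE2)

/-- A form with its twists and their L-functions. -/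
structure LD (k N : ℕ) (ps lam : ℕ → ℂ) (L : (q : ℕ) → DirichletCharacter ℂ q → ℂ → ℂ) : Prop where
  tw : TwF k N ps lam
  isL : ∀ (q : ℕ) [NeZero q] (χ : DirichletCharacter ℂ q), χ.IsPrimitive → q.Coprime N → IsL (tl χ lam) (L q χ)
  fe : ∀ (q : ℕ) [NeZero q] (χ : DirichletCharacter ℂ q), χ.IsPrimitive → q.Coprime N → FE2 k N q (L q χ)

variable {k N : ℕ} {ps lam : ℕ → ℂ} {L : (q : ℕ) → DirichletCharacter ℂ q → ℂ → ℂ}

/-- uniform bounds in the half plane of convergence -/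
theorem rgtU (hD : LD k N ps lam L) : ∃ B c : ℝ, 1 ≤ B ∧ 0 < c ∧ ∀ (q : ℕ) [NeZero q] (χ : DirichletCharacter ℂ q),
    χ.IsPrimitive → q.Coprime N → (∀ s : ℂ, 3 / 2 ≤ s.re → ‖L q χ s‖ ≤ B) ∧ (∀ s : ℂ, 2 ≤ s.re → c ≤ ‖L q χ s‖) := by
  obtain ⟨-, -, -, h4⟩ := Pool.Agent.Y771.GL.mf k N ps lam hD.tw.frm
  obtain ⟨h5, -⟩ := h4 (3 / 2) (by norm_num)
  obtain ⟨-, h6⟩ := h4 2 (by norm_num)
  obtain ⟨K1, hK1⟩ : ∃ K1, K1 = ∑' n : ℕ, ‖lam n‖ * (n : ℝ) ^ (-(3 / 2) : ℝ) := ⟨_, rfl⟩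
  obtain ⟨M1, hM1⟩ : ∃ M1, M1 = ∑' n : ℕ, ‖mf ps lam n‖ * (n : ℝ) ^ (-2 : ℝ) := ⟨_, rfl⟩
  have hK0 : 0 ≤ K1 := by rw [hK1]; exact tsum_nonneg fun n => by positivity
  have hM0 : 0 ≤ M1 := by rw [hM1]; exact tsum_nonneg fun n => by positivity
  refine ⟨K1 + 1, 1 / (M1 + 1), by linarith, by positivity, fun q _ χ hχ hco => ?_⟩
  have hf := hD.tw.tw q χ hχ hco
  have hL := hD.isL q χ hχ hco
  have t5 : Summable (fun n : ℕ => ‖tl χ lam n‖ * (n : ℝ) ^ (-(3 / 2) : ℝ)) :=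
    h5.of_nonneg_of_le (fun n => by positivity) fun n =>
      mul_le_mul_of_nonneg_right (norm_tl_le χ lam n) (by positivity)
  have t6 : Summable (fun n : ℕ => ‖mf (tp χ ps) (tl χ lam) n‖ * (n : ℝ) ^ (-2 : ℝ)) :=
    h6.of_nonneg_of_le (fun n => by positivity) fun n => by
      rw [mf_tl]
      exact mul_le_mul_of_nonneg_right (norm_tl_le χ _ n) (by positivity)
  constructor
  · intro s hs
    rw [Pool.Agent.Y24.GL.ser_eq hf hL (by linarith)]
    refine ((Pool.Agent.Y24.GL.sum_of t5 hs).2).trans ?_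
    have : ∑' n : ℕ, ‖tl χ lam n‖ * (n : ℝ) ^ (-(3 / 2) : ℝ) ≤ K1 := by
      rw [hK1]
      exact t5.tsum_le_tsum (fun n => mul_le_mul_of_nonneg_right (norm_tl_le χ lam n) (by positivity)) h5
    linarith
  · intro s hs
    have h7 : LSeries (mf (tp χ ps) (tl χ lam)) s * LSeries (tl χ lam) s = 1 :=
      Pool.Agent.Y24.GL.inv_mul_one hf (s := s) (by linarith)
    have h8 := (Pool.Agent.Y24.GL.sum_of t6 hs).2
    have h10 : ∑' n : ℕ, ‖mf (tp χ ps) (tl χ lam) n‖ * (n : ℝ) ^ (-2 : ℝ) ≤ M1 := by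
      rw [hM1]
      exact t6.tsum_le_tsum (fun n => by
        rw [mf_tl]
        exact mul_le_mul_of_nonneg_right (norm_tl_le χ _ n) (by positivity)) h6
    have h9 : ‖LSeries (mf (tp χ ps) (tl χ lam)) s‖ * ‖L q χ s‖ = 1 := by
      rw [Pool.Agent.Y24.GL.ser_eq hf hL (by linarith), ← norm_mul, h7, norm_one]
    rw [div_le_iff₀ (by linarith)]
    nlinarith [norm_nonneg (L q χ s)]

/-- the total number of zeros in a window -/
theorem tot_win (hD : LD k N ps lam L) : ∃ C : ℝ, 0 < C ∧ ∀ (q : ℕ) [NeZero q] (χ : DirichletCharacter ℂ q),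
    χ.IsPrimitive → q.Coprime N → ∀ (T : ℝ) (S : Finset ℂ), 10 ≤ T →
    (∀ ρ ∈ S, 1 / 2 ≤ ρ.re ∧ ρ.re ≤ 1 ∧ |ρ.im| ≤ 2 * T) →
    ∑ ρ ∈ S, (analyticOrderNatAt (L q χ) ρ : ℝ) ≤ C * T * Real.log (q * T) := by
  obtain ⟨B, c, hB, hc, hrgt⟩ := rgtU hD
  have hk : (1 : ℤ) ≤ (k : ℤ) := by exact_mod_cast hD.tw.frm.k_pos
  have hN : (1 : ℝ) ≤ N := by exact_mod_cast hD.tw.frm.N_pos
  obtain ⟨C, hC, hU⟩ := unit_countU (k := (k : ℤ)) (N := (N : ℝ)) hk hN hB hc
  refine ⟨10 * C, by positivity, fun q _ χ hχ hco T S hT hS => ?_⟩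
  classical
  have hq1 : (1 : ℝ) ≤ q := by exact_mod_cast Nat.pos_of_ne_zero (NeZero.ne q)
  obtain ⟨r1, r2⟩ := hrgt q χ hχ hco
  have hU' := hU q hq1 (L q χ) (hD.fe q χ hχ hco) r1 r2
  have hT0 : 0 < T := by linarith
  have hX : 10 ≤ q * T := by nlinarith
  have hmaps : ∀ ρ ∈ S, ⌊ρ.im⌋ ∈ Finset.Icc (-⌈2 * T⌉) ⌊2 * T⌋ := by
    intro ρ hρ
    obtain ⟨h1, h2⟩ := abs_le.mp (hS ρ hρ).2.2
    rw [Finset.mem_Icc]
    constructor
    · rw [← Int.floor_neg]
      exact Int.floor_le_floor h1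
    · exact Int.floor_le_floor h2
  rw [← Finset.sum_fiberwise_of_maps_to hmaps]
  have hterm : ∀ n ∈ Finset.Icc (-⌈2 * T⌉) ⌊2 * T⌋, ∑ ρ ∈ S with ⌊ρ.im⌋ = n, (analyticOrderNatAt (L q χ) ρ : ℝ) ≤
      C * (2 * Real.log (q * T)) := by
    intro n hn
    rw [Finset.mem_Icc] at hn
    have h1 : (n : ℝ) ≤ 2 * T := (by exact_mod_cast hn.2 : (n : ℝ) ≤ ⌊2 * T⌋).trans (Int.floor_le _)
    have h2 : -(2 * T + 1) ≤ (n : ℝ) := by
      have h3 : (((-⌈2 * T⌉ : ℤ)) : ℝ) ≤ n := by exact_mod_cast hn.1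
      have h4 := (Int.ceil_lt_add_one (2 * T)).le
      push_cast at h3
      linarith
    refine (hU' ((n : ℝ) + 1 / 2) (S.filter fun ρ => ⌊ρ.im⌋ = n) (fun ρ hρ => ?_)).trans ?_
    · rw [Finset.mem_filter] at hρ
      obtain ⟨h6, h7⟩ := hρ
      obtain ⟨g1, g2, g3⟩ := hS ρ h6
      have h8 := Int.lt_floor_add_one ρ.im
      have h9 := Int.floor_le ρ.im
      rw [h7] at h8 h9
      refine ⟨g1, g2, ?_⟩
      rw [abs_le]; constructor <;> linarith
    · apply mul_le_mul_of_nonneg_left _ hC.le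
      have h3 : |(n : ℝ) + 1 / 2| ≤ 2 * T + 1 := by
        rw [abs_le]; constructor <;> linarith
      have e1 : 2 * Real.log (q * T) = Real.log ((q * T) ^ 2) := by
        rw [Real.log_pow]; push_cast; ring
      rw [e1]
      apply Real.log_le_log
      · have := abs_nonneg ((n : ℝ) + 1 / 2)
        positivity
      · have h4 : 2 * T + 1 + 3 ≤ T * T := by nlinarith
        calc q * (|(n : ℝ) + 1 / 2| + 3) ≤ q * (T * T) := by
              apply mul_le_mul_of_nonneg_left _ (by linarith)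
              linarith
          _ ≤ (q * q) * (T * T) := by
              apply mul_le_mul_of_nonneg_right _ (by positivity)
              nlinarith
          _ = _ := by ring
  refine (Finset.sum_le_sum hterm).trans ?_
  rw [Finset.sum_const, nsmul_eq_mul]
  have hcard : ((Finset.Icc (-⌈2 * T⌉) ⌊2 * T⌋).card : ℝ) ≤ 5 * T := by
    rw [Int.card_Icc]
    have h1 := Int.floor_le (2 * T)
    have h2 := (Int.ceil_lt_add_one (2 * T)).le
    have h3 : ((⌊2 * T⌋ + 1 - -⌈2 * T⌉).toNat : ℝ) = ((⌊2 * T⌋ + 1 - -⌈2 * T⌉ : ℤ) : ℝ) := by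
      have h4 : 0 ≤ ⌊2 * T⌋ + 1 - -⌈2 * T⌉ := by
        have h5 : 0 ≤ ⌊2 * T⌋ := Int.floor_nonneg.2 (by linarith)
        have h6 : 0 ≤ ⌈2 * T⌉ := Int.ceil_nonneg (by linarith)
        omega
      have h7 := Int.toNat_of_nonneg h4
      exact_mod_cast congrArg (fun z : ℤ => (z : ℝ)) h7
    rw [h3]
    push_cast
    linarith
  have hlog : 0 ≤ Real.log (q * T) := Real.log_nonneg (by linarith)
  calc ((Finset.Icc (-⌈2 * T⌉) ⌊2 * T⌋).card : ℝ) * (C * (2 * Real.log (q * T))) ≤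
      (5 * T) * (C * (2 * Real.log (q * T))) := by gcongr
    _ = _ := by ring

/-- the mean value on all vertical lines -/
theorem midq (h0 : S_SCU) (hD : LD k N ps lam L) :
    ∃ θ T0 C K : ℝ, 0 < θ ∧ θ ≤ 1 / 200 ∧ 10 ≤ T0 ∧ 0 < C ∧ 1 ≤ K ∧
    ∀ (q : ℕ) [NeZero q], q.Coprime N → ∀ (S : Finset (DirichletCharacter ℂ q)), (∀ χ ∈ S, χ.IsPrimitive) →
    ∀ (T lo hi : ℝ), Win T0 T lo hi →
    (∀ x : ℝ, 1 / 2 ≤ x → x ≤ 11 / 2 →
      ∑ χ ∈ S, ∫ t in lo..hi, ‖L q χ ((x : ℂ) + t * I) *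
        MM (yT θ (q * T)) (tl χ (bq ps lam θ (Real.log (q * T)) 0)) ((x : ℂ) + t * I) - 1‖ ≤
      C * (q.totient : ℝ) * T * Real.exp (-(θ / 8 * Real.log (q * T) * (x - 1 / 2)))) ∧
    (∀ χ ∈ S, ∀ s : ℂ, 5 / 4 ≤ s.re → ‖L q χ s *
        MM (yT θ (q * T)) (tl χ (bq ps lam θ (Real.log (q * T)) 0)) s - 1‖ ≤
      K * Real.exp (-((s.re - 5 / 4) * (θ / 2 * Real.log (q * T))))) := by
  obtain ⟨θ, T0, hθ, hθ1, hT0, hmv⟩ := mvq h0 hD.tw
  obtain ⟨C1, hC1, hmv⟩ := hmv θ hθ le_rfl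
  obtain ⟨th, Cd, hdat⟩ := Pool.Agent.Y771.GL.dat_of_frm hD.tw.frm
  obtain ⟨K, hK, hri⟩ := right_tl hdat
  refine ⟨θ, T0, C1 / 2 + 4 + 8 * K, K, hθ, hθ1, hT0, by positivity, hK, ?_⟩
  intro q _ hco S hS T lo hi hW
  have hTT0 := hW.le
  have hT10 : 10 ≤ T := hT0.trans hTT0
  have hTp : 0 < T := by linarith
  have hq1 : (1 : ℝ) ≤ q := by exact_mod_cast Nat.pos_of_ne_zero (NeZero.ne q)
  have hX10 : 10 ≤ q * T := by nlinarith
  have hlh : lo ≤ hi := hW.lh (by linarith)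
  have hlen : hi - lo ≤ 8 * T := by
    rcases hW with ⟨h1, h2, h3⟩ | ⟨h1, h2, h3⟩
    · rw [h2, h3]; linarith
    · rw [h2, h3, h1]; linarith
  have hL1 : 1 ≤ Real.log (q * T) := by
    rw [Real.le_log_iff_exp_le (by linarith)]
    have := Real.exp_one_lt_d9
    linarith
  set Lg := Real.log (q * T) with hLg
  have hcard := card_le S
  have hφ : (0 : ℝ) ≤ q.totient := by positivity
  have hright : ∀ χ ∈ S, ∀ s : ℂ, 5 / 4 ≤ s.re → ‖L q χ s *
        MM (yT θ (q * T)) (tl χ (bq ps lam θ Lg 0)) s - 1‖ ≤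
      K * Real.exp (-((s.re - 5 / 4) * (θ / 2 * Lg))) := by
    intro χ hχ s hs
    exact hri χ (L q χ) (hD.isL q χ (hS χ hχ) hco) θ (q * T) hθ (by linarith) s hs
  refine ⟨?_, hright⟩
  intro x hx1 hx2
  have hcont : ∀ χ ∈ S, Continuous fun t : ℝ => L q χ ((x : ℂ) + t * I) *
        MM (yT θ (q * T)) (tl χ (bq ps lam θ Lg 0)) ((x : ℂ) + t * I) - 1 := by
    intro χ hχ
    have hl : Continuous fun t : ℝ => ((x : ℂ) + t * I) := by fun_prop
    exact (((hD.isL q χ (hS χ hχ) hco).diff.continuous.comp hl).mul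
      (Pool.Agent.W131.SMV.MM_cont x _ _)).sub continuous_const
  rcases le_total x (3 / 2) with hx | hx
  · -- in the range of the mean square
    have h1 := hmv q hco S hS (L q) (fun χ hχ => hD.isL q χ (hS χ hχ) hco) T lo hi x hW hx1 hx
    rw [← hLg] at h1
    set a : ℝ := θ * (x - 1 / 2) * Lg / 2 with ha
    have hone : ∀ χ ∈ S, ∫ t in lo..hi, ‖L q χ ((x : ℂ) + t * I) *
        MM (yT θ (q * T)) (tl χ (bq ps lam θ Lg 0)) ((x : ℂ) + t * I) - 1‖ ≤
        Real.exp a / 2 * (∫ t in lo..hi, ‖L q χ ((x : ℂ) + t * I) *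
          MM (yT θ (q * T)) (tl χ (bq ps lam θ Lg 0)) ((x : ℂ) + t * I) - 1‖ ^ 2) +
          Real.exp (-a) / 2 * (8 * T) := by
      intro χ hχ
      have hc := hcont χ hχ
      have h2 : ∫ t in lo..hi, ‖L q χ ((x : ℂ) + t * I) *
        MM (yT θ (q * T)) (tl χ (bq ps lam θ Lg 0)) ((x : ℂ) + t * I) - 1‖ ≤
          ∫ t in lo..hi, (Real.exp a / 2 * ‖L q χ ((x : ℂ) + t * I) *
            MM (yT θ (q * T)) (tl χ (bq ps lam θ Lg 0)) ((x : ℂ) + t * I) - 1‖ ^ 2 + Real.exp (-a) / 2) := by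
        apply intervalIntegral.integral_mono_on hlh
        · exact hc.norm.intervalIntegrable _ _
        · exact ((continuous_const.mul (hc.norm.pow 2)).add continuous_const).intervalIntegrable _ _
        · intro t _
          set r := ‖L q χ ((x : ℂ) + t * I) *
            MM (yT θ (q * T)) (tl χ (bq ps lam θ Lg 0)) ((x : ℂ) + t * I) - 1‖ with hr
          have e1 : Real.exp a * Real.exp (-a) = 1 := by rw [← Real.exp_add]; simp
          have e2 := Real.exp_pos a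
          have e3 := Real.exp_pos (-a)
          have e4 : 0 ≤ Real.exp (-a) * (Real.exp a * r - 1) ^ 2 := by positivity
          have e5 : Real.exp (-a) * (Real.exp a * r - 1) ^ 2 =
              (Real.exp a * Real.exp (-a)) * (Real.exp a * r ^ 2) - 2 * (Real.exp a * Real.exp (-a)) * r +
                Real.exp (-a) := by ring
          rw [e5, e1] at e4
          linarith
      refine h2.trans ?_
      have i1 : IntervalIntegrable (fun t : ℝ => Real.exp a / 2 * ‖L q χ ((x : ℂ) + t * I) *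
            MM (yT θ (q * T)) (tl χ (bq ps lam θ Lg 0)) ((x : ℂ) + t * I) - 1‖ ^ 2) volume lo hi :=
        (continuous_const.mul (hc.norm.pow 2)).intervalIntegrable _ _
      have i2 : IntervalIntegrable (fun _ : ℝ => Real.exp (-a) / 2) volume lo hi :=
        continuous_const.intervalIntegrable _ _
      rw [intervalIntegral.integral_add i1 i2, intervalIntegral.integral_const_mul,
        intervalIntegral.integral_const, smul_eq_mul]
      have e3 : 0 ≤ Real.exp (-a) / 2 := by positivity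
      have := mul_le_mul_of_nonneg_right hlen e3
      linarith
    refine (Finset.sum_le_sum hone).trans ?_
    rw [Finset.sum_add_distrib, ← Finset.mul_sum, Finset.sum_const, nsmul_eq_mul]
    have e1 : Real.exp (-(θ * (x - 1 / 2) * Lg)) = Real.exp (-a) * Real.exp (-a) := by
      rw [← Real.exp_add]
      congr 1
      rw [ha]
      ring
    have e2 : Real.exp a * Real.exp (-a) = 1 := by rw [← Real.exp_add]; simp
    have e3 : Real.exp (-a) ≤ Real.exp (-(θ / 8 * Lg * (x - 1 / 2))) := by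
      apply Real.exp_le_exp.mpr
      rw [ha]
      have : 0 ≤ θ * (x - 1 / 2) * Lg := mul_nonneg (mul_nonneg hθ.le (by linarith)) (by linarith)
      nlinarith
    calc Real.exp a / 2 * (∑ χ ∈ S, ∫ t in lo..hi, ‖L q χ ((x : ℂ) + t * I) *
          MM (yT θ (q * T)) (tl χ (bq ps lam θ Lg 0)) ((x : ℂ) + t * I) - 1‖ ^ 2) +
          S.card * (Real.exp (-a) / 2 * (8 * T)) ≤
        Real.exp a / 2 * (C1 * (q.totient : ℝ) * T * (Real.exp (-a) * Real.exp (-a))) +
          (q.totient : ℝ) * (Real.exp (-a) / 2 * (8 * T)) := by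
          rw [← e1]
          gcongr
      _ = (Real.exp a * Real.exp (-a)) * (C1 / 2 * (q.totient : ℝ) * T * Real.exp (-a)) +
          4 * (q.totient : ℝ) * T * Real.exp (-a) := by ring
      _ = (C1 / 2 + 4) * (q.totient : ℝ) * T * Real.exp (-a) := by rw [e2]; ring
      _ ≤ (C1 / 2 + 4 + 8 * K) * (q.totient : ℝ) * T * Real.exp (-(θ / 8 * Lg * (x - 1 / 2))) := by
          have : C1 / 2 + 4 ≤ C1 / 2 + 4 + 8 * K := by linarith
          gcongr
  · -- to the right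
    have hone : ∀ χ ∈ S, ∫ t in lo..hi, ‖L q χ ((x : ℂ) + t * I) *
        MM (yT θ (q * T)) (tl χ (bq ps lam θ Lg 0)) ((x : ℂ) + t * I) - 1‖ ≤
        8 * T * (K * Real.exp (-(θ / 8 * Lg * (x - 1 / 2)))) := by
      intro χ hχ
      have hc := hcont χ hχ
      have h2 : ∫ t in lo..hi, ‖L q χ ((x : ℂ) + t * I) *
        MM (yT θ (q * T)) (tl χ (bq ps lam θ Lg 0)) ((x : ℂ) + t * I) - 1‖ ≤
          ∫ t in lo..hi, (K * Real.exp (-(θ / 8 * Lg * (x - 1 / 2)))) := by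
        apply intervalIntegral.integral_mono_on hlh
        · exact hc.norm.intervalIntegrable _ _
        · exact continuous_const.intervalIntegrable _ _
        · intro t _
          have hre : ((x : ℂ) + t * I).re = x := by simp
          have h3 := hright χ hχ ((x : ℂ) + t * I) (by rw [hre]; linarith)
          rw [hre] at h3
          refine h3.trans ?_
          apply mul_le_mul_of_nonneg_left _ (by linarith)
          apply Real.exp_le_exp.mpr
          have h4 : 0 ≤ θ * Lg := mul_nonneg hθ.le (by linarith)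
          have h5 : 0 ≤ (θ * Lg) * (3 * x - 9 / 2) := mul_nonneg h4 (by linarith)
          nlinarith
      refine h2.trans ?_
      rw [intervalIntegral.integral_const, smul_eq_mul]
      apply mul_le_mul_of_nonneg_right hlen
      have := Real.exp_pos (-(θ / 8 * Lg * (x - 1 / 2)))
      positivity
    refine (Finset.sum_le_sum hone).trans ?_
    rw [Finset.sum_const, nsmul_eq_mul]
    have e1 := Real.exp_pos (-(θ / 8 * Lg * (x - 1 / 2)))
    calc (S.card : ℝ) * (8 * T * (K * Real.exp (-(θ / 8 * Lg * (x - 1 / 2))))) ≤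
        (q.totient : ℝ) * (8 * T * (K * Real.exp (-(θ / 8 * Lg * (x - 1 / 2))))) := by gcongr
      _ = (8 * K) * (q.totient : ℝ) * T * Real.exp (-(θ / 8 * Lg * (x - 1 / 2))) := by ring
      _ ≤ _ := by
          have : 8 * K ≤ C1 / 2 + 4 + 8 * K := by linarith
          gcongr

/-- **Zeros in a window, all primitive characters.** -/
theorem winq (h0 : S_SCU) (hD : LD k N ps lam L) :
    ∃ c C T0 : ℝ, 0 < c ∧ c ≤ 1 ∧ 0 < C ∧ 10 ≤ T0 ∧ ∀ (q : ℕ) [NeZero q], q.Coprime N →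
    ∀ (S : Finset (DirichletCharacter ℂ q)), (∀ χ ∈ S, χ.IsPrimitive) →
    ∀ (T u v σ : ℝ), ((T0 ≤ T ∧ u = T ∧ v = 2 * T) ∨ (T = T0 ∧ u = -T0 ∧ v = T0)) → 1 / 2 ≤ σ → σ ≤ 1 →
    ∀ Z : DirichletCharacter ℂ q → Finset ℂ,
    (∀ χ ∈ S, ∀ ρ ∈ Z χ, σ ≤ ρ.re ∧ ρ.re ≤ 1 ∧ u ≤ ρ.im ∧ ρ.im ≤ v) →
    ∑ χ ∈ S, ∑ ρ ∈ Z χ, (analyticOrderNatAt (L q χ) ρ : ℝ) ≤
      C * (q.totient : ℝ) * T * Real.log (q * T) * Real.exp (-(c * (σ - 1 / 2) * Real.log (q * T))) := by
  obtain ⟨θ, T0, C1, K, hθ, hθ1, hT0, hC1, hK, hmid⟩ := midq h0 hD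
  obtain ⟨C2, hC2, htot⟩ := tot_win hD
  -- the size of `log (q T)` beyond which the main argument works
  set L1 : ℝ := 2 * K ^ 2 / θ with hL1
  have hL1p : 0 < L1 := by positivity
  set C3 : ℝ := 7 / 2 * (2 * (C1 * Real.exp (θ / 8) * Real.sqrt (4 * Real.pi / θ)) + 3 * (2 * (K ^ 2 / θ))) with hC3
  have hC3p : 0 < C3 := by
    have := Real.pi_pos
    positivity
  refine ⟨θ / 8, C2 * Real.exp (1 + L1) + C3, T0, by positivity, by linarith, by positivity, hT0, ?_⟩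
  intro q _ hco S hS T u v σ hW hσ1 hσ2 Z hZ
  have hTT0 : T0 ≤ T := by
    rcases hW with h | h
    · exact h.1
    · exact h.1.ge
  have hT10 : 10 ≤ T := hT0.trans hTT0
  have hTp : 0 < T := by linarith
  have hq1 : (1 : ℝ) ≤ q := by exact_mod_cast Nat.pos_of_ne_zero (NeZero.ne q)
  have hX10 : 10 ≤ q * T := by nlinarith
  have hLg1 : 1 ≤ Real.log (q * T) := by
    rw [Real.le_log_iff_exp_le (by linarith)]
    have := Real.exp_one_lt_d9
    linarith
  set Lg := Real.log (q * T) with hLg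
  have hLg0 : 0 < Lg := by linarith
  have hcard := card_le S
  have hφ : (0 : ℝ) ≤ q.totient := by positivity
  have hpi := Real.pi_pos
  -- the trivial bound
  have htriv : ∑ χ ∈ S, ∑ ρ ∈ Z χ, (analyticOrderNatAt (L q χ) ρ : ℝ) ≤ C2 * (q.totient : ℝ) * T * Lg := by
    have h1 : ∀ χ ∈ S, ∑ ρ ∈ Z χ, (analyticOrderNatAt (L q χ) ρ : ℝ) ≤ C2 * T * Lg := by
      intro χ hχ
      refine htot q χ (hS χ hχ) hco T (Z χ) hT10 fun ρ hρ => ?_
      obtain ⟨a1, a2, a3, a4⟩ := hZ χ hχ ρ hρ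
      refine ⟨by linarith, a2, ?_⟩
      rw [abs_le]
      rcases hW with ⟨w1, w2, w3⟩ | ⟨w1, w2, w3⟩
      · constructor <;> linarith
      · constructor <;> linarith
    refine (Finset.sum_le_sum h1).trans ?_
    rw [Finset.sum_const, nsmul_eq_mul]
    calc (S.card : ℝ) * (C2 * T * Lg) ≤ (q.totient : ℝ) * (C2 * T * Lg) := by gcongr
      _ = _ := by ring
  by_cases hcase : (σ - 1 / 2) * Lg ≤ 1 ∨ Lg ≤ L1
  · refine htriv.trans ?_
    have h1 : θ / 8 * (σ - 1 / 2) * Lg ≤ 1 + L1 := by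
      have h2 : (σ - 1 / 2) * Lg ≤ 1 + L1 := by
        rcases hcase with h | h
        · linarith
        · have : (σ - 1 / 2) * Lg ≤ 1 * Lg := mul_le_mul_of_nonneg_right (by linarith) hLg0.le
          linarith
      have h3 : 0 ≤ (σ - 1 / 2) * Lg := mul_nonneg (by linarith) hLg0.le
      calc θ / 8 * (σ - 1 / 2) * Lg = θ / 8 * ((σ - 1 / 2) * Lg) := by ring
        _ ≤ 1 * ((σ - 1 / 2) * Lg) := mul_le_mul_of_nonneg_right (by linarith) h3
        _ ≤ _ := by linarith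
    have h4 : 1 ≤ Real.exp (1 + L1) * Real.exp (-(θ / 8 * (σ - 1 / 2) * Lg)) := by
      rw [← Real.exp_add]
      exact Real.one_le_exp (by linarith)
    have h5 := Real.exp_pos (-(θ / 8 * (σ - 1 / 2) * Lg))
    calc C2 * (q.totient : ℝ) * T * Lg ≤ (C2 * (q.totient : ℝ) * T * Lg) *
          (Real.exp (1 + L1) * Real.exp (-(θ / 8 * (σ - 1 / 2) * Lg))) := by
            apply le_mul_of_one_le_right _ h4
            positivity
      _ = C2 * Real.exp (1 + L1) * (q.totient : ℝ) * T * Lg * Real.exp (-(θ / 8 * (σ - 1 / 2) * Lg)) := by ring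
      _ ≤ _ := by
          gcongr
          linarith
  · push Not at hcase
    obtain ⟨hc1, hc2⟩ := hcase
    set σ' := σ - 1 / Lg with hσ'
    have hinv : 1 / Lg ≤ σ - 1 / 2 := by rw [div_le_iff₀ hLg0]; exact hc1.le
    have hinv0 : 0 < 1 / Lg := by positivity
    -- the window
    obtain ⟨lo, hi, hWin, hu, hv⟩ : ∃ lo hi : ℝ, Win T0 T lo hi ∧ lo + 5 ≤ u ∧ v ≤ hi - 5 := by
      rcases hW with ⟨w1, w2, w3⟩ | ⟨w1, w2, w3⟩
      · exact ⟨T / 4, 4 * T, Or.inl ⟨w1, rfl, rfl⟩, by linarith, by linarith⟩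
      · exact ⟨-(4 * T0), 4 * T0, Or.inr ⟨w1, rfl, rfl⟩, by linarith, by linarith⟩
    have huv : u ≤ v ∧ v - u + 2 ≤ 3 * T := by
      rcases hW with ⟨w1, w2, w3⟩ | ⟨w1, w2, w3⟩
      · constructor <;> linarith
      · constructor <;> linarith
    obtain ⟨hm1, hm2⟩ := hmid q hco S hS T lo hi hWin
    rw [← hLg] at hm1 hm2
    set μ := θ / 8 * Lg with hμ
    have hμ0 : 0 < μ := by positivity
    set E0 := K * Real.exp (-(7 / 8 * θ * Lg)) with hE0
    have hE02 : E0 ^ 2 = K ^ 2 * Real.exp (-(7 / 4 * θ * Lg)) := by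
      rw [hE0, mul_pow, ← Real.exp_nat_mul]
      congr 2
      push_cast
      ring
    have hexp1 : Real.exp (-(θ * Lg)) ≤ 1 / (θ * Lg) := by
      rw [Real.exp_neg, ← one_div]
      apply one_div_le_one_div_of_le (by positivity)
      have := Real.add_one_le_exp (θ * Lg)
      linarith
    have hsmall : E0 ^ 2 ≤ 1 / 2 := by
      rw [hE02]
      have h1 : Real.exp (-(7 / 4 * θ * Lg)) ≤ Real.exp (-(θ * Lg)) := by
        apply Real.exp_le_exp.mpr
        nlinarith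
      have h2 : K ^ 2 * (1 / (θ * Lg)) ≤ 1 / 2 := by
        rw [mul_one_div, div_le_iff₀ (by positivity)]
        have h3 : 2 * K ^ 2 ≤ θ * Lg := by
          have h4 : 2 * K ^ 2 / θ ≤ Lg := hc2.le
          rw [div_le_iff₀ hθ] at h4
          linarith
        linarith
      exact (mul_le_mul_of_nonneg_left (h1.trans hexp1) (sq_nonneg K)).trans h2
    have hJ := jen_win (F := L q) (P := fun χ => MM (yT θ (q * T)) (tl χ (bq ps lam θ Lg 0))) (lo := lo) (hi := hi)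
      S (fun χ hχ => (hD.isL q χ (hS χ hχ) hco).diff)
      (fun χ _ => by
        unfold Pool.Agent.H24R2.DZ.MM
        refine Differentiable.fun_sum fun h hh => ?_
        have h1 : (h : ℂ) ≠ 0 := by
          have := (Finset.mem_Icc.mp hh).1
          exact_mod_cast (by omega : h ≠ 0)
        exact (differentiable_neg.const_cpow (Or.inl h1)).const_mul _)
      (A := C1 * (q.totient : ℝ) * T) (μ := μ) (E0 := E0) (L := Lg) (σ := σ') (u := u) (v := v)
      (by positivity) hμ0 hm1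
      (fun χ hχ s hs => by
        have h1 := hm2 χ hχ s (by rw [hs]; norm_num)
        rw [hs] at h1
        refine h1.trans (le_of_eq ?_)
        rw [hE0]
        congr 2
        ring) hsmall hLg1 (by rw [hσ']; linarith) (by rw [hσ']; linarith) huv.1 hu hv Z
      (fun χ hχ ρ hρ => by
        obtain ⟨a1, a2, a3, a4⟩ := hZ χ hχ ρ hρ
        refine ⟨?_, a2, a3, a4⟩
        rw [hσ']
        linarith)
    set Nn := ∑ χ ∈ S, ∑ ρ ∈ Z χ, (analyticOrderNatAt (L q χ) ρ : ℝ) with hNn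
    set E := Real.exp (-(θ / 8 * (σ - 1 / 2) * Lg)) with hE
    have hEp : 0 < E := Real.exp_pos _
    have hsqL : 0 < Real.sqrt Lg := Real.sqrt_pos.mpr hLg0
    have hE1 : Real.exp (-(μ * (σ' - 1 / 2))) = E * Real.exp (θ / 8) := by
      rw [hE, ← Real.exp_add]
      congr 1
      rw [hμ, hσ']
      field_simp
      ring
    have hsq : Real.sqrt (Real.pi / (μ * (3 - σ'))) ≤ Real.sqrt (4 * Real.pi / θ) / Real.sqrt Lg := by
      rw [← Real.sqrt_div (by positivity)]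
      apply Real.sqrt_le_sqrt
      rw [div_div]
      have h1 : θ * Lg / 4 ≤ μ * (3 - σ') := by
        have h2 : 2 ≤ 3 - σ' := by rw [hσ']; linarith
        calc θ * Lg / 4 = μ * 2 := by rw [hμ]; ring
          _ ≤ _ := mul_le_mul_of_nonneg_left h2 hμ0.le
      calc Real.pi / (μ * (3 - σ')) ≤ Real.pi / (θ * Lg / 4) := by gcongr
        _ = _ := by field_simp
    have hE0b : E0 ^ 2 ≤ (K ^ 2 / θ) * (E / Real.sqrt Lg) := by
      rw [hE02]
      have h1 : Real.exp (-(7 / 4 * θ * Lg)) ≤ E * Real.exp (-(θ * Lg)) := by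
        rw [hE, ← Real.exp_add]
        apply Real.exp_le_exp.mpr
        have h2 : θ / 8 * (σ - 1 / 2) * Lg ≤ θ / 8 * 1 * Lg := by
          have : σ - 1 / 2 ≤ 1 := by linarith
          gcongr
        have h3 : 0 < θ * Lg := by positivity
        linarith
      have h2 : 1 / (θ * Lg) ≤ 1 / θ * (1 / Real.sqrt Lg) := by
        rw [← one_div_mul_one_div]
        apply mul_le_mul_of_nonneg_left _ (by positivity)
        apply one_div_le_one_div_of_le hsqL
        rw [Real.sqrt_le_left hLg0.le]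
        nlinarith
      calc K ^ 2 * Real.exp (-(7 / 4 * θ * Lg)) ≤ K ^ 2 * (E * (1 / θ * (1 / Real.sqrt Lg))) := by
            apply mul_le_mul_of_nonneg_left _ (sq_nonneg K)
            exact h1.trans (mul_le_mul_of_nonneg_left (hexp1.trans h2) hEp.le)
        _ = _ := by ring
    have hmain : Nn * (2 / (7 * (Lg * Real.sqrt Lg))) ≤
        (C1 * (q.totient : ℝ) * T * Real.exp (θ / 8) * Real.sqrt (4 * Real.pi / θ) * 2 +
          3 * T * ((q.totient : ℝ) * (2 * (K ^ 2 / θ)))) * (E / Real.sqrt Lg) := by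
      refine hJ.trans ?_
      rw [hE1]
      calc 2 * (C1 * (q.totient : ℝ) * T * (E * Real.exp (θ / 8)) * Real.sqrt (Real.pi / (μ * (3 - σ')))) +
          (v - u + 2) * ((S.card : ℝ) * (2 * E0 ^ 2))
          ≤ 2 * (C1 * (q.totient : ℝ) * T * (E * Real.exp (θ / 8)) *
              (Real.sqrt (4 * Real.pi / θ) / Real.sqrt Lg)) +
            (3 * T) * ((q.totient : ℝ) * (2 * ((K ^ 2 / θ) * (E / Real.sqrt Lg)))) := by
            have hb := huv.2
            gcongr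
        _ = _ := by ring
    have h4 : 0 < 2 / (7 * (Lg * Real.sqrt Lg)) := by positivity
    rw [← le_div_iff₀ h4] at hmain
    calc Nn ≤ _ := hmain
      _ = C3 * (q.totient : ℝ) * T * Lg * E := by
          rw [hC3]
          field_simp
      _ ≤ _ := by
          have h5 : 0 ≤ C2 * Real.exp (1 + L1) := by positivity
          gcongr
          linarith

end Pool.Agent.K9h29.ZD
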